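import Pool.Agent.NH54.MG.Stm

set_option autoImplicit false

namespace Pool.Agent.NH54.MG

namespace BIG

/-- all letters are small -/
def Sm (m : ℕ) (L : List (ℤ × Bool)) : Prop := ∀ x ∈ L, x.1.natAbs < m

lemma le_foldr (L : List (ℤ × Bool)) : ∀ x ∈ L, x.1.natAbs ≤ (L.map (fun x => x.1.natAbs)).foldr max 0 := by
  induction L with
  | nil => intro x hx; simp at hx
  | cons a L ih =>
    intro x hx
    rw [List.map_cons, List.foldr_cons]
    rcases List.mem_cons.1 hx with rfl | h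
    · exact le_max_left _ _
    · exact (ih x h).trans (le_max_right _ _)

lemma sm_of {m : ℕ} {u : N} (h : mN u < m) : Sm m u.toWord := fun x hx =>
  lt_of_le_of_lt (le_foldr _ x hx) h

lemma ex_big {m : ℕ} (hm : 0 < m) (L : List (ℤ × Bool))
    (h : m ≤ (L.map (fun x => x.1.natAbs)).foldr max 0) : ∃ x ∈ L, m ≤ x.1.natAbs := by
  induction L with
  | nil => simp at h; omega
  | cons a L ih =>
    rw [List.map_cons, List.foldr_cons] at h
    rcases le_max_iff.1 h with h | h
    · exact ⟨a, List.mem_cons_self, h⟩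
    · obtain ⟨x, hx, hx'⟩ := ih h
      exact ⟨x, List.mem_cons_of_mem _ hx, hx'⟩

/-- a list with a big letter splits at the first big letter -/
lemma split_first {m : ℕ} (L : List (ℤ × Bool)) (h : ∃ x ∈ L, m ≤ x.1.natAbs) :
    ∃ (L0 : List (ℤ × Bool)) (b : ℤ × Bool) (L2 : List (ℤ × Bool)), L = L0 ++ b :: L2 ∧ Sm m L0 ∧
      m ≤ b.1.natAbs := by
  induction L with
  | nil => obtain ⟨x, hx, -⟩ := h; simp at hx
  | cons a L ih =>
    rcases lt_or_ge a.1.natAbs m with ha | ha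
    · obtain ⟨L0, b, L2, h1, h2, h3⟩ := ih (by
        obtain ⟨x, hx, hx'⟩ := h
        rcases List.mem_cons.1 hx with rfl | hx
        · omega
        · exact ⟨x, hx, hx'⟩)
      refine ⟨a :: L0, b, L2, by rw [h1, List.cons_append], ?_, h3⟩
      intro x hx
      rcases List.mem_cons.1 hx with rfl | hx
      · exact ha
      · exact h2 x hx
    · exact ⟨[], a, L, rfl, fun x hx => by simp at hx, ha⟩

/-- and at the last big letter -/
lemma split_last {m : ℕ} (L : List (ℤ × Bool)) (h : ∃ x ∈ L, m ≤ x.1.natAbs) :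
    ∃ (L0 : List (ℤ × Bool)) (b : ℤ × Bool) (L2 : List (ℤ × Bool)), L = (L0 ++ [b]) ++ L2 ∧ Sm m L2 ∧
      m ≤ b.1.natAbs := by
  obtain ⟨L0, b, L2, h1, h2, h3⟩ := split_first (m := m) L.reverse (by
    obtain ⟨x, hx, hx'⟩ := h
    exact ⟨x, List.mem_reverse.2 hx, hx'⟩)
  refine ⟨L2.reverse, b, L0.reverse, ?_, fun x hx => h2 x (List.mem_reverse.1 hx), h3⟩
  have := congrArg List.reverse h1
  rw [List.reverse_reverse, List.reverse_append, List.reverse_cons] at this
  exact this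

lemma take_eq {m : ℕ} {L0 : List (ℤ × Bool)} {b : ℤ × Bool} {L2 : List (ℤ × Bool)} (h : Sm m L0)
    (hb : m ≤ b.1.natAbs) :
    (L0 ++ b :: L2).takeWhile (fun x => decide (x.1.natAbs < m)) = L0 ∧
    (L0 ++ b :: L2).dropWhile (fun x => decide (x.1.natAbs < m)) = b :: L2 := by
  induction L0 with
  | nil =>
    have : ¬ b.1.natAbs < m := by omega
    simp [this]
  | cons a L0 ih =>
    obtain ⟨h1, h2⟩ := ih fun x hx => h x (List.mem_cons_of_mem _ hx)
    have ha : a.1.natAbs < m := h a List.mem_cons_self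
    constructor
    · rw [List.cons_append, List.takeWhile_cons_of_pos (by simpa using ha), h1]
    · rw [List.cons_append, List.dropWhile_cons_of_pos (by simpa using ha), h2]

lemma take_app {m : ℕ} (L : List (ℤ × Bool)) (h : ∃ x ∈ L, m ≤ x.1.natAbs) (X : List (ℤ × Bool)) :
    (L ++ X).takeWhile (fun x => decide (x.1.natAbs < m)) =
      L.takeWhile (fun x => decide (x.1.natAbs < m)) ∧
    ((L ++ X).dropWhile (fun x => decide (x.1.natAbs < m))).head? =
      (L.dropWhile (fun x => decide (x.1.natAbs < m))).head? := by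
  obtain ⟨L0, b, L2, h1, h2, h3⟩ := split_first L h
  have e : L ++ X = L0 ++ b :: (L2 ++ X) := by rw [h1]; simp
  rw [e, h1, (take_eq h2 h3).1, (take_eq h2 h3).1, (take_eq h2 h3).2, (take_eq h2 h3).2]
  exact ⟨rfl, rfl⟩

lemma red_sm {m : ℕ} {L : List (ℤ × Bool)} (h : Sm m L) : Sm m (FreeGroup.reduce L) := fun x hx =>
  h x ((FreeGroup.Red.sublist FreeGroup.reduce.red).subset hx)

lemma sm_app {m : ℕ} {L L' : List (ℤ × Bool)} (h : Sm m L) (h' : Sm m L') : Sm m (L ++ L') := by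
  intro x hx
  rcases List.mem_append.1 hx with h1 | h1
  · exact h x h1
  · exact h' x h1

lemma isRed_reduce (L : List (ℤ × Bool)) : FreeGroup.IsReduced (FreeGroup.reduce L) := by
  have := FreeGroup.isReduced_toWord (x := FreeGroup.mk L)
  rwa [FreeGroup.toWord_mk] at this

/-- the word of `u w` -/
lemma left_mul {m : ℕ} {u w : N} (hu : Sm m u.toWord) {L0 : List (ℤ × Bool)} {b : ℤ × Bool}
    {L2 : List (ℤ × Bool)} (h : w.toWord = L0 ++ b :: L2) (h0 : Sm m L0) (hb : m ≤ b.1.natAbs) :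
    (u * w).toWord = FreeGroup.reduce (u.toWord ++ L0) ++ b :: L2 := by
  have hw : FreeGroup.IsReduced (L0 ++ b :: L2) := h ▸ FreeGroup.isReduced_toWord
  have hR : FreeGroup.IsReduced (FreeGroup.reduce (u.toWord ++ L0) ++ b :: L2) := by
    unfold FreeGroup.IsReduced at hw ⊢
    rw [List.isChain_append] at hw ⊢
    refine ⟨isRed_reduce _, hw.2.1, fun x hx y hy hxy => ?_⟩
    exfalso
    have h1 : x.1.natAbs < m := red_sm (sm_app hu h0) x (List.mem_of_getLast? hx)
    have h2 : y = b := by simpa using hy.symm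
    rw [h2] at hxy
    rw [hxy] at h1
    omega
  have e : u * w = FreeGroup.mk (FreeGroup.reduce (u.toWord ++ L0) ++ b :: L2) := by
    rw [← FreeGroup.mul_mk, ← FreeGroup.toWord_mk, FreeGroup.mk_toWord, ← FreeGroup.mul_mk,
      FreeGroup.mk_toWord, mul_assoc, FreeGroup.mul_mk, ← h, FreeGroup.mk_toWord]
  rw [e, FreeGroup.toWord_mk, hR.reduce_eq]

/-- the word of `w u` -/
lemma right_mul {m : ℕ} {u w : N} (hu : Sm m u.toWord) {L0 : List (ℤ × Bool)} {b : ℤ × Bool}
    {L2 : List (ℤ × Bool)} (h : w.toWord = (L0 ++ [b]) ++ L2) (h0 : Sm m L2)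
    (hb : m ≤ b.1.natAbs) :
    (w * u).toWord = (L0 ++ [b]) ++ FreeGroup.reduce (L2 ++ u.toWord) := by
  have hw : FreeGroup.IsReduced ((L0 ++ [b]) ++ L2) := h ▸ FreeGroup.isReduced_toWord
  have hR : FreeGroup.IsReduced ((L0 ++ [b]) ++ FreeGroup.reduce (L2 ++ u.toWord)) := by
    unfold FreeGroup.IsReduced at hw ⊢
    rw [List.isChain_append] at hw ⊢
    refine ⟨hw.1, isRed_reduce _, fun x hx y hy hxy => ?_⟩
    exfalso
    have h1 : y.1.natAbs < m := red_sm (sm_app h0 hu) y (List.mem_of_head? hy)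
    have h2 : x = b := by simpa using hx.symm
    rw [h2] at hxy
    rw [← hxy] at h1
    omega
  have e : w * u = FreeGroup.mk ((L0 ++ [b]) ++ FreeGroup.reduce (L2 ++ u.toWord)) := by
    rw [← FreeGroup.mul_mk, ← FreeGroup.toWord_mk (L₁ := L2 ++ u.toWord), FreeGroup.mk_toWord,
      ← FreeGroup.mul_mk (L₁ := L2), FreeGroup.mk_toWord, ← mul_assoc, FreeGroup.mul_mk, ← h,
      FreeGroup.mk_toWord]
  rw [e, FreeGroup.toWord_mk, hR.reduce_eq]

end BIG

open BIG in
theorem t_BIG : S_BIG := by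
  intro m u w u' hu hu' hw
  have hm : 0 < m := by omega
  have hsu := sm_of hu
  have hsu' := sm_of hu'
  obtain ⟨L0, b, L2, h1, h2, h3⟩ := split_first w.toWord (ex_big hm _ hw)
  have hA := left_mul hsu h1 h2 h3
  -- multiplication on the left
  have hA1 : bpre m (u * w) = u * bpre m w ∧ bhd m (u * w) = bhd m w := by
    unfold bpre bhd
    rw [hA, h1, (take_eq (red_sm (sm_app hsu h2)) h3).1, (take_eq (red_sm (sm_app hsu h2)) h3).2,
      (take_eq h2 h3).1, (take_eq h2 h3).2]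
    refine ⟨?_, rfl⟩
    rw [← FreeGroup.toWord_mk, FreeGroup.mk_toWord, ← FreeGroup.mul_mk, FreeGroup.mk_toWord]
  -- multiplication on the right
  have hbig : ∃ x ∈ (u * w).toWord, m ≤ x.1.natAbs := by
    rw [hA]
    exact ⟨b, by simp, h3⟩
  obtain ⟨M0, c, M2, g1, g2, g3⟩ := split_last (u * w).toWord hbig
  have hB := right_mul hsu' g1 g2 g3
  have hex : ∃ x ∈ M0 ++ [c], m ≤ x.1.natAbs := ⟨c, by simp, g3⟩
  have hB1 : bpre m (u * w * u') = bpre m (u * w) ∧ bhd m (u * w * u') = bhd m (u * w) := by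
    unfold bpre bhd
    rw [hB, g1, (take_app _ hex _).1, (take_app _ hex _).1, (take_app _ hex _).2,
      (take_app _ hex _).2]
    exact ⟨rfl, rfl⟩
  exact ⟨hB1.1.trans hA1.1, hB1.2.trans hA1.2⟩

end Pool.Agent.NH54.MG
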