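import Pool.Agent.NH54.MG.Stm

/-!
# MG-CASEA: offsets of large type
-/

set_option autoImplicit false

open Set Filter Topology HNNExtension HNNExtension.NormalWord

namespace Pool.Agent.NH54.MG

namespace CASEA

variable {P : Par}

/-- the element of `C` which belongs to an offset -/
theorem exists_x {ε : ℤˣ} {c : K} (h : c ∈ toSubgroup P.CK P.CK' (-ε)) :
    ∃ x ∈ P.CN, (ε = -1 → c = jN x ∧ cp P ε c = jN (P.Th x)) ∧
      (ε = 1 → c = jN (P.Th x) ∧ cp P ε c = jN x) := by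
  rcases Int.units_eq_one_or ε with h1 | h1
  · subst h1
    rw [toSubgroup_neg_one] at h
    obtain ⟨z, hz, rfl⟩ := Subgroup.mem_map.1 h
    obtain ⟨x, hx, rfl⟩ := Subgroup.mem_map.1 hz
    refine ⟨x, hx, fun h => absurd h (by decide), fun _ => ⟨rfl, ?_⟩⟩
    unfold cp
    rw [if_neg (by decide)]
    show jN (P.Th.symm (P.Th x)) = jN x
    rw [MulEquiv.symm_apply_apply]
  · subst h1
    rw [neg_neg, toSubgroup_one] at h
    obtain ⟨x, hx, rfl⟩ := Subgroup.mem_map.1 h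
    refine ⟨x, hx, fun _ => ⟨rfl, ?_⟩, fun h => absurd h (by decide)⟩
    unfold cp
    rw [if_pos rfl]
    rfl

theorem mem_CK {x : N} (h : x ∈ P.CN) : jN x ∈ P.CK := Subgroup.mem_map.2 ⟨x, h, rfl⟩

theorem mem_CK' {x : N} (h : x ∈ P.CN') : jN x ∈ P.CK' := Subgroup.mem_map.2 ⟨x, h, rfl⟩

theorem mem_CN' {x : N} (h : x ∈ P.CN) : P.Th x ∈ P.CN' := Subgroup.mem_map.2 ⟨x, h, rfl⟩

/-- short elements have small letters -/
theorem eight (h5 : S_FLOW) {n : ℕ} {k : K} (h : 8 * wl P.S (of k : P.G) < P.F n) :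
    8 * mK k < 4 ^ P.a n := by
  rcases h5 P n k with h1 | h1
  · omega
  · by_contra hc
    push Not at hc
    have hpos : 0 < 4 ^ P.a n := by positivity
    have h2 : P.F n * (8 * mK k) ≤ 4 ^ P.a n * (8 * wl P.S (of k : P.G)) := by
      calc P.F n * (8 * mK k) = 8 * (P.F n * mK k) := by ring
        _ ≤ 8 * (4 ^ P.a n * wl P.S (of k : P.G)) := Nat.mul_le_mul_left _ h1
        _ = _ := by ring
    have h3 : P.F n * 4 ^ P.a n ≤ P.F n * (8 * mK k) := Nat.mul_le_mul_left _ hc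
    have h4 : 4 ^ P.a n * (8 * wl P.S (of k : P.G)) < 4 ^ P.a n * P.F n :=
      Nat.mul_lt_mul_of_pos_left h hpos
    rw [mul_comm (4 ^ P.a n) (P.F n)] at h4
    omega

/-- very short elements have very small letters -/
theorem small (h5 : S_FLOW) {n : ℕ} {k : K} (h : wl P.S (of k : P.G) < P.F n) :
    mK k < 4 ^ P.s (n + 1) := by
  rcases h5 P n k with h1 | h1
  · omega
  · by_contra hc
    push Not at hc
    have hpos : 0 < 4 ^ P.a n := by positivity
    have h0 : 4 ^ P.a n ≤ 4 ^ P.s (n + 1) := by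
      have := P.as n
      exact Nat.pow_le_pow_right (by norm_num) (by omega)
    have h3 : P.F n * 4 ^ P.a n ≤ P.F n * mK k := Nat.mul_le_mul_left _ (h0.trans hc)
    have h4 : 4 ^ P.a n * wl P.S (of k : P.G) < 4 ^ P.a n * P.F n :=
      Nat.mul_lt_mul_of_pos_left h hpos
    rw [mul_comm (4 ^ P.a n) (P.F n)] at h4
    omega

theorem sa_pow (P : Par) (n : ℕ) : 4 ^ P.s n ≤ 4 ^ P.a n :=
  Nat.pow_le_pow_right (by norm_num) (P.sa n).le

/-- the type of `x` and of `Th x` -/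
theorem type_of (h4 : S_TOP) {n : ℕ} {x : N} (hx : x ∈ P.CN)
    (h : (4 ^ P.a n ≤ mN x ∧ mN x < 4 ^ P.s (n + 1)) ∨
      (4 ^ P.a n ≤ mN (P.Th x) ∧ mN (P.Th x) < 4 ^ P.s (n + 1))) :
    4 ^ P.a n ≤ mN x ∧ mN x < 4 ^ P.s (n + 1) ∧ 4 ^ P.a n ≤ mN (P.Th x) := by
  have e1 := (h4 P x hx).2 n
  have e2 := (h4 P x hx).2 (n + 1)
  have e3 := sa_pow P n
  have e4 := sa_pow P (n + 1)
  rcases h with ⟨h1, h2⟩ | ⟨h1, h2⟩
  · rcases e1 with e1 | e1
    · exact ⟨h1, h2, e1.2⟩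
    · omega
  · rcases e1 with e1 | e1
    · rcases e2 with e2 | e2
      · omega
      · exact ⟨e1.1, e2.1, h1⟩
    · omega

end CASEA

open CASEA

/-- offsets of large type -/
theorem t_CASEA (_h1 : S_WL) (_h2 : S_GEN) (h3 : S_SUB) (h4 : S_TOP) (h5 : S_FLOW) (h6 : S_IDX)
    (h7 : S_KEY) (h8 : S_KN) : S_CASEA := by
  intro P κ
  refine ⟨κ + 1, fun n hn ε a a' c hp ha hc1 hc2 => ?_⟩
  by_contra hcon
  push Not at hcon
  obtain ⟨n', rfl⟩ : ∃ n', n = n' + 1 := ⟨n - 1, by omega⟩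
  have hF1 : 8 * κ < P.F (n' + 1) := by
    have := P.Fq (n' + 1)
    have hq := P.q2 (n' + 1)
    nlinarith
  have hF0 : κ < P.F n' := by
    have := P.Fq n'
    have hq := P.q2 n'
    nlinarith
  -- the offsets
  have hx : ∀ i, ∃ x : N, i ≤ P.q (n' + 1) + 1 → x ∈ P.CN ∧
      (ε i = -1 → c i = jN x ∧ cp P (ε i) (c i) = jN (P.Th x)) ∧
      (ε i = 1 → c i = jN (P.Th x) ∧ cp P (ε i) (c i) = jN x) := by
    intro i
    by_cases hi : i ≤ P.q (n' + 1) + 1
    · obtain ⟨x, h, h'⟩ := exists_x (hp.mem i hi)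
      exact ⟨x, fun _ => ⟨h, h'⟩⟩
    · exact ⟨1, fun h => absurd h hi⟩
  choose x hx using hx
  -- the claim
  have key : ∃ j₀ : ℕ, ∀ i ≤ P.q (n' + 1), ε i = ε 0 ∧ ∃ j : ℕ, Id P (n' + 1) j (x i) ∧
      (ε 0 = -1 → j = j₀ + i) ∧ (ε 0 = 1 → j + i = j₀) := by
    have hx0 := hx 0 (by omega)
    have ht0 : 4 ^ P.a (n' + 1) ≤ mN (x 0) ∧ mN (x 0) < 4 ^ P.s (n' + 1 + 1) ∧
        4 ^ P.a (n' + 1) ≤ mN (P.Th (x 0)) := by
      apply type_of h4 hx0.1
      rcases Int.units_eq_one_or (ε 0) with h1 | h1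
      · right
        have e : (c 0).δ.u = P.Th (x 0) := by rw [(hx0.2.2 h1).1]; rfl
        rw [← e]
        exact ⟨hc1, hc2⟩
      · left
        have e : (c 0).δ.u = x 0 := by rw [(hx0.2.1 h1).1]; rfl
        rw [← e]
        exact ⟨hc1, hc2⟩
    obtain ⟨j₀, hj₀, -⟩ := h6 P (n' + 1) (x 0) hx0.1 ht0.1 ht0.2.1
    refine ⟨j₀, fun i => ?_⟩
    induction i with
    | zero => exact fun _ => ⟨rfl, j₀, hj₀, fun _ => rfl, fun _ => rfl⟩
    | succ i ih =>
      intro hi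
      obtain ⟨hε, j, hj, hj1, hj2⟩ := ih (by omega)
      have hxi := hx i (by omega)
      have hxs := hx (i + 1) (by omega)
      have hti := type_of h4 hxi.1 (Or.inl ⟨hj.2.1, hj.2.2.1⟩)
      have hturn := hp.turn i (by omega)
      have hai : wl P.S (of (a i) : P.G) ≤ κ := ha i (by omega)
      have m1 : 8 * mK (a i) < 4 ^ P.a (n' + 1) := eight h5 (by omega)
      have m2 : 8 * mK (a' i) < 4 ^ P.a (n' + 1) := eight h5 (hcon i (by omega))
      have m3 : mK (a i) < 4 ^ P.s (n' + 1) := small h5 (by omega)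
      -- the two elements of `N`
      obtain ⟨X, hX1, hX2, hX3, hX4⟩ : ∃ X : N, cp P (ε i) (c i) = jN X ∧ (X ∈ P.CN ∨ X ∈ P.CN') ∧
          4 ^ P.a (n' + 1) ≤ mN X ∧ ((ε i = -1 → X = P.Th (x i)) ∧ (ε i = 1 → X = x i)) := by
        rcases Int.units_eq_one_or (ε i) with h1 | h1
        · exact ⟨x i, (hxi.2.2 h1).2, Or.inl hxi.1, hti.1,
            fun h => absurd (h1.symm.trans h) (by decide), fun _ => rfl⟩
        · exact ⟨P.Th (x i), (hxi.2.1 h1).2, Or.inr (mem_CN' hxi.1), hti.2.2,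
            fun _ => rfl, fun h => absurd (h1.symm.trans h) (by decide)⟩
      obtain ⟨Z, hZ1, hZ2, hZ4⟩ : ∃ Z : N, c (i + 1) = jN Z ∧ (Z ∈ P.CN ∨ Z ∈ P.CN') ∧
          ((ε (i + 1) = -1 → Z = x (i + 1)) ∧ (ε (i + 1) = 1 → Z = P.Th (x (i + 1)))) := by
        rcases Int.units_eq_one_or (ε (i + 1)) with h1 | h1
        · exact ⟨P.Th (x (i + 1)), (hxs.2.2 h1).1, Or.inr (mem_CN' hxs.1),
            fun h => absurd (h1.symm.trans h) (by decide), fun _ => rfl⟩
        · exact ⟨x (i + 1), (hxs.2.1 h1).1, Or.inl hxs.1,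
            fun _ => rfl, fun h => absurd (h1.symm.trans h) (by decide)⟩
      rw [hX1, hZ1] at hturn
      obtain ⟨u, u', hu, hu'⟩ := h8 P (n' + 1) X Z (a i) (a' i) hX2 hZ2 hX3 (by omega) (by omega)
        hturn
      rw [hu, hu', ← map_mul, ← map_mul] at hturn
      have hturn' : u * Z = X * u' := jN_inj hturn
      rw [hu, h3.2.2.2.2.2.2] at m1 m3
      rw [hu', h3.2.2.2.2.2.2] at m2
      obtain ⟨k1, k2, k3, k4⟩ := h7 P (n' + 1) j (x i) (x (i + 1)) u u' hj hxs.1 (by omega) (by omega)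
      have hred := hp.red i (by omega)
      rcases Int.units_eq_one_or (ε i) with h1 | h1 <;>
        rcases Int.units_eq_one_or (ε (i + 1)) with g1 | g1
      · rw [hX4.2 h1, hZ4.2 g1] at hturn'
        rcases k4 hturn' with ⟨i', hi', hid⟩ | hbig
        · refine ⟨g1.trans (h1.symm.trans hε), i', hid, fun h => ?_, fun h => ?_⟩
          · exact absurd ((h1.symm.trans hε).trans h) (by decide)
          · have := hj2 h
            omega
        · omega
      · rw [hX4.2 h1, hZ4.1 g1] at hturn'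
        have hm : a i ∈ toSubgroup P.CK P.CK' (ε i) := by
          rw [h1, toSubgroup_one, hu]
          exact mem_CK (k1 hturn')
        exact absurd ((h1.symm.trans (hred hm)).trans g1) (by decide)
      · rw [hX4.1 h1, hZ4.2 g1] at hturn'
        have hm : a i ∈ toSubgroup P.CK P.CK' (ε i) := by
          rw [h1, toSubgroup_neg_one, hu]
          exact mem_CK' (k2 hturn')
        exact absurd ((h1.symm.trans (hred hm)).trans g1) (by decide)
      · rw [hX4.1 h1, hZ4.1 g1] at hturn'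
        rcases k3 hturn' with ⟨-, hid⟩ | hbig
        · refine ⟨g1.trans (h1.symm.trans hε), j + 1, hid, fun h => ?_, fun h => ?_⟩
          · have := hj1 h
            omega
          · exact absurd ((h1.symm.trans hε).trans h) (by decide)
        · omega
  obtain ⟨j₀, key⟩ := key
  obtain ⟨-, j, hj, h1, h2⟩ := key (P.q (n' + 1)) le_rfl
  obtain ⟨-, k, hk, g1, g2⟩ := key 0 (by omega)
  have hjq := hj.2.2.2.1
  have hkq := hk.2.2.2.1
  rcases Int.units_eq_one_or (ε 0) with e | e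
  · have := h2 e
    have := g2 e
    omega
  · have := h1 e
    have := g1 e
    omega

end Pool.Agent.NH54.MG
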