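import Pool.Agent.NH54.MG.Stm

/-!
# Project MG (helper54), MP_284ea2_al: MG-CASEB, offsets of small type
-/

set_option autoImplicit false

open Set Filter Topology HNNExtension HNNExtension.NormalWord

namespace Pool.Agent.NH54.MG

namespace CASEB

theorem mem_jN {P : Par} {ε : ℤˣ} {c : K} (h : c ∈ toSubgroup P.CK P.CK' ε) : ∃ v : N, c = jN v := by
  rcases Int.units_eq_one_or ε with rfl | rfl
  · rw [toSubgroup_one] at h
    obtain ⟨v, -, hv⟩ := Subgroup.mem_map.1 h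
    exact ⟨v, hv.symm⟩
  · rw [toSubgroup_neg_one] at h
    obtain ⟨v, -, hv⟩ := Subgroup.mem_map.1 h
    exact ⟨v, hv.symm⟩

theorem jN_u (v : N) : (jN v).δ.u = v := rfl

theorem cp_jN_mul (P : Par) (ε : ℤˣ) (v w : N) :
    cp P ε (jN v * (jN w)⁻¹) = cp P ε (jN v) * (cp P ε (jN w))⁻¹ := by
  rw [← map_inv, ← map_mul]
  unfold cp
  split_ifs
  · rw [jN_u, jN_u, jN_u, map_mul, map_mul, map_inv, map_inv]
  · rw [jN_u, jN_u, jN_u, map_mul, map_mul, map_inv, map_inv]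

theorem quot {P : Par} {W : ℕ} {ε ε' : ℕ → ℤˣ} {a a₁ a' a₁' c c' : ℕ → K}
    (h : Par2 P W ε a a' c) (h' : Par2 P W ε' a₁ a₁' c') (hε : ∀ i ≤ W, ε' i = ε i)
    (ha : ∀ i < W, a₁ i = a i) (ha' : ∀ i < W, a₁' i = a' i) :
    Par2 P W ε a a (fun i => c' i * (c i)⁻¹) := by
  refine ⟨fun i hi => ?_, fun i hi => ?_, h.red⟩
  · have h1 := h.mem i hi
    have h2 := h'.mem i hi
    rw [hε i hi] at h2
    exact mul_mem h2 (inv_mem h1)
  · obtain ⟨v, hv⟩ := mem_jN (h.mem i hi.le)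
    obtain ⟨v', hv'⟩ := mem_jN (h'.mem i hi.le)
    have h1 := h.turn i hi
    have h2 := h'.turn i hi
    rw [ha i hi, ha' i hi, hε i hi.le] at h2
    show a i * (c' (i + 1) * (c (i + 1))⁻¹) = cp P (ε i) (c' i * (c i)⁻¹) * a i
    have h3 : cp P (ε i) (c' i * (c i)⁻¹) = cp P (ε i) (c' i) * (cp P (ε i) (c i))⁻¹ := by
      rw [hv, hv', cp_jN_mul]
    rw [h3, ← mul_assoc, h2]
    have h4 : a' i = (cp P (ε i) (c i))⁻¹ * (a i * c (i + 1)) := by
      rw [h1, inv_mul_cancel_left]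
    rw [h4]
    group

end CASEB

open CASEB in
theorem t_CASEB (h1 : S_WL) (h2 : S_GEN) (h3 : S_SUB) (h4 : S_STAB) : S_CASEB := by
  intro P n₀ κ
  obtain ⟨W₀, hW₀⟩ := h4 P n₀
  refine ⟨max 1 W₀, le_max_left _ _, ?_⟩
  generalize hW : max 1 W₀ = W
  have hstab : ∀ (ε : ℕ → ℤˣ) (a c : ℕ → K),
      Par2 P W ε a a c → mN (c 0).δ.u < 4 ^ P.s n₀ → c 0 = 1 := by
    intro ε a c hp hm
    have hle : W₀ ≤ W := hW ▸ le_max_right _ _
    exact hW₀ ε a c ⟨fun i hi => hp.mem i (hi.trans hle), fun i hi => hp.turn i (hi.trans_le hle),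
      fun i hi => hp.red i (hi.trans_le hle)⟩ hm
  intro Bd
  obtain ⟨hcl, hfin⟩ := h2 P
  obtain ⟨-, -, -, -, -, -, -, hball⟩ := h1 P.G P.S hcl
  have hTfin : ∀ B : ℕ, {k : K | wl P.S (of k : P.G) ≤ B}.Finite := by
    intro B
    exact (hball hfin B).preimage ((HNNExtension.of_injective (φ := P.th)).injOn)
  let TT (B : ℕ) : Type := {k : K // wl P.S (of k : P.G) ≤ B}
  have hTT : ∀ B, Finite (TT B) := fun B => (hTfin B).to_subtype
  -- the set of the possible values of `c 0` for given data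
  let Q : ((Fin (W + 1) → ℤˣ) × (Fin W → TT κ) × (Fin W → TT Bd)) → Set K := fun d =>
    {c₀ | ∃ (ε : ℕ → ℤˣ) (a a' c : ℕ → K), Par2 P W ε a a' c ∧ mN (c 0).δ.u < 4 ^ P.s n₀ ∧
      c 0 = c₀ ∧ (∀ i : Fin (W + 1), ε i = d.1 i) ∧ (∀ i : Fin W, a i = (d.2.1 i).1) ∧
      (∀ i : Fin W, a' i = (d.2.2 i).1)}
  have hQ : ∀ d, (Q d).Subsingleton := by
    rintro d x ⟨ε, a, a', c, hp, hm, hc, hε, ha, ha'⟩ x' ⟨ε₁, a₁, a₁', c₁, hp₁, hm₁, hc₁, hε₁, ha₁, ha₁'⟩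
    have hq := quot hp hp₁
      (fun i hi => by
        have e1 := hε ⟨i, Nat.lt_succ_of_le hi⟩
        have e2 := hε₁ ⟨i, Nat.lt_succ_of_le hi⟩
        simp only at e1 e2
        rw [e1, e2])
      (fun i hi => by
        have e1 := ha ⟨i, hi⟩
        have e2 := ha₁ ⟨i, hi⟩
        simp only at e1 e2
        rw [e1, e2])
      (fun i hi => by
        have e1 := ha' ⟨i, hi⟩
        have e2 := ha₁' ⟨i, hi⟩
        simp only at e1 e2
        rw [e1, e2])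
    have hone := hstab _ _ _ hq (by
      obtain ⟨v, hv⟩ := mem_jN (hp.mem 0 (Nat.zero_le _))
      obtain ⟨v', hv'⟩ := mem_jN (hp₁.mem 0 (Nat.zero_le _))
      rw [hv] at hm
      rw [hv'] at hm₁
      simp only [hv, hv', ← map_inv, ← map_mul, jN_u] at hm hm₁ ⊢
      refine (h3.1 _ _).trans_lt (max_lt hm₁ ?_)
      rw [h3.2.1]
      exact hm)
    have : c₁ 0 = c 0 := mul_inv_eq_one.1 hone
    rw [← hc, ← hc₁, this]
  have hUfin : (⋃ d, Q d).Finite := Set.finite_iUnion fun d => (hQ d).finite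
  obtain ⟨R, hR⟩ : ∃ R : ℕ, ∀ x ∈ ⋃ d, Q d, wl P.S (of x : P.G) ≤ R :=
    (hUfin.image (fun x => wl P.S (of x : P.G))).bddAbove.imp fun R hR x hx =>
      hR (Set.mem_image_of_mem _ hx)
  refine ⟨R + 1, fun ε a a' c hp hκ hm hbig => ?_⟩
  by_contra hcon
  push Not at hcon
  have hx : c 0 ∈ ⋃ d, Q d := by
    refine Set.mem_iUnion.2 ⟨⟨fun i => ε i, fun i => ⟨a i, hκ i i.2⟩,
      fun i => ⟨a' i, (hcon i i.2).le⟩⟩, ε, a, a', c, hp, hm, rfl, fun i => rfl, fun i => rfl,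
      fun i => rfl⟩
  have := hR _ hx
  omega

end Pool.Agent.NH54.MG
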