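import Pool.Agent.NH54.MG.Stm3

/-!
# Project MG (helper54), part MG-CGG: geodesics of the Cayley graph (helper48)
-/

set_option autoImplicit false

open Set Filter Topology

namespace Pool.Agent.NH54.MG

namespace CGG

variable {G : Type} [Group G] {S : Set G}

theorem via_le (x z : CG S) (p : Bool × Bool) :
    CG.via x z ≤ x.ps p.1 + wd S (x.en p.1) (z.en p.2) + z.ps p.2 :=
  ciInf_le (Set.finite_range _).bddBelow p

theorem dst_le_via (x z : CG S) : CG.dst x z ≤ CG.via x z := by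
  classical
  unfold CG.dst
  split_ifs
  · exact min_le_right _ _
  · exact le_rfl

theorem dst_le (x z : CG S) (p : Bool × Bool) :
    CG.dst x z ≤ x.ps p.1 + wd S (x.en p.1) (z.en p.2) + z.ps p.2 :=
  (dst_le_via x z).trans (via_le x z p)

theorem dst_same (g s : G) (hs : s ∈ S) (r r' : ℝ) (hr : 0 < r ∧ r < 1) (hr' : 0 < r' ∧ r' < 1) :
    CG.dst (CG.edge g s hs r hr) (CG.edge g s hs r' hr') ≤ |r - r'| := by
  classical
  unfold CG.dst
  rw [if_pos (show CG.same (CG.edge g s hs r hr) (CG.edge g s hs r' hr') from ⟨rfl, rfl⟩)]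
  exact min_le_left _ _

/-- one edge, in the direction of the generator -/
theorem edge1 (hpm : PM (wd S)) (hm : Model S (CG S) CG.dst CG.vert) (h1 : ∀ g ∈ S, wl S g ≤ 1)
    (a b : G) (hs : a⁻¹ * b ∈ S) : ∃ e : ℝ → CG S, e 0 = CG.vert a ∧ e 1 = CG.vert b ∧
      ∀ f ∈ Icc (0 : ℝ) 1, ∀ f' ∈ Icc (0 : ℝ) 1, CG.dst (e f) (e f') ≤ |f - f'| := by
  classical
  set e : ℝ → CG S := fun f => if hf : 0 < f ∧ f < 1 then CG.edge a (a⁻¹ * b) hs f hf else
    if f ≤ 0 then CG.vert a else CG.vert b with he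
  have e0 : e 0 = CG.vert a := by simp [he]
  have e1 : e 1 = CG.vert b := by simp [he]
  have ei : ∀ f (hf : 0 < f ∧ f < 1), e f = CG.edge a (a⁻¹ * b) hs f hf := by
    intro f hf
    simp only [he]
    rw [dif_pos hf]
  have hA : ∀ f (hf : 0 < f ∧ f < 1),
      CG.dst (CG.edge a (a⁻¹ * b) hs f hf) (CG.vert a) ≤ f := by
    intro f hf
    have := dst_le (CG.edge a (a⁻¹ * b) hs f hf) (CG.vert a) (false, false)
    simp only [CG.ps, CG.en, Bool.false_eq_true, if_false, hpm.self] at this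
    simpa using this
  have hB : ∀ f (hf : 0 < f ∧ f < 1),
      CG.dst (CG.edge a (a⁻¹ * b) hs f hf) (CG.vert b) ≤ 1 - f := by
    intro f hf
    have := dst_le (CG.edge a (a⁻¹ * b) hs f hf) (CG.vert b) (true, false)
    simp only [CG.ps, CG.en, if_true, mul_inv_cancel_left, hpm.self] at this
    simpa using this
  have hAB : CG.dst (CG.vert a : CG S) (CG.vert b) ≤ 1 := by
    rw [hm.iso]
    have := h1 _ hs
    unfold wd
    exact_mod_cast this
  have hself := hm.pm.self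
  have hsymm := hm.pm.symm
  refine ⟨e, e0, e1, ?_⟩
  rintro f ⟨hf0, hf1⟩ f' ⟨hf0', hf1'⟩
  rcases hf0.eq_or_lt with rfl | hf0
  · rcases hf0'.eq_or_lt with rfl | hf0'
    · rw [hself]
      exact abs_nonneg _
    · rcases hf1'.eq_or_lt with rfl | hf1'
      · rw [e0, e1]
        simpa using hAB
      · rw [e0, ei f' ⟨hf0', hf1'⟩, hsymm, zero_sub, abs_neg, abs_of_pos hf0']
        exact hA _ _
  · rcases hf1.eq_or_lt with rfl | hf1
    · rcases hf1'.eq_or_lt with rfl | hf1'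
      · rw [hself]
        exact abs_nonneg _
      · rcases hf0'.eq_or_lt with rfl | hf0'
        · rw [e0, e1, hsymm]
          simpa using hAB
        · rw [e1, ei f' ⟨hf0', hf1'⟩, hsymm, abs_of_pos (by linarith)]
          exact hB _ _
    · rw [ei f ⟨hf0, hf1⟩]
      rcases hf0'.eq_or_lt with rfl | hf0'
      · rw [e0, sub_zero, abs_of_pos hf0]
        exact hA _ _
      · rcases hf1'.eq_or_lt with rfl | hf1'
        · rw [e1, abs_of_neg (by linarith), neg_sub]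
          exact hB _ _
        · rw [ei f' ⟨hf0', hf1'⟩]
          exact dst_same _ _ _ _ _ _ _

/-- one edge -/
theorem edge2 (hpm : PM (wd S)) (hm : Model S (CG S) CG.dst CG.vert) (h1 : ∀ g ∈ S, wl S g ≤ 1)
    (a b : G) (hs : a⁻¹ * b ∈ S ∨ (a⁻¹ * b)⁻¹ ∈ S) :
    ∃ e : ℝ → CG S, e 0 = CG.vert a ∧ e 1 = CG.vert b ∧
      ∀ f ∈ Icc (0 : ℝ) 1, ∀ f' ∈ Icc (0 : ℝ) 1, CG.dst (e f) (e f') ≤ |f - f'| := by
  rcases hs with hs | hs
  · exact edge1 hpm hm h1 a b hs
  · rw [mul_inv_rev, inv_inv] at hs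
    obtain ⟨e, e0, e1, he⟩ := edge1 hpm hm h1 b a hs
    refine ⟨fun f => e (1 - f), by simpa using e1, by simpa using e0, ?_⟩
    rintro f ⟨hf0, hf1⟩ f' ⟨hf0', hf1'⟩
    have := he (1 - f) ⟨by linarith, by linarith⟩ (1 - f') ⟨by linarith, by linarith⟩
    rwa [show (1 - f) - (1 - f') = f' - f by ring, abs_sub_comm] at this

end CGG

open CGG in
/-- MG-CGG -/
theorem t_CGG (h : S_WL) (h2 : S_CGM) : S_CGG := by
  classical
  intro G _ S hS g h'
  obtain ⟨hpm, -, -, -, -, h1, hgeo, -⟩ := h G S hS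
  obtain ⟨hm, -⟩ := h2 G S hS
  obtain ⟨p, hp0, hpn, hps, hpw⟩ := hgeo (g⁻¹ * h')
  set n : ℕ := wl S (g⁻¹ * h') with hn
  set v : ℕ → G := fun i => g * p i with hv
  have hv2 : ∀ i j, (v i)⁻¹ * v j = (p i)⁻¹ * p j := by
    intro i j
    simp only [hv]
    group
  have hvd : ∀ i j : ℕ, i ≤ j → j ≤ n → wd S (v i) (v j) = (j : ℝ) - i := by
    intro i j hij hj
    unfold wd
    rw [hv2, hpw i j hij hj, Nat.cast_sub hij]
  have hE : ∀ i : ℕ, ∃ e : ℝ → CG S, i < n → (e 0 = CG.vert (v i) ∧ e 1 = CG.vert (v (i + 1)) ∧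
      ∀ f ∈ Icc (0 : ℝ) 1, ∀ f' ∈ Icc (0 : ℝ) 1, CG.dst (e f) (e f') ≤ |f - f'|) := by
    intro i
    by_cases hi : i < n
    · obtain ⟨e, he⟩ := edge2 hpm hm h1 (v i) (v (i + 1)) (by rw [hv2]; exact hps i hi)
      exact ⟨e, fun _ => he⟩
    · exact ⟨fun _ => CG.vert 1, fun h => absurd h hi⟩
  choose E hE using hE
  set c : ℝ → CG S := fun t => if (n : ℝ) ≤ t then CG.vert (v n) else E ⌊t⌋₊ (t - ⌊t⌋₊) with hc
  have hcn : ∀ i : ℕ, i ≤ n → c i = CG.vert (v i) := by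
    intro i hi
    simp only [hc]
    rcases hi.eq_or_lt with rfl | hi
    · rw [if_pos le_rfl]
    · rw [if_neg (by push Not; exact_mod_cast hi), Nat.floor_natCast, sub_self]
      exact (hE i hi).1
  have hcE : ∀ (i : ℕ) (t : ℝ), i < n → (i : ℝ) ≤ t → t ≤ i + 1 → c t = E i (t - i) := by
    intro i t hi h0 h1
    rcases h1.eq_or_lt with rfl | h1
    · have := hcn (i + 1) hi
      push_cast at this
      rw [this, add_sub_cancel_left]
      exact (hE i hi).2.1.symm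
    · have hfl : ⌊t⌋₊ = i := by
        rw [Nat.floor_eq_iff (le_trans (Nat.cast_nonneg _) h0)]
        exact ⟨h0, h1⟩
      have hlt : t < n := by
        have : ((i + 1 : ℕ) : ℝ) ≤ n := by exact_mod_cast hi
        push_cast at this
        linarith
      simp only [hc]
      rw [if_neg (not_le.2 hlt), hfl]
  have hB : ∀ (i : ℕ) (t t' : ℝ), i < n → (i : ℝ) ≤ t → t ≤ t' → t' ≤ i + 1 →
      CG.dst (c t) (c t') ≤ t' - t := by
    intro i t t' hi h0 htt h1
    rw [hcE i t hi h0 (by linarith), hcE i t' hi (by linarith) h1]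
    have := (hE i hi).2.2 (t - i) ⟨by linarith, by linarith⟩ (t' - i) ⟨by linarith, by linarith⟩
    rwa [show (t - i) - (t' - i) = -(t' - t) by ring, abs_neg, abs_of_nonneg (by linarith)] at this
  have hC : ∀ t t' : ℝ, 0 ≤ t → t ≤ t' → t' ≤ n → CG.dst (c t) (c t') ≤ t' - t := by
    intro t t' h0 htt hn'
    have a1 := Nat.floor_le h0
    have a2 := Nat.lt_floor_add_one t
    have b1 := Nat.floor_le (h0.trans htt)
    have b2 := Nat.lt_floor_add_one t'
    have hij : ⌊t⌋₊ ≤ ⌊t'⌋₊ := Nat.floor_le_floor htt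
    have hjn : ⌊t'⌋₊ ≤ n := by
      have : (⌊t'⌋₊ : ℝ) ≤ n := b1.trans hn'
      exact_mod_cast this
    have hlast : CG.dst (c (⌊t'⌋₊ : ℝ)) (c t') ≤ t' - ⌊t'⌋₊ := by
      rcases hjn.eq_or_lt with hj | hj
      · have : t' = (⌊t'⌋₊ : ℝ) := by
          rw [hj] at b1 ⊢
          linarith
        rw [← this, hm.pm.self]
        linarith
      · exact hB _ _ _ hj le_rfl b1 b2.le
    rcases hij.eq_or_lt with hij | hij
    · rcases hjn.eq_or_lt with hj | hj
      · have e1 : t = (n : ℝ) := by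
          have : (⌊t⌋₊ : ℝ) = n := by rw [hij, hj]
          linarith
        have e2 : t' = (n : ℝ) := by linarith
        rw [e1, e2, hm.pm.self]
        linarith
      · exact hB ⌊t'⌋₊ t t' hj (by rw [← hij]; exact a1) htt b2.le
    · have hi : ⌊t⌋₊ < n := lt_of_lt_of_le hij hjn
      have k1 : CG.dst (c t) (c ((⌊t⌋₊ + 1 : ℕ) : ℝ)) ≤ (⌊t⌋₊ + 1 : ℕ) - t := by
        apply hB ⌊t⌋₊ _ _ hi a1
        · push_cast
          exact a2.le
        · push_cast
          exact le_rfl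
      have k2 : CG.dst (c ((⌊t⌋₊ + 1 : ℕ) : ℝ)) (c (⌊t'⌋₊ : ℝ)) =
          (⌊t'⌋₊ : ℝ) - (⌊t⌋₊ + 1 : ℕ) := by
        rw [hcn _ hi, hcn _ hjn, hm.iso]
        exact hvd _ _ hij hjn
      have k3 := hm.pm.tri (c t) (c ((⌊t⌋₊ + 1 : ℕ) : ℝ)) (c t')
      have k4 := hm.pm.tri (c ((⌊t⌋₊ + 1 : ℕ) : ℝ)) (c (⌊t'⌋₊ : ℝ)) (c t')
      linarith
  have hD : ∀ t t' : ℝ, 0 ≤ t → t ≤ t' → t' ≤ n → CG.dst (c t) (c t') = t' - t := by
    intro t t' h0 htt hn'
    refine le_antisymm (hC t t' h0 htt hn') ?_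
    have k1 := hC 0 t le_rfl h0 (htt.trans hn')
    have k2 := hC t' n (h0.trans htt) hn' le_rfl
    have k3 : CG.dst (c 0) (c n) = n := by
      have e0 := hcn 0 (Nat.zero_le _)
      rw [Nat.cast_zero] at e0
      rw [e0, hcn n le_rfl, hm.iso, hvd 0 n (Nat.zero_le _) le_rfl]
      simp
    have k4 := hm.pm.tri (c 0) (c t) (c n)
    have k5 := hm.pm.tri (c t) (c t') (c n)
    linarith
  refine ⟨c, ?_, ?_, ?_⟩
  · have e0 := hcn 0 (Nat.zero_le _)
    rw [Nat.cast_zero] at e0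
    rw [e0]
    simp only [hv, hp0, mul_one]
  · rw [hcn n le_rfl]
    simp only [hv, hpn, mul_inv_cancel_left]
  · rintro s ⟨hs0, hs1⟩ t ⟨ht0, ht1⟩
    rcases le_total s t with hst | hst
    · rw [hD s t hs0 hst ht1, abs_sub_comm, abs_of_nonneg (by linarith)]
    · rw [hm.pm.symm, hD t s ht0 hst hs1, abs_of_nonneg (by linarith)]

end Pool.Agent.NH54.MG
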