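import Pool.Agent.NH54.MG.Stm3

/-!
# Project MG, CGM: the metric of the Cayley graph (helper58)
-/

set_option autoImplicit false

open Set

namespace Pool.Agent.NH54.MG.CGM

open CG

variable {G : Type} [Group G] {S : Set G}

theorem ps_edge_false {g s : G} {hs : s ∈ S} {r : ℝ} {hr : 0 < r ∧ r < 1} :
    (CG.edge g s hs r hr).ps false = r := by simp [CG.ps]

theorem ps_edge_true {g s : G} {hs : s ∈ S} {r : ℝ} {hr : 0 < r ∧ r < 1} :
    (CG.edge g s hs r hr).ps true = 1 - r := by simp [CG.ps]

theorem en_edge_false {g s : G} {hs : s ∈ S} {r : ℝ} {hr : 0 < r ∧ r < 1} :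
    (CG.edge g s hs r hr).en false = g := by simp [CG.en]

theorem en_edge_true {g s : G} {hs : s ∈ S} {r : ℝ} {hr : 0 < r ∧ r < 1} :
    (CG.edge g s hs r hr).en true = g * s := by simp [CG.en]

theorem ps_edge_pos {g s : G} {hs : s ∈ S} {r : ℝ} {hr : 0 < r ∧ r < 1} (b : Bool) :
    0 < (CG.edge g s hs r hr).ps b := by
  cases b
  · rw [ps_edge_false]
    exact hr.1
  · rw [ps_edge_true]
    linarith [hr.2]

theorem ps_nn (x : CG S) (b : Bool) : 0 ≤ x.ps b := by
  cases x with
  | vert g => exact le_rfl
  | edge g s hs r hr => exact (ps_edge_pos b).le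

theorem via_le (x z : CG S) (a b : Bool) :
    via x z ≤ x.ps a + wd S (x.en a) (z.en b) + z.ps b :=
  ciInf_le (Set.finite_range fun p : Bool × Bool =>
    x.ps p.1 + wd S (x.en p.1) (z.en p.2) + z.ps p.2).bddBelow (a, b)

theorem exists_via (x z : CG S) : ∃ a b : Bool,
    x.ps a + wd S (x.en a) (z.en b) + z.ps b = via x z := by
  obtain ⟨p, hp⟩ := exists_eq_ciInf_of_finite (f := fun p : Bool × Bool =>
    x.ps p.1 + wd S (x.en p.1) (z.en p.2) + z.ps p.2)
  exact ⟨p.1, p.2, hp⟩

theorem dst_le_via (x z : CG S) : dst x z ≤ via x z := by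
  unfold CG.dst
  split_ifs
  · exact min_le_right _ _
  · exact le_rfl

theorem dst_le_abs {x z : CG S} (h : same x z) : dst x z ≤ |x.ps false - z.ps false| := by
  unfold CG.dst
  rw [if_pos h]
  exact min_le_left _ _

theorem dst_cases (x z : CG S) : dst x z = via x z ∨
    (same x z ∧ dst x z = |x.ps false - z.ps false|) := by
  by_cases h : same x z
  · rcases min_choice |x.ps false - z.ps false| (via x z) with h1 | h1
    · right
      refine ⟨h, ?_⟩
      unfold CG.dst
      rw [if_pos h]
      exact h1
    · left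
      unfold CG.dst
      rw [if_pos h]
      exact h1
  · left
    unfold CG.dst
    rw [if_neg h]

theorem same_symm {x z : CG S} (h : same x z) : same z x := by
  cases x with
  | vert g => exact h.elim
  | edge g s hs r hr =>
    cases z with
    | vert g => exact h.elim
    | edge g' s' hs' r' hr' => exact ⟨h.1.symm, h.2.symm⟩

theorem same_trans {x y z : CG S} (h : same x y) (h' : same y z) : same x z := by
  cases x with
  | vert g => exact h.elim
  | edge g s hs r hr =>
    cases y with
    | vert g => exact h.elim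
    | edge g' s' hs' r' hr' =>
      cases z with
      | vert g => exact h'.elim
      | edge g'' s'' hs'' r'' hr'' => exact ⟨h.1.trans h'.1, h.2.trans h'.2⟩

theorem same_en {x z : CG S} (h : same x z) (b : Bool) : x.en b = z.en b := by
  cases x with
  | vert g => exact h.elim
  | edge g s hs r hr =>
    cases z with
    | vert g => exact h.elim
    | edge g' s' hs' r' hr' =>
      obtain ⟨h1, h2⟩ := h
      subst h1
      subst h2
      rfl

theorem same_ps {x z : CG S} (h : same x z) (b : Bool) :
    x.ps b ≤ |x.ps false - z.ps false| + z.ps b := by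
  cases x with
  | vert g => exact h.elim
  | edge g s hs r hr =>
    cases z with
    | vert g => exact h.elim
    | edge g' s' hs' r' hr' =>
      cases b
      · rw [ps_edge_false, ps_edge_false]
        have := le_abs_self (r - r')
        linarith
      · rw [ps_edge_false, ps_edge_false, ps_edge_true, ps_edge_true]
        have := neg_abs_le (r - r')
        linarith

/-- the facts on the word metric -/
structure WF (S : Set G) : Prop where
  pm : PM (wd S)
  eq : ∀ g h : G, wd S g h = 0 → g = h
  one : ∀ g : G, ∀ s ∈ S, wd S g (g * s) ≤ 1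

theorem wf (h : S_WL) (hS : Subgroup.closure S = ⊤) : WF S := by
  obtain ⟨h1, h2, -, -, -, h3, -⟩ := h G S hS
  refine ⟨h1, h2, fun g s hs => ?_⟩
  rw [wd, inv_mul_cancel_left]
  exact_mod_cast h3 s hs

theorem via_nn (hw : WF S) (x z : CG S) : 0 ≤ via x z := by
  obtain ⟨a, b, h⟩ := exists_via x z
  rw [← h]
  exact add_nonneg (add_nonneg (ps_nn _ _) (hw.pm.nn _ _)) (ps_nn _ _)

theorem lemA (hw : WF S) (x : CG S) (b b' : Bool) : wd S (x.en b) (x.en b') ≤ x.ps b + x.ps b' := by
  cases x with
  | vert g =>
    show wd S g g ≤ 0 + 0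
    rw [hw.pm.self, add_zero]
  | edge g s hs r hr =>
    cases b <;> cases b'
    · rw [hw.pm.self]
      exact add_nonneg (ps_nn _ _) (ps_nn _ _)
    · rw [ps_edge_false, ps_edge_true, en_edge_false, en_edge_true]
      have := hw.one g s hs
      linarith
    · rw [ps_edge_false, ps_edge_true, en_edge_false, en_edge_true, hw.pm.symm]
      have := hw.one g s hs
      linarith
    · rw [hw.pm.self]
      exact add_nonneg (ps_nn _ _) (ps_nn _ _)

theorem via_symm (hw : WF S) (x z : CG S) : via x z ≤ via z x := by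
  obtain ⟨a, b, h⟩ := exists_via z x
  rw [← h]
  have h1 := via_le x z b a
  rw [hw.pm.symm (x.en b) (z.en a)] at h1
  linarith

theorem dst_symm_le (hw : WF S) (x z : CG S) : dst x z ≤ dst z x := by
  rcases dst_cases z x with h | ⟨h1, h2⟩
  · rw [h]
    exact (dst_le_via x z).trans (via_symm hw x z)
  · rw [h2, abs_sub_comm]
    exact dst_le_abs (same_symm h1)

theorem via_tri (hw : WF S) (x y z : CG S) : via x z ≤ via x y + via y z := by
  obtain ⟨a, c, h1⟩ := exists_via x y
  obtain ⟨c', b, h2⟩ := exists_via y z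
  rw [← h1, ← h2]
  have h3 := via_le x z a b
  have h4 := lemA hw y c c'
  have h5 := hw.pm.tri (x.en a) (y.en c) (z.en b)
  have h6 := hw.pm.tri (y.en c) (y.en c') (z.en b)
  linarith

theorem abs_via {x y : CG S} (z : CG S) (h : same x y) :
    via x z ≤ |x.ps false - y.ps false| + via y z := by
  obtain ⟨c, b, h2⟩ := exists_via y z
  rw [← h2]
  have h3 := via_le x z c b
  have h4 := same_ps h c
  rw [same_en h c] at h3
  linarith

theorem dst_tri (hw : WF S) (x y z : CG S) : dst x z ≤ dst x y + dst y z := by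
  rcases dst_cases x y with h1 | ⟨h1, h1'⟩
  · rcases dst_cases y z with h2 | ⟨h2, h2'⟩
    · rw [h1, h2]
      exact (dst_le_via x z).trans (via_tri hw x y z)
    · rw [h1, h2']
      have h3 := abs_via x (same_symm h2)
      rw [abs_sub_comm] at h3
      have h4 := via_symm hw x z
      have h5 := via_symm hw y x
      have h6 := dst_le_via x z
      linarith
  · rcases dst_cases y z with h2 | ⟨h2, h2'⟩
    · rw [h1', h2]
      exact (dst_le_via x z).trans (abs_via z h1)
    · rw [h1', h2']
      exact (dst_le_abs (same_trans h1 h2)).trans (abs_sub_le _ _ _)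

theorem dst_nn (hw : WF S) (x z : CG S) : 0 ≤ dst x z := by
  rcases dst_cases x z with h | ⟨-, h⟩
  · rw [h]
    exact via_nn hw x z
  · rw [h]
    exact abs_nonneg _

theorem dst_vert (g h : G) : dst (CG.vert g : CG S) (CG.vert h) = wd S g h := by
  have h0 : ¬ same (CG.vert g : CG S) (CG.vert h) := fun h => h
  unfold CG.dst
  rw [if_neg h0]
  unfold CG.via
  have h1 : (fun p : Bool × Bool => (CG.vert g : CG S).ps p.1 +
      wd S ((CG.vert g : CG S).en p.1) ((CG.vert h : CG S).en p.2) + (CG.vert h : CG S).ps p.2) =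
      fun _ => wd S g h := by
    funext p
    show 0 + wd S g h + 0 = wd S g h
    rw [zero_add, add_zero]
  rw [h1, ciInf_const]

theorem dst_self (hw : WF S) (x : CG S) : dst x x = 0 := by
  cases x with
  | vert g => rw [dst_vert, hw.pm.self]
  | edge g s hs r hr =>
    apply le_antisymm _ (dst_nn hw _ _)
    have h1 : same (CG.edge g s hs r hr) (CG.edge g s hs r hr) := ⟨rfl, rfl⟩
    refine (dst_le_abs h1).trans ?_
    rw [sub_self, abs_zero]

theorem via_pos (hw : WF S) (x : CG S) {g s : G} {hs : s ∈ S} {r : ℝ} {hr : 0 < r ∧ r < 1} :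
    0 < via x (CG.edge g s hs r hr) := by
  obtain ⟨a, b, h⟩ := exists_via x (CG.edge g s hs r hr)
  rw [← h]
  exact add_pos_of_nonneg_of_pos (add_nonneg (ps_nn _ _) (hw.pm.nn _ _)) (ps_edge_pos b)

theorem eq_of_dst (hw : WF S) (x z : CG S) (h : dst x z = 0) : x = z := by
  cases z with
  | vert g =>
    cases x with
    | vert g' =>
      rw [dst_vert] at h
      rw [hw.eq _ _ h]
    | edge g' s' hs' r' hr' =>
      exfalso
      have h1 := via_pos (hs := hs') (r := r') (hr := hr') (g := g') hw (CG.vert g : CG S)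
      have h2 := via_symm hw (CG.vert g : CG S) (CG.edge g' s' hs' r' hr')
      rcases dst_cases (CG.edge g' s' hs' r' hr') (CG.vert g : CG S) with h3 | ⟨h3, -⟩
      · rw [h3] at h
        linarith
      · exact h3
  | edge g s hs r hr =>
    rcases dst_cases x (CG.edge g s hs r hr) with h3 | ⟨h3, h4⟩
    · have h1 := via_pos (hs := hs) (r := r) (hr := hr) (g := g) hw x
      rw [h3] at h
      linarith
    · cases x with
      | vert g' => exact h3.elim
      | edge g' s' hs' r' hr' =>
        obtain ⟨h5, h6⟩ := h3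
        subst h5
        subst h6
        rw [h, ps_edge_false, ps_edge_false] at h4
        have h7 : r' = r := sub_eq_zero.1 (abs_eq_zero.1 h4.symm)
        subst h7
        rfl

end Pool.Agent.NH54.MG.CGM

namespace Pool.Agent.NH54.MG

open CGM

theorem t_CGM (h : S_WL) : S_CGM := by
  intro G _ S hS
  have hw := wf h hS
  refine ⟨⟨⟨dst_self hw, dst_nn hw, fun x z => le_antisymm (dst_symm_le hw x z)
    (dst_symm_le hw z x), dst_tri hw⟩, dst_vert, ?_⟩, eq_of_dst hw⟩
  intro x
  cases x with
  | vert g =>
    refine ⟨g, ?_⟩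
    rw [dst_vert, hw.pm.self]
    exact zero_le_one
  | edge g s hs r hr =>
    refine ⟨g, (dst_le_via _ _).trans ((via_le _ _ false false).trans ?_)⟩
    rw [ps_edge_false, en_edge_false]
    show r + wd S g g + 0 ≤ 1
    rw [hw.pm.self]
    linarith [hr.2]

end Pool.Agent.NH54.MG
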