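import Pool.Agent.NH54.MG.Stm

/-!
# MG-CORE (helper75): parallel paths far apart are expensive
-/

set_option autoImplicit false

open Set Filter Topology HNNExtension HNNExtension.NormalWord

namespace Pool.Agent.NH54.MG

namespace CORE

theorem s_mono (P : Par) : Monotone P.s := by
  refine monotone_nat_of_le_succ fun n => ?_
  have h1 := P.sa n
  have h2 := P.as n
  omega

/-- the shifted data -/
theorem shift {P : Par} {m : ℕ} {ε : ℕ → ℤˣ} {a a' c : ℕ → K} (h : Par2 P m ε a a' c) {i₀ w : ℕ}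
    (hw : i₀ + w ≤ m) : Par2 P w (fun i => ε (i₀ + i)) (fun i => a (i₀ + i)) (fun i => a' (i₀ + i))
      (fun i => c (i₀ + i)) where
  mem i hi := h.mem (i₀ + i) (by omega)
  turn i hi := h.turn (i₀ + i) (by omega)
  red i hi := h.red (i₀ + i) (by omega)

/-- the offsets are in `N`, of some type -/
theorem typ (h4 : S_TOP) {P : Par} {m : ℕ} {ε : ℕ → ℤˣ} {a a' c : ℕ → K}
    (h : Par2 P m ε a a' c) {i₀ : ℕ} (hi : i₀ ≤ m) (hc : c i₀ ≠ 1) :
    ∃ (x : N) (n : ℕ), c i₀ = jN x ∧ 4 ^ P.a n ≤ mN x ∧ mN x < 4 ^ P.s (n + 1) := by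
  have hm := h.mem i₀ hi
  rcases Int.units_eq_one_or (-ε i₀) with he | he
  · rw [he, toSubgroup_one] at hm
    obtain ⟨x, hx, hx2⟩ := hm
    have hx1 : x ≠ 1 := by
      rintro rfl
      exact hc (by rw [← hx2, map_one])
    obtain ⟨n, g1, g2, -, -⟩ := (h4 P x hx).1 hx1
    exact ⟨x, n, hx2.symm, g1, g2⟩
  · rw [he, toSubgroup_neg_one] at hm
    obtain ⟨x, ⟨x0, hx0, hx0'⟩, hx2⟩ := hm
    have hx0'' : P.Th x0 = x := hx0'
    have hx1 : x0 ≠ 1 := by
      rintro rfl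
      rw [map_one] at hx0''
      exact hc (by rw [← hx2, ← hx0'', map_one])
    obtain ⟨n, -, -, g1, g2⟩ := (h4 P x0 hx0).1 hx1
    rw [hx0''] at g1 g2
    exact ⟨x, n, hx2.symm, g1, g2⟩

end CORE

open CORE in
theorem t_CORE (h1 : S_WL) (h2 : S_GEN) (h3 : S_SUB) (h4 : S_TOP) (h5 : S_FLOW) (h6 : S_CASEA)
    (h7 : S_CASEB) : S_CORE := by
  intro P κ Λ
  obtain ⟨nA, hA⟩ := h6 P κ
  obtain ⟨W, hW1, hW⟩ := h7 P (max Λ nA) κ
  obtain ⟨RB, hRB⟩ := hW (Λ * W)
  obtain ⟨-, -, hwl1, -⟩ := h1 P.G P.S (h2 P).1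
  refine ⟨1 + RB + Λ * W, ?_⟩
  intro m ε a a' c hP hκ i₀ hi₀ hR
  have hc : c i₀ ≠ 1 := by
    intro h0
    rw [h0, map_one, hwl1] at hR
    omega
  obtain ⟨x, n, hx, hn1, hn2⟩ := typ h4 hP hi₀ hc
  have hu : (c i₀).δ.u = x := by
    rw [hx]
    rfl
  rcases Nat.lt_or_ge n (max Λ nA) with hn | hn
  · refine ⟨W, hW1, by omega, fun hw => ?_⟩
    obtain ⟨i, hi, hi2⟩ := hRB _ _ _ _ (shift hP hw) (fun i hi => hκ (i₀ + i) (by omega))
      (by
        simp only [add_zero]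
        rw [hu]
        exact lt_of_lt_of_le hn2 (Nat.pow_le_pow_right (by norm_num) (s_mono P hn)))
      (by
        simp only [add_zero]
        omega)
    refine hi2.trans ?_
    exact Finset.single_le_sum (f := fun i => wl P.S (of (a' i) : P.G)) (fun _ _ => Nat.zero_le _)
      (Finset.mem_Ico.2 ⟨by omega, by omega⟩)
  · have hF := P.Fq n
    have hΛn : Λ ≤ n := (le_max_left _ _).trans hn
    have hAn : nA ≤ n := (le_max_right _ _).trans hn
    have hb : Λ * (P.q n + 1) ≤ (n + 1) * (P.q n + 2) :=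
      Nat.mul_le_mul (by omega) (by omega)
    have hF' : 8 * ((n + 1) * (P.q n + 2)) ≤ P.F n := by
      rw [← mul_assoc]
      exact hF
    have hlen : P.F n ≤ wl P.S (of (c i₀) : P.G) := by
      rcases h5 P n (c i₀) with h | h
      · exact h
      · rw [hx, h3.2.2.2.2.2.2, ← hx] at h
        have h8 : P.F n * 4 ^ P.a n ≤ 4 ^ P.a n * wl P.S (of (c i₀) : P.G) :=
          (Nat.mul_le_mul_left _ hn1).trans h
        rw [mul_comm] at h8
        exact Nat.le_of_mul_le_mul_left h8 (pow_pos (by norm_num) _)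
    refine ⟨P.q n + 1, by omega, by omega, fun hw => ?_⟩
    obtain ⟨i, hi, hi2⟩ := hA n hAn _ _ _ _ (shift hP hw) (fun i hi => hκ (i₀ + i) (by omega))
      (by
        simp only [add_zero]
        rw [hu]
        exact hn1)
      (by
        simp only [add_zero]
        rw [hu]
        exact hn2)
    have h9 : Λ * (P.q n + 1) ≤ wl P.S (of (a' (i₀ + i)) : P.G) := by omega
    refine h9.trans ?_
    exact Finset.single_le_sum (f := fun i => wl P.S (of (a' i) : P.G)) (fun _ _ => Nat.zero_le _)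
      (Finset.mem_Ico.2 ⟨by omega, by omega⟩)

end Pool.Agent.NH54.MG
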