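import Pool.Agent.NH54.MG.Stm

/-!
# MG-CRS (helper99): a path crosses all edges of the Bass-Serre tree between its ends, in the right order
-/

set_option autoImplicit false

open Set Filter Topology HNNExtension HNNExtension.NormalWord

namespace Pool.Agent.NH54.MG

namespace CRS

variable {K₀ : Type} [Group K₀] {A B : Subgroup K₀} (φ : A ≃* B)

/-- the product of a list of letters -/
noncomputable def pr (l : List (ℤˣ × K₀)) : HNNExtension K₀ A B φ :=
  (l.map (fun x => t ^ (x.1 : ℤ) * of x.2)).prod

theorem pr_append (l l' : List (ℤˣ × K₀)) : pr φ (l ++ l') = pr φ l * pr φ l' := by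
  simp [pr]

theorem prod_eq (w : ReducedWord K₀ A B) : w.prod φ = of w.head * pr φ w.toList := rfl

theorem pre_eq (w : ReducedWord K₀ A B) (i : ℕ) :
    pre φ w i = of w.head * pr φ (w.toList.take i) := rfl

/-- conjugation with powers of `t` -/
theorem tu (u : ℤˣ) (g : toSubgroup A B u) :
    (t : HNNExtension K₀ A B φ) ^ (u : ℤ) * of (g : K₀) * (t ^ (u : ℤ))⁻¹ =
      of ((toSubgroupEquiv φ u g : toSubgroup A B (-u)) : K₀) := by
  rcases Int.units_eq_one_or u with rfl | rfl
  · simp only [Units.val_one, zpow_one]
    exact (equiv_eq_conj (φ := φ) g).symm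
  · simp only [Units.val_neg, Units.val_one, zpow_neg, zpow_one, inv_inv]
    exact (equiv_symm_eq_conj (φ := φ) g).symm

/-- multiplication of a reduced word by an element of the base group -/
theorem modLast (w : ReducedWord K₀ A B) (k : K₀) : ∃ w' : ReducedWord K₀ A B,
    w'.prod φ = w.prod φ * of k ∧ w'.toList.map Prod.fst = w.toList.map Prod.fst ∧
      ∀ i < w.toList.length, pre φ w' i = pre φ w i := by
  rcases List.eq_nil_or_concat' w.toList with h | ⟨l, ⟨v, g⟩, h⟩
  · refine ⟨⟨w.head * k, [], List.isChain_nil⟩, ?_, ?_, ?_⟩
    · simp [prod_eq, h, pr]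
    · simp [h]
    · simp [h]
  · have hch : (l ++ [(v, g * k)]).IsChain (fun a b => a.2 ∈ toSubgroup A B a.1 → a.1 = b.1) := by
      have h1 := w.chain
      rw [h, List.isChain_append] at h1
      rw [List.isChain_append]
      refine ⟨h1.1, by simp, fun x hx y hy => ?_⟩
      have h2 := h1.2.2 x hx (v, g) (by simp)
      obtain rfl : (v, g * k) = y := by simpa using hy
      exact h2
    refine ⟨⟨w.head, l ++ [(v, g * k)], hch⟩, ?_, ?_, ?_⟩
    · rw [prod_eq, prod_eq, h]
      change of w.head * pr φ (l ++ [(v, g * k)]) = _
      rw [pr_append, pr_append]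
      simp [pr, mul_assoc]
    · rw [h]
      change (l ++ [(v, g * k)]).map Prod.fst = _
      simp
    · intro i hi
      rw [h, List.length_append, List.length_singleton] at hi
      rw [pre_eq, pre_eq, h]
      change of w.head * pr φ ((l ++ [(v, g * k)]).take i) = _
      rw [List.take_append_of_le_length (by omega), List.take_append_of_le_length (by omega)]

/-- the crossings -/
def Cr (p : ℕ → HNNExtension K₀ A B φ) (w : ReducedWord K₀ A B) (τ : ℕ → ℕ) (L : ℕ) : Prop :=
  (∀ i < w.toList.length, τ i < L) ∧ (∀ i j, i < j → j < w.toList.length → τ i < τ j) ∧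
    ∀ i u, (w.toList.map Prod.fst)[i]? = some u → p (τ i + 1) = p (τ i) * t ^ ((u : ℤˣ) : ℤ) ∧
      ∃ x ∈ toSubgroup A B (-u), p (τ i) = pre φ w i * of x

theorem lt_of_some {w : ReducedWord K₀ A B} {i : ℕ} {u : ℤˣ}
    (h : (w.toList.map Prod.fst)[i]? = some u) : i < w.toList.length := by
  have := (List.getElem?_eq_some_iff.1 h).1
  simpa using this

theorem main (p : ℕ → HNNExtension K₀ A B φ) (h0 : p 0 = 1) : ∀ (L : ℕ) (w : ReducedWord K₀ A B),
    p L = w.prod φ →
    (∀ i < L, (∃ k : K₀, p (i + 1) = p i * of k) ∨ ∃ u : ℤˣ, p (i + 1) = p i * t ^ (u : ℤ)) →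
    ∃ τ : ℕ → ℕ, Cr φ p w τ L := by
  intro L
  induction L with
  | zero =>
    intro w hw _
    rw [h0] at hw
    have h1 : w.prod φ = (ReducedWord.empty K₀ A B).prod φ := by
      rw [← hw]
      simp [ReducedWord.prod]
    have h2 := (ReducedWord.map_fst_eq_and_of_prod_eq φ h1).1
    have h3 : w.toList = [] := by
      have : w.toList.map Prod.fst = [] := by
        rw [h2]; rfl
      exact List.map_eq_nil_iff.1 this
    refine ⟨fun _ => 0, ?_, ?_, ?_⟩
    · simp [h3]
    · simp [h3]
    · simp [h3]
  | succ L ih =>
    intro w hw hs
    have hs' : ∀ i < L, (∃ k : K₀, p (i + 1) = p i * of k) ∨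
        ∃ u : ℤˣ, p (i + 1) = p i * t ^ (u : ℤ) := fun i hi => hs i (by omega)
    rcases hs L (by omega) with ⟨k, hk⟩ | ⟨u, hu⟩
    · obtain ⟨w', h1, h2, h3⟩ := modLast φ w k⁻¹
      have h4 : p L = w'.prod φ := by
        rw [h1, ← hw, hk]
        simp
      obtain ⟨τ, c1, c2, c3⟩ := ih w' h4 hs'
      have hlen : w'.toList.length = w.toList.length := by
        have := congrArg List.length h2
        simpa using this
      rw [hlen] at c1 c2
      refine ⟨τ, fun i hi => (c1 i hi).trans (by omega), c2, fun i u hiu => ?_⟩
      have hi := lt_of_some hiu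
      rw [← h2] at hiu
      obtain ⟨d1, x, hx, d2⟩ := c3 i u hiu
      exact ⟨d1, x, hx, by rw [d2, h3 i hi]⟩
    · rcases List.eq_nil_or_concat' w.toList with h | ⟨l, ⟨v, g⟩, h⟩
      · refine ⟨fun _ => 0, ?_, ?_, ?_⟩
        · simp [h]
        · simp [h]
        · simp [h]
      · have hpL : p L = w.prod φ * (t ^ (u : ℤ))⁻¹ := by
          rw [← hw, hu]
          simp
        by_cases hc : v = u ∧ g ∈ toSubgroup A B v
        · obtain ⟨rfl, hg⟩ := hc
          have hch : l.IsChain (fun a b => a.2 ∈ toSubgroup A B a.1 → a.1 = b.1) := by
            have h1 := w.chain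
            rw [h, List.isChain_append] at h1
            exact h1.1
          let w₁ : ReducedWord K₀ A B := ⟨w.head, l, hch⟩
          let c : toSubgroup A B (-v) := toSubgroupEquiv φ v ⟨g, hg⟩
          have hc1 : p L = w₁.prod φ * of (c : K₀) := by
            rw [hpL, prod_eq, h, pr_append, prod_eq]
            have := tu φ v ⟨g, hg⟩
            rw [show (of (c : K₀) : HNNExtension K₀ A B φ) = _ from this.symm]
            simp [pr, w₁, mul_assoc]
          obtain ⟨w', h1, h2, h3⟩ := modLast φ w₁ (c : K₀)
          obtain ⟨τ, c1, c2, c3⟩ := ih w' (by rw [hc1, h1]) hs'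
          have hlen : w'.toList.length = l.length := by
            have := congrArg List.length h2
            simpa [w₁] using this
          rw [hlen] at c1 c2
          have hwl : w.toList.length = l.length + 1 := by rw [h]; simp
          refine ⟨fun i => if i < l.length then τ i else L, ?_, ?_, ?_⟩
          · intro i hi
            simp only
            split_ifs with h5
            · exact (c1 i h5).trans (by omega)
            · omega
          · intro i j hij hj
            rw [hwl] at hj
            simp only
            rw [if_pos (by omega)]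
            split_ifs with h5
            · exact c2 i j hij h5
            · exact c1 i (by omega)
          · intro i u hiu
            have hi := lt_of_some hiu
            rw [hwl] at hi
            simp only
            rcases Nat.lt_succ_iff_lt_or_eq.1 hi with hi' | rfl
            · rw [if_pos hi']
              have e1 : (w'.toList.map Prod.fst)[i]? = some u := by
                rw [h2]
                rw [h] at hiu
                rw [List.map_append, List.getElem?_append_left (by simpa using hi')] at hiu
                exact hiu
              obtain ⟨d1, x, hx, d2⟩ := c3 i u e1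
              refine ⟨d1, x, hx, ?_⟩
              rw [d2, h3 i hi', pre_eq, pre_eq, h, List.take_append_of_le_length (by omega)]
            · rw [if_neg (by omega)]
              have e1 : u = v := by
                rw [h] at hiu
                simpa using hiu.symm
              subst e1
              refine ⟨hu, c, c.2, ?_⟩
              rw [hc1, pre_eq, h, prod_eq, List.take_append_of_le_length le_rfl, List.take_length]
        · let w' : ReducedWord K₀ A B := ⟨w.head, w.toList ++ [(-u, 1)], by
            rw [List.isChain_append]
            refine ⟨w.chain, by simp, fun x hx y hy hm => ?_⟩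
            obtain rfl : (-u, 1) = y := by simpa using hy
            obtain rfl : (v, g) = x := by
              rw [h] at hx
              simpa using hx
            simp only at hm ⊢
            have h5 : v ≠ u := fun e => hc ⟨e, hm⟩
            rcases Int.units_eq_one_or u with rfl | rfl <;>
              rcases Int.units_eq_one_or v with rfl | rfl <;> simp_all⟩
          have hw' : p L = w'.prod φ := by
            rw [hpL, prod_eq, prod_eq]
            change _ = of w.head * pr φ (w.toList ++ [(-u, 1)])
            rw [pr_append]
            simp [pr, mul_assoc]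
          obtain ⟨τ, c1, c2, c3⟩ := ih w' hw' hs'
          have hlen : w'.toList.length = w.toList.length + 1 := by simp [w']
          refine ⟨τ, fun i hi => (c1 i (by omega)).trans (by omega),
            fun i j hij hj => c2 i j hij (by omega), fun i u' hiu => ?_⟩
          have hi := lt_of_some hiu
          have e1 : (w'.toList.map Prod.fst)[i]? = some u' := by
            change ((w.toList ++ [(-u, 1)]).map Prod.fst)[i]? = some u'
            rw [List.map_append, List.getElem?_append_left (by simpa using hi)]
            exact hiu
          obtain ⟨d1, x, hx, d2⟩ := c3 i u' e1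
          refine ⟨d1, x, hx, ?_⟩
          rw [d2, pre_eq, pre_eq]
          change of w.head * pr φ ((w.toList ++ [(-u, 1)]).take i) * _ = _
          rw [List.take_append_of_le_length (by omega)]

end CRS

theorem t_CRS : S_CRS := by
  intro K₀ _ A B φ w L p h0 hL hs
  obtain ⟨τ, c1, c2, c3⟩ := CRS.main φ p h0 L w hL hs
  refine ⟨τ, c1, c2, fun i hi => ?_⟩
  exact c3 i _ (by simp [hi])

end Pool.Agent.NH54.MG
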