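import Pool.Agent.NH54.MG.Stm

/-!
# Project MG, part CW: the words of the elements of `C` and `Θ C`
-/

set_option autoImplicit false

open Set Filter Topology

namespace Pool.Agent.NH54.MG

namespace CW

open FreeGroup

variable (P : Par)

theorem y_word (p : ℤ) : y p = FreeGroup.mk [(p, true)] := rfl

theorem y_inv_word (p : ℤ) : (y p)⁻¹ = FreeGroup.mk [(p, false)] := rfl

theorem of_reduced {L : List (ℤ × Bool)} (h : IsReduced L) : (FreeGroup.mk L).toWord = L := by
  rw [FreeGroup.toWord_mk, h.reduce_eq]

theorem red_cons {a b : ℤ × Bool} {L : List (ℤ × Bool)} (h : IsReduced (b :: L))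
    (hab : a.1 ≠ b.1) : IsReduced (a :: b :: L) :=
  List.isChain_cons_cons.2 ⟨fun e => absurd e hab, h⟩

theorem red_cons' {a : ℤ × Bool} {L : List (ℤ × Bool)} (h : IsReduced L)
    (hab : ∀ b ∈ L.head?, a.1 = b.1 → a.2 = b.2) : IsReduced (a :: L) := by
  cases L with
  | nil => exact IsReduced.singleton
  | cons b L => exact List.isChain_cons_cons.2 ⟨hab b rfl, h⟩

theorem red_tail {a : ℤ × Bool} {L : List (ℤ × Bool)} (h : IsReduced (a :: L)) : IsReduced L :=
  (List.isChain_cons.1 h).2

/-- left multiplication by a generator -/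
theorem mul_left {n i j : ℕ} (hi : i < P.q n) (hj : j < P.q n) (c : N) (hc : CW P c.toWord) :
    CW P ((y (P.al n i))⁻¹ * y (P.al n j) * c).toWord := by
  have hred : IsReduced c.toWord := isReduced_toWord
  have hcm : c = FreeGroup.mk c.toWord := FreeGroup.mk_toWord.symm
  generalize c.toWord = L at hc hred hcm
  subst hcm
  by_cases hij : i = j
  · subst hij
    rw [inv_mul_cancel, one_mul, of_reduced hred]
    exact hc
  have hal : P.al n i ≠ P.al n j := fun h => hij (P.al_inj hi hj h).2
  have hmk : ∀ L : List (ℤ × Bool), (y (P.al n i))⁻¹ * y (P.al n j) * FreeGroup.mk L =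
      FreeGroup.mk ((P.al n i, false) :: (P.al n j, true) :: L) := fun L => by
    rw [y_inv_word, y_word, FreeGroup.mul_mk, FreeGroup.mul_mk]
    rfl
  cases hc with
  | nil =>
    rw [hmk, of_reduced (red_cons (red_cons' IsReduced.nil (by simp)) hal)]
    exact CW.cons n i j _ hi hj CW.nil
  | cons n' i' j' L hi' hj' hL =>
    by_cases he : P.al n j = P.al n' i'
    · obtain ⟨rfl, rfl⟩ := P.al_inj hj hi' he
      have hmk2 : (y (P.al n i))⁻¹ * y (P.al n j) *
          FreeGroup.mk ((P.al n j, false) :: (P.al n j', true) :: L) =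
          FreeGroup.mk ((P.al n i, false) :: (P.al n j', true) :: L) := by
        have h1 : FreeGroup.mk ((P.al n j, false) :: (P.al n j', true) :: L) =
            (y (P.al n j))⁻¹ * FreeGroup.mk ((P.al n j', true) :: L) := by
          rw [y_inv_word, FreeGroup.mul_mk]
          rfl
        rw [h1, mul_assoc, mul_inv_cancel_left, y_inv_word, FreeGroup.mul_mk]
        rfl
      rw [hmk2]
      have hr1 : IsReduced ((P.al n j', true) :: L) := red_tail hred
      by_cases hij' : i = j'
      · subst hij'
        have h2 : FreeGroup.mk ((P.al n i, false) :: (P.al n i, true) :: L) = FreeGroup.mk L := by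
          have h3 : FreeGroup.mk ((P.al n i, false) :: (P.al n i, true) :: L) =
              (y (P.al n i))⁻¹ * (y (P.al n i) * FreeGroup.mk L) := by
            rw [y_inv_word, y_word, FreeGroup.mul_mk, FreeGroup.mul_mk]
            rfl
          rw [h3, inv_mul_cancel_left]
        rw [h2, of_reduced (red_tail hr1)]
        exact hL
      · have hal' : P.al n i ≠ P.al n j' := fun h => hij' (P.al_inj hi hj' h).2
        rw [of_reduced (red_cons hr1 hal')]
        exact CW.cons n i j' _ hi hj' hL
    · rw [hmk, of_reduced (red_cons (red_cons hred he) hal)]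
      exact CW.cons n i j _ hi hj (CW.cons n' i' j' L hi' hj' hL)

theorem cw_of_mem {c : N} (hc : c ∈ P.CN) : CW P c.toWord := by
  refine Subgroup.closure_induction_left (p := fun c _ => CW P c.toWord) ?_ ?_ ?_ hc
  · rw [FreeGroup.toWord_one]
    exact CW.nil
  · rintro _ ⟨n, i, j, hi, hj, rfl⟩ c _ h
    exact mul_left P hi hj c h
  · rintro _ ⟨n, i, j, hi, hj, rfl⟩ c _ h
    rw [mul_inv_rev, inv_inv]
    exact mul_left P hj hi c h

/-! ### expansions -/

theorem ex_al {n j : ℕ} (hj : j < P.q n) (b : Bool) : ex P (P.al n j, b) =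
    if j + 1 < P.q n then [(P.al n (j + 1), b)] else
      if b then [(P.al n 0, true), (P.sg n, true)] else [(P.sg n, false), (P.al n 0, false)] := by
  simp only [ex, P.dec_al hj]

theorem Th_y (p : ℤ) : P.Th (y p) = P.thL p := by
  show FreeGroup.lift P.thL (FreeGroup.of p) = P.thL p
  rw [FreeGroup.lift_apply_of]

theorem thL_eq (p : ℤ) : P.thL p = FreeGroup.mk (ex P (p, true)) := by
  rcases h : P.dec p with _ | x
  · simp only [Par.thL, ex, h]
    rfl
  · simp only [Par.thL, ex, h]
    split_ifs
    · rfl
    · rw [y_word, y_word, FreeGroup.mul_mk]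
      rfl

theorem thL_inv_eq (p : ℤ) : (P.thL p)⁻¹ = FreeGroup.mk (ex P (p, false)) := by
  rcases h : P.dec p with _ | x
  · simp only [Par.thL, ex, h]
    rfl
  · simp only [Par.thL, ex, h]
    split_ifs with h1 h2
    · rfl
    · exact absurd h2 (by simp)
    · rw [mul_inv_rev, y_inv_word, y_inv_word, FreeGroup.mul_mk]
      rfl

theorem Th_mk (L : List (ℤ × Bool)) : P.Th (FreeGroup.mk L) = FreeGroup.mk (L.flatMap (ex P)) := by
  induction L with
  | nil => exact map_one P.Th
  | cons x L ih =>
    have h1 : FreeGroup.mk (x :: L) = FreeGroup.mk [x] * FreeGroup.mk L := by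
      rw [FreeGroup.mul_mk]
      rfl
    have h2 : P.Th (FreeGroup.mk [x]) = FreeGroup.mk (ex P x) := by
      rcases x with ⟨p, _ | _⟩
      · rw [← y_inv_word, ← thL_inv_eq, ← Th_y]
        exact P.Th.map_inv (y p)
      · rw [← y_word, Th_y, thL_eq]
    rw [h1, List.flatMap_cons, ← FreeGroup.mul_mk, ← h2, ← ih]
    exact P.Th.map_mul _ _

theorem s_lt {m n : ℕ} (h : m < n) : P.s m < P.s n := by
  have h1 := P.a_mono h
  have h2 := P.sa m
  omega

theorem sg_inj {m n : ℕ} (h : P.sg m = P.sg n) : m = n := by
  have h1 : P.s m = P.s n := by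
    have : (4 : ℕ) ^ P.s m = 4 ^ P.s n := by
      simp only [Par.sg] at h
      exact_mod_cast h
    exact Nat.pow_right_injective (by norm_num) this
  rcases lt_trichotomy m n with h2 | h2 | h2
  · have := s_lt P h2
    omega
  · exact h2
  · have := s_lt P h2
    omega

/-- the first letter of the expansion of a negative letter -/
def fst (n i : ℕ) : ℤ × Bool := if i + 1 < P.q n then (P.al n (i + 1), false) else (P.sg n, false)

theorem ex_false {n i : ℕ} (hi : i < P.q n) :
    ∃ T, ex P (P.al n i, false) = fst P n i :: T ∧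
      (T = [] ∧ i + 1 < P.q n ∨ T = [(P.al n 0, false)] ∧ i + 1 = P.q n) := by
  rw [ex_al P hi, fst]
  by_cases h1 : i + 1 < P.q n
  · rw [if_pos h1, if_pos h1]
    exact ⟨[], rfl, Or.inl ⟨rfl, h1⟩⟩
  · rw [if_neg h1, if_neg h1]
    exact ⟨[(P.al n 0, false)], rfl, Or.inr ⟨rfl, by omega⟩⟩

theorem flat_reduced {L : List (ℤ × Bool)} (hL : CW P L) (hr : IsReduced L) :
    IsReduced (L.flatMap (ex P)) ∧ ∀ (n i : ℕ) (T : List (ℤ × Bool)), i < P.q n →
      L = (P.al n i, false) :: T → (L.flatMap (ex P)).head? = some (fst P n i) := by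
  induction hL with
  | nil => exact ⟨IsReduced.nil, fun n i T _ h => by cases h⟩
  | cons n i j L hi hj hL ih =>
    have hr1 : IsReduced ((P.al n j, true) :: L) := red_tail hr
    obtain ⟨ih1, ih2⟩ := ih (red_tail hr1)
    have hij : i ≠ j := by
      rintro rfl
      have := (List.isChain_cons_cons.1 hr).1 rfl
      simp at this
    -- the boundary after the positive letter
    have hbd : ∀ b ∈ (L.flatMap (ex P)).head?, ∀ a : ℤ × Bool,
        (a = (P.al n (j + 1), true) ∧ j + 1 < P.q n ∨ a = (P.sg n, true) ∧ j + 1 = P.q n) →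
        a.1 = b.1 → a.2 = b.2 := by
      intro b hb a ha hab
      exfalso
      cases hL with
      | nil => simp at hb
      | cons n' i' j' L' hi' hj' hL' =>
        rw [ih2 n' i' _ hi' rfl, Option.mem_some_iff] at hb
        subst hb
        have hne : ¬ (n = n' ∧ j = i') := by
          rintro ⟨rfl, rfl⟩
          have := (List.isChain_cons_cons.1 hr1).1 rfl
          simp at this
        rw [fst] at hab
        rcases ha with ⟨rfl, h1⟩ | ⟨rfl, h1⟩
        · split_ifs at hab with h2
          · obtain ⟨h3, h4⟩ := P.al_inj h1 h2 hab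
            exact hne ⟨h3, by omega⟩
          · exact P.al_ne_sg h1 hab
        · split_ifs at hab with h2
          · exact P.al_ne_sg h2 hab.symm
          · have h3 := sg_inj P hab
            subst h3
            exact hne ⟨rfl, by omega⟩
    have hpos : IsReduced (ex P (P.al n j, true) ++ L.flatMap (ex P)) ∧
        ∀ b ∈ (ex P (P.al n j, true) ++ L.flatMap (ex P)).head?,
          (b.1 = P.al n (j + 1) ∧ j + 1 < P.q n) ∨ (b.1 = P.al n 0 ∧ j + 1 = P.q n) := by
      rw [ex_al P hj]
      by_cases h1 : j + 1 < P.q n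
      · rw [if_pos h1]
        constructor
        · exact red_cons' ih1 fun b hb => hbd b hb _ (Or.inl ⟨rfl, h1⟩)
        · intro b hb
          simp only [List.cons_append, List.nil_append, List.head?_cons, Option.mem_some_iff] at hb
          subst hb
          exact Or.inl ⟨rfl, h1⟩
      · rw [if_neg h1, if_pos rfl]
        constructor
        · refine red_cons (a := (P.al n 0, true)) (b := (P.sg n, true))
            (red_cons' ih1 fun b hb => hbd b hb _ (Or.inr ⟨rfl, by omega⟩))
            (P.al_ne_sg (by omega))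
        · intro b hb
          simp only [List.cons_append, List.nil_append, List.head?_cons, Option.mem_some_iff] at hb
          subst hb
          exact Or.inr ⟨rfl, by omega⟩
    obtain ⟨T, hT, hT'⟩ := ex_false P hi
    constructor
    · rw [List.flatMap_cons, List.flatMap_cons, hT]
      have hlast : IsReduced (T ++ (ex P (P.al n j, true) ++ L.flatMap (ex P))) ∧
          (T = [] ∨ T = [(P.al n 0, false)]) := by
        rcases hT' with ⟨rfl, h1⟩ | ⟨rfl, h1⟩
        · exact ⟨hpos.1, Or.inl rfl⟩
        · refine ⟨red_cons' hpos.1 ?_, Or.inr rfl⟩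
          intro b hb hab
          exfalso
          rcases hpos.2 b hb with ⟨h2, h3⟩ | ⟨h2, h3⟩
          · have := P.al_inj (by omega) h3 (hab.trans h2)
            omega
          · omega
      rw [List.cons_append]
      refine red_cons' hlast.1 ?_
      intro b hb hab
      exfalso
      rcases hT' with ⟨rfl, h1⟩ | ⟨rfl, h1⟩
      · rw [fst, if_pos h1] at hab
        rw [List.nil_append] at hb
        rcases hpos.2 b hb with ⟨h2, h3⟩ | ⟨h2, h3⟩
        · have := P.al_inj h1 h3 (hab.trans h2)
          omega
        · have := P.al_inj h1 (by omega) (hab.trans h2)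
          omega
      · rw [fst, if_neg (by omega)] at hab
        simp only [List.cons_append, List.nil_append, List.head?_cons, Option.mem_some_iff] at hb
        subst hb
        exact P.al_ne_sg (show 0 < P.q n by omega) hab.symm
    · intro n' i' T' hi' hLT
      rw [List.cons.injEq, Prod.mk.injEq] at hLT
      obtain ⟨⟨h1, _⟩, _⟩ := hLT
      obtain ⟨rfl, rfl⟩ := P.al_inj hi hi' h1
      rw [List.flatMap_cons, hT, List.cons_append, List.head?_cons]

end CW

/-- the words of the elements of `C` and `Θ C` -/
theorem t_CW : S_CW := by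
  intro P c hc
  have h1 := CW.cw_of_mem P hc
  refine ⟨h1, ?_⟩
  have h2 := (CW.flat_reduced P h1 FreeGroup.isReduced_toWord).1
  conv_lhs => rw [← FreeGroup.mk_toWord (x := c), CW.Th_mk]
  exact CW.of_reduced h2

end Pool.Agent.NH54.MG
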