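import Pool.Agent.NH54.MG.Stm

/-!
# MG-D1: Morse paths progress in the tree (helper49)
-/

set_option autoImplicit false

open Set Filter Topology HNNExtension HNNExtension.NormalWord

namespace Pool.Agent.NH54.MG

namespace D1

section

variable {K₀ : Type} [Group K₀] {A B : Subgroup K₀} (φ : A ≃* B)

/-- an element of an associated subgroup moves across the letter `t ^ u` -/
theorem swap (u : ℤˣ) {x : K₀} (hx : x ∈ toSubgroup A B (-u)) :
    ∃ x' : K₀, (of x * t ^ (u : ℤ) : HNNExtension K₀ A B φ) = t ^ (u : ℤ) * of x' := by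
  rcases Int.units_eq_one_or u with rfl | rfl
  · rw [toSubgroup_neg_one] at hx
    refine ⟨(φ.symm ⟨x, hx⟩ : K₀), ?_⟩
    have h := of_mul_t (φ := φ) ⟨x, hx⟩
    simpa using h
  · rw [neg_neg, toSubgroup_one] at hx
    refine ⟨(φ ⟨x, hx⟩ : K₀), ?_⟩
    have h := t_mul_of (φ := φ) ⟨x, hx⟩
    simp only [Units.val_neg, Units.val_one, zpow_neg, zpow_one]
    rw [eq_inv_mul_iff_mul_eq, ← mul_assoc, mul_inv_eq_iff_eq_mul]
    exact h

theorem pre_zero (w : ReducedWord K₀ A B) : pre φ w 0 = of w.head := by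
  simp [pre]

theorem pre_succ (w : ReducedWord K₀ A B) (i : ℕ) (hi : i < w.toList.length) :
    pre φ w (i + 1) = pre φ w i * (t ^ ((w.toList[i].1 : ℤˣ) : ℤ) * of w.toList[i].2) := by
  unfold pre
  rw [← List.take_concat_get' _ _ hi, List.map_append, List.prod_append, mul_assoc]
  simp

theorem pre_len (w : ReducedWord K₀ A B) : pre φ w w.toList.length = w.prod φ := by
  unfold pre ReducedWord.prod
  rw [List.take_length]

/-- the pieces of a path between its crossings -/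
theorem pieces (h4 : S_CRS) (w : ReducedWord K₀ A B) (L : ℕ) (p : ℕ → HNNExtension K₀ A B φ)
    (hp0 : p 0 = 1) (hpL : p L = w.prod φ)
    (hst : ∀ i < L, (∃ k : K₀, p (i + 1) = p i * of k) ∨ ∃ u : ℤˣ, p (i + 1) = p i * t ^ (u : ℤ))
    (R : ℕ) (hR : ∀ i j : ℕ, i ≤ j → j ≤ L → (∃ k : K₀, (p i)⁻¹ * p j = of k) → j - i ≤ R) :
    L ≤ (w.toList.length + 1) * (R + 1) := by
  obtain ⟨τ, hτ1, hτ2, hτ3⟩ := h4 K₀ A B φ w L p hp0 hpL hst
  -- the cosets
  have hin0 : ∃ k : K₀, p 0 = pre φ w 0 * of k := ⟨w.head⁻¹, by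
    rw [hp0, pre_zero, ← map_mul, mul_inv_cancel, map_one]⟩
  have hinL : ∃ k : K₀, p L = pre φ w w.toList.length * of k := ⟨1, by
    rw [hpL, pre_len, map_one, mul_one]⟩
  have hinτ : ∀ i, i < w.toList.length → ∃ k : K₀, p (τ i) = pre φ w i * of k := by
    intro i hi
    obtain ⟨-, x, -, hx⟩ := hτ3 i hi
    exact ⟨x, hx⟩
  have hinτ' : ∀ i, i < w.toList.length → ∃ k : K₀, p (τ i + 1) = pre φ w (i + 1) * of k := by
    intro i hi
    obtain ⟨h1, x, hx, hx2⟩ := hτ3 i hi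
    obtain ⟨x', hx'⟩ := swap φ _ hx
    refine ⟨(w.toList[i].2)⁻¹ * x', ?_⟩
    rw [h1, hx2, mul_assoc, hx', pre_succ φ w i hi, map_mul, map_inv]
    group
  have hco : ∀ (i : ℕ) (x z : HNNExtension K₀ A B φ), (∃ k : K₀, x = pre φ w i * of k) →
      (∃ k : K₀, z = pre φ w i * of k) → ∃ k : K₀, x⁻¹ * z = of k := by
    rintro i x z ⟨k, rfl⟩ ⟨k', rfl⟩
    refine ⟨k⁻¹ * k', ?_⟩
    rw [map_mul, map_inv]
    group
  -- the crossing times
  have hind : ∀ i, i < w.toList.length → τ i + 1 ≤ (i + 1) * (R + 1) := by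
    intro i
    induction i with
    | zero =>
      intro hi
      have h := hR 0 (τ 0) (Nat.zero_le _) (hτ1 0 hi).le (hco 0 _ _ hin0 (hinτ 0 hi))
      omega
    | succ i ih =>
      intro hi
      have h := ih (by omega)
      have h2 := hτ2 i (i + 1) (by omega) hi
      have h3 := hR (τ i + 1) (τ (i + 1)) (by omega) (hτ1 _ hi).le
        (hco (i + 1) _ _ (hinτ' i (by omega)) (hinτ (i + 1) hi))
      have h4 : (i + 1 + 1) * (R + 1) = (i + 1) * (R + 1) + (R + 1) := by ring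
      omega
  rcases Nat.eq_zero_or_pos w.toList.length with h0 | h0
  · have h := hR 0 L (Nat.zero_le _) le_rfl (hco 0 _ _ hin0 (by rw [h0] at hinL; exact hinL))
    rw [h0]
    omega
  · obtain ⟨m, hm⟩ : ∃ m, w.toList.length = m + 1 := ⟨w.toList.length - 1, by omega⟩
    have h1 := hind m (by omega)
    have h2 := hinτ' m (by omega)
    rw [← hm] at h2
    have h3 := hR (τ m + 1) L (by have := hτ1 m (by omega); omega) le_rfl (hco _ _ _ h2 hinL)
    rw [hm]
    have h4 : (m + 1 + 1) * (R + 1) = (m + 1) * (R + 1) + (R + 1) := by ring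
    omega

end

/-- the steps of a path in the Cayley graph -/
theorem step (P : Par) {x z : P.G} (h : x⁻¹ * z ∈ P.S ∨ (x⁻¹ * z)⁻¹ ∈ P.S) :
    (∃ k : K, z = x * of k) ∨ ∃ u : ℤˣ, z = x * t ^ (u : ℤ) := by
  have hS : ∀ g : P.G, g ∈ P.S → (∃ k : K, g = of k) ∨ g = t := by
    intro g hg
    simp only [Par.S, Set.mem_insert_iff, Set.mem_singleton_iff] at hg
    rcases hg with h | h | h | h | h
    · exact Or.inl ⟨_, h⟩
    · exact Or.inl ⟨_, h⟩
    · exact Or.inl ⟨_, h⟩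
    · exact Or.inl ⟨_, h⟩
    · exact Or.inr h
  have hz : z = x * (x⁻¹ * z) := by group
  rcases h with h | h
  · rcases hS _ h with ⟨k, hk⟩ | hk
    · exact Or.inl ⟨k, by rw [← hk]; exact hz⟩
    · refine Or.inr ⟨1, ?_⟩
      rw [Units.val_one, zpow_one, ← hk]
      exact hz
  · rcases hS _ h with ⟨k, hk⟩ | hk
    · refine Or.inl ⟨k⁻¹, ?_⟩
      rw [map_inv, ← hk, inv_inv]
      exact hz
    · refine Or.inr ⟨-1, ?_⟩
      rw [Units.val_neg, Units.val_one, zpow_neg, zpow_one, ← hk, inv_inv]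
      exact hz

end D1

open D1

theorem t_D1 (h1 : S_WL) (h2 : S_GEN) (h3 : S_TL) (h4 : S_CRS) (h5 : S_D1A) : S_D1 := by
  intro P M hM l e hl he
  obtain ⟨R, hR⟩ := h5 P M hM l e hl he
  refine ⟨l * (R + 1 + e), ?_, ?_⟩
  · have hR0 : (0 : ℝ) ≤ R := Nat.cast_nonneg R
    nlinarith
  intro a b γ hab hQ hMr s hs s' hs'
  obtain ⟨-, -, -, -, -, -, hgeo, -⟩ := h1 P.G P.S (h2 P).1
  obtain ⟨p₀, hp0, hpn, hpst, hpl⟩ := hgeo ((γ s)⁻¹ * γ s')
  obtain ⟨htl, hex, -⟩ := h3 K P.CK P.CK' P.th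
  obtain ⟨w, hw⟩ := hex ((γ s)⁻¹ * γ s')
  have hkey : wl P.S ((γ s)⁻¹ * γ s') ≤ (w.toList.length + 1) * (R + 1) := by
    refine pieces P.th h4 w (wl P.S ((γ s)⁻¹ * γ s')) p₀ hp0 (hpn.trans hw.symm) ?_ R ?_
    · intro i hi
      exact step P (hpst i hi)
    · intro i j hij hj hk
      refine hR a b γ hab hQ hMr s hs s' hs' (wl P.S ((γ s)⁻¹ * γ s')) (fun i => γ s * p₀ i)
        ?_ ?_ ?_ i j hij hj ?_
      · show γ s * p₀ 0 = γ s
        rw [hp0, mul_one]
      · show γ s * p₀ (wl P.S ((γ s)⁻¹ * γ s')) = γ s'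
        rw [hpn]
        group
      · intro i j hij hj
        show wl P.S ((γ s * p₀ i)⁻¹ * (γ s * p₀ j)) = j - i
        rw [← hpl i j hij hj]
        congr 1
        group
      · obtain ⟨k, hk⟩ := hk
        refine ⟨k, ?_⟩
        show (γ s * p₀ i)⁻¹ * (γ s * p₀ j) = of k
        rw [← hk]
        group
  have hd : dT P.th (γ s) (γ s') = w.toList.length := by
    unfold dT
    rw [← hw, htl w]
  have hq := (hQ s hs s' hs').1
  have hwd : wd P.S (γ s) (γ s') = wl P.S ((γ s)⁻¹ * γ s') := rfl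
  rw [hwd] at hq
  have hkey' : (wl P.S ((γ s)⁻¹ * γ s') : ℝ) ≤ (w.toList.length + 1) * (R + 1) := by
    exact_mod_cast hkey
  rw [hd]
  have hl0 : 0 < l := by linarith
  have h6 : |s - s'| / l ≤ (w.toList.length + 1) * (R + 1) + e := by linarith
  rw [div_le_iff₀ hl0] at h6
  have hm0 : (0 : ℝ) ≤ w.toList.length := Nat.cast_nonneg _
  have h7 : 0 ≤ l * e * (w.toList.length : ℝ) := by positivity
  nlinarith

end Pool.Agent.NH54.MG
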