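import Pool.Agent.NH54.MG.Stm

/-!
# Project MG, job MG-D1A: a Morse path stays only a bounded time in a coset of `K`
-/

set_option autoImplicit false

open Set Filter Topology HNNExtension HNNExtension.NormalWord

namespace Pool.Agent.NH54.MG

namespace D1A

theorem iv {ρ : ℕ → ℝ} {J v : ℝ} {i j : ℕ} (hij : i ≤ j)
    (hs : ∀ k, i ≤ k → k < j → |ρ k - ρ (k + 1)| ≤ J) (h1 : ρ i ≤ v + J) (h2 : v - J ≤ ρ j) :
    ∃ k, i ≤ k ∧ k ≤ j ∧ |ρ k - v| ≤ J := by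
  by_contra hno
  push Not at hno
  have key : ∀ k, i ≤ k → k ≤ j → ρ k < v - J := by
    intro k hk
    induction k, hk using Nat.le_induction with
    | base =>
      intro _
      have h3 := hno i le_rfl hij
      rcases lt_abs.1 h3 with h4 | h4 <;> linarith
    | succ k hk ih =>
      intro hkj
      have h3 := ih (by omega)
      have h4 := abs_le.1 (hs k hk (by omega))
      have h5 := hno (k + 1) (by omega) hkj
      rcases lt_abs.1 h5 with h6 | h6 <;> linarith [h4.1, h4.2]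
  have := key j hij le_rfl
  linarith

theorem iv' {ρ : ℕ → ℝ} {J v : ℝ} {i j : ℕ} (hij : i ≤ j)
    (hs : ∀ k, i ≤ k → k < j → |ρ k - ρ (k + 1)| ≤ J) (h1 : v - J ≤ ρ i) (h2 : ρ j ≤ v + J) :
    ∃ k, i ≤ k ∧ k ≤ j ∧ |ρ k - v| ≤ J := by
  obtain ⟨k, h3, h4, h5⟩ := iv (ρ := fun k => - ρ k) (J := J) (v := -v) hij
    (fun k hk hk' => by
      have := hs k hk hk'
      rw [abs_sub_comm] at this
      rw [show - ρ k - - ρ (k + 1) = ρ (k + 1) - ρ k by ring]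
      exact this) (by linarith) (by linarith)
  refine ⟨k, h3, h4, ?_⟩
  rw [show - ρ k - -v = v - ρ k by ring, abs_sub_comm] at h5
  exact h5

variable {X : Type} {d : X → X → ℝ}

theorem close {M : ℝ → ℝ → ℝ} {a b : ℝ} {γ : ℝ → X} (hM : Mrs d M a b γ) {C e0 : ℝ} (hC : 1 ≤ C)
    (he : 0 ≤ e0) (L : ℕ) (ζ : ℕ → X)
    (h1 : ∀ i ≤ L, ∀ j ≤ L, d (ζ i) (ζ j) ≤ |(i : ℝ) - j| + e0)
    (h2 : ∀ i ≤ L, ∀ j ≤ L, |(i : ℝ) - j| ≤ C * d (ζ i) (ζ j) + C * e0)
    (hs : ∃ s ∈ Icc a b, γ s = ζ 0) (hs' : ∃ s ∈ Icc a b, γ s = ζ L) :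
    ∀ i ≤ L, ∃ s ∈ Icc a b, d (ζ i) (γ s) ≤ M C (e0 + 1) := by
  intro i hi
  have hQ : QG d C (e0 + 1) 0 L (fun t => ζ ⌊t⌋₊) := by
    intro s hs t ht
    have hfs : ⌊s⌋₊ ≤ L := Nat.floor_le_of_le hs.2
    have hft : ⌊t⌋₊ ≤ L := Nat.floor_le_of_le ht.2
    have a1 := Nat.floor_le hs.1
    have a2 := Nat.lt_floor_add_one s
    have a3 := Nat.floor_le ht.1
    have a4 := Nat.lt_floor_add_one t
    have b1 : |(s - t) - ((⌊s⌋₊ : ℝ) - ⌊t⌋₊)| ≤ 1 := by
      rw [abs_le]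
      constructor <;> linarith
    have b2 : |s - t| ≤ |(⌊s⌋₊ : ℝ) - ⌊t⌋₊| + 1 := by
      have := abs_sub_abs_le_abs_sub (s - t) ((⌊s⌋₊ : ℝ) - ⌊t⌋₊)
      linarith
    have b3 : |(⌊s⌋₊ : ℝ) - ⌊t⌋₊| ≤ |s - t| + 1 := by
      have := abs_sub_abs_le_abs_sub ((⌊s⌋₊ : ℝ) - ⌊t⌋₊) (s - t)
      rw [abs_sub_comm] at this
      have h5 : |(⌊s⌋₊ : ℝ) - ⌊t⌋₊| - |s - t| ≤ |(s - t) - ((⌊s⌋₊ : ℝ) - ⌊t⌋₊)| := by
        rw [abs_sub_comm (s - t)]
        exact abs_sub_abs_le_abs_sub _ _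
      linarith
    constructor
    · have h3 := h2 _ hfs _ hft
      rw [sub_le_iff_le_add, div_le_iff₀ (by linarith)]
      show |s - t| ≤ (d (ζ ⌊s⌋₊) (ζ ⌊t⌋₊) + (e0 + 1)) * C
      nlinarith
    · have h3 := h1 _ hfs _ hft
      have h4 : |s - t| ≤ C * |s - t| := le_mul_of_one_le_left (abs_nonneg _) hC
      show d (ζ ⌊s⌋₊) (ζ ⌊t⌋₊) ≤ C * |s - t| + (e0 + 1)
      linarith
  obtain ⟨s, hs1, hs2⟩ := hM C (e0 + 1) hC (by linarith) 0 L (fun t => ζ ⌊t⌋₊) (Nat.cast_nonneg _) hQ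
    (by simpa using hs) (by simpa using hs') i ⟨Nat.cast_nonneg _, by exact_mod_cast hi⟩
  exact ⟨s, hs1, by simpa using hs2⟩

theorem steps (hd : PM d) {L : ℕ} {ζ : ℕ → X} (h : ∀ i < L, d (ζ i) (ζ (i + 1)) ≤ 1) :
    ∀ i j : ℕ, i ≤ j → j ≤ L → d (ζ i) (ζ j) ≤ (j : ℝ) - i := by
  intro i j hij
  induction j, hij using Nat.le_induction with
  | base =>
    intro _
    rw [hd.self]
    simp
  | succ j hj ih =>
    intro hjL
    have h1 := ih (by omega)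
    have h2 := hd.tri (ζ i) (ζ j) (ζ (j + 1))
    have h3 := h j (by omega)
    push_cast
    linarith

theorem close2 (hd : PM d) {M : ℝ → ℝ → ℝ} {a b : ℝ} {γ : ℝ → X} (hM : Mrs d M a b γ) {C m : ℝ}
    (hC : 1 ≤ C) (hm : 0 ≤ m) (L : ℕ) (ζ : ℕ → X) (hst : ∀ i < L, d (ζ i) (ζ (i + 1)) ≤ 1)
    (hpr : ∀ i j : ℕ, i ≤ j → j ≤ L → (j - i : ℝ) ≤ C * d (ζ i) (ζ j) + C)
    (hs : ∃ s ∈ Icc a b, d (ζ 0) (γ s) ≤ m) (hs' : ∃ s ∈ Icc a b, d (ζ L) (γ s) ≤ m) :
    ∀ i ≤ L, ∃ s ∈ Icc a b, d (ζ i) (γ s) ≤ M C (2 * m + 4) := by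
  obtain ⟨u, hu, hu'⟩ := hs
  obtain ⟨v, hv, hv'⟩ := hs'
  let f : ℕ → ℕ := fun k => min (k - 1) L
  let ξ : ℕ → X := fun k => if k = 0 then γ u else if k ≤ L + 1 then ζ (k - 1) else γ v
  have hfL : ∀ k, f k ≤ L := fun k => min_le_right _ _
  have hf : ∀ k ≤ L + 2, |(k : ℝ) - 1 - f k| ≤ 1 := by
    intro k hk
    rw [abs_le]
    rcases Nat.eq_zero_or_pos k with h0 | h0
    · subst h0
      simp [f]
    · obtain ⟨k', rfl⟩ : ∃ k', k = k' + 1 := ⟨k - 1, by omega⟩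
      simp only [f, Nat.add_sub_cancel]
      rcases le_total k' L with h1 | h1
      · rw [min_eq_left h1]
        push_cast
        constructor <;> linarith
      · rw [min_eq_right h1]
        have h2 : (k' : ℝ) ≤ L + 1 := by exact_mod_cast (by omega : k' ≤ L + 1)
        have h3 : (L : ℝ) ≤ k' := by exact_mod_cast h1
        push_cast
        constructor <;> linarith
  have hξ : ∀ k ≤ L + 2, d (ξ k) (ζ (f k)) ≤ m := by
    intro k hk
    by_cases h0 : k = 0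
    · subst h0
      show d (γ u) (ζ (min (0 - 1) L)) ≤ m
      rw [Nat.zero_sub, Nat.zero_min, hd.symm]
      exact hu'
    · by_cases h1 : k ≤ L + 1
      · have h2 : ξ k = ζ (k - 1) := by
          simp only [ξ]
          rw [if_neg h0, if_pos h1]
        have h3 : f k = k - 1 := min_eq_left (by omega)
        rw [h2, h3, hd.self]
        exact hm
      · have h2 : ξ k = γ v := by
          simp only [ξ]
          rw [if_neg h0, if_neg h1]
        have h3 : f k = L := min_eq_right (by omega)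
        rw [h2, h3, hd.symm]
        exact hv'
  have hup : ∀ i ≤ L, ∀ j ≤ L, d (ζ i) (ζ j) ≤ |(i : ℝ) - j| := by
    intro i hi j hj
    rcases le_total i j with h | h
    · rw [abs_sub_comm]
      exact (steps hd hst i j h hj).trans (le_abs_self _)
    · rw [hd.symm]
      exact (steps hd hst j i h hi).trans (le_abs_self _)
  have hlo : ∀ i ≤ L, ∀ j ≤ L, |(i : ℝ) - j| ≤ C * d (ζ i) (ζ j) + C := by
    intro i hi j hj
    rcases le_total i j with h | h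
    · rw [abs_sub_comm, abs_of_nonneg (by
        rw [sub_nonneg]
        exact_mod_cast h)]
      exact hpr i j h hj
    · rw [hd.symm, abs_of_nonneg (by
        rw [sub_nonneg]
        exact_mod_cast h)]
      exact hpr j i h hi
  have hdiff : ∀ i ≤ L + 2, ∀ j ≤ L + 2, |((i : ℝ) - j) - ((f i : ℝ) - f j)| ≤ 2 := by
    intro i hi j hj
    have h1 := abs_le.1 (hf i hi)
    have h2 := abs_le.1 (hf j hj)
    rw [abs_le]
    constructor <;> linarith [h1.1, h1.2, h2.1, h2.2]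
  have h5 := close hM hC (e0 := 2 * m + 3) (by linarith) (L + 2) ξ ?_ ?_ ⟨u, hu, rfl⟩ ⟨v, hv, ?_⟩
  · intro i hi
    obtain ⟨s, hs, hs'⟩ := h5 (i + 1) (by omega)
    have h6 : ξ (i + 1) = ζ i := by
      simp only [ξ]
      rw [if_neg (by omega), if_pos (by omega), Nat.add_sub_cancel]
    rw [h6, show 2 * m + 3 + 1 = 2 * m + 4 by ring] at hs'
    exact ⟨s, hs, hs'⟩
  · intro i hi j hj
    have g1 := hξ i hi
    have g2 := hξ j hj
    have g3 := hup (f i) (hfL i) (f j) (hfL j)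
    have g4 := hd.tri (ξ i) (ζ (f i)) (ξ j)
    have g5 := hd.tri (ζ (f i)) (ζ (f j)) (ξ j)
    rw [hd.symm (ζ (f j)) (ξ j)] at g5
    have g6 := hdiff i hi j hj
    have g7 : |(f i : ℝ) - f j| - |(i : ℝ) - j| ≤ |((i : ℝ) - j) - ((f i : ℝ) - f j)| := by
      rw [abs_sub_comm ((i : ℝ) - j)]
      exact abs_sub_abs_le_abs_sub _ _
    linarith
  · intro i hi j hj
    have g1 := hξ i hi
    have g2 := hξ j hj
    have g3 := hlo (f i) (hfL i) (f j) (hfL j)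
    have g4 := hd.tri (ζ (f i)) (ξ i) (ζ (f j))
    rw [hd.symm (ζ (f i)) (ξ i)] at g4
    have g5 := hd.tri (ξ i) (ξ j) (ζ (f j))
    have g6 := hdiff i hi j hj
    have g7 : |(i : ℝ) - j| - |(f i : ℝ) - f j| ≤ |((i : ℝ) - j) - ((f i : ℝ) - f j)| :=
      abs_sub_abs_le_abs_sub _ _
    have g8 : C * d (ζ (f i)) (ζ (f j)) ≤ C * (d (ξ i) (ξ j) + 2 * m) :=
      mul_le_mul_of_nonneg_left (by linarith) (by linarith)
    nlinarith
  · simp only [ξ]
    rw [if_neg (by omega), if_neg (by omega)]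

theorem main (hd : PM d) {a b l e : ℝ} {γ : ℝ → X} (hl : 1 ≤ l) (he : 0 ≤ e)
    (hQ : QG d l e a b γ) {C m : ℝ} (hC : 1 ≤ C) (hm : 0 ≤ m) (R : ℕ) (p : ℕ → X)
    (hp : ∀ c ≤ R, ∃ s ∈ Icc a b, d (p c) (γ s) ≤ m)
    (hpd : ∀ i j : ℕ, i ≤ j → j ≤ R → d (p i) (p j) ≤ (j : ℝ) - i)
    (L : ℕ) (ζ : ℕ → X) (h0 : ζ 0 = p 0) (hL : ζ L = p R) (hst : ∀ i < L, d (ζ i) (ζ (i + 1)) ≤ 1)
    (hpr : ∀ i j : ℕ, i ≤ j → j ≤ L → (j - i : ℝ) ≤ C * d (ζ i) (ζ j) + C)
    (hζ : ∀ i ≤ L, ∃ s ∈ Icc a b, d (ζ i) (γ s) ≤ m) (z : ℕ) (hz : z ≤ L)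
    (h3 : 3 * (R : ℝ) ≤ d (p 0) (ζ z)) :
    (R : ℝ) ≤ C * (2 * m + l * (l * (2 * m + 1 + e)) + e) + C := by
  choose! σ hσ1 hσ2 using hp
  choose! ρ hρ1 hρ2 using hζ
  obtain ⟨J, hJ⟩ : ∃ J, J = l * (2 * m + 1 + e) := ⟨_, rfl⟩
  have hJ0 : 0 ≤ J := by
    rw [hJ]
    have : 0 ≤ 2 * m + 1 + e := by linarith
    exact mul_nonneg (by linarith) this
  -- parameters of close points are close
  have hpar : ∀ s ∈ Icc a b, ∀ t ∈ Icc a b, ∀ x x' : X, d x (γ s) ≤ m → d x' (γ t) ≤ m →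
      d x x' ≤ 1 → |s - t| ≤ J := by
    intro s hs t ht x x' hx hx' hxx
    have h4 := (hQ s hs t ht).1
    have h5 := hd.tri (γ s) x (γ t)
    have h6 := hd.tri x x' (γ t)
    rw [hd.symm (γ s) x] at h5
    rw [sub_le_iff_le_add, div_le_iff₀ (by linarith)] at h4
    rw [hJ]
    have : d (γ s) (γ t) + e ≤ 2 * m + 1 + e := by linarith
    calc |s - t| ≤ (d (γ s) (γ t) + e) * l := h4
      _ ≤ (2 * m + 1 + e) * l := mul_le_mul_of_nonneg_right this (by linarith)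
      _ = l * (2 * m + 1 + e) := by ring
  have hpt : ∀ s ∈ Icc a b, ∀ t ∈ Icc a b, ∀ x x' : X, d x (γ s) ≤ m → d x' (γ t) ≤ m →
      |s - t| ≤ J → d x x' ≤ 2 * m + l * J + e := by
    intro s hs t ht x x' hx hx' hst
    have h4 := (hQ s hs t ht).2
    have h5 := hd.tri x (γ s) x'
    have h6 := hd.tri (γ s) (γ t) x'
    rw [hd.symm (γ t) x'] at h6
    have h7 : l * |s - t| ≤ l * J := mul_le_mul_of_nonneg_left hst (by linarith)
    linarith
  have hσs : ∀ k, 0 ≤ k → k < R → |σ k - σ (k + 1)| ≤ J := fun k _ hk =>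
    hpar _ (hσ1 k (by omega)) _ (hσ1 (k + 1) (by omega)) _ _ (hσ2 k (by omega))
      (hσ2 (k + 1) (by omega)) (by
        have := hpd k (k + 1) (by omega) (by omega)
        push_cast at this
        linarith)
  have hρs : ∀ k, k < L → |ρ k - ρ (k + 1)| ≤ J := fun k hk =>
    hpar _ (hρ1 k (by omega)) _ (hρ1 (k + 1) (by omega)) _ _ (hρ2 k (by omega))
      (hρ2 (k + 1) (by omega)) (hst k hk)
  have e0 := abs_le.1 (hpar _ (hρ1 0 (Nat.zero_le _)) _ (hσ1 0 (Nat.zero_le _)) _ _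
    (hρ2 0 (Nat.zero_le _)) (hσ2 0 (Nat.zero_le _)) (by rw [h0, hd.self]; norm_num))
  have eL := abs_le.1 (hpar _ (hρ1 L le_rfl) _ (hσ1 R le_rfl) _ _
    (hρ2 L le_rfl) (hσ2 R le_rfl) (by rw [hL, hd.self]; norm_num))
  obtain ⟨m3, hm3⟩ : ∃ m3, m3 = 2 * m + l * J + e := ⟨_, rfl⟩
  rw [← hJ, ← hm3]
  have hm30 : 0 ≤ m3 := by
    rw [hm3]
    have := mul_nonneg (by linarith : (0 : ℝ) ≤ l) hJ0
    linarith
  have hCm : m3 ≤ C * m3 := le_mul_of_one_le_left hm30 hC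
  have hR0 : (0 : ℝ) ≤ R := Nat.cast_nonneg _
  -- the three cases
  have caseA : (∃ k, 0 ≤ k ∧ k ≤ R ∧ |σ k - ρ z| ≤ J) → (R : ℝ) ≤ C * m3 + C := by
    rintro ⟨k, -, hk, hk'⟩
    have h4 := hpt _ (hσ1 k hk) _ (hρ1 z hz) _ _ (hσ2 k hk) (hρ2 z hz) hk'
    have h5 := hd.tri (p 0) (p k) (ζ z)
    have h6 := hpd 0 k (Nat.zero_le _) hk
    have h7 : (k : ℝ) ≤ R := by exact_mod_cast hk
    rw [← hm3] at h4
    push_cast at h6
    linarith
  have caseB : (∃ k, 0 ≤ k ∧ k ≤ z ∧ |ρ k - σ R| ≤ J) → (R : ℝ) ≤ C * m3 + C := by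
    rintro ⟨k, -, hk, hk'⟩
    have h4 := hpt _ (hρ1 k (hk.trans hz)) _ (hσ1 R le_rfl) _ _ (hρ2 k (hk.trans hz))
      (hσ2 R le_rfl) hk'
    rw [← hm3, ← hL] at h4
    have h5 := hpr k L (hk.trans hz) le_rfl
    have h6 := steps hd hst z L hz le_rfl
    have h7 := hd.tri (p 0) (p R) (ζ z)
    have h8 := hpd 0 R (Nat.zero_le _) le_rfl
    rw [← hL, hd.symm (ζ L) (ζ z)] at h7
    rw [← hL] at h8
    have h9 : C * d (ζ k) (ζ L) ≤ C * m3 := mul_le_mul_of_nonneg_left h4 (by linarith)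
    have h10 : (k : ℝ) ≤ z := by exact_mod_cast hk
    push_cast at h8
    linarith
  have caseC : (∃ k, z ≤ k ∧ k ≤ L ∧ |ρ k - σ 0| ≤ J) → (R : ℝ) ≤ C * m3 + C := by
    rintro ⟨k, hk, hkL, hk'⟩
    have h4 := hpt _ (hρ1 k hkL) _ (hσ1 0 (Nat.zero_le _)) _ _ (hρ2 k hkL)
      (hσ2 0 (Nat.zero_le _)) hk'
    rw [← hm3, ← h0, hd.symm] at h4
    have h5 := hpr 0 k (Nat.zero_le _) hkL
    have h6 := steps hd hst 0 z (Nat.zero_le _) hz
    rw [← h0] at h3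
    have h9 : C * d (ζ 0) (ζ k) ≤ C * m3 := mul_le_mul_of_nonneg_left h4 (by linarith)
    have h10 : (z : ℝ) ≤ k := by exact_mod_cast hk
    push_cast at h5 h6
    linarith
  have hρ0z : ∀ k, 0 ≤ k → k < z → |ρ k - ρ (k + 1)| ≤ J := fun k _ hk => hρs k (by omega)
  have hρzL : ∀ k, z ≤ k → k < L → |ρ k - ρ (k + 1)| ≤ J := fun k _ hk => hρs k hk
  rcases le_total (σ 0) (σ R) with huv | huv
  · rcases le_total (ρ z) (σ 0) with h4 | h4
    · exact caseC (iv hz hρzL (by linarith) (by linarith [eL.1, eL.2]))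
    · rcases le_total (ρ z) (σ R) with h5 | h5
      · exact caseA (iv (Nat.zero_le _) hσs (by linarith) (by linarith))
      · exact caseB (iv (Nat.zero_le _) hρ0z (by linarith [e0.1, e0.2]) (by linarith))
  · rcases le_total (ρ z) (σ R) with h4 | h4
    · exact caseB (iv' (Nat.zero_le _) hρ0z (by linarith [e0.1, e0.2]) (by linarith))
    · rcases le_total (ρ z) (σ 0) with h5 | h5
      · exact caseA (iv' (Nat.zero_le _) hσs (by linarith) (by linarith))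
      · exact caseC (iv' hz hρzL (by linarith) (by linarith [eL.1, eL.2]))

end D1A

open D1A

theorem t_D1A (h1 : S_WL) (h2 : S_GEN) (h3 : S_W) : S_D1A := by
  intro P M hM l e hl he
  obtain ⟨hd, -, -, -, -, -, -, -⟩ := h1 P.G P.S (h2 P).1
  obtain ⟨C, hC, hW⟩ := h3 P
  obtain ⟨m1, hm1⟩ : ∃ m1, m1 = M 1 1 := ⟨_, rfl⟩
  have hm10 : 0 ≤ m1 := by
    rw [hm1]
    exact hM 1 1 le_rfl zero_le_one
  obtain ⟨m, hm⟩ : ∃ m, m = max m1 (M C (2 * m1 + 4)) := ⟨_, rfl⟩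
  have hmm1 : m1 ≤ m := by
    rw [hm]
    exact le_max_left _ _
  have hmm2 : M C (2 * m1 + 4) ≤ m := by
    rw [hm]
    exact le_max_right _ _
  refine ⟨⌈C * (2 * m + l * (l * (2 * m + 1 + e)) + e) + C⌉₊, ?_⟩
  intro a b γ hab hQ hMr s hs s' hs' n p hp0 hpn hp i j hij hjn hk
  obtain ⟨k, hk⟩ := hk
  obtain ⟨L, w, hw0, hwL, hw1, hw2, z, hz, hz3⟩ := hW k
  -- the geodesic is close to the path
  have hpd : ∀ i j : ℕ, i ≤ j → j ≤ n → wd P.S (p i) (p j) = (j : ℝ) - i := by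
    intro i j hij hj
    unfold wd
    rw [hp i j hij hj, Nat.cast_sub hij]
  have hpd' : ∀ i ≤ n, ∀ j ≤ n, wd P.S (p i) (p j) = |(i : ℝ) - j| := by
    intro i hi j hj
    rcases le_total i j with h | h
    · rw [abs_sub_comm, abs_of_nonneg (by
        rw [sub_nonneg]
        exact_mod_cast h)]
      exact hpd i j h hj
    · rw [hd.symm, abs_of_nonneg (by
        rw [sub_nonneg]
        exact_mod_cast h)]
      exact hpd j i h hi
  have hcl : ∀ c ≤ n, ∃ s ∈ Icc a b, wd P.S (p c) (γ s) ≤ m1 := by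
    have := close hMr (C := 1) (e0 := 0) le_rfl le_rfl n p
      (fun i hi j hj => by rw [hpd' i hi j hj, add_zero])
      (fun i hi j hj => by rw [hpd' i hi j hj, one_mul, mul_zero, add_zero])
      ⟨s, hs, hp0.symm⟩ ⟨s', hs', hpn.symm⟩
    rw [zero_add, ← hm1] at this
    exact this
  have hinv : ∀ x y' : P.G, wd P.S (p i * x) (p i * y') = wd P.S x y' := by
    intro x y'
    unfold wd
    congr 2
    group
  have hRk : wl P.S (of k : P.G) = j - i := by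
    rw [← hk]
    exact hp i j hij hjn
  have key := main hd hl he hQ hC (hm10.trans hmm1) (j - i) (fun c => p (i + c))
    (fun c hc => by
      obtain ⟨s, hs, hs'⟩ := hcl (i + c) (by omega)
      exact ⟨s, hs, hs'.trans hmm1⟩)
    (fun c c' hcc hc' => by
      show wd P.S (p (i + c)) (p (i + c')) ≤ _
      rw [hpd (i + c) (i + c') (by omega) (by omega)]
      push_cast
      linarith)
    L (fun c => p i * w c) (by
      show p i * w 0 = p (i + 0)
      rw [hw0, mul_one, add_zero])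
    (by
      show p i * w L = p (i + (j - i))
      rw [hwL, ← hk, show i + (j - i) = j by omega]
      group)
    (fun c hc => by
      show wd P.S (p i * w c) (p i * w (c + 1)) ≤ 1
      rw [hinv]
      exact hw1 c hc)
    (fun c c' hcc hc' => by
      show _ ≤ C * wd P.S (p i * w c) (p i * w c') + C
      rw [hinv]
      exact hw2 c c' hcc hc')
    (by
      intro c hc
      obtain ⟨s, hs, hs'⟩ := close2 hd hMr hC hm10 L (fun c => p i * w c)
        (fun c hc => by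
          show wd P.S (p i * w c) (p i * w (c + 1)) ≤ 1
          rw [hinv]
          exact hw1 c hc)
        (fun c c' hcc hc' => by
          show _ ≤ C * wd P.S (p i * w c) (p i * w c') + C
          rw [hinv]
          exact hw2 c c' hcc hc')
        (by
          show ∃ s ∈ Icc a b, wd P.S (p i * w 0) (γ s) ≤ m1
          rw [hw0, mul_one]
          exact hcl i (by omega))
        (by
          show ∃ s ∈ Icc a b, wd P.S (p i * w L) (γ s) ≤ m1
          rw [hwL, ← hk, mul_inv_cancel_left]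
          exact hcl j hjn) c hc
      exact ⟨s, hs, hs'.trans hmm2⟩)
    z hz (by
      show 3 * ((j - i : ℕ) : ℝ) ≤ wd P.S (p (i + 0)) (p i * w z)
      have h4 : wd P.S (p (i + 0)) (p i * w z) = wl P.S (w z) := by
        unfold wd
        rw [add_zero, inv_mul_cancel_left]
      rw [h4, ← hRk]
      exact_mod_cast hz3)
  have h5 := key.trans (Nat.le_ceil _)
  exact_mod_cast h5

end Pool.Agent.NH54.MG

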