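import Pool.Agent.NH54.MG.Stm

/-!
# MG-D2B (helper59): the discrete form of D2
-/

set_option autoImplicit false

open Set HNNExtension HNNExtension.NormalWord

namespace Pool.Agent.NH54.MG

namespace D2B

/-- the numerical part -/
theorem core {X : Type} (d : X → X → ℝ) (hd : PM d) (κ : ℝ) (k R1 Λ N L' : ℕ) (hκ : 1 ≤ κ)
    (hΛ : κ * (k + 1) + k + 2 ≤ (Λ : ℝ))
    (ρ π : ℕ → ℕ) (r p : ℕ → X)
    (hp : ∀ i j : ℕ, i ≤ j → j ≤ L' → d (p i) (p j) ≤ (j : ℝ) - i)
    (hq : ∀ i j : ℕ, i ≤ j → j ≤ L' → ((j : ℝ) - i) ≤ κ * d (p i) (p j) + κ)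
    (hπ : ∀ i ≤ N, π i ≤ π (i + 1)) (hπ0 : π 0 = 0) (hπ1 : π (N + 1) = L')
    (hρ : ∀ i ≤ N, d (r (ρ i)) (r (ρ (i + 1))) ≤ (k : ℝ) + 1)
    (h0 : d (r (ρ 0)) (p (π 0)) = 0) (h1 : d (r (ρ (N + 1))) (p (π (N + 1))) = 0)
    (hc : ∀ j, 1 ≤ j → j ≤ N → (R1 : ℝ) ≤ d (r (ρ j)) (p (π j)) → ∃ w : ℕ, 1 ≤ w ∧
      (Λ : ℝ) * w ≤ d (r (ρ j)) (p (π j)) ∧ (j + w ≤ N → (Λ : ℝ) * w ≤ (π (j + w) : ℝ) - π j)) :
    ∀ s ≤ L', ∃ e ≤ N + 1, d (p s) (r (ρ e)) ≤
      κ * (2 * R1 + (k + 1) * (κ * (2 * R1 + k + 1) + κ + R1 + 1)) + κ + R1 := by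
  classical
  intro s hs
  have hκ0 : 0 ≤ κ := by linarith
  have hR0 : (0 : ℝ) ≤ R1 := Nat.cast_nonneg _
  have hk0 : (0 : ℝ) ≤ k := Nat.cast_nonneg _
  have hb0 : 0 ≤ κ * (2 * R1 + k + 1) + κ + R1 := by positivity
  -- monotone
  have hmono : ∀ n i : ℕ, i + n ≤ N + 1 → π i ≤ π (i + n) := by
    intro n
    induction n with
    | zero => intro i _; exact le_refl _
    | succ n ih =>
      intro i hi
      exact (ih i (by omega)).trans (hπ (i + n) (by omega))
  have hdist : ∀ n i : ℕ, i + n ≤ N + 1 → d (r (ρ i)) (r (ρ (i + n))) ≤ ((k : ℝ) + 1) * n := by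
    intro n
    induction n with
    | zero =>
      intro i _
      rw [Nat.add_zero, hd.self]
      simp
    | succ n ih =>
      intro i hi
      have h2 := ih i (by omega)
      have h3 := hρ (i + n) (by omega)
      have h4 := hd.tri (r (ρ i)) (r (ρ (i + n))) (r (ρ (i + (n + 1))))
      rw [← add_assoc] at h4 ⊢
      push_cast
      linarith
  by_cases hsL : s = L'
  · refine ⟨N + 1, le_rfl, ?_⟩
    rw [hd.symm, hsL, ← hπ1, h1]
    positivity
  have hsL' : s < L' := lt_of_le_of_ne hs hsL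
  set Q : ℕ → Prop := fun j => π j ≤ s ∧ d (r (ρ j)) (p (π j)) ≤ R1 with hQ
  have hQ0 : Q 0 := ⟨by rw [hπ0]; exact Nat.zero_le _, by rw [h0]; exact hR0⟩
  set e := Nat.findGreatest Q (N + 1) with he
  have heQ : Q e := Nat.findGreatest_spec (m := 0) (Nat.zero_le _) hQ0
  have heN : e ≤ N + 1 := Nat.findGreatest_le _
  have heN' : e ≠ N + 1 := by
    intro h
    have := heQ.1
    rw [h, hπ1] at this
    omega
  have heg : ∀ j, e < j → j ≤ N + 1 → ¬ Q j := fun j hj hjN => Nat.findGreatest_is_greatest hj hjN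
  have hex : ∃ j, e < j ∧ j ≤ N + 1 ∧ d (r (ρ j)) (p (π j)) ≤ R1 :=
    ⟨N + 1, by omega, le_rfl, by rw [h1]; exact hR0⟩
  set f := Nat.find hex with hf
  obtain ⟨hef, hfN, hfR⟩ := Nat.find_spec hex
  have hfm : ∀ j, e < j → j < f → (R1 : ℝ) < d (r (ρ j)) (p (π j)) := by
    intro j hj hjf
    by_contra hcon
    exact Nat.find_min hex hjf ⟨hj, by omega, not_lt.1 hcon⟩
  have hsf : s < π f := by
    by_contra hcon
    exact heg f hef hfN ⟨not_lt.1 hcon, hfR⟩
  have hclaim : ∀ n j : ℕ, e < j → j + n = f →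
      ((Λ : ℝ) - k - 1) * n - R1 ≤ (π f : ℝ) - π j := by
    intro n
    induction n using Nat.strong_induction_on with
    | _ n ih =>
      intro j hj hjn
      rcases Nat.eq_zero_or_pos n with rfl | hn
      · rw [Nat.add_zero] at hjn
        subst hjn
        simp
      obtain ⟨w, hw1, hw2, hw3⟩ := hc j (by omega) (by omega) (hfm j hj (by omega)).le
      have hw0 : (1 : ℝ) ≤ w := by exact_mod_cast hw1
      rcases lt_or_ge w n with hwn | hwn
      · have h5 := ih (n - w) (by omega) (j + w) (by omega) (by omega)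
        have h6 := hw3 (by omega)
        have h7 : ((n - w : ℕ) : ℝ) = (n : ℝ) - w := by
          rw [Nat.cast_sub hwn.le]
        rw [h7] at h5
        nlinarith [mul_nonneg (add_nonneg hk0 zero_le_one) (zero_le_one.trans hw0)]
      · have h5 : (Λ : ℝ) * n ≤ (Λ : ℝ) * w :=
          mul_le_mul_of_nonneg_left (by exact_mod_cast hwn) (Nat.cast_nonneg _)
        have h6 := hd.tri (r (ρ j)) (r (ρ f)) (p (π j))
        have h7 := hd.tri (r (ρ f)) (p (π f)) (p (π j))
        have h8 := hdist n j (by omega)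
        rw [hjn] at h8
        have h9 := hp (π j) (π f) (by rw [← hjn]; exact hmono n j (by omega))
          (by
            have := hmono (N + 1 - f) f (by omega)
            rw [show f + (N + 1 - f) = N + 1 by omega, hπ1] at this
            exact this)
        rw [hd.symm] at h9
        nlinarith
  obtain ⟨n, hn⟩ : ∃ n, e + 1 + n = f := ⟨f - e - 1, by omega⟩
  have h2 := hclaim n (e + 1) (by omega) hn
  have h3 : (π e : ℝ) ≤ π (e + 1) := by exact_mod_cast hπ e (by omega)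
  have h4 : π f ≤ L' := by
    have := hmono (N + 1 - f) f (by omega)
    rw [show f + (N + 1 - f) = N + 1 by omega, hπ1] at this
    exact this
  have h5 : π e ≤ π f := by
    have := hmono (n + 1) e (by omega)
    rwa [show e + (n + 1) = f by omega] at this
  have h6 := hq (π e) (π f) h5 h4
  have h7 := hd.tri (p (π e)) (r (ρ e)) (p (π f))
  have h8 := hd.tri (r (ρ e)) (r (ρ f)) (p (π f))
  have h9 := hdist (n + 1) e (by omega)
  rw [show e + (n + 1) = f by omega] at h9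
  push_cast at h9
  have h10 : d (p (π e)) (r (ρ e)) ≤ R1 := by rw [hd.symm]; exact heQ.2
  have h11 : d (p (π e)) (p (π f)) ≤ 2 * R1 + (k + 1) * (n + 1) := by linarith
  have h12 : (π f : ℝ) - π e ≤ κ * (2 * R1 + (k + 1) * (n + 1)) + κ :=
    h6.trans (by linarith [mul_le_mul_of_nonneg_left h11 hκ0])
  have hn0 : (0 : ℝ) ≤ n := Nat.cast_nonneg _
  have h13 : (n : ℝ) ≤ κ * (2 * R1 + k + 1) + κ + R1 := by
    have h14 : (κ * (k + 1) + 1) * n ≤ ((Λ : ℝ) - k - 1) * n :=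
      mul_le_mul_of_nonneg_right (by linarith) hn0
    nlinarith
  refine ⟨e, heN, ?_⟩
  have h15 := hd.tri (p s) (p (π e)) (r (ρ e))
  have h16 := hp (π e) s heQ.1 hs
  rw [hd.symm] at h16
  have h17 : (s : ℝ) ≤ π f := by exact_mod_cast hsf.le
  have h18 : κ * (2 * R1 + (k + 1) * (n + 1)) ≤
      κ * (2 * R1 + (k + 1) * (κ * (2 * R1 + k + 1) + κ + R1 + 1)) := by
    refine mul_le_mul_of_nonneg_left ?_ hκ0
    have : ((k : ℝ) + 1) * (n + 1) ≤ (k + 1) * (κ * (2 * R1 + k + 1) + κ + R1 + 1) :=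
      mul_le_mul_of_nonneg_left (by linarith) (by positivity)
    linarith
  linarith

/-- the length of a discrete path bounds the distance of its ends -/
theorem dp_wl {G : Type} [Group G] {S : Set G} (h1 : wl S (1 : G) = 0)
    (h2 : ∀ g : G, wl S g⁻¹ = wl S g) (h3 : ∀ g h : G, wl S (g * h) ≤ wl S g + wl S h)
    (h4 : ∀ g ∈ S, wl S g ≤ 1) {L : ℕ} {p : ℕ → G} (hp : DP S L p) :
    ∀ i j : ℕ, i ≤ j → j ≤ L → wl S ((p i)⁻¹ * p j) ≤ j - i := by
  intro i j hij
  induction j, hij using Nat.le_induction with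
  | base => intro _; rw [inv_mul_cancel, h1]; exact Nat.zero_le _
  | succ j hij ih =>
    intro hj
    have h5 := ih (by omega)
    have h6 := h3 ((p i)⁻¹ * p j) ((p j)⁻¹ * p (j + 1))
    rw [mul_assoc, mul_inv_cancel_left] at h6
    have h7 : wl S ((p j)⁻¹ * p (j + 1)) ≤ 1 := by
      rcases hp j (by omega) with h | h | h
      · rw [h, inv_mul_cancel, h1]; exact Nat.zero_le _
      · exact h4 _ h
      · rw [← h2]; exact h4 _ h
    omega

theorem mem_S {P : Par} {g : P.G} (hg : g ∈ P.S) : (∃ k : K, g = of k) ∨ g = t := by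
  simp only [Par.S, Set.mem_insert_iff, Set.mem_singleton_iff] at hg
  rcases hg with h | h | h | h | h
  · exact Or.inl ⟨_, h⟩
  · exact Or.inl ⟨_, h⟩
  · exact Or.inl ⟨_, h⟩
  · exact Or.inl ⟨_, h⟩
  · exact Or.inr h

theorem step {P : Par} {L : ℕ} {p : ℕ → P.G} (hp : DP P.S L p) :
    ∀ i < L, (∃ k : K, p (i + 1) = p i * of k) ∨ ∃ u : ℤˣ, p (i + 1) = p i * t ^ (u : ℤ) := by
  intro i hi
  rcases hp i hi with h | h | h
  · exact Or.inl ⟨1, by rw [h, map_one, mul_one]⟩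
  · rcases mem_S h with ⟨k, hk⟩ | hk
    · exact Or.inl ⟨k, by rw [← hk, mul_inv_cancel_left]⟩
    · refine Or.inr ⟨1, ?_⟩
      rw [Units.val_one, zpow_one, ← hk, mul_inv_cancel_left]
  · rcases mem_S h with ⟨k, hk⟩ | hk
    · exact Or.inl ⟨k⁻¹, by rw [map_inv, ← hk, inv_inv, mul_inv_cancel_left]⟩
    · refine Or.inr ⟨-1, ?_⟩
      rw [Units.val_neg, Units.val_one, zpow_neg, zpow_one, ← hk, inv_inv, mul_inv_cancel_left]

theorem CK_eq {P : Par} {x : K} {u : ℤˣ} (hx : x ∈ toSubgroup P.CK P.CK' u) :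
    ∃ c : N, x = jN c := by
  rcases Int.units_eq_one_or u with rfl | rfl
  · obtain ⟨c, _, hc⟩ := hx
    exact ⟨c, hc.symm⟩
  · obtain ⟨c, _, hc⟩ := hx
    exact ⟨c, hc.symm⟩

theorem jN_δ (c : N) : (jN c).δ.u = c := rfl

/-- `cp` is multiplicative -/
theorem cp_div {P : Par} (ε : ℤˣ) {x x' : K} {u u' : ℤˣ} (hx : x ∈ toSubgroup P.CK P.CK' u)
    (hx' : x' ∈ toSubgroup P.CK P.CK' u') : cp P ε (x⁻¹ * x') = (cp P ε x)⁻¹ * cp P ε x' := by
  obtain ⟨c, rfl⟩ := CK_eq hx
  obtain ⟨c', rfl⟩ := CK_eq hx'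
  rw [← map_inv, ← map_mul]
  simp only [cp, jN_δ]
  split_ifs <;> simp only [map_mul, map_inv]

theorem cp_mem {P : Par} {u : ℤˣ} {x : K} (hx : x ∈ toSubgroup P.CK P.CK' (-u)) :
    cp P u x ∈ toSubgroup P.CK P.CK' u := by
  rcases Int.units_eq_one_or u with rfl | rfl
  · obtain ⟨c, hc, rfl⟩ := hx
    obtain ⟨c', hc', rfl⟩ := hc
    have : cp P 1 (jN (P.Th c')) = jN c' := by
      rw [cp, if_neg (by decide), jN_δ, MulEquiv.symm_apply_apply]
    show cp P 1 (jN (P.Th c')) ∈ P.CK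
    rw [this]
    exact ⟨c', hc', rfl⟩
  · rw [neg_neg] at hx
    obtain ⟨c, hc, rfl⟩ := hx
    have : cp P (-1) (jN c) = jN (P.Th c) := by
      rw [cp, if_pos rfl, jN_δ]
    rw [this]
    exact ⟨P.Th c, ⟨c, hc, rfl⟩, rfl⟩

theorem th_apply {P : Par} (c : N) (hc : c ∈ P.CN) :
    ((P.th ⟨jN c, ⟨c, hc, rfl⟩⟩ : P.CK') : K) = jN (P.Th c) := by
  have h1 : (P.CN.equivMapOfInjective jN jN_inj).symm ⟨jN c, ⟨c, hc, rfl⟩⟩ = ⟨c, hc⟩ := by
    rw [MulEquiv.symm_apply_eq]
    rfl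
  exact congrArg (fun z : P.CN => jN (P.Th (z : N))) h1

theorem of_mul_t {P : Par} {u : ℤˣ} {x : K} (hx : x ∈ toSubgroup P.CK P.CK' (-u)) :
    (of x : P.G) * t ^ (u : ℤ) = t ^ (u : ℤ) * of (cp P u x) := by
  rcases Int.units_eq_one_or u with rfl | rfl
  · obtain ⟨c, hc, rfl⟩ := hx
    obtain ⟨c', hc', rfl⟩ := hc
    have h1 : cp P 1 (jN (P.Th c')) = jN c' := by
      rw [cp, if_neg (by decide), jN_δ, MulEquiv.symm_apply_apply]
    have h2 := t_mul_of (φ := P.th) ⟨jN c', ⟨c', hc', rfl⟩⟩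
    rw [th_apply c' hc'] at h2
    rw [Units.val_one, zpow_one]
    show (of (jN (P.Th c')) : P.G) * t = t * of (cp P 1 (jN (P.Th c')))
    rw [h1]
    exact h2.symm
  · rw [neg_neg] at hx
    obtain ⟨c, hc, rfl⟩ := hx
    have h1 : cp P (-1) (jN c) = jN (P.Th c) := by
      rw [cp, if_pos rfl, jN_δ]
    have h2 := t_mul_of (φ := P.th) ⟨jN c, ⟨c, hc, rfl⟩⟩
    rw [th_apply c hc] at h2
    rw [h1, Units.val_neg, Units.val_one, zpow_neg, zpow_one, eq_inv_mul_iff_mul_eq, ← mul_assoc, h2,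
      mul_assoc, mul_inv_cancel, mul_one]

/-- the exponent of the letter `i` -/
def ep {P : Par} (w : ReducedWord K P.CK P.CK') (i : ℕ) : ℤˣ := (w.toList.getD i (1, 1)).1

/-- the element of the letter `i` -/
def gg {P : Par} (w : ReducedWord K P.CK P.CK') (i : ℕ) : K := (w.toList.getD i (1, 1)).2

theorem pre_zero {P : Par} (w : ReducedWord K P.CK P.CK') : pre P.th w 0 = of w.head := by
  simp [pre]

theorem pre_succ {P : Par} (w : ReducedWord K P.CK P.CK') {i : ℕ} (hi : i < w.toList.length) :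
    pre P.th w (i + 1) = pre P.th w i * t ^ (ep w i : ℤ) * of (gg w i) := by
  have h1 : w.toList.getD i (1, 1) = w.toList[i] := List.getD_eq_getElem _ _ hi
  rw [pre, pre, List.take_succ_eq_append_getElem hi, List.map_append, List.prod_append, ep, gg, h1,
    List.map_singleton, List.prod_singleton]
  simp only [mul_assoc]

theorem pre_length {P : Par} (w : ReducedWord K P.CK P.CK') :
    pre P.th w w.toList.length = w.prod P.th := by
  rw [pre, List.take_length]
  rfl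

theorem chain {P : Par} (w : ReducedWord K P.CK P.CK') {i : ℕ} (hi : i + 1 < w.toList.length)
    (h : gg w i ∈ toSubgroup P.CK P.CK' (ep w i)) : ep w i = ep w (i + 1) := by
  have h1 : w.toList.getD i (1, 1) = w.toList[i] := List.getD_eq_getElem _ _ (by omega)
  have h2 : w.toList.getD (i + 1) (1, 1) = w.toList[i + 1] := List.getD_eq_getElem _ _ hi
  rw [gg, ep, h1] at h
  rw [ep, ep, h1, h2]
  exact List.isChain_iff_getElem.1 w.chain i hi h

theorem crossings (h4 : S_CRS) {P : Par} (w : ReducedWord K P.CK P.CK') {L : ℕ} {q : ℕ → P.G}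
    (hq : DP P.S L q) (h0 : q 0 = 1) (hL : q L = w.prod P.th) :
    ∃ (τ : ℕ → ℕ) (x : ℕ → K), (∀ i < w.toList.length, τ i < L) ∧
      (∀ i j : ℕ, i < j → j < w.toList.length → τ i < τ j) ∧
      ∀ i < w.toList.length, x i ∈ toSubgroup P.CK P.CK' (-(ep w i)) ∧
        q (τ i) = pre P.th w i * of (x i) ∧
        q (τ i + 1) = pre P.th w i * t ^ (ep w i : ℤ) * of (cp P (ep w i) (x i)) := by
  obtain ⟨τ, h1, h2, h3⟩ := h4 K P.CK P.CK' P.th w L q h0 hL (step hq)
  have h5 : ∀ i : ℕ, ∃ x : K, i < w.toList.length → x ∈ toSubgroup P.CK P.CK' (-(ep w i)) ∧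
      q (τ i) = pre P.th w i * of x := by
    intro i
    by_cases hi : i < w.toList.length
    · obtain ⟨_, x, hx, hx2⟩ := h3 i hi
      refine ⟨x, fun _ => ⟨?_, hx2⟩⟩
      rw [ep, List.getD_eq_getElem _ _ hi]
      exact hx
    · exact ⟨1, fun h => absurd h hi⟩
  choose x hx using h5
  refine ⟨τ, x, h1, h2, fun i hi => ⟨(hx i hi).1, (hx i hi).2, ?_⟩⟩
  obtain ⟨h6, _⟩ := h3 i hi
  have h7 : (w.toList[i].1 : ℤˣ) = ep w i := by
    rw [ep, List.getD_eq_getElem _ _ hi]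
  rw [h7] at h6
  rw [h6, (hx i hi).2, mul_assoc, of_mul_t (hx i hi).1, mul_assoc]

end D2B

open D2B in
theorem t_D2B (h1 : S_WL) (h2 : S_GEN) (h3 : S_TL) (h4 : S_CRS) (h5 : S_CORE) : S_D2B := by
  intro P κ hκ
  obtain ⟨hPM, -, hw1, hwi, hwm, hwS, -, -⟩ := h1 P.G P.S (h2 P).1
  obtain ⟨-, hrw, htl1, -, -, htlk, -, -, -⟩ := h3 K P.CK P.CK' P.th
  set k := ⌈κ⌉₊ with hkdef
  have hk : κ ≤ k := Nat.le_ceil κ
  obtain ⟨R1, hR1⟩ := h5 P k (k * (k + 1) + k + 2)
  refine ⟨κ * (2 * R1 + (k + 1) * (κ * (2 * R1 + k + 1) + κ + R1 + 1)) + κ + R1, ?_⟩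
  intro L L' r p hr hp e0 eL hrt hpq
  set r' : ℕ → P.G := fun i => (r 0)⁻¹ * r i with hr'
  set p' : ℕ → P.G := fun i => (r 0)⁻¹ * p i with hp'
  have er : ∀ i j, (r i)⁻¹ * r j = (r' i)⁻¹ * r' j := fun i j => by
    simp only [hr', mul_inv_rev, inv_inv, mul_assoc, mul_inv_cancel_left]
  have ep' : ∀ i j, (p i)⁻¹ * p j = (p' i)⁻¹ * p' j := fun i j => by
    simp only [hp', mul_inv_rev, inv_inv, mul_assoc, mul_inv_cancel_left]
  have erp : ∀ i j, (r i)⁻¹ * p j = (r' i)⁻¹ * p' j := fun i j => by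
    simp only [hr', hp', mul_inv_rev, inv_inv, mul_assoc, mul_inv_cancel_left]
  have hrD : DP P.S L r' := fun i hi => by
    rcases hr i hi with h | h | h
    · exact Or.inl (by simp only [hr', h])
    · exact Or.inr (Or.inl (by rw [← er]; exact h))
    · exact Or.inr (Or.inr (by rw [← er]; exact h))
  have hpD : DP P.S L' p' := fun i hi => by
    rcases hp i hi with h | h | h
    · exact Or.inl (by simp only [hp', h])
    · exact Or.inr (Or.inl (by rw [← ep']; exact h))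
    · exact Or.inr (Or.inr (by rw [← ep']; exact h))
  have hr0 : r' 0 = 1 := by simp only [hr', inv_mul_cancel]
  have hp0 : p' 0 = 1 := by simp only [hp', e0, inv_mul_cancel]
  have hpL : p' L' = r' L := by simp only [hr', hp', eL]
  obtain ⟨w, hw⟩ := hrw (r' L)
  obtain ⟨τ, x, hτ1, hτ2, hτ3⟩ := crossings h4 w hrD hr0 hw.symm
  obtain ⟨τ', x', hτ1', hτ2', hτ3'⟩ := crossings h4 w hpD hp0 (hpL.trans hw.symm)
  set n := w.toList.length with hn
  -- path lengths
  have hrl : ∀ i j : ℕ, i ≤ j → j ≤ L → wl P.S ((r i)⁻¹ * r j) ≤ j - i :=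
    dp_wl hw1 hwi hwm hwS hr
  have hpl : ∀ i j : ℕ, i ≤ j → j ≤ L' → wl P.S ((p i)⁻¹ * p j) ≤ j - i :=
    dp_wl hw1 hwi hwm hwS hp
  -- r stays only a bounded time in a coset
  have hz : ∀ i j : ℕ, i ≤ j → j ≤ L → (∃ c : K, (r i)⁻¹ * r j = of c) → ((j : ℝ) - i) ≤ κ := by
    rintro i j hij hj ⟨c, hc⟩
    have h6 := hrt i j hij hj
    have h7 : dT P.th (r i) (r j) = 0 := by
      have h8 := htlk 1 c
      rw [mul_one, htl1] at h8
      rw [dT, hc, h8, Nat.cast_zero]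
    rw [h7, mul_zero, zero_add] at h6
    exact h6
  have hzk : ∀ i j : ℕ, i ≤ j → j ≤ L → (∃ c : K, (r i)⁻¹ * r j = of c) → j - i ≤ k := by
    intro i j hij hj hc
    have h6 := (hz i j hij hj hc).trans hk
    have h7 : ((j - i : ℕ) : ℝ) ≤ k := by rwa [Nat.cast_sub hij]
    exact_mod_cast h7
  -- turns
  have hta : ∀ (q : ℕ → P.G) (σ : ℕ → ℕ) (z : ℕ → K), (∀ i < n,
      q (σ i) = pre P.th w i * of (z i) ∧
        q (σ i + 1) = pre P.th w i * t ^ (ep w i : ℤ) * of (cp P (ep w i) (z i))) →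
      ∀ i, i + 1 < n → (q (σ i + 1))⁻¹ * q (σ (i + 1)) =
        of ((cp P (ep w i) (z i))⁻¹ * gg w i * z (i + 1)) := by
    intro q σ z hq i hi
    rw [(hq i (by omega)).2, (hq (i + 1) hi).1, pre_succ w (by omega)]
    simp only [map_mul, map_inv, mul_inv_rev, mul_assoc, inv_mul_cancel_left]
  set ρ : ℕ → ℕ := fun i => if i = 0 then 0 else if i ≤ n then τ (i - 1) else L with hρ
  set π : ℕ → ℕ := fun i => if i = 0 then 0 else if i ≤ n then τ' (i - 1) else L' with hπ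
  have hρ0 : ρ 0 = 0 := by simp only [hρ, if_true]
  have hπ0 : π 0 = 0 := by simp only [hπ, if_true]
  have hρ1 : ∀ i < n, ρ (i + 1) = τ i := fun i hi => by
    simp only [hρ, Nat.add_sub_cancel]
    rw [if_neg (by omega), if_pos (by omega)]
  have hπ1 : ∀ i < n, π (i + 1) = τ' i := fun i hi => by
    simp only [hπ, Nat.add_sub_cancel]
    rw [if_neg (by omega), if_pos (by omega)]
  have hρL : ρ (n + 1) = L := by
    simp only [hρ]
    rw [if_neg (by omega), if_neg (by omega)]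
  have hπL : π (n + 1) = L' := by
    simp only [hπ]
    rw [if_neg (by omega), if_neg (by omega)]
  have hρs : ∀ i ≤ n, ρ i ≤ ρ (i + 1) ∧ ρ (i + 1) ≤ L ∧ ρ (i + 1) - ρ i ≤ k + 1 := by
    intro i hi
    rcases i with _ | i
    · rw [hρ0]
      rcases Nat.eq_zero_or_pos n with h0 | h0
      · have h6 : ρ (0 + 1) = L := by rw [← hρL, h0]
        rw [h6]
        refine ⟨Nat.zero_le _, le_rfl, ?_⟩
        have h7 := hzk 0 L (Nat.zero_le _) le_rfl ⟨w.head, by
          rw [er, hr0, inv_one, one_mul, ← hw, ← pre_length, ← hn, h0, pre_zero]⟩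
        omega
      · rw [hρ1 0 h0]
        have h6 := hτ1 0 h0
        refine ⟨Nat.zero_le _, h6.le, ?_⟩
        have h7 := hzk 0 (τ 0) (Nat.zero_le _) h6.le ⟨w.head * x 0, by
          rw [er, hr0, inv_one, one_mul, (hτ3 0 h0).2.1, pre_zero, map_mul]⟩
        omega
    · rw [hρ1 i (by omega)]
      rcases lt_or_ge (i + 1) n with h0 | h0
      · rw [hρ1 (i + 1) h0]
        have h6 := hτ2 i (i + 1) (by omega) h0
        have h7 := hτ1 (i + 1) h0
        refine ⟨h6.le, h7.le, ?_⟩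
        have h8 := hzk (τ i + 1) (τ (i + 1)) h6 h7.le ⟨_, by
          rw [er]
          exact hta r' τ x (fun i hi => (hτ3 i hi).2) i h0⟩
        omega
      · have h9 : i + 1 = n := by omega
        rw [h9, hρL]
        have h6 := hτ1 i (by omega)
        refine ⟨h6.le, le_rfl, ?_⟩
        have h8 := hzk (τ i + 1) L h6 le_rfl ⟨(cp P (ep w i) (x i))⁻¹ * gg w i, by
          rw [er, (hτ3 i (by omega)).2.2, ← hw, ← pre_length, ← hn, ← h9, pre_succ w (by omega)]
          simp only [map_mul, map_inv, mul_inv_rev, mul_assoc, inv_mul_cancel_left]⟩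
        omega
  have hcast : ∀ {i j m : ℕ}, i ≤ j → m ≤ j - i → (m : ℝ) ≤ (j : ℝ) - i := by
    intro i j m hij hm
    have : (m : ℝ) ≤ ((j - i : ℕ) : ℝ) := by exact_mod_cast hm
    rwa [Nat.cast_sub hij] at this
  have hπs : ∀ i ≤ n, π i ≤ π (i + 1) := by
    intro i hi
    rcases i with _ | i
    · rw [hπ0]
      exact Nat.zero_le _
    · rw [hπ1 i (by omega)]
      rcases lt_or_ge (i + 1) n with h0 | h0
      · rw [hπ1 (i + 1) h0]
        exact (hτ2' i (i + 1) (by omega) h0).le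
      · have h9 : i + 1 = n := by omega
        rw [h9, hπL]
        exact (hτ1' i (by omega)).le
  -- the offsets and the turns
  set c : ℕ → K := fun i => (x i)⁻¹ * x' i with hc
  set a : ℕ → K := fun i => (cp P (ep w i) (x i))⁻¹ * gg w i * x (i + 1) with ha
  set a' : ℕ → K := fun i => (cp P (ep w i) (x' i))⁻¹ * gg w i * x' (i + 1) with ha'
  have hd : ∀ i < n, (r (τ i))⁻¹ * p (τ' i) = of (c i) := by
    intro i hi
    rw [erp, (hτ3 i hi).2.1, (hτ3' i hi).2.1]
    simp only [hc, map_mul, map_inv, mul_inv_rev, mul_assoc, inv_mul_cancel_left]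
  have hak : ∀ i, i + 1 < n → wl P.S (of (a i) : P.G) ≤ k := by
    intro i hi
    have h6 := hta r' τ x (fun i hi => (hτ3 i hi).2) i hi
    rw [← er] at h6
    have h7 := hτ2 i (i + 1) (by omega) hi
    have h8 := hτ1 (i + 1) hi
    rw [← h6]
    exact (hrl _ _ h7 h8.le).trans (hzk _ _ h7 h8.le ⟨_, h6⟩)
  have hak' : ∀ i, i + 1 < n → wl P.S (of (a' i) : P.G) ≤ τ' (i + 1) - τ' i := by
    intro i hi
    have h6 := hta p' τ' x' (fun i hi => (hτ3' i hi).2) i hi
    rw [← ep'] at h6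
    have h7 := hτ2' i (i + 1) (by omega) hi
    have h8 := hτ1' (i + 1) hi
    have h9 := hpl _ _ h7 h8.le
    rw [h6] at h9
    exact h9.trans (by omega)
  have hpar : Par2 P (n - 1) (ep w) a a' c ∨ n = 0 := by
    rcases Nat.eq_zero_or_pos n with h0 | h0
    · exact Or.inr h0
    refine Or.inl ⟨?_, ?_, ?_⟩
    · intro i hi
      exact Subgroup.mul_mem _ (Subgroup.inv_mem _ (hτ3 i (by omega)).1) (hτ3' i (by omega)).1
    · intro i hi
      simp only [ha, ha', hc]
      rw [cp_div _ (hτ3 i (by omega)).1 (hτ3' i (by omega)).1]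
      group
    · intro i hi hmem
      by_contra hne
      have h6 : -ep w (i + 1) = ep w i := by
        rcases Int.units_eq_one_or (ep w i) with h | h <;>
          rcases Int.units_eq_one_or (ep w (i + 1)) with h' | h'
        · exact absurd (h.trans h'.symm) hne
        · rw [h, h', neg_neg]
        · rw [h, h']
        · exact absurd (h.trans h'.symm) hne
      have h7 : x (i + 1) ∈ toSubgroup P.CK P.CK' (ep w i) := by
        rw [← h6]
        exact (hτ3 (i + 1) (by omega)).1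
      have h8 := cp_mem (hτ3 i (by omega)).1
      refine hne (chain w (by omega) ?_)
      have h9 : gg w i = cp P (ep w i) (x i) * a i * (x (i + 1))⁻¹ := by
        simp only [ha]
        group
      rw [h9]
      exact Subgroup.mul_mem _ (Subgroup.mul_mem _ h8 hmem) (Subgroup.inv_mem _ h7)
  have hsum : ∀ (m i : ℕ), i + m < n →
      ∑ j ∈ Finset.Ico i (i + m), wl P.S (of (a' j) : P.G) ≤ τ' (i + m) - τ' i ∧
        τ' i ≤ τ' (i + m) := by
    intro m
    induction m with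
    | zero => intro i _; simp
    | succ m ih =>
      intro i hi
      obtain ⟨h6, h7⟩ := ih i (by omega)
      have h8 := hak' (i + m) (by omega)
      have h9 := hτ2' (i + m) (i + m + 1) (by omega) (by omega)
      rw [← add_assoc, Finset.sum_Ico_succ_top (by omega)]
      exact ⟨by omega, by omega⟩
  intro s hs
  obtain ⟨e, he, hb⟩ := core (wd P.S) hPM κ k R1 (k * (k + 1) + k + 2) n L' hκ
    (by push_cast; nlinarith [(Nat.cast_nonneg k : (0 : ℝ) ≤ k)]) ρ π r p
    (fun i j hij hj => hcast hij (hpl i j hij hj)) hpq hπs hπ0 hπL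
    (fun i hi => by
      obtain ⟨h6, h7, h8⟩ := hρs i hi
      have h9 := (hrl _ _ h6 h7).trans h8
      rw [wd]
      exact_mod_cast h9)
    (by rw [hρ0, hπ0, e0]; exact hPM.self _)
    (by rw [hρL, hπL, eL]; exact hPM.self _)
    (by
      intro j hj1 hjn hjR
      obtain ⟨i, rfl⟩ : ∃ i, j = i + 1 := ⟨j - 1, by omega⟩
      rw [hρ1 i (by omega), hπ1 i (by omega), wd, hd i (by omega)] at hjR ⊢
      obtain ⟨v, hv1, hv2, hv3⟩ := hR1 (n - 1) (ep w) a a' c (hpar.resolve_right (by omega))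
        (fun i hi => hak i (by omega)) i (by omega) (by exact_mod_cast hjR)
      refine ⟨v, hv1, by exact_mod_cast hv2, fun hv => ?_⟩
      have h6 := hv3 (by omega)
      obtain ⟨h7, h8⟩ := hsum v i (by omega)
      rw [show i + 1 + v = i + v + 1 by omega, hπ1 (i + v) (by omega)]
      have h9 := hcast h8 (h6.trans h7)
      push_cast at h9 ⊢
      exact h9) s hs
  refine ⟨ρ e, ?_, hb⟩
  rcases e with _ | e
  · rw [hρ0]; exact Nat.zero_le _
  · exact (hρs e (by omega)).2.1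

end Pool.Agent.NH54.MG
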