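import Pool.Agent.NH54.MG.Stm

/-!
# Project MG, D3: local-to-global in `0`-hyperbolic spaces (helper58)
-/

set_option autoImplicit false

open Set

namespace Pool.Agent.NH54.MG.D3

variable {X : Type} {d : X → X → ℝ}

/-- the doubled Gromov product -/
def gp (d : X → X → ℝ) (p x y : X) : ℝ := d p x + d p y - d x y

theorem hyp (h : Hyp0 d) (p x y z : X) : min (gp d p x y) (gp d p y z) ≤ gp d p x z := h p x y z

theorem gp_comm (h : PM d) (p x y : X) : gp d p x y = gp d p y x := by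
  rw [gp, gp, h.symm x y]
  ring

theorem step (P : ℝ → Prop) {s t : ℝ} (hst : s ≤ t) (hs : P s) (ht : ¬ P t) :
    ∃ x x', s ≤ x ∧ x ≤ x' ∧ x' ≤ t ∧ x' - x ≤ 1 ∧ P x ∧ ¬ P x' := by
  classical
  have hex : ∃ i : ℕ, ¬ P (min (s + i) t) := by
    refine ⟨⌈t - s⌉₊, ?_⟩
    have h1 : t - s ≤ (⌈t - s⌉₊ : ℝ) := Nat.le_ceil _
    rw [min_eq_right (by linarith)]
    exact ht
  have h1 := Nat.find_spec hex
  have h2 : ∀ j < Nat.find hex, P (min (s + j) t) := fun j hj => not_not.1 (Nat.find_min hex hj)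
  obtain h0 | ⟨j, hj⟩ := Nat.eq_zero_or_eq_succ_pred (Nat.find hex) |>.imp id
    (fun h => (⟨_, h⟩ : ∃ j, Nat.find hex = Nat.succ j))
  · rw [h0, Nat.cast_zero, add_zero, min_eq_left hst] at h1
    exact absurd hs h1
  · have h3 := h2 j (by omega)
    rw [hj, Nat.cast_succ] at h1
    have hj0 : (0 : ℝ) ≤ j := Nat.cast_nonneg _
    refine ⟨min (s + j) t, min (s + (j + 1)) t, le_min (by linarith) hst,
      min_le_min_right _ (by linarith), min_le_right _ _, ?_, h3, h1⟩
    rcases le_total (s + j) t with h4 | h4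
    · rw [min_eq_left h4]
      have := min_le_left (s + ((j : ℝ) + 1)) t
      linarith
    · rw [min_eq_right h4]
      have := min_le_right (s + ((j : ℝ) + 1)) t
      linarith

theorem near (h : PM d) (hy : Hyp0 d) {p e x x' : X} {g J : ℝ} (h1 : g ≤ gp d p x e)
    (h2 : gp d p x' e < g) (h3 : d x x' ≤ J) : 2 * d p x ≤ 2 * J + g := by
  have h4 := hyp hy p x' x e
  have h5 : gp d p x' x < g := by
    by_contra hcon
    push Not at hcon
    have := le_min hcon h1
    linarith
  rw [gp] at h5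
  have h6 := h.tri p x' x
  have h7 := h.symm x' x
  linarith

theorem claimA {k : ℝ} (hk : 1 ≤ k) (h : PM d) (hy : Hyp0 d) {a b L : ℝ} (hL : 1 ≤ L)
    {γ : ℝ → X}
    (H : ∀ s t : ℝ, a ≤ s → s ≤ t → t ≤ b → t - s ≤ L →
      t - s ≤ k * d (γ s) (γ t) + k ∧ d (γ s) (γ t) ≤ k * (t - s) + k)
    {s t u : ℝ} (has : a ≤ s) (hst : s ≤ t) (htu : t ≤ u) (hub : u ≤ b) (hL' : u - s ≤ L) :
    gp d (γ t) (γ s) (γ u) ≤ 2 * (k * (4 * k * k + k) + k) := by
  have hk0 : 0 ≤ k := by linarith
  set g := gp d (γ t) (γ s) (γ u) with hg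
  by_cases h0 : g ≤ 0
  · have : 0 ≤ 2 * (k * (4 * k * k + k) + k) := by positivity
    linarith
  have h0' : 0 < g := not_le.1 h0
  have hg1 : g = d (γ t) (γ s) + d (γ t) (γ u) - d (γ s) (γ u) := rfl
  obtain ⟨x, x', hx1, hx2, hx3, hx4, hx5, hx6⟩ :=
    step (fun x => g ≤ gp d (γ t) (γ x) (γ s)) hst
      (by
        have h1 := h.tri (γ t) (γ s) (γ u)
        have h2 := h.self (γ s)
        show g ≤ d (γ t) (γ s) + d (γ t) (γ s) - d (γ s) (γ s)
        linarith)
      (by
        have h2 := h.self (γ t)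
        show ¬ (g ≤ d (γ t) (γ t) + d (γ t) (γ s) - d (γ t) (γ s))
        intro h3
        linarith)
  obtain ⟨y', y, hy1, hy2, hy3, hy4, hy5, hy6⟩ :=
    step (fun x => ¬ (g ≤ gp d (γ t) (γ x) (γ u))) htu
      (by
        have h2 := h.self (γ t)
        show ¬ (g ≤ d (γ t) (γ t) + d (γ t) (γ u) - d (γ t) (γ u))
        intro h3
        linarith)
      (by
        have h1 := h.tri (γ t) (γ u) (γ s)
        have h2 := h.self (γ u)
        have h3 := h.symm (γ u) (γ s)
        show ¬ ¬ (g ≤ d (γ t) (γ u) + d (γ t) (γ u) - d (γ u) (γ u))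
        rw [not_not]
        linarith)
  have hx5' : g ≤ gp d (γ t) (γ x) (γ s) := hx5
  have hx6' : gp d (γ t) (γ x') (γ s) < g := not_le.1 hx6
  have hy6' : g ≤ gp d (γ t) (γ y) (γ u) := not_not.1 hy6
  have hy5' : gp d (γ t) (γ y') (γ u) < g := not_le.1 hy5
  have hdx : d (γ x) (γ x') ≤ 2 * k := by
    have h1 := (H x x' (by linarith) hx2 (by linarith) (by linarith)).2
    have h2 : k * (x' - x) ≤ k * 1 := mul_le_mul_of_nonneg_left hx4 hk0
    linarith
  have hdy : d (γ y) (γ y') ≤ 2 * k := by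
    have h1 := (H y' y (by linarith) hy2 (by linarith) (by linarith)).2
    have h2 : k * (y - y') ≤ k * 1 := mul_le_mul_of_nonneg_left hy4 hk0
    have h3 := h.symm (γ y') (γ y)
    linarith
  have n1 := near h hy hx5' hx6' hdx
  have n2 := near h hy hy6' hy5' hdy
  have g1 : g ≤ gp d (γ t) (γ s) (γ y) := by
    have h1 := hyp hy (γ t) (γ s) (γ u) (γ y)
    rw [gp_comm h (γ t) (γ u) (γ y)] at h1
    exact (le_min (le_of_eq hg) hy6').trans h1
  have g2 : g ≤ gp d (γ t) (γ x) (γ y) :=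
    (le_min hx5' g1).trans (hyp hy (γ t) (γ x) (γ s) (γ y))
  have g3 : gp d (γ t) (γ x) (γ y) = d (γ t) (γ x) + d (γ t) (γ y) - d (γ x) (γ y) := rfl
  have hxy : d (γ x) (γ y) ≤ 4 * k := by linarith
  have h1 := (H x y (by linarith) (by linarith) (by linarith) (by linarith)).1
  have h2 : k * d (γ x) (γ y) ≤ k * (4 * k) := mul_le_mul_of_nonneg_left hxy hk0
  have h3 : t - x ≤ 4 * k * k + k := by linarith
  have h4 := (H x t (by linarith) (by linarith) (by linarith) (by linarith)).2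
  have h5 : k * (t - x) ≤ k * (4 * k * k + k) := mul_le_mul_of_nonneg_left h3 hk0
  have h6 : gp d (γ t) (γ x) (γ s) = d (γ t) (γ x) + d (γ t) (γ s) - d (γ x) (γ s) := rfl
  have h7 := h.tri (γ t) (γ x) (γ s)
  have h8 := h.symm (γ x) (γ t)
  linarith

theorem chain (h : PM d) (hy : Hyp0 d) {h0 : ℝ} (hh : 0 ≤ h0) (x : ℕ → X) (n : ℕ)
    (h1 : ∀ i < n, 2 * h0 + 1 ≤ d (x i) (x (i + 1)))
    (h2 : ∀ i, i + 1 < n → gp d (x (i + 1)) (x i) (x (i + 2)) ≤ 2 * h0) :
    (n : ℝ) ≤ d (x 0) (x n) := by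
  have key : ∀ i < n, gp d (x i) (x 0) (x (i + 1)) ≤ 2 * h0 := by
    intro i
    induction i with
    | zero =>
      intro _
      have h3 := h.self (x 0)
      show d (x 0) (x 0) + d (x 0) (x (0 + 1)) - d (x 0) (x (0 + 1)) ≤ 2 * h0
      linarith
    | succ i ih =>
      intro hi
      have h3 := ih (by omega)
      have h4 := h1 i (by omega)
      have h5 := h2 i hi
      have h6 := hyp hy (x (i + 1)) (x i) (x 0) (x (i + 2))
      have h7 : 2 * h0 + 2 ≤ gp d (x (i + 1)) (x i) (x 0) := by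
        rw [gp] at h3 ⊢
        have e1 := h.symm (x (i + 1)) (x i)
        have e2 := h.symm (x (i + 1)) (x 0)
        linarith
      by_contra hcon
      have hcon' : 2 * h0 < gp d (x (i + 1)) (x 0) (x (i + 2)) := not_le.1 hcon
      have h8 := lt_min (show 2 * h0 < gp d (x (i + 1)) (x i) (x 0) by linarith) hcon'
      linarith
  have key2 : ∀ i ≤ n, (i : ℝ) ≤ d (x 0) (x i) := by
    intro i
    induction i with
    | zero =>
      intro _
      rw [Nat.cast_zero]
      exact h.nn _ _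
    | succ i ih =>
      intro hi
      have h3 := ih (by omega)
      have h4 := key i (by omega)
      have h5 := h1 i (by omega)
      have e1 := h.symm (x i) (x 0)
      rw [gp] at h4
      push_cast
      linarith
  exact key2 n le_rfl

end Pool.Agent.NH54.MG.D3

namespace Pool.Agent.NH54.MG

open D3

theorem t_D3 : S_D3 := by
  intro k hk
  have hk0 : 0 ≤ k := by linarith
  set h0 : ℝ := k * (4 * k * k + k) + k with hh0
  have h00 : 0 ≤ h0 := by positivity
  set l : ℝ := k * (2 * h0 + 2) with hl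
  have hl1 : 1 ≤ l := by
    have h1 : 1 * 1 ≤ k * (2 * h0 + 2) := mul_le_mul hk (by linarith) zero_le_one hk0
    linarith
  refine ⟨3 * l, l, by linarith, hl1, ?_⟩
  intro X d h hy a b γ hab H s t has hst htb
  have hd := h.nn (γ s) (γ t)
  have hl0 : 0 < l := by linarith
  set n : ℕ := ⌊(t - s) / l⌋₊ with hn
  have hT : 0 ≤ (t - s) / l := div_nonneg (by linarith) hl0.le
  have hn1 : (n : ℝ) * l ≤ t - s := by
    have := Nat.floor_le hT
    rwa [le_div_iff₀ hl0] at this
  have hn2 : t - s < (n + 1) * l := by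
    have := Nat.lt_floor_add_one ((t - s) / l)
    rwa [div_lt_iff₀ hl0] at this
  -- the chain
  let τ : ℕ → ℝ := fun i => if i = n then t else s + i * l
  have hτn : τ n = t := if_pos rfl
  have hτ : ∀ i < n, τ i = s + i * l := fun i hi => if_neg (by omega)
  have hτ1 : ∀ i < n, τ i + l ≤ τ (i + 1) ∧ τ (i + 1) ≤ τ i + 2 * l ∧ s ≤ τ i ∧ τ (i + 1) ≤ t := by
    intro i hi
    have hi0 : (0 : ℝ) ≤ i := Nat.cast_nonneg _
    have hi1 : (i : ℝ) + 1 ≤ n := by exact_mod_cast hi
    have hil : 0 ≤ (i : ℝ) * l := mul_nonneg hi0 hl0.le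
    rw [hτ i hi]
    rcases Nat.lt_or_ge (i + 1) n with h1 | h1
    · rw [hτ (i + 1) h1]
      push_cast
      have h2 : ((i : ℝ) + 1) * l ≤ n * l := mul_le_mul_of_nonneg_right hi1 hl0.le
      refine ⟨by linarith, by linarith, by linarith, by linarith⟩
    · have h2 : i + 1 = n := by omega
      have h3 : (n : ℝ) = i + 1 := by rw [← h2]; push_cast; rfl
      rw [h2, hτn]
      rw [h3] at hn1 hn2
      refine ⟨by linarith, by linarith, by linarith, le_rfl⟩
  have hchain : (n : ℝ) ≤ d (γ (τ 0)) (γ (τ n)) := by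
    refine chain h hy h00 (fun i => γ (τ i)) n ?_ ?_
    · intro i hi
      obtain ⟨h1, h2, h3, h4⟩ := hτ1 i hi
      have h5 := (H (τ i) (τ (i + 1)) (by linarith) (by linarith) (by linarith) (by linarith)).1
      have h6 : k * (2 * h0 + 2) ≤ k * (d (γ (τ i)) (γ (τ (i + 1))) + 1) := by
        rw [← hl]
        linarith
      have h7 := le_of_mul_le_mul_left h6 (by linarith)
      show 2 * h0 + 1 ≤ d (γ (τ i)) (γ (τ (i + 1)))
      linarith
    · intro i hi
      obtain ⟨h1, h2, h3, h4⟩ := hτ1 i (by omega)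
      obtain ⟨h1', h2', h3', h4'⟩ := hτ1 (i + 1) hi
      have h5 : τ (i + 1) = τ i + l := by
        rw [hτ i (by omega), hτ (i + 1) hi]
        push_cast
        ring
      exact claimA hk h hy (by linarith) H (by linarith) (by linarith) (by linarith)
        (show τ (i + 1 + 1) ≤ b by linarith) (by linarith)
  rcases Nat.eq_zero_or_pos n with h1 | h1
  · rw [h1, Nat.cast_zero, zero_add, one_mul] at hn2
    have h2 : 0 ≤ l * d (γ s) (γ t) := mul_nonneg hl0.le hd
    linarith
  · have h2 : τ 0 = s := by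
      rw [hτ 0 h1]
      push_cast
      ring
    rw [h2, hτn] at hchain
    have h3 : (n : ℝ) * l ≤ l * d (γ s) (γ t) := by
      rw [mul_comm]
      exact mul_le_mul_of_nonneg_left hchain hl0.le
    linarith

end Pool.Agent.NH54.MG
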