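import Pool.Agent.NH54.MG.Stm

/-!
# MG-DISC: discretisation of quasi-geodesics
-/

set_option autoImplicit false

open Set Filter Topology

namespace Pool.Agent.NH54.MG.DISC

/-- the nodes -/
noncomputable def nd (a b : ℝ) (k : ℕ) : ℝ := min (a + k) b

theorem nd_zero {a b : ℝ} (h : a ≤ b) : nd a b 0 = a := by
  simp [nd, h]

theorem nd_mem {a b : ℝ} (h : a ≤ b) (k : ℕ) : nd a b k ∈ Icc a b := by
  have hk : (0 : ℝ) ≤ k := Nat.cast_nonneg k
  exact ⟨le_min (by linarith) h, min_le_right _ _⟩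

theorem nd_mono (a b : ℝ) {i j : ℕ} (h : i ≤ j) : nd a b i ≤ nd a b j := by
  unfold nd
  have : (i : ℝ) ≤ j := by exact_mod_cast h
  exact min_le_min (by linarith) le_rfl

theorem nd_succ_sub (a b : ℝ) (k : ℕ) : nd a b (k + 1) - nd a b k ≤ 1 := by
  unfold nd
  push_cast
  rcases le_total (a + (k : ℝ)) b with h | h
  · rw [min_eq_left h]
    have := min_le_left (a + ((k : ℝ) + 1)) b
    linarith
  · rw [min_eq_right h]
    have := min_le_right (a + ((k : ℝ) + 1)) b
    linarith

theorem nd_low {a b : ℝ} {n : ℕ} (hn : (n : ℝ) ≤ b - a) (i : ℕ) {j : ℕ} (hj : j ≤ n + 1) :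
    (j : ℝ) - i - 1 ≤ nd a b j - nd a b i := by
  have h1 : nd a b i ≤ a + i := min_le_left _ _
  have h2 : a + j - 1 ≤ nd a b j := by
    have : (j : ℝ) ≤ n + 1 := by exact_mod_cast hj
    exact le_min (by linarith) (by linarith)
  linarith

theorem nd_last {a b : ℝ} : nd a b (⌊b - a⌋₊ + 1) = b := by
  have := Nat.lt_floor_add_one (b - a)
  unfold nd
  push_cast
  exact min_eq_right (by linarith)

end Pool.Agent.NH54.MG.DISC

namespace Pool.Agent.NH54.MG

open DISC

theorem t_DISC (h : S_WL) : S_DISC := by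
  intro l e hl he
  set K : ℕ := ⌈l + e⌉₊ + 1 with hK
  have hKle : l + e ≤ (K : ℝ) - 1 := by
    rw [hK]
    push_cast
    have := Nat.le_ceil (l + e)
    linarith
  have hK1 : (1 : ℝ) ≤ K := by linarith
  have hKpos : 0 < K := by omega
  obtain ⟨C, hC⟩ : ∃ C : ℝ, C = K * l + K * (2 * l * K + l * e) + 2 * K + 1 := ⟨_, rfl⟩
  have hKl : (K : ℝ) ≤ K * l := by nlinarith
  have hrest : 0 ≤ (K : ℝ) * (2 * l * K + l * e) := by positivity
  have hKl0 : (0 : ℝ) ≤ K * l := by positivity
  refine ⟨C, by linarith, ?_⟩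
  intro G _ S hS a b η hab hQ
  obtain ⟨hPM, -, hone, hinv, -, -, hgeo, -⟩ := h G S hS
  set n : ℕ := ⌊b - a⌋₊ with hn
  have hnle : (n : ℝ) ≤ b - a := Nat.floor_le (by linarith)
  let t : ℕ → ℝ := nd a b
  have htm : ∀ k, t k ∈ Icc a b := nd_mem hab
  let g : ℕ → G := fun k => (η (t k))⁻¹ * η (t (k + 1))
  have hgw : ∀ k, wl S (g k) < K := by
    intro k
    have h1 := (hQ (t k) (htm k) (t (k + 1)) (htm (k + 1))).2
    have h2 : |t k - t (k + 1)| ≤ 1 := by
      rw [abs_sub_comm, abs_of_nonneg (sub_nonneg.2 (nd_mono a b (Nat.le_succ k)))]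
      exact nd_succ_sub a b k
    have h3 : (wl S (g k) : ℝ) = wd S (η (t k)) (η (t (k + 1))) := rfl
    have h4 : (wl S (g k) : ℝ) ≤ (K : ℝ) - 1 := by
      rw [h3]
      nlinarith
    have h5 : (wl S (g k) : ℝ) < K := by linarith
    exact_mod_cast h5
  choose q hq0 hq1 hq2 hq3 using hgeo
  let p : ℕ → G := fun m => η (t (m / K)) * q (g (m / K)) (min (m % K) (wl S (g (m / K))))
  have hp : ∀ m, p m = η (t (m / K)) * q (g (m / K)) (min (m % K) (wl S (g (m / K)))) := fun _ => rfl
  have hpK : ∀ k, p (K * k) = η (t k) := by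
    intro k
    rw [hp, Nat.mul_div_cancel_left _ hKpos, Nat.mul_mod_right, Nat.zero_min, hq0, mul_one]
  have hclose : ∀ i, wd S (p i) (η (t (i / K))) ≤ K := by
    intro i
    have h1 : (p i)⁻¹ * η (t (i / K)) = (q (g (i / K)) (min (i % K) (wl S (g (i / K)))))⁻¹ := by
      rw [hp]
      group
    have h2 := hq3 (g (i / K)) 0 (min (i % K) (wl S (g (i / K)))) (Nat.zero_le _) (min_le_right _ _)
    rw [hq0, inv_one, one_mul, Nat.sub_zero] at h2
    show (wl S ((p i)⁻¹ * η (t (i / K))) : ℝ) ≤ K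
    rw [h1, hinv, h2]
    have h3 : min (i % K) (wl S (g (i / K))) ≤ K := (min_le_left _ _).trans (Nat.mod_lt _ hKpos).le
    exact_mod_cast h3
  have hdiv : ∀ j, j ≤ K * (n + 1) → j / K ≤ n + 1 := by
    intro j hj
    calc j / K ≤ (K * (n + 1)) / K := Nat.div_le_div_right hj
      _ = n + 1 := Nat.mul_div_cancel_left _ hKpos
  have hstep : ∀ i j : ℕ, i ≤ j → j ≤ K * (n + 1) →
      (j - i : ℝ) ≤ K * (t (j / K) - t (i / K)) + 2 * K := by
    intro i j _ hj
    have h1 := nd_low hnle (i / K) (hdiv j hj)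
    have h2 : (j : ℝ) ≤ K * ((j / K : ℕ) : ℝ) + K := by
      have := Nat.lt_mul_div_succ j hKpos
      have h3 : j ≤ K * (j / K) + K := by
        rw [← Nat.mul_succ]
        exact this.le
      exact_mod_cast h3
    have h3 : (K : ℝ) * ((i / K : ℕ) : ℝ) ≤ i := by
      exact_mod_cast Nat.mul_div_le i K
    have h4 : (K : ℝ) * (((j / K : ℕ) : ℝ) - ((i / K : ℕ) : ℝ) - 1) ≤
        K * (t (j / K) - t (i / K)) := mul_le_mul_of_nonneg_left h1 (Nat.cast_nonneg K)
    nlinarith
  refine ⟨K * (n + 1), p, fun m => t (m / K), ?_, ?_, ?_, ?_, ?_, ?_, ?_, ?_, ?_, ?_⟩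
  · have := hpK 0
    rw [mul_zero] at this
    rw [this]
    exact congrArg η (nd_zero hab)
  · rw [hpK]
    exact congrArg η nd_last
  · intro i _
    have hw := hgw (i / K)
    rcases Nat.lt_or_ge (i % K + 1) K with hr | hr
    · have h1 : (i + 1) / K = i / K := by
        conv_lhs => rw [← Nat.div_add_mod i K, add_assoc, Nat.mul_add_div hKpos, Nat.div_eq_of_lt hr]
        rfl
      have h2 : (i + 1) % K = i % K + 1 := by
        conv_lhs => rw [← Nat.div_add_mod i K, add_assoc, Nat.mul_add_mod, Nat.mod_eq_of_lt hr]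
      rw [hp, hp, h1, h2]
      rcases Nat.lt_or_ge (i % K) (wl S (g (i / K))) with hlt | hge
      · right
        rw [min_eq_left hlt.le, min_eq_left (Nat.succ_le_of_lt hlt)]
        have h3 := hq2 (g (i / K)) (i % K) hlt
        have h4 : (η (t (i / K)) * q (g (i / K)) (i % K))⁻¹ *
            (η (t (i / K)) * q (g (i / K)) (i % K + 1)) =
            (q (g (i / K)) (i % K))⁻¹ * q (g (i / K)) (i % K + 1) := by group
        rw [h4]
        exact h3
      · left
        rw [min_eq_right hge, min_eq_right (by omega)]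
    · left
      have hmod := Nat.mod_lt i hKpos
      have hr' : i % K + 1 = K := by omega
      have h1 : i + 1 = K * (i / K + 1) := by
        conv_lhs => rw [← Nat.div_add_mod i K, add_assoc, hr']
        ring
      rw [h1, hpK, hp, min_eq_right (by omega), hq1]
      show η (t (i / K + 1)) = η (t (i / K)) * ((η (t (i / K)))⁻¹ * η (t (i / K + 1)))
      group
  · show t (0 / K) = a
    rw [Nat.zero_div]
    exact nd_zero hab
  · show t (K * (n + 1) / K) = b
    rw [Nat.mul_div_cancel_left _ hKpos]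
    exact nd_last
  · intro i j hij _
    exact nd_mono a b (Nat.div_le_div_right hij)
  · intro i j hij hj
    have h1 := hstep i j hij hj
    have h2 : 0 ≤ t (j / K) - t (i / K) := sub_nonneg.2 (nd_mono a b (Nat.div_le_div_right hij))
    show (j - i : ℝ) ≤ C * (t (j / K) - t (i / K)) + C
    nlinarith
  · intro i j hij hj
    have h1 := hstep i j hij hj
    have h2 : 0 ≤ t (j / K) - t (i / K) := sub_nonneg.2 (nd_mono a b (Nat.div_le_div_right hij))
    have h3 := (hQ (t (i / K)) (htm _) (t (j / K)) (htm _)).1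
    rw [abs_sub_comm, abs_of_nonneg h2] at h3
    have hl0 : 0 < l := by linarith
    have h4 : t (j / K) - t (i / K) ≤ l * (wd S (η (t (i / K))) (η (t (j / K))) + e) := by
      rw [sub_le_iff_le_add, div_le_iff₀ hl0] at h3
      linarith
    have h5 : wd S (η (t (i / K))) (η (t (j / K))) ≤ wd S (p i) (p j) + 2 * K := by
      have a1 := hPM.tri (η (t (i / K))) (p i) (η (t (j / K)))
      have a2 := hPM.tri (p i) (p j) (η (t (j / K)))
      have a3 := hclose i
      have a4 := hclose j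
      rw [hPM.symm] at a3
      linarith
    have h6 : t (j / K) - t (i / K) ≤ l * (wd S (p i) (p j) + 2 * K + e) := by
      refine h4.trans (mul_le_mul_of_nonneg_left ?_ hl0.le)
      linarith
    have h7 : (K : ℝ) * (t (j / K) - t (i / K)) ≤ K * (l * (wd S (p i) (p j) + 2 * K + e)) :=
      mul_le_mul_of_nonneg_left h6 (Nat.cast_nonneg K)
    have h8 := hPM.nn (p i) (p j)
    have h9 : (j - i : ℝ) ≤ K * l * wd S (p i) (p j) + (K * (2 * l * K + l * e) + 2 * K) := by
      nlinarith
    have h10 : K * l * wd S (p i) (p j) ≤ C * wd S (p i) (p j) :=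
      mul_le_mul_of_nonneg_right (by linarith) h8
    linarith
  · intro i _
    exact (hclose i).trans (by linarith)
  · intro s hs
    have hk : ⌊s - a⌋₊ ≤ n := Nat.floor_le_floor (by linarith [hs.2])
    refine ⟨K * ⌊s - a⌋₊, Nat.mul_le_mul_left K (by omega), ?_⟩
    rw [hpK]
    have h1 := (hQ s hs (t ⌊s - a⌋₊) (htm _)).2
    have h2 : t ⌊s - a⌋₊ = a + ⌊s - a⌋₊ := by
      refine min_eq_left ?_
      have := Nat.floor_le (show 0 ≤ s - a by linarith [hs.1])
      linarith [hs.2]
    have h3 : |s - t ⌊s - a⌋₊| ≤ 1 := by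
      rw [h2, abs_le]
      have b1 := Nat.floor_le (show 0 ≤ s - a by linarith [hs.1])
      have b2 := Nat.lt_floor_add_one (s - a)
      constructor <;> linarith
    nlinarith

end Pool.Agent.NH54.MG
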