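import Pool.Agent.NH54.MG.Stm

/-!
# MG-FLOW: lower bounds for the word length of the elements of `K`
-/

set_option autoImplicit false

open Set HNNExtension HNNExtension.NormalWord

namespace Pool.Agent.NH54.MG

namespace FLOW

theorem mD_one : mD (1 : D) = 0 := by
  simp [mD, mN, FreeGroup.toWord_one]

theorem mK_iK (x : D) : mK (iK x) = mD x := by
  have h : (iK x).fin.toFinset = ∅ := by
    rw [Set.Finite.toFinset_eq_empty]
    ext p
    simp [iK]
  show max (mD (iK x).δ) ((iK x).fin.toFinset.sup mD) = mD x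
  rw [h, Finset.sup_empty]
  show max (mD x) 0 = mD x
  exact max_eq_left (Nat.zero_le _)

theorem mK_zero (k : K) (h1 : k.δ = 1) (h2 : ∀ p, k.v p ≠ 1 → p = 1) : mK k = 0 := by
  have h3 : k.fin.toFinset.sup mD ≤ 0 := by
    refine Finset.sup_le fun p hp => ?_
    rw [Set.Finite.mem_toFinset, Function.mem_mulSupport] at hp
    rw [h2 p hp, mD_one]
  show max (mD k.δ) (k.fin.toFinset.sup mD) = 0
  rw [h1, mD_one]
  omega

theorem lamp_v (x : LA) (p : D) (h : (lamp x).v p ≠ 1) : p = 1 := by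
  classical
  by_contra hp
  exact h (if_neg hp)

theorem mK_lamp (x : LA) : mK (lamp x) = 0 := mK_zero _ rfl (lamp_v x)

theorem mK_lamp_inv (x : LA) : mK (lamp x)⁻¹ = 0 := by
  refine mK_zero _ ?_ fun p hp => ?_
  · show (1 : D)⁻¹ = 1
    exact inv_one
  · have h : (lamp x).v ((1 : D) * p) ≠ 1 := by
      intro h
      refine hp ?_
      show ((lamp x).v ((1 : D) * p))⁻¹ = 1
      rw [h, inv_one]
    have := lamp_v x _ h
    rwa [one_mul] at this

variable (P : Par) (n : ℕ)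

/-- the truncated norm -/
noncomputable def gg (k : K) : ℕ := min (P.F n * 4 ^ P.a n) (P.F n * mK k)

theorem gg_mul (h3 : S_SUB) (x z : K) : gg P n (x * z) ≤ gg P n x + gg P n z := by
  have h := Nat.mul_le_mul_left (P.F n) (h3.2.2.2.2.2.1 x z)
  rw [mul_add] at h
  unfold gg
  generalize P.F n * 4 ^ P.a n = A at *
  generalize P.F n * mK (x * z) = B at *
  generalize P.F n * mK x = C at *
  generalize P.F n * mK z = E at *
  omega

theorem gg_one : gg P n 1 = 0 := by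
  have h : mK (1 : K) = 0 := mK_zero _ rfl fun p hp => (hp rfl).elim
  rw [gg, h, mul_zero]
  exact Nat.min_zero _

theorem F_le : P.F n ≤ 4 ^ P.a n :=
  le_trans (Nat.le_mul_of_pos_right _ (by positivity)) (P.Fa n)

theorem gg_le {k : K} (h : mK k ≤ 1) : gg P n k ≤ 4 ^ P.a n := by
  refine le_trans (min_le_right _ _) (le_trans ?_ (F_le P n))
  calc P.F n * mK k ≤ P.F n * 1 := Nat.mul_le_mul_left _ h
    _ = P.F n := mul_one _

theorem th_eq (c : P.CN) :
    ((P.th (P.CN.equivMapOfInjective jN jN_inj c) : P.CK') : K) = jN (P.Th c) := by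
  have e : (P.CN.equivMapOfInjective jN jN_inj).symm (P.CN.equivMapOfInjective jN jN_inj c) = c :=
    MulEquiv.symm_apply_apply _ _
  show ((P.CN'.equivMapOfInjective jN jN_inj ((P.Th.subgroupMap P.CN)
    ((P.CN.equivMapOfInjective jN jN_inj).symm
      (P.CN.equivMapOfInjective jN jN_inj c))) : P.CK') : K) = jN (P.Th c)
  rw [e]
  rfl

theorem gg_jN (h3 : S_SUB) (h4 : S_TOP) (c : N) (hc : c ∈ P.CN) :
    gg P n (jN (P.Th c)) ≤ gg P n (jN c) + 4 ^ P.a n ∧
      gg P n (jN c) ≤ gg P n (jN (P.Th c)) + 4 ^ P.a n := by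
  have hm := h3.2.2.2.2.2.2
  unfold gg
  rw [hm, hm]
  rcases (h4 P c hc).2 n with ⟨h1, h2⟩ | ⟨h1, h2⟩
  · have e1 := Nat.mul_le_mul_left (P.F n) h1
    have e2 := Nat.mul_le_mul_left (P.F n) h2
    rw [min_eq_left e1, min_eq_left e2]
    exact ⟨Nat.le_add_right _ _, Nat.le_add_right _ _⟩
  · have e1 := le_trans (Nat.mul_le_mul_left (P.F n) h1.le) (P.Fa n)
    have e2 := le_trans (Nat.mul_le_mul_left (P.F n) h2.le) (P.Fa n)
    exact ⟨le_trans (le_trans (min_le_right _ _) e2) (Nat.le_add_left _ _),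
      le_trans (le_trans (min_le_right _ _) e1) (Nat.le_add_left _ _)⟩

theorem gg_th (h3 : S_SUB) (h4 : S_TOP) (c : P.CK) :
    gg P n ((P.th c : P.CK') : K) ≤ gg P n (c : K) + 4 ^ P.a n ∧
      gg P n (c : K) ≤ gg P n ((P.th c : P.CK') : K) + 4 ^ P.a n := by
  obtain ⟨c0, rfl⟩ := (P.CN.equivMapOfInjective jN jN_inj).surjective c
  have e2 : ((P.CN.equivMapOfInjective jN jN_inj c0 : P.CK) : K) = jN c0 :=
    Subgroup.coe_equivMapOfInjective_apply _ _ _ _
  rw [th_eq, e2]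
  exact gg_jN P n h3 h4 c0 c0.2

theorem gg_toEquiv (h3 : S_SUB) (h4 : S_TOP) (u : ℤˣ) (c : toSubgroup P.CK P.CK' u) :
    gg P n ((toSubgroupEquiv P.th u c : toSubgroup P.CK P.CK' (-u)) : K) ≤
      gg P n (c : K) + 4 ^ P.a n := by
  rcases Int.units_eq_one_or u with rfl | rfl
  · exact (gg_th P n h3 h4 c).1
  · have := (gg_th P n h3 h4 (P.th.symm c)).2
    have e : P.th (P.th.symm c) = c := P.th.apply_symm_apply c
    rw [e] at this
    exact this

theorem conj_eq (u : ℤˣ) (c : toSubgroup P.CK P.CK' u) :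
    (of ((toSubgroupEquiv P.th u c : toSubgroup P.CK P.CK' (-u)) : K) : P.G) =
      t ^ (u : ℤ) * of (c : K) * t ^ ((-u : ℤˣ) : ℤ) := by
  rcases Int.units_eq_one_or u with rfl | rfl
  · have := equiv_eq_conj (φ := P.th) c
    show (of ((P.th c : P.CK') : K) : P.G) = t ^ (1 : ℤ) * of (c : K) * t ^ (-1 : ℤ)
    rw [zpow_one, zpow_neg_one]
    exact this
  · have := equiv_symm_eq_conj (φ := P.th) c
    show (of ((P.th.symm c : P.CK) : K) : P.G) = t ^ (-1 : ℤ) * of (c : K) * t ^ (1 : ℤ)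
    rw [zpow_one, zpow_neg_one]
    exact this

/-- the cost of a word -/
noncomputable def cost (w : ReducedWord K P.CK P.CK') : ℕ :=
  gg P n w.head + (w.toList.map fun x => 4 ^ P.a n + gg P n x.2).sum

theorem step_of (h3 : S_SUB) (w : ReducedWord K P.CK P.CK') (k : K) (hk : gg P n k ≤ 4 ^ P.a n) :
    ∃ w' : ReducedWord K P.CK P.CK', w'.prod P.th = of k * w.prod P.th ∧
      cost P n w' ≤ cost P n w + 4 ^ P.a n := by
  refine ⟨⟨k * w.head, w.toList, w.chain⟩, ?_, ?_⟩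
  · simp [ReducedWord.prod, mul_assoc]
  · have := gg_mul P n h3 k w.head
    simp only [cost]
    omega

theorem step_t (h3 : S_SUB) (h4 : S_TOP) (w : ReducedWord K P.CK P.CK') (u : ℤˣ) :
    ∃ w' : ReducedWord K P.CK P.CK', w'.prod P.th = t ^ (u : ℤ) * w.prod P.th ∧
      cost P n w' ≤ cost P n w + 4 ^ P.a n := by
  obtain ⟨h, L, ch⟩ := w
  by_cases hc : h ∈ toSubgroup P.CK P.CK' u ∧ ∃ (g : K) (L' : List (ℤˣ × K)), L = (-u, g) :: L'
  · obtain ⟨hh, g, L', rfl⟩ := hc
    refine ⟨⟨(toSubgroupEquiv P.th u ⟨h, hh⟩ : toSubgroup P.CK P.CK' (-u)) * g, L',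
      (List.isChain_cons.1 ch).2⟩, ?_, ?_⟩
    · simp only [ReducedWord.prod, map_mul, conj_eq, List.map_cons, List.prod_cons, mul_assoc]
    · have e1 := gg_mul P n h3
        ((toSubgroupEquiv P.th u ⟨h, hh⟩ : toSubgroup P.CK P.CK' (-u)) : K) g
      have e2 := gg_toEquiv P n h3 h4 u ⟨h, hh⟩
      simp only at e2
      simp only [cost, List.map_cons, List.sum_cons]
      generalize 4 ^ P.a n = X at *
      omega
  · refine ⟨⟨1, (u, h) :: L, List.isChain_cons.2 ⟨fun x hx hm => ?_, ch⟩⟩, ?_, ?_⟩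
    · obtain ⟨L', rfl⟩ : ∃ L', L = x :: L' := by
        cases L with
        | nil => simp at hx
        | cons z L' =>
          simp at hx
          exact ⟨L', by rw [hx]⟩
      by_contra hne
      refine hc ⟨hm, x.2, L', ?_⟩
      have : x.1 = -u := by
        rcases Int.units_eq_one_or u with rfl | rfl <;>
          rcases Int.units_eq_one_or x.1 with hx1 | hx1 <;> simp_all
      rw [← this]
    · simp [ReducedWord.prod, mul_assoc]
    · simp only [cost, List.map_cons, List.sum_cons, gg_one]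
      omega

theorem gen_le (h3 : S_SUB) (x : P.G) (hx : x ∈ P.S) :
    (∃ k : K, x = of k ∧ gg P n k ≤ 4 ^ P.a n ∧ gg P n k⁻¹ ≤ 4 ^ P.a n) ∨ x = t := by
  have ha : mD (⟨1, 1⟩ : D) = 1 := by
    simp [mD, mN, FreeGroup.toWord_one]
  have ha' : mD (⟨1, 1⟩ : D)⁻¹ = 1 := by
    simp [mD, mN, FreeGroup.toWord_one]
  have hb : mD (⟨y 0, 0⟩ : D) = 0 := by
    simp [mD, mN, y, FreeGroup.toWord_of]
  have hb' : mD (⟨y 0, 0⟩ : D)⁻¹ = 0 := by
    have := h3.2.2.2.2.1 (⟨y 0, 0⟩ : D)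
    rw [hb] at this
    omega
  rcases hx with rfl | rfl | rfl | rfl | rfl
  · refine Or.inl ⟨_, rfl, gg_le P n ?_, gg_le P n ?_⟩
    · rw [mK_iK, ha]
    · rw [← map_inv, mK_iK, ha']
  · refine Or.inl ⟨_, rfl, gg_le P n ?_, gg_le P n ?_⟩
    · rw [mK_iK, hb]
      exact Nat.zero_le _
    · rw [← map_inv, mK_iK, hb']
      exact Nat.zero_le _
  · refine Or.inl ⟨_, rfl, gg_le P n ?_, gg_le P n ?_⟩
    · rw [mK_lamp]
      exact Nat.zero_le _
    · rw [mK_lamp_inv]
      exact Nat.zero_le _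
  · refine Or.inl ⟨_, rfl, gg_le P n ?_, gg_le P n ?_⟩
    · rw [mK_lamp]
      exact Nat.zero_le _
    · rw [mK_lamp_inv]
      exact Nat.zero_le _
  · exact Or.inr rfl

theorem step (h3 : S_SUB) (h4 : S_TOP) (w : ReducedWord K P.CK P.CK') (x : P.G)
    (hx : x ∈ P.S ∨ x⁻¹ ∈ P.S) :
    ∃ w' : ReducedWord K P.CK P.CK', w'.prod P.th = x * w.prod P.th ∧
      cost P n w' ≤ cost P n w + 4 ^ P.a n := by
  rcases hx with hx | hx
  · rcases gen_le P n h3 x hx with ⟨k, rfl, h1, -⟩ | rfl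
    · exact step_of P n h3 w k h1
    · have := step_t P n h3 h4 w 1
      simpa using this
  · rcases gen_le P n h3 _ hx with ⟨k, hk, -, h1⟩ | hk
    · obtain rfl : x = of k⁻¹ := by
        rw [map_inv, ← hk, inv_inv]
      exact step_of P n h3 w k⁻¹ h1
    · obtain rfl : x = t⁻¹ := by
        rw [← hk, inv_inv]
      have := step_t P n h3 h4 w (-1)
      simpa using this

theorem all (h3 : S_SUB) (h4 : S_TOP) (l : List P.G) (hl : ∀ x ∈ l, x ∈ P.S ∨ x⁻¹ ∈ P.S) :
    ∃ w : ReducedWord K P.CK P.CK', w.prod P.th = l.prod ∧ cost P n w ≤ 4 ^ P.a n * l.length := by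
  induction l with
  | nil =>
    refine ⟨ReducedWord.empty K P.CK P.CK', ?_, ?_⟩
    · simp [ReducedWord.prod]
    · simp [cost, gg_one]
  | cons x l ih =>
    obtain ⟨w, hw1, hw2⟩ := ih fun z hz => hl z (List.mem_cons_of_mem _ hz)
    obtain ⟨w', hw'1, hw'2⟩ := step P n h3 h4 w x (hl x List.mem_cons_self)
    refine ⟨w', ?_, ?_⟩
    · rw [hw'1, hw1, List.prod_cons]
    · rw [List.length_cons, mul_add, mul_one]
      omega

end FLOW

open FLOW in
/-- MG-FLOW -/
theorem t_FLOW (_h1 : S_WL) (h2 : S_GEN) (h3 : S_SUB) (h4 : S_TOP) : S_FLOW := by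
  intro P n k
  have hne : {m : ℕ | ∃ l : List P.G, l.length = m ∧ (∀ x ∈ l, x ∈ P.S ∨ x⁻¹ ∈ P.S) ∧
      l.prod = of k}.Nonempty := by
    have hk : (of k : P.G) ∈ Subgroup.closure P.S := by
      rw [(h2 P).1]
      exact Subgroup.mem_top _
    rw [← Subgroup.mem_toSubmonoid, Subgroup.closure_toSubmonoid] at hk
    obtain ⟨l, hl1, hl2⟩ := Submonoid.exists_list_of_mem_closure hk
    exact ⟨l.length, l, rfl, fun x hx => hl1 x hx, hl2⟩
  obtain ⟨l, hl1, hl2, hl3⟩ := Nat.sInf_mem hne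
  obtain ⟨w, hw1, hw2⟩ := all P n h3 h4 l hl2
  have hr : w.prod P.th ∈ (of.range : Subgroup P.G) := ⟨k, by rw [hw1, hl3]⟩
  have hnil := HNNExtension.ReducedWord.toList_eq_nil_of_mem_of_range P.th w hr
  have hhead : w.head = k := by
    have : (of w.head : P.G) = of k := by
      rw [← hl3, ← hw1, ReducedWord.prod, hnil]
      simp
    exact of_injective P.th this
  have hr' : wl P.S (of k : P.G) = l.length := hl1.symm
  rw [hr']
  have hc : gg P n k ≤ 4 ^ P.a n * l.length := by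
    refine le_trans ?_ hw2
    rw [cost, hhead]
    exact Nat.le_add_right _ _
  rcases le_total (P.F n * 4 ^ P.a n) (P.F n * mK k) with h | h
  · left
    rw [gg, min_eq_left h, mul_comm (P.F n)] at hc
    exact Nat.le_of_mul_le_mul_left hc (by positivity)
  · right
    rwa [gg, min_eq_right h] at hc

end Pool.Agent.NH54.MG
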