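import Pool.Agent.NH54.MG.Stm

/-!
# Project MG (helper54), part MG-GEN: the generating set (helper48)
-/

set_option autoImplicit false

open Set HNNExtension

namespace Pool.Agent.NH54.MG

namespace GEN

theorem lamp_v (x : LA) (p : D) [Decidable (p = 1)] : (lamp x).v p = if p = 1 then x else 1 := by
  simp only [lamp]
  congr

theorem lamp_mul (x z : LA) : lamp (x * z) = lamp x * lamp z := by
  classical
  apply K.ext
  · funext p
    rw [K.mul_v, lamp_v, lamp_v, lamp_v]
    have h1 : (lamp x).δ = 1 := rfl
    rw [h1, inv_one, one_mul]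
    split_ifs <;> simp
  · rw [K.mul_δ]
    show (1 : D) = 1 * 1
    rw [mul_one]

theorem lamp_one : lamp 1 = 1 := by
  classical
  apply K.ext
  · funext p
    rw [lamp_v, K.one_v]
    simp
  · rfl

/-- the lamps at the position `1`, as a homomorphism -/
noncomputable def lampHom : LA →* K where
  toFun := lamp
  map_one' := lamp_one
  map_mul' := lamp_mul

theorem D_top (H : Subgroup D) (ha : (⟨1, 1⟩ : D) ∈ H) (hb : (⟨y 0, 0⟩ : D) ∈ H) : H = ⊤ := by
  have h1 : ∀ p : ℤ, (⟨1, p⟩ : D) ∈ H := by
    intro p
    induction p using Int.induction_on with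
    | zero => exact H.one_mem
    | succ i ih =>
      have h := H.mul_mem ih ha
      have e : (⟨1, (i : ℤ)⟩ : D) * ⟨1, 1⟩ = ⟨1, (i : ℤ) + 1⟩ := by
        apply D.ext
        · simp only [D.mul_u, map_one, mul_one]
        · simp only [D.mul_t]
      rwa [e] at h
    | pred i ih =>
      have h := H.mul_mem ih (H.inv_mem ha)
      have e : (⟨1, -(i : ℤ)⟩ : D) * (⟨1, 1⟩ : D)⁻¹ = ⟨1, -(i : ℤ) - 1⟩ := by
        apply D.ext
        · simp only [D.mul_u, D.inv_u, inv_one, map_one, mul_one]
        · simp only [D.mul_t, D.inv_t]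
          ring
      rwa [e] at h
  have h2 : ∀ p : ℤ, iD (y p) ∈ H := by
    intro p
    have h := H.mul_mem (H.mul_mem (h1 p) hb) (h1 (-p))
    have e : (⟨1, p⟩ : D) * ⟨y 0, 0⟩ * ⟨1, -p⟩ = iD (y p) := by
      apply D.ext
      · simp only [D.mul_u, map_one, mul_one, one_mul, sh_y, zero_add]
        rfl
      · simp only [D.mul_t, add_zero, add_neg_cancel]
        rfl
    rwa [e] at h
  have h3 : ∀ u : N, iD u ∈ H := by
    have h : (⊤ : Subgroup N) ≤ H.comap iD := by
      rw [← FreeGroup.closure_range_of, Subgroup.closure_le]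
      rintro _ ⟨p, rfl⟩
      exact h2 p
    intro u
    exact h (Subgroup.mem_top u)
  rw [eq_top_iff]
  intro x _
  have h := H.mul_mem (h3 x.u) (h1 x.t)
  have e : iD x.u * (⟨1, x.t⟩ : D) = x := by
    apply D.ext
    · simp only [D.mul_u, map_one, mul_one]
      rfl
    · simp only [D.mul_t]
      show 0 + x.t = x.t
      rw [zero_add]
  rwa [e] at h

theorem K_top (H : Subgroup K) (ha : iK (⟨1, 1⟩ : D) ∈ H) (hb : iK (⟨y 0, 0⟩ : D) ∈ H)
    (ht : lamp (FreeGroup.of true) ∈ H) (hf : lamp (FreeGroup.of false) ∈ H) : H = ⊤ := by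
  classical
  have h1 : ∀ x : D, iK x ∈ H := by
    have h := D_top (H.comap iK) ha hb
    intro x
    have h2 : x ∈ H.comap iK := by rw [h]; exact Subgroup.mem_top x
    exact h2
  have h2 : ∀ x : LA, lamp x ∈ H := by
    have h : (⊤ : Subgroup LA) ≤ H.comap lampHom := by
      rw [← FreeGroup.closure_range_of, Subgroup.closure_le]
      rintro _ ⟨p, rfl⟩
      cases p
      · exact hf
      · exact ht
    intro x
    exact h (Subgroup.mem_top x)
  have h3 : ∀ (p : D) (x : LA), iK p * lamp x * (iK p)⁻¹ ∈ H := fun p x =>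
    H.mul_mem (H.mul_mem (h1 p) (h2 x)) (H.inv_mem (h1 p))
  have hδ : ∀ (p : D) (x : LA), (iK p * lamp x * (iK p)⁻¹).δ = 1 := by
    intro p x
    simp only [K.mul_δ, K.inv_δ]
    show p * 1 * p⁻¹ = 1
    group
  have hv : ∀ (p : D) (x : LA) (q : D),
      (iK p * lamp x * (iK p)⁻¹).v q = if q = p then x else 1 := by
    intro p x q
    have e1 : ∀ r : D, (iK p).v r = 1 := fun r => rfl
    rw [K.mul_v, K.mul_v, K.inv_v, e1, e1, one_mul, inv_one, mul_one, lamp_v]
    have e2 : (iK p).δ = p := rfl
    rw [e2]
    have e3 : p⁻¹ * q = 1 ↔ q = p := by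
      rw [inv_mul_eq_one]
      exact eq_comm
    simp only [e3]
  have h4 : ∀ (s : Finset D) (k : K), Function.mulSupport k.v ⊆ ↑s → k ∈ H := by
    intro s
    induction s using Finset.induction_on with
    | empty =>
      intro k hk
      have e : k = iK k.δ := by
        apply K.ext
        · funext p
          have : p ∉ Function.mulSupport k.v := fun hp => by simpa using hk hp
          rw [Function.notMem_mulSupport] at this
          rw [this]
          rfl
        · rfl
      rw [e]
      exact h1 _
    | insert p s hp ih =>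
      intro k hk
      have h5 : (iK p * lamp (k.v p) * (iK p)⁻¹)⁻¹ * k ∈ H := by
        apply ih
        intro q hq
        rw [Function.mem_mulSupport, K.mul_v, K.inv_v, hv, K.inv_δ, hδ, inv_one, inv_one,
          one_mul] at hq
        by_cases hqp : q = p
        · subst hqp
          rw [if_pos rfl] at hq
          exact absurd (inv_mul_cancel _) hq
        · rw [if_neg hqp, inv_one, one_mul] at hq
          have h6 := hk (Function.mem_mulSupport.2 hq)
          rw [Finset.coe_insert, Set.mem_insert_iff] at h6
          exact h6.resolve_left hqp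
      have h6 := H.mul_mem (h3 p (k.v p)) h5
      rwa [mul_inv_cancel_left] at h6
  rw [eq_top_iff]
  intro k _
  exact h4 k.fin.toFinset k (by rw [Set.Finite.coe_toFinset])

end GEN

/-- MG-GEN -/
theorem t_GEN : S_GEN := by
  intro P
  constructor
  · have hK : (Subgroup.closure P.S).comap (of : K →* P.G) = ⊤ := by
      apply GEN.K_top
      · exact Subgroup.subset_closure (by simp [Par.S])
      · exact Subgroup.subset_closure (by simp [Par.S])
      · exact Subgroup.subset_closure (by simp [Par.S])
      · exact Subgroup.subset_closure (by simp [Par.S])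
    have ht : (t : P.G) ∈ Subgroup.closure P.S := Subgroup.subset_closure (by simp [Par.S])
    rw [eq_top_iff]
    intro g _
    induction g using HNNExtension.induction_on with
    | of k =>
      have : k ∈ (Subgroup.closure P.S).comap (of : K →* P.G) := by
        rw [hK]; exact Subgroup.mem_top k
      exact this
    | t => exact ht
    | mul x z hx hz => exact Subgroup.mul_mem _ (hx trivial) (hz trivial)
    | inv x hx => exact Subgroup.inv_mem _ (hx trivial)
  · simp only [Par.S]
    exact Set.toFinite _

end Pool.Agent.NH54.MG
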