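import Pool.Agent.NH54.MG.Stm

/-!
# Project MG: the Bass-Serre tree is `0`-hyperbolic (MG-HY)
-/

set_option autoImplicit false

open HNNExtension HNNExtension.NormalWord

namespace Pool.Agent.NH54.MG

namespace HY

/-! ## Trees -/

section Tree

variable {X : Type} (D : X → X → ℕ)

/-- the neighbour of `p` in the direction of `y` -/
theorem claimC (hs : ∀ x y, D x y = D y x) (ht : ∀ x y z, D x z ≤ D x y + D y z)
    (h1 : ∀ x y, 0 < D x y → ∃ x', D x x' = 1 ∧ D x' y + 1 = D x y)
    (h2 : ∀ x x' y, D x x' = 1 → D x' y = D x y + 1 ∨ D x' y + 1 = D x y)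
    (h3 : ∀ x x' x'' y, D x x' = 1 → D x x'' = 1 → D x' y + 1 = D x y → D x'' y + 1 = D x y →
      D x' x'' = 0) :
    ∀ (n : ℕ) (p p' x y : X), D p x = n → D p p' = 1 → D p' y + 1 = D p y → D p' x = D p x + 1 →
      D x y = D p x + D p y := by
  intro n
  induction n with
  | zero =>
    intro p p' x y hn hp hy hx
    have a1 := ht x p y
    have a2 := ht p x y
    rw [hs x p, hn] at a1
    omega
  | succ n ih =>
    intro p p' x y hn hp hy hx
    obtain ⟨x1, hx1, hx2⟩ := h1 p x (by omega)
    rcases h2 p x1 y hx1 with h | h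
    · have := ih x1 p x y (by omega) (by rw [hs]; exact hx1) (by omega) (by omega)
      omega
    · have h4 := h3 p x1 p' y hx1 hp h hy
      have h5 := ht p' x1 x
      rw [hs p' x1] at h5
      omega

theorem fourpt (hs : ∀ x y, D x y = D y x) (ht : ∀ x y z, D x z ≤ D x y + D y z)
    (h1 : ∀ x y, 0 < D x y → ∃ x', D x x' = 1 ∧ D x' y + 1 = D x y)
    (h2 : ∀ x x' y, D x x' = 1 → D x' y = D x y + 1 ∨ D x' y + 1 = D x y)
    (h3 : ∀ x x' x'' y, D x x' = 1 → D x x'' = 1 → D x' y + 1 = D x y → D x'' y + 1 = D x y →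
      D x' x'' = 0) :
    ∀ (n : ℕ) (p x y z : X), D p y = n →
      min ((D p x : ℤ) + D p y - D x y) ((D p y : ℤ) + D p z - D y z) ≤
        (D p x : ℤ) + D p z - D x z := by
  intro n
  induction n with
  | zero =>
    intro p x y z hn
    have a1 := ht p x y
    have a2 := ht x p y
    have a3 := ht x p z
    have a4 := ht y p x
    have a5 := ht p y x
    rw [hs x p] at a2 a3
    rw [hs y p, hs y x] at a4
    rw [hs y x] at a5
    refine le_trans (min_le_left _ _) ?_
    omega
  | succ n ih =>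
    intro p x y z hn
    by_cases hxy : D x y = D p x + D p y
    · have a3 := ht x p z
      rw [hs x p] at a3
      refine le_trans (min_le_left _ _) ?_
      omega
    by_cases hyz : D z y = D p z + D p y
    · have a3 := ht x p z
      rw [hs x p] at a3
      rw [hs y z]
      refine le_trans (min_le_right _ _) ?_
      omega
    obtain ⟨p', hp1, hp2⟩ := h1 p y (by omega)
    have bx : D p' x + 1 = D p x := by
      rcases h2 p p' x hp1 with h | h
      · exact absurd (claimC D hs ht h1 h2 h3 _ p p' x y rfl hp1 hp2 h) hxy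
      · exact h
    have bz : D p' z + 1 = D p z := by
      rcases h2 p p' z hp1 with h | h
      · exact absurd (claimC D hs ht h1 h2 h3 _ p p' z y rfl hp1 hp2 h) hyz
      · exact h
    have := ih p' x y z (by omega)
    omega

end Tree

/-! ## The stable letter -/

section HNN

variable {K₀ : Type} [Group K₀] {A B : Subgroup K₀} (φ : A ≃* B)

theorem conj_mem (u : ℤˣ) (x : K₀) (hx : x ∈ toSubgroup A B u) :
    ∃ k : K₀, (t ^ (u : ℤ) * of x * (t ^ (u : ℤ))⁻¹ : HNNExtension K₀ A B φ) = of k := by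
  rcases Int.units_eq_one_or u with rfl | rfl
  · refine ⟨φ ⟨x, hx⟩, ?_⟩
    have := equiv_eq_conj (φ := φ) ⟨x, hx⟩
    rw [this]
    simp
  · refine ⟨φ.symm ⟨x, hx⟩, ?_⟩
    have := equiv_symm_eq_conj (φ := φ) ⟨x, hx⟩
    rw [this]
    simp

/-- left multiplication by `t ^ u * of a` -/
theorem stepw (hT : ∀ w : ReducedWord K₀ A B, tl φ (w.prod φ) = w.toList.length)
    (u : ℤˣ) (a : K₀) (w : ReducedWord K₀ A B) :
    tl φ (t ^ (u : ℤ) * of a * w.prod φ) = w.toList.length + 1 ∨
      (tl φ (t ^ (u : ℤ) * of a * w.prod φ) + 1 = w.toList.length ∧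
        a * w.head ∈ toSubgroup A B u ∧ ∀ v ∈ w.toList.head?.map Prod.fst, v = -u) := by
  obtain ⟨k0, l, hl⟩ := w
  by_cases hc : ((u, a * k0) :: l).IsChain
      (fun a b : ℤˣ × K₀ => a.2 ∈ toSubgroup A B a.1 → a.1 = b.1)
  · left
    have := hT ⟨1, (u, a * k0) :: l, hc⟩
    simp only [ReducedWord.prod, List.map_cons, List.prod_cons, map_one, one_mul,
      List.length_cons] at this
    simp only [ReducedWord.prod]
    rw [← this, map_mul]
    congr 1
    simp only [mul_assoc]
  · right
    rw [List.isChain_cons] at hc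
    cases l with
    | nil =>
      exfalso
      apply hc
      simp
    | cons b l =>
      have hc2 : ¬ (a * k0 ∈ toSubgroup A B u → u = b.1) := by
        intro h
        apply hc
        refine ⟨?_, hl⟩
        intro y hy
        simp only [List.head?_cons, Option.mem_def, Option.some.injEq] at hy
        subst hy
        exact h
      push Not at hc2
      obtain ⟨h3, h4⟩ := hc2
      have h5 : b.1 = -u := by
        rcases Int.units_eq_one_or u with rfl | rfl <;>
          rcases Int.units_eq_one_or b.1 with h | h <;> simp_all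
      refine ⟨?_, h3, ?_⟩
      · obtain ⟨k, hk⟩ := conj_mem φ u _ h3
        have hl2 := (List.isChain_cons.1 hl).2
        have := hT ⟨k * b.2, l, hl2⟩
        simp only [ReducedWord.prod] at this
        simp only [ReducedWord.prod, List.map_cons, List.prod_cons, List.length_cons]
        rw [← this]
        congr 2
        rw [map_mul, ← hk, h5, map_mul]
        simp only [Units.val_neg, zpow_neg, mul_assoc]
      · intro v hv
        simp only [List.head?_cons, Option.map_some, Option.mem_def, Option.some.injEq] at hv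
        rw [← hv, h5]

end HNN

end HY

open HY in
/-- **MG-HY** -/
theorem t_HY (h : S_TL) : S_HY := by
  intro K₀ _ A B φ
  obtain ⟨hT, hE, h1, hI, hM, hL, hR, ht, h0⟩ := h K₀ A B φ
  set D : HNNExtension K₀ A B φ → HNNExtension K₀ A B φ → ℕ := fun g h => tl φ (g⁻¹ * h) with hD
  have hs : ∀ x y, D x y = D y x := by
    intro x y
    simp only [hD]
    rw [← hI]
    congr 1
    group
  have htr : ∀ x y z, D x z ≤ D x y + D y z := by
    intro x y z
    simp only [hD]
    refine le_trans (le_of_eq ?_) (hM _ _)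
    congr 1
    group
  have htu : ∀ u : ℤˣ, tl φ (t ^ (u : ℤ)) = 1 := by
    intro u
    rcases Int.units_eq_one_or u with rfl | rfl
    · simpa using ht
    · simp only [Units.val_neg, Units.val_one, zpow_neg, zpow_one]
      rw [hI]
      exact ht
  have hof : ∀ k : K₀, tl φ (of k) = 0 := by
    intro k
    have := hR 1 k
    rwa [one_mul, h1] at this
  -- elements of length one
  have hone : ∀ g, tl φ g = 1 → ∃ (u : ℤˣ) (a b : K₀), g = of a * t ^ (u : ℤ) * of b := by
    intro g hg
    obtain ⟨⟨k, l, hl⟩, rfl⟩ := hE g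
    rw [hT] at hg
    obtain ⟨⟨u, b⟩, rfl⟩ := List.length_eq_one_iff.1 hg
    refine ⟨u, k, b, ?_⟩
    simp [ReducedWord.prod, mul_assoc]
  have hstep : ∀ (g : HNNExtension K₀ A B φ) (u : ℤˣ) (a : K₀),
      tl φ (t ^ (u : ℤ) * of a * g) = tl φ g + 1 ∨ tl φ (t ^ (u : ℤ) * of a * g) + 1 = tl φ g := by
    intro g u a
    obtain ⟨w, rfl⟩ := hE g
    rw [hT]
    rcases stepw φ hT u a w with h | h
    · exact Or.inl h
    · exact Or.inr h.1
  have hT1 : ∀ x y, 0 < D x y → ∃ x', D x x' = 1 ∧ D x' y + 1 = D x y := by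
    intro x y hxy
    simp only [hD] at hxy ⊢
    obtain ⟨⟨k, l, hl⟩, hw⟩ := hE (x⁻¹ * y)
    rw [← hw, hT] at hxy
    cases l with
    | nil => simp at hxy
    | cons b l =>
      refine ⟨x * (of k * t ^ (b.1 : ℤ)), ?_, ?_⟩
      · rw [inv_mul_cancel_left, hL, htu]
      · have e : (x * (of k * t ^ (b.1 : ℤ)))⁻¹ * y =
            (of k * t ^ (b.1 : ℤ))⁻¹ * (x⁻¹ * y) := by group
        rw [e, ← hw, hT]
        have hl2 := (List.isChain_cons.1 hl).2
        have := hT ⟨b.2, l, hl2⟩
        simp only [ReducedWord.prod, List.map_cons, List.prod_cons, List.length_cons] at this ⊢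
        rw [← this]
        congr 2
        simp only [mul_inv_rev, mul_assoc, inv_mul_cancel_left]
  -- description of the neighbours
  have hnb : ∀ x x', D x x' = 1 → ∃ (u : ℤˣ) (a b : K₀), ∀ y,
      x'⁻¹ * y = of b * (t ^ (u : ℤ) * of a * (x⁻¹ * y)) := by
    intro x x' hx
    obtain ⟨u, a, b, hg⟩ := hone _ hx
    refine ⟨-u, a⁻¹, b⁻¹, fun y => ?_⟩
    have e : x' = x * (of a * t ^ (u : ℤ) * of b) := by rw [← hg, mul_inv_cancel_left]
    rw [e]
    simp only [mul_inv_rev, map_inv, Units.val_neg, zpow_neg, mul_assoc]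
  have hT2 : ∀ x x' y, D x x' = 1 → D x' y = D x y + 1 ∨ D x' y + 1 = D x y := by
    intro x x' y hx
    obtain ⟨u, a, b, hu⟩ := hnb x x' hx
    simp only [hD]
    rw [hu y, hL]
    exact hstep _ _ _
  have hT3 : ∀ x x' x'' y, D x x' = 1 → D x x'' = 1 → D x' y + 1 = D x y →
      D x'' y + 1 = D x y → D x' x'' = 0 := by
    intro x x' x'' y hx' hx'' hy' hy''
    obtain ⟨u, a, b, hu⟩ := hnb x x' hx'
    obtain ⟨u', a', b', hu'⟩ := hnb x x'' hx''
    simp only [hD] at hy' hy'' ⊢
    obtain ⟨w, hw⟩ := hE (x⁻¹ * y)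
    rw [hu y, hL, ← hw, hT] at hy'
    rw [hu' y, hL, ← hw, hT] at hy''
    rcases stepw φ hT u a w with h | ⟨h3, h4, h5⟩
    · omega
    rcases stepw φ hT u' a' w with h | ⟨h3', h4', h5'⟩
    · omega
    have hne : w.toList ≠ [] := by
      intro he
      rw [he] at h3
      simp at h3
    obtain ⟨v, l, hvl⟩ := List.exists_cons_of_ne_nil hne
    have e1 := h5 v.1 (by rw [hvl]; simp)
    have e2 := h5' v.1 (by rw [hvl]; simp)
    have e3 : u' = u := by
      rw [e1] at e2
      exact (neg_injective e2).symm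
    subst e3
    have h6 : a * a'⁻¹ ∈ toSubgroup A B u' := by
      have := mul_mem h4 (inv_mem h4')
      rwa [mul_inv_rev, mul_assoc, mul_inv_cancel_left] at this
    obtain ⟨k, hk⟩ := conj_mem φ u' _ h6
    have h7 : x'⁻¹ * x'' = of (b * k * b'⁻¹) := by
      have e4 := hu x''
      have e5 := hu' x''
      rw [inv_mul_cancel] at e5
      have e6 : x⁻¹ * x'' = (t ^ (u' : ℤ) * of a')⁻¹ * (of b')⁻¹ := by
        have e7 : x⁻¹ * x'' = (t ^ (u' : ℤ) * of a')⁻¹ * (of b')⁻¹ *
            (of b' * (t ^ (u' : ℤ) * of a' * (x⁻¹ * x''))) := by group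
        rw [← e5, mul_one] at e7
        exact e7
      rw [e4, e6, map_mul, map_mul, ← hk, map_mul, map_inv, map_inv]
      group
    rw [h7, hof]
  constructor
  · constructor
    · intro x
      show ((tl φ (x⁻¹ * x) : ℕ) : ℝ) = 0
      rw [inv_mul_cancel, h1, Nat.cast_zero]
    · intro x y
      exact Nat.cast_nonneg _
    · intro x y
      show ((D x y : ℕ) : ℝ) = (D y x : ℕ)
      rw [hs]
    · intro x y z
      show ((D x z : ℕ) : ℝ) ≤ (D x y : ℕ) + (D y z : ℕ)
      exact_mod_cast htr x y z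
  · intro p x y z
    have := fourpt D hs htr hT1 hT2 hT3 _ p x y z rfl
    show min (((D p x : ℕ) : ℝ) + (D p y : ℕ) - (D x y : ℕ)) ((D p y : ℕ) + (D p z : ℕ) - (D y z : ℕ)) ≤
      (D p x : ℕ) + (D p z : ℕ) - (D x z : ℕ)
    exact_mod_cast this

end Pool.Agent.NH54.MG
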