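import Pool.Agent.NH54.MG.TOP

/-!
# Project MG, part IDX: the first letter of the maximal type
-/

set_option autoImplicit false

open Set Filter Topology

namespace Pool.Agent.NH54.MG

namespace IDX2

open TOP

variable (P : Par)

theorem mem_CN {L : List (ℤ × Bool)} (h : CW P L) : FreeGroup.mk L ∈ P.CN := by
  induction h with
  | nil => exact P.CN.one_mem
  | cons n i j L hi hj hL ih =>
    have h1 : FreeGroup.mk ((P.al n i, false) :: (P.al n j, true) :: L) =
        ((y (P.al n i))⁻¹ * y (P.al n j)) * FreeGroup.mk L := by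
      have h2 : (y (P.al n i))⁻¹ = FreeGroup.mk [(P.al n i, false)] := rfl
      have h3 : y (P.al n j) = FreeGroup.mk [(P.al n j, true)] := rfl
      rw [h2, h3, FreeGroup.mul_mk, FreeGroup.mul_mk]
      rfl
    rw [h1]
    exact P.CN.mul_mem (Subgroup.subset_closure ⟨n, i, j, hi, hj, rfl⟩) ih

theorem split {L : List (ℤ × Bool)} (h : CW P L) (n : ℕ) (h1 : 4 ^ P.a n ≤ mL L)
    (h2 : mL L < 4 ^ P.s (n + 1)) : ∃ (L₀ L₁ : List (ℤ × Bool)) (i j : ℕ),
      L = L₀ ++ (P.al n i, false) :: (P.al n j, true) :: L₁ ∧ CW P L₀ ∧ i < P.q n ∧ j < P.q n ∧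
      ∀ x ∈ L₀, ∃ m j : ℕ, m < n ∧ j < P.q m ∧ x.1 = P.al m j := by
  induction h with
  | nil =>
    have : mL [] = 0 := rfl
    have h3 : 0 < 4 ^ P.a n := by positivity
    omega
  | cons n' i' j' L hi hj hL ih =>
    rcases lt_trichotomy n' n with hn | rfl | hn
    · have h3 := al_lt P hn hi
      have h4 := al_lt P hn hj
      have h5 : 4 ^ P.s n < 4 ^ P.a n := Nat.pow_lt_pow_right (by norm_num) (P.sa n)
      rw [mL_cons, mL_cons] at h1 h2
      simp only at h1 h2
      obtain ⟨L₀, L₁, i, j, e, e1, e2, e3, e4⟩ := ih (by omega) (by omega)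
      refine ⟨(P.al n' i', false) :: (P.al n' j', true) :: L₀, L₁, i, j, by rw [e]; rfl,
        CW.cons n' i' j' L₀ hi hj e1, e2, e3, ?_⟩
      intro x hx
      rcases List.mem_cons.1 hx with hx | hx
      · subst hx
        exact ⟨n', i', hn, hi, rfl⟩
      · rcases List.mem_cons.1 hx with hx | hx
        · subst hx
          exact ⟨n', j', hn, hj, rfl⟩
        · exact e4 x hx
    · exact ⟨[], L, i', j', rfl, CW.nil, hi, hj, by simp⟩
    · exfalso
      have h3 : 4 ^ P.a (n + 1) ≤ (P.al n' i').natAbs := le_al P hn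
      have h4 : 4 ^ P.s (n + 1) < 4 ^ P.a (n + 1) := Nat.pow_lt_pow_right (by norm_num) (P.sa _)
      rw [mL_cons] at h2
      simp only at h2
      omega

theorem tw {L₀ : List (ℤ × Bool)} {x : ℤ × Bool} {L₁ : List (ℤ × Bool)} {m : ℕ}
    (h : ∀ z ∈ L₀, z.1.natAbs < m) (hx : m ≤ x.1.natAbs) :
    (L₀ ++ x :: L₁).takeWhile (fun x => decide (x.1.natAbs < m)) = L₀ ∧
      (L₀ ++ x :: L₁).dropWhile (fun x => decide (x.1.natAbs < m)) = x :: L₁ := by
  have h1 : ∀ z ∈ L₀, (fun x : ℤ × Bool => decide (x.1.natAbs < m)) z = true := fun z hz =>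
    decide_eq_true (h z hz)
  have h2 : ¬ (fun x : ℤ × Bool => decide (x.1.natAbs < m)) x = true := by
    simp only [decide_eq_true_eq]
    omega
  constructor
  · rw [List.takeWhile_append_of_pos h1, List.takeWhile_cons_of_neg (p := fun x : ℤ × Bool => decide (x.1.natAbs < m)) h2, List.append_nil]
  · rw [List.dropWhile_append_of_pos h1, List.dropWhile_cons_of_neg (p := fun x : ℤ × Bool => decide (x.1.natAbs < m)) h2]

end IDX2

open TOP IDX2 in
theorem t_IDX' (h1 : S_CW) (_h2 : S_TOP) (_h3 : S_SUB) : S_IDX := by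
  intro P n c hc hc1 hc2
  obtain ⟨hw, hT⟩ := h1 P c hc
  rw [mN_eq] at hc1 hc2
  obtain ⟨L₀, L₁, i, j, e, e1, e2, e3, e4⟩ := split P hw n hc1 hc2
  have hsa : 4 ^ P.s n < 4 ^ P.a n := Nat.pow_lt_pow_right (by norm_num) (P.sa n)
  have hpos : 0 < 4 ^ P.s n := by positivity
  have hred : FreeGroup.IsReduced (L₀ ++ (P.al n i, false) :: (P.al n j, true) :: L₁) := by
    rw [← e]
    exact FreeGroup.isReduced_toWord
  have hred0 : FreeGroup.IsReduced L₀ := List.IsChain.left_of_append hred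
  have hw0 : (FreeGroup.mk L₀).toWord = L₀ := by rw [FreeGroup.toWord_mk, hred0.reduce_eq]
  have hm0 : FreeGroup.mk L₀ ∈ P.CN := mem_CN P e1
  have hT0 : (P.Th (FreeGroup.mk L₀)).toWord = L₀.flatMap (ex P) := by
    rw [(h1 P _ hm0).2, hw0]
  have hT0' : FreeGroup.mk (L₀.flatMap (ex P)) = P.Th (FreeGroup.mk L₀) := by
    rw [← hT0, FreeGroup.mk_toWord]
  have hsm0 : ∀ z ∈ L₀, z.1.natAbs < 4 ^ P.s n := by
    intro z hz
    obtain ⟨m, j', hm, hj', h⟩ := e4 z hz
    rw [h]
    exact al_lt P hm hj'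
  have hsm1 : ∀ z ∈ L₀.flatMap (ex P), z.1.natAbs < 4 ^ P.s n := by
    intro z hz
    obtain ⟨x, hx, hz⟩ := List.mem_flatMap.1 hz
    obtain ⟨m, j', hm, hj', h⟩ := e4 x hx
    rcases ex_small P hj' h z hz with ⟨j', hj', h2⟩ | h2
    · rw [h2]
      exact al_lt P hm hj'
    · rw [h2]
      exact sg_lt P hm
  have hbig : ∀ k, 4 ^ P.a n ≤ (P.al n k).natAbs := fun k => le_al P le_rfl
  obtain ⟨t1, t2⟩ := tw (L₀ := L₀) (x := (P.al n i, false)) (L₁ := (P.al n j, true) :: L₁)
    (m := 4 ^ P.a n) (fun z hz => (hsm0 z hz).trans hsa) (hbig i)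
  refine ⟨i, ⟨hc, hc1, hc2, e2, ?_⟩, ?_, ?_, ?_⟩
  · rw [bhd, e, t2]
    rfl
  · rw [bpre, e, t1]
    exact hm0
  · rw [bpre, e, t1, mN_eq, hw0]
    exact mL_lt hpos hsm0
  · have hTc : (P.Th c).toWord = L₀.flatMap (ex P) ++ (ex P (P.al n i, false) ++
        (ex P (P.al n j, true) ++ L₁.flatMap (ex P))) := by
      rw [hT, e, List.flatMap_append, List.flatMap_cons, List.flatMap_cons]
    rcases Nat.lt_or_ge (i + 1) (P.q n) with hi | hi
    · left
      have hex : ex P (P.al n i, false) = [(P.al n (i + 1), false)] := by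
        simp only [ex, P.dec_al e2]
        rw [if_pos hi]
      rw [hex, List.singleton_append] at hTc
      obtain ⟨t3, t4⟩ := tw (L₀ := L₀.flatMap (ex P)) (x := (P.al n (i + 1), false))
        (L₁ := ex P (P.al n j, true) ++ L₁.flatMap (ex P))
        (m := 4 ^ P.a n) (fun z hz => (hsm1 z hz).trans hsa) (hbig (i + 1))
      refine ⟨hi, ?_, ?_, ?_⟩
      · rw [bhd, hTc, t4]
        rfl
      · rw [bpre, hTc, t3, hT0']
        exact ⟨_, hm0, rfl⟩
      · rw [bpre, hTc, t3, hT0', mN_eq, hT0]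
        exact mL_lt hpos hsm1
    · right
      have hex : ex P (P.al n i, false) = [(P.sg n, false), (P.al n 0, false)] := by
        simp only [ex, P.dec_al e2]
        rw [if_neg (by omega)]
        rfl
      have hTc2 : (P.Th c).toWord = (L₀.flatMap (ex P) ++ [(P.sg n, false)]) ++
          (P.al n 0, false) :: (ex P (P.al n j, true) ++ L₁.flatMap (ex P)) := by
        rw [hTc, hex]
        simp
      have hsg : ∀ z ∈ L₀.flatMap (ex P) ++ [(P.sg n, false)], z.1.natAbs < 4 ^ P.a n := by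
        intro z hz
        rcases List.mem_append.1 hz with hz | hz
        · exact (hsm1 z hz).trans hsa
        · rw [List.mem_singleton.1 hz]
          show (P.sg n).natAbs < _
          rw [natAbs_sg]
          exact hsa
      obtain ⟨t3, t4⟩ := tw (x := (P.al n 0, false))
        (L₁ := ex P (P.al n j, true) ++ L₁.flatMap (ex P)) hsg (hbig 0)
      refine ⟨by omega, ?_, P.Th (FreeGroup.mk L₀), ⟨_, hm0, rfl⟩, ?_, ?_⟩
      · rw [bhd, hTc2, t4]
        rfl
      · rw [mN_eq, hT0]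
        exact mL_lt hpos hsm1
      · rw [bpre, hTc2, t3, ← FreeGroup.mul_mk, hT0']
        rfl

end Pool.Agent.NH54.MG
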