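import Pool.Agent.NH54.MG.Stm

/-!
# Project MG (helper54), MP_284ea2_al: part MG-KEY (turns)
-/

set_option autoImplicit false

namespace Pool.Agent.NH54.MG

namespace KEY

theorem ge_of_head (m : ℕ) (x : ℤ × Bool) : ∀ L : List (ℤ × Bool),
    (L.dropWhile (fun x => decide (x.1.natAbs < m))).head? = some x →
      m ≤ (L.map (fun x => x.1.natAbs)).foldr max 0
  | [] => fun h => by simp at h
  | a :: L => fun h => by
    by_cases ha : a.1.natAbs < m
    · rw [List.dropWhile_cons_of_pos (by simpa using ha)] at h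
      have := ge_of_head m x L h
      simp only [List.map_cons, List.foldr_cons]
      omega
    · simp only [List.map_cons, List.foldr_cons]
      omega

theorem head_of_ge (m : ℕ) (hm : 0 < m) : ∀ L : List (ℤ × Bool),
    m ≤ (L.map (fun x => x.1.natAbs)).foldr max 0 →
      ∃ x, (L.dropWhile (fun x => decide (x.1.natAbs < m))).head? = some x
  | [] => fun h => by
    simp only [List.map_nil, List.foldr_nil] at h
    omega
  | a :: L => fun h => by
    by_cases ha : a.1.natAbs < m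
    · rw [List.dropWhile_cons_of_pos (by simpa using ha)]
      refine head_of_ge m hm L ?_
      simp only [List.map_cons, List.foldr_cons] at h
      omega
    · refine ⟨a, ?_⟩
      rw [List.dropWhile_cons_of_neg (by simpa using ha)]
      rfl

theorem big (h1 : S_BIG) {m : ℕ} {u w u' : N} (hu : mN u < m) (hu' : mN u' < m) (hw : m ≤ mN w) :
    m ≤ mN (u * w * u') := by
  obtain ⟨x, hx⟩ := head_of_ge m (by omega) w.toWord hw
  refine ge_of_head m x _ ?_
  have := (h1 m u w u' hu hu' hw).2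
  rw [bhd, bhd, hx] at this
  exact this

theorem mN_y (p : ℤ) : mN (y p) = p.natAbs := by
  simp [mN, y, FreeGroup.toWord_of]

theorem mN_sg (P : Par) (n : ℕ) : mN (y (P.sg n)) = 4 ^ P.s n := by
  rw [mN_y, Par.sg, Int.natAbs_pow]
  rfl

section

variable (P : Par) (n : ℕ)

theorem lt1 : 4 ^ P.s n < 4 ^ P.a n := Nat.pow_lt_pow_right (by norm_num) (P.sa n)

theorem lt2 : 4 ^ P.a n < 4 ^ P.s (n + 1) :=
  Nat.pow_lt_pow_right (by norm_num) (by
    have := P.as n
    have := P.q2 n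
    omega)

theorem ge_iff (h3 : S_TOP) {c : N} (hc : c ∈ P.CN) : 4 ^ P.a n ≤ mN c ↔ 4 ^ P.a n ≤ mN (P.Th c) := by
  have h := (h3 P c hc).2 n
  have := lt1 P n
  omega

theorem lt_iff (h3 : S_TOP) {c : N} (hc : c ∈ P.CN) :
    mN c < 4 ^ P.s (n + 1) ↔ mN (P.Th c) < 4 ^ P.s (n + 1) := by
  have h := (h3 P c hc).2 (n + 1)
  have := lt1 P (n + 1)
  omega

end

theorem lt_mul (h4 : S_SUB) {M : ℕ} {u w u' : N} (hu : mN u < M) (hw : mN w < M) (hu' : mN u' < M) :
    mN (u * w * u') < M := by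
  have h5 := h4.1 (u * w) u'
  have h6 := h4.1 u w
  omega

end KEY

open KEY in
/-- MG-KEY -/
theorem t_KEY (h1 : S_BIG) (h2 : S_IDX) (h3 : S_TOP) (h4 : S_SUB) : S_KEY := by
  intro P n i c z u u' hI hz hu hu'
  obtain ⟨hc, hc1, hc2, hi, hb⟩ := hI
  have hl1 := lt1 P n
  have hl2 := lt2 P n
  have hq := P.q2 n
  have hui : mN u⁻¹ < 4 ^ P.a n := by rw [h4.2.1]; exact hu
  have hui2 : mN u⁻¹ < 4 ^ P.s (n + 1) := hui.trans hl2
  have hu2 : mN u' < 4 ^ P.s (n + 1) := hu'.trans hl2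
  have hTc1 := (ge_iff P n h3 hc).1 hc1
  have hTc2 := (lt_iff P n h3 hc).1 hc2
  obtain ⟨ic, ⟨-, -, -, hic, hbc⟩, hpc, hpc2, hcc⟩ := h2 P n c hc hc1 hc2
  have hii : ic = i := by
    rw [hb] at hbc
    have h5 := congrArg Prod.fst (Option.some.inj hbc)
    exact ((P.al_inj hi hic h5).2).symm
  subst hii
  have hsg : 4 ^ P.s n ≤ mN (y (P.sg n)) := (mN_sg P n).ge
  have hsg' : 4 ^ P.s n ≤ mN (y (P.sg n))⁻¹ := by rw [h4.2.1]; exact hsg
  refine ⟨fun h => ?_, fun h => ?_, fun h => ?_, fun h => ?_⟩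
  · -- I
    have hz' : z = u⁻¹ * c * u' := by rw [mul_assoc, ← h, inv_mul_cancel_left]
    obtain ⟨hB1, hB2⟩ := h1 _ u⁻¹ c u' hui hu' hc1
    rw [← hz'] at hB1 hB2
    have hz1 : 4 ^ P.a n ≤ mN z := by rw [hz']; exact big h1 hui hu' hc1
    have hz2 : mN z < 4 ^ P.s (n + 1) := by rw [hz']; exact lt_mul h4 hui2 hc2 hu2
    obtain ⟨iz, -, hpz, -, -⟩ := h2 P n z hz hz1 hz2
    have : u = bpre (4 ^ P.a n) c * (bpre (4 ^ P.a n) z)⁻¹ := by
      rw [hB1]
      group
    rw [this]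
    exact P.CN.mul_mem hpc (P.CN.inv_mem hpz)
  · -- II
    have hz' : P.Th z = u⁻¹ * P.Th c * u' := by rw [mul_assoc, ← h, inv_mul_cancel_left]
    obtain ⟨hB1, hB2⟩ := h1 _ u⁻¹ (P.Th c) u' hui hu' hTc1
    rw [← hz'] at hB1 hB2
    have hz1 : 4 ^ P.a n ≤ mN z := (ge_iff P n h3 hz).2 (by rw [hz']; exact big h1 hui hu' hTc1)
    have hz2 : mN z < 4 ^ P.s (n + 1) :=
      (lt_iff P n h3 hz).2 (by rw [hz']; exact lt_mul h4 hui2 hTc2 hu2)
    obtain ⟨iz, -, -, -, hzz⟩ := h2 P n z hz hz1 hz2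
    have hu1 : u = bpre (4 ^ P.a n) (P.Th c) * (bpre (4 ^ P.a n) (P.Th z))⁻¹ := by
      rw [hB1]
      group
    rcases hcc with ⟨h5, h6, h7, -⟩ | ⟨h5, h6, l, hl, hlm, h7⟩
    · rcases hzz with ⟨h8, h9, h10, -⟩ | ⟨h8, h9, l', hl', hlm', h10⟩
      · rw [hu1]
        exact P.CN'.mul_mem h7 (P.CN'.inv_mem h10)
      · exfalso
        rw [hB2, h6] at h9
        have h11 := congrArg Prod.fst (Option.some.inj h9)
        have h12 := (P.al_inj h5 (by omega) h11).2
        omega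
    · rcases hzz with ⟨h8, h9, h10, -⟩ | ⟨h8, h9, l', hl', hlm', h10⟩
      · exfalso
        rw [hB2, h6] at h9
        have h11 := congrArg Prod.fst (Option.some.inj h9)
        have h12 := (P.al_inj (by omega) h8 h11).2
        omega
      · have : u = l * l'⁻¹ := by
          rw [hu1, h7, h10]
          group
        rw [this]
        exact P.CN'.mul_mem hl (P.CN'.inv_mem hl')
  · -- III
    have hz' : z = u⁻¹ * P.Th c * u' := by rw [mul_assoc, ← h, inv_mul_cancel_left]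
    obtain ⟨hB1, hB2⟩ := h1 _ u⁻¹ (P.Th c) u' hui hu' hTc1
    rw [← hz'] at hB1 hB2
    have hz1 : 4 ^ P.a n ≤ mN z := by rw [hz']; exact big h1 hui hu' hTc1
    have hz2 : mN z < 4 ^ P.s (n + 1) := by rw [hz']; exact lt_mul h4 hui2 hTc2 hu2
    rcases hcc with ⟨h5, h6, h7, -⟩ | ⟨h5, h6, l, hl, hlm, h7⟩
    · exact Or.inl ⟨h5, hz, hz1, hz2, h5, by rw [hB2, h6]⟩
    · right
      obtain ⟨iz, -, -, hpz, -⟩ := h2 P n z hz hz1 hz2
      have hu1 : u = l * (y (P.sg n))⁻¹ * (bpre (4 ^ P.a n) z)⁻¹ := by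
        rw [hB1, h7]
        group
      rw [hu1]
      exact big h1 hlm (by rw [h4.2.1]; exact hpz) hsg'
  · -- IV
    have hz' : P.Th z = u⁻¹ * c * u' := by rw [mul_assoc, ← h, inv_mul_cancel_left]
    obtain ⟨hB1, hB2⟩ := h1 _ u⁻¹ c u' hui hu' hc1
    rw [← hz'] at hB1 hB2
    have hz1 : 4 ^ P.a n ≤ mN z := (ge_iff P n h3 hz).2 (by rw [hz']; exact big h1 hui hu' hc1)
    have hz2 : mN z < 4 ^ P.s (n + 1) :=
      (lt_iff P n h3 hz).2 (by rw [hz']; exact lt_mul h4 hui2 hc2 hu2)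
    obtain ⟨iz, hIz, -, -, hzz⟩ := h2 P n z hz hz1 hz2
    rcases hzz with ⟨h8, h9, h10, -⟩ | ⟨h8, h9, l', hl', hlm', h10⟩
    · left
      refine ⟨iz, ?_, hIz⟩
      rw [hB2, hb] at h9
      have h11 := congrArg Prod.fst (Option.some.inj h9)
      exact (P.al_inj hi h8 h11).2
    · right
      have hu1 : u = bpre (4 ^ P.a n) c * y (P.sg n) * l'⁻¹ := by
        have h12 : l' = bpre (4 ^ P.a n) (P.Th z) * y (P.sg n) := by
          rw [h10]
          group
        rw [h12, hB1]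
        group
      rw [hu1]
      exact big h1 hpc2 (by rw [h4.2.1]; exact hlm') hsg

end Pool.Agent.NH54.MG
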