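import Pool.Agent.NH54.MG.Stm

/-!
# Project MG (helper54), MP_284ea2_al, part KN: cheap turns are in `N`
-/

set_option autoImplicit false

open Set Filter Topology HNNExtension HNNExtension.NormalWord

namespace Pool.Agent.NH54.MG

namespace KN

lemma le_foldr (L : List ℕ) {x : ℕ} (h : x ∈ L) : x ≤ L.foldr max 0 := by
  induction L with
  | nil => simp at h
  | cons a L ih =>
    rcases List.mem_cons.1 h with rfl | h
    · exact le_max_left _ _
    · exact (ih h).trans (le_max_right _ _)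

lemma foldr_mem (L : List ℕ) (h : L.foldr max 0 ≠ 0) : L.foldr max 0 ∈ L := by
  induction L with
  | nil => exact absurd rfl h
  | cons a L ih =>
    simp only [List.foldr_cons] at h ⊢
    rcases le_total a (L.foldr max 0) with h1 | h1
    · rw [max_eq_right h1] at h ⊢
      exact List.mem_cons_of_mem _ (ih h)
    · rw [max_eq_left h1]
      exact List.mem_cons_self

lemma le_mN {u : N} {x : ℤ × Bool} (h : x ∈ u.toWord) : x.1.natAbs ≤ mN u :=
  le_foldr _ (List.mem_map_of_mem (f := fun x : ℤ × Bool => x.1.natAbs) h)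

lemma bhd_mem {m : ℕ} {u : N} {x : ℤ × Bool} (h : bhd m u = some x) :
    x ∈ u.toWord ∧ m ≤ x.1.natAbs := by
  unfold bhd at h
  have h1 := List.head?_dropWhile_not (fun x : ℤ × Bool => decide (x.1.natAbs < m)) u.toWord
  rw [h] at h1
  have h2 : x ∈ u.toWord.dropWhile (fun x => decide (x.1.natAbs < m)) := List.mem_of_head? h
  exact ⟨(List.dropWhile_suffix _).subset h2, by simpa using h1⟩

lemma bhd_some {m : ℕ} {u : N} (h0 : 1 ≤ m) (h : m ≤ mN u) : ∃ x, bhd m u = some x := by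
  by_contra hcon
  have h1 : bhd m u = none := by
    rcases hb : bhd m u with _ | x
    · rfl
    · exact absurd ⟨x, hb⟩ hcon
  unfold bhd at h1
  rw [List.head?_eq_none_iff, List.dropWhile_eq_nil_iff] at h1
  have h2 := foldr_mem (u.toWord.map (fun x => x.1.natAbs)) (by unfold mN at h; omega)
  rw [List.mem_map] at h2
  obtain ⟨x, hx, hx2⟩ := h2
  have h3 := h1 x hx
  simp only [decide_eq_true_eq] at h3
  unfold mN at h
  omega

/-- the letters of a shifted element -/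
lemma mem_sh {t : ℤ} {z : N} {x : ℤ × Bool} (h : x ∈ (sh t z).toWord) :
    ∃ x' ∈ z.toWord, x.1 = x'.1 + t := by
  have h1 : sh t z = FreeGroup.mk (z.toWord.map (fun x => (x.1 + t, x.2))) := by
    conv_lhs => rw [← FreeGroup.mk_toWord (x := z)]
    rfl
  rw [h1, FreeGroup.toWord_mk] at h
  have h2 := (FreeGroup.Red.sublist (FreeGroup.reduce.red
    (L := z.toWord.map (fun x => (x.1 + t, x.2))))).subset h
  rw [List.mem_map] at h2
  obtain ⟨x', hx', rfl⟩ := h2
  exact ⟨x', hx', rfl⟩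

lemma cw_pow {P : Par} {L : List (ℤ × Bool)} (h : CW P L) :
    ∀ x ∈ L, ∃ n j : ℕ, j < P.q n ∧ x.1 = P.al n j := by
  induction h with
  | nil => intro x hx; simp at hx
  | cons n i j L hi hj _ ih =>
    intro x hx
    rcases List.mem_cons.1 hx with rfl | hx
    · exact ⟨n, i, hi, rfl⟩
    rcases List.mem_cons.1 hx with rfl | hx
    · exact ⟨n, j, hj, rfl⟩
    exact ih x hx

lemma pow_of_mem (h2 : S_CW) {P : Par} {z : N} (hz : z ∈ P.CN ∨ z ∈ P.CN') :
    ∀ x ∈ z.toWord, ∃ e : ℕ, x.1 = (4 : ℤ) ^ e := by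
  rcases hz with hz | hz
  · intro x hx
    obtain ⟨n, j, _, h⟩ := cw_pow (h2 P z hz).1 x hx
    exact ⟨_, h⟩
  · obtain ⟨c, hc, rfl⟩ := Subgroup.mem_map.1 hz
    intro x hx
    obtain ⟨hc1, hc2⟩ := h2 P c hc
    have hx' : x ∈ (P.Th c).toWord := hx
    rw [hc2, List.mem_flatMap] at hx'
    obtain ⟨w, hw, hxw⟩ := hx'
    obtain ⟨n, j, hj, hwj⟩ := cw_pow hc1 w hw
    have hd : P.dec w.1 = some (n, j) := by rw [hwj]; exact P.dec_al hj
    unfold ex at hxw
    rw [hd] at hxw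
    simp only at hxw
    split_ifs at hxw
    · rw [List.mem_singleton] at hxw
      rw [hxw]
      exact ⟨_, rfl⟩
    · simp only [List.mem_cons, List.not_mem_nil, or_false] at hxw
      rcases hxw with rfl | rfl
      · exact ⟨_, rfl⟩
      · exact ⟨_, rfl⟩
    · simp only [List.mem_cons, List.not_mem_nil, or_false] at hxw
      rcases hxw with rfl | rfl
      · exact ⟨_, rfl⟩
      · exact ⟨_, rfl⟩

lemma pow_gap {e e' A : ℕ} {t : ℤ} (h : (4 : ℤ) ^ e = 4 ^ e' + t) (hA : (4 : ℕ) ^ A ≤ 4 ^ e)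
    (ht : 4 * t.natAbs < 4 ^ A) : t = 0 := by
  have hA' : (4 : ℤ) ^ A ≤ 4 ^ e := by exact_mod_cast hA
  have ht' : 4 * |t| < (4 : ℤ) ^ A := by
    rw [Int.abs_eq_natAbs]
    exact_mod_cast ht
  rcases lt_trichotomy e e' with hlt | rfl | hlt
  · have h1 : (4 : ℤ) ^ (e + 1) ≤ 4 ^ e' := pow_le_pow_right₀ (by norm_num) hlt
    have h2 := neg_abs_le t
    have h3 : (0 : ℤ) < 4 ^ e := by positivity
    rw [pow_succ] at h1
    linarith
  · linarith
  · have h1 : (4 : ℤ) ^ (e' + 1) ≤ 4 ^ e := pow_le_pow_right₀ (by norm_num) hlt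
    have h2 := le_abs_self t
    have h3 : (0 : ℤ) < 4 ^ e := by positivity
    rw [pow_succ] at h1
    linarith

lemma jN_v (u : N) (p : D) : (jN u).v p = 1 := rfl
lemma jN_δ (u : N) : (jN u).δ = ⟨u, 0⟩ := rfl

lemma mD_le_mK {k : K} {p : D} (h : k.v p ≠ 1) : mD p ≤ mK k := by
  unfold mK
  refine le_max_of_le_right ?_
  exact Finset.le_sup (f := mD) (k.fin.mem_toFinset.2 h)

end KN

open KN in
theorem t_KN (h1 : S_SUB) (h2 : S_CW) (_h3 : S_TOP) (h4 : S_BIG) : S_KN := by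
  intro P n x z a a' hx hz hxn ha ha' heq
  obtain ⟨s1, s2, s3, s4, s5, s6, s7⟩ := h1
  have hpos : 0 < 4 ^ P.a n := by positivity
  have hv : ∀ p : D, a.v p = a'.v ((⟨x, 0⟩ : D)⁻¹ * p) := by
    intro p
    have h5 := congrArg (fun k : K => k.v p) heq
    simp only [K.mul_v, jN_v, jN_δ, mul_one, one_mul] at h5
    exact h5
  have ha1 : ∀ p : D, a.v p = 1 := by
    intro p
    by_contra hp
    have h5 : mD p ≤ mK a := mD_le_mK hp
    have h6 : mD ((⟨x, 0⟩ : D)⁻¹ * p) ≤ mK a' := mD_le_mK (by rw [← hv]; exact hp)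
    have h7 : (⟨x, 0⟩ : D) = p * ((⟨x, 0⟩ : D)⁻¹ * p)⁻¹ := by group
    have h8 := s4 p ((⟨x, 0⟩ : D)⁻¹ * p)⁻¹
    rw [← h7] at h8
    have h9 := s5 ((⟨x, 0⟩ : D)⁻¹ * p)
    have h10 : mN x ≤ mD ⟨x, 0⟩ := le_max_left _ _
    omega
  have ha2 : ∀ p : D, a'.v p = 1 := by
    intro p
    have h5 := hv ((⟨x, 0⟩ : D) * p)
    rw [inv_mul_cancel_left, ha1] at h5
    exact h5.symm
  have hδ := congrArg (fun k : K => k.δ) heq
  simp only [K.mul_δ, jN_δ] at hδ
  have hδu := congrArg D.u hδ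
  have hδt := congrArg D.t hδ
  simp only [D.mul_u, D.mul_t, sh_zero, add_zero, zero_add] at hδu hδt
  have hmu : mN a.δ.u ≤ mK a := (le_max_left _ _).trans (le_max_left _ _)
  have hmt : a.δ.t.natAbs ≤ mK a := (le_max_right _ _).trans (le_max_left _ _)
  have hmu' : mN a'.δ.u ≤ mK a' := (le_max_left _ _).trans (le_max_left _ _)
  have hsh : sh a.δ.t z = a.δ.u⁻¹ * x * a'.δ.u := by
    rw [mul_assoc, ← hδu, inv_mul_cancel_left]
  have hb := (h4 (mN x) a.δ.u⁻¹ x a'.δ.u (by rw [s2]; omega) (by omega) le_rfl).2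
  obtain ⟨w, hw⟩ := bhd_some (m := mN x) (u := x) (by omega) le_rfl
  rw [← hsh, hw] at hb
  obtain ⟨hw1, hw2⟩ := bhd_mem hw
  obtain ⟨hw3, _⟩ := bhd_mem hb
  obtain ⟨w', hw4, hw5⟩ := mem_sh hw3
  obtain ⟨e, he⟩ := pow_of_mem h2 hx w hw1
  obtain ⟨e', he'⟩ := pow_of_mem h2 hz w' hw4
  rw [he, he'] at hw5
  have h0 : a.δ.t = 0 := by
    refine pow_gap hw5 (A := P.a n) ?_ (by omega)
    have h5 : w.1.natAbs = 4 ^ e := by
      rw [he, Int.natAbs_pow]
      rfl
    omega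
  have h0' : a'.δ.t = 0 := by rw [← hδt, h0]
  refine ⟨a.δ.u, a'.δ.u, ?_, ?_⟩
  · apply K.ext
    · funext p
      rw [jN_v, ha1]
    · rw [jN_δ]
      exact D.ext rfl h0
  · apply K.ext
    · funext p
      rw [jN_v, ha2]
    · rw [jN_δ]
      exact D.ext rfl h0'

end Pool.Agent.NH54.MG
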