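import Pool.Agent.NH54.MG.Stm

/-! MG-LAM: the lamps of the projection -/

set_option autoImplicit false

open Set Filter Topology HNNExtension HNNExtension.NormalWord

namespace Pool.Agent.NH54.MG

namespace LAM

theorem mul_triv {b : K} (hb : ∀ p, b.v p = 1) (h : K) (p : D) : (h * b).v p = h.v p := by
  rw [K.mul_v, hb, mul_one]

theorem sub_triv (P : Par) (u : ℤˣ) {b : K} (hb : b ∈ toSubgroup P.CK P.CK' u) (p : D) :
    b.v p = 1 := by
  rcases Int.units_eq_one_or u with rfl | rfl
  · rw [toSubgroup_one] at hb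
    obtain ⟨n, -, rfl⟩ := hb
    rfl
  · rw [toSubgroup_neg_one] at hb
    obtain ⟨n, -, rfl⟩ := hb
    rfl

section gen

variable {K₀ : Type} [Group K₀] {A B : Subgroup K₀} (φ : A ≃* B)

theorem hd_eq (w : NormalWord (Classical.choice (TransversalPair.nonempty K₀ A B))) :
    hd φ (w.prod φ) = w.head := by
  unfold hd
  exact congrArg (fun w : NormalWord (Classical.choice (TransversalPair.nonempty K₀ A B)) => w.head)
    ((NormalWord.equiv φ (Classical.choice (TransversalPair.nonempty K₀ A B))).right_inv w)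

theorem hd_of_mul (k : K₀) (g : HNNExtension K₀ A B φ) : hd φ (of k * g) = k * hd φ g := by
  obtain ⟨w, rfl⟩ : ∃ w : NormalWord (Classical.choice (TransversalPair.nonempty K₀ A B)),
      w.prod φ = g :=
    ⟨_, (NormalWord.equiv φ (Classical.choice (TransversalPair.nonempty K₀ A B))).left_inv g⟩
  rw [← prod_group_smul, hd_eq, hd_eq, group_smul_head]

/-- every element has a reduced word -/
theorem exists_red (g : HNNExtension K₀ A B φ) : ∃ w : ReducedWord K₀ A B, w.prod φ = g := by
  obtain ⟨w, rfl⟩ : ∃ w : NormalWord (Classical.choice (TransversalPair.nonempty K₀ A B)),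
      w.prod φ = g :=
    ⟨_, (NormalWord.equiv φ (Classical.choice (TransversalPair.nonempty K₀ A B))).left_inv g⟩
  exact ⟨w.toReducedWord, rfl⟩

end gen

theorem lam_prod (P : Par) (w : ReducedWord K P.CK P.CK') (p : D) :
    lam P (w.prod P.th) p = w.head.v p := by
  obtain ⟨w', h1, h2, h3⟩ := ReducedWord.exists_normalWord_prod_eq P.th
    (Classical.choice (TransversalPair.nonempty K P.CK P.CK')) w
  have e : hd P.th (w.prod P.th) = w'.head := by
    rw [← h1]
    exact hd_eq P.th w'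
  unfold lam
  rw [e]
  rcases hl : w.toList with _ | ⟨x, l⟩
  · rw [hl, List.map_nil, List.map_eq_nil_iff] at h2
    have h4 : (of w'.head : P.G) = of w.head := by
      have h5 := h1
      unfold ReducedWord.prod at h5
      rw [h2, hl] at h5
      simpa using h5
    rw [of_injective (φ := P.th) h4]
  · have h4 := h3 x.1 (by rw [hl]; simp)
    have h5 := sub_triv P _ h4
    have h6 : w.head = w'.head * (w'.head⁻¹ * w.head) := by group
    rw [h6, mul_triv h5]

/-- multiplication of the last letter -/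
theorem last_mul (P : Par) (h : K) (l : List (ℤˣ × K)) (u : ℤˣ) (a k : K)
    (hc : (l ++ [(u, a)]).IsChain (fun a b : ℤˣ × K => a.2 ∈ toSubgroup P.CK P.CK' a.1 → a.1 = b.1))
    (p : D) :
    lam P ((⟨h, l ++ [(u, a)], hc⟩ : ReducedWord K P.CK P.CK').prod P.th * of k) p = h.v p := by
  have hc' : (l ++ [(u, a * k)]).IsChain
      (fun a b : ℤˣ × K => a.2 ∈ toSubgroup P.CK P.CK' a.1 → a.1 = b.1) := by
    rw [List.isChain_append] at hc ⊢
    refine ⟨hc.1, List.isChain_singleton _, fun x hx y hy => ?_⟩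
    simp only [List.head?_cons, Option.mem_def, Option.some.injEq] at hy
    have h1 := hc.2.2 x hx (u, a) (by simp)
    subst hy
    exact h1
  have e : (⟨h, l ++ [(u, a)], hc⟩ : ReducedWord K P.CK P.CK').prod P.th * of k =
      (⟨h, l ++ [(u, a * k)], hc'⟩ : ReducedWord K P.CK P.CK').prod P.th := by
    simp [ReducedWord.prod, mul_assoc]
  rw [e, lam_prod]

theorem prod_nil (P : Par) (h : K) (hc) :
    (⟨h, [], hc⟩ : ReducedWord K P.CK P.CK').prod P.th = of h := by
  simp [ReducedWord.prod]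

theorem lam_of (P : Par) (k : K) (p : D) : lam P (of k) p = k.v p := by
  rw [← prod_nil P k List.isChain_nil, lam_prod]

theorem mul_of (P : Par) (g : P.G) (k : K) (h : (∀ p, k.v p = 1) ∨ ¬ ∃ k : K, g = of k) (p : D) :
    lam P (g * of k) p = lam P g p := by
  obtain ⟨⟨h0, l, hc⟩, rfl⟩ := exists_red P.th g
  rcases List.eq_nil_or_concat' l with rfl | ⟨l', ⟨u, a⟩, rfl⟩
  · rw [prod_nil] at h ⊢
    have h1 := h.resolve_right (fun h2 => h2 ⟨h0, rfl⟩)
    rw [← map_mul, lam_of, lam_of, mul_triv h1]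
  · rw [last_mul, lam_prod]

theorem t_of (P : Par) (u : ℤˣ) (a : K) (ha : a ∈ toSubgroup P.CK P.CK' u) :
    ∃ b : K, b ∈ toSubgroup P.CK P.CK' (-u) ∧ (t ^ (u : ℤ) * of a : P.G) = of b * t ^ (u : ℤ) := by
  rcases Int.units_eq_one_or u with rfl | rfl
  · refine ⟨(P.th ⟨a, ha⟩ : P.CK'), (P.th ⟨a, ha⟩).2, ?_⟩
    rw [Units.val_one, zpow_one]
    exact t_mul_of (φ := P.th) ⟨a, ha⟩
  · refine ⟨(P.th.symm ⟨a, ha⟩ : P.CK), ?_, ?_⟩
    · rw [neg_neg]
      exact (P.th.symm ⟨a, ha⟩).2
    · rw [Units.val_neg, Units.val_one, zpow_neg, zpow_one]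
      exact inv_t_mul_of (φ := P.th) ⟨a, ha⟩

theorem mul_t (P : Par) (g : P.G) (u : ℤˣ) (p : D) : lam P (g * t ^ (u : ℤ)) p = lam P g p := by
  obtain ⟨⟨h0, l, hc⟩, rfl⟩ := exists_red P.th g
  rcases List.eq_nil_or_concat' l with rfl | ⟨l', ⟨u', a⟩, rfl⟩
  · have e : (⟨h0, [], hc⟩ : ReducedWord K P.CK P.CK').prod P.th * t ^ (u : ℤ) =
        (⟨h0, [(u, 1)], List.isChain_singleton _⟩ : ReducedWord K P.CK P.CK').prod P.th := by
      simp [ReducedWord.prod]
    rw [e, lam_prod, lam_prod]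
  · rw [lam_prod]
    by_cases hcan : a ∈ toSubgroup P.CK P.CK' u' ∧ u' ≠ u
    · obtain ⟨ha, hu⟩ := hcan
      obtain ⟨b, hb, hab⟩ := t_of P u' a ha
      have hu' : u = -u' := by
        rcases Int.units_eq_one_or u with rfl | rfl <;>
          rcases Int.units_eq_one_or u' with rfl | rfl <;> simp_all
      have hc' : l'.IsChain (fun a b : ℤˣ × K => a.2 ∈ toSubgroup P.CK P.CK' a.1 → a.1 = b.1) :=
        (List.isChain_append.1 hc).1
      have e : (⟨h0, l' ++ [(u', a)], hc⟩ : ReducedWord K P.CK P.CK').prod P.th * t ^ (u : ℤ) =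
          (⟨h0, l', hc'⟩ : ReducedWord K P.CK P.CK').prod P.th * of b := by
        have e1 : (⟨h0, l' ++ [(u', a)], hc⟩ : ReducedWord K P.CK P.CK').prod P.th =
            (⟨h0, l', hc'⟩ : ReducedWord K P.CK P.CK').prod P.th * (t ^ (u' : ℤ) * of a) := by
          simp [ReducedWord.prod, mul_assoc]
        rw [e1, hab, hu', Units.val_neg, zpow_neg]
        group
      rw [e, mul_of P _ b (Or.inl (sub_triv P _ hb)), lam_prod]
    · have hc' : ((l' ++ [(u', a)]) ++ [(u, 1)]).IsChain
          (fun a b : ℤˣ × K => a.2 ∈ toSubgroup P.CK P.CK' a.1 → a.1 = b.1) := by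
        rw [List.isChain_append]
        refine ⟨hc, List.isChain_singleton _, fun x hx y hy => ?_⟩
        simp only [List.head?_cons, Option.mem_def, Option.some.injEq] at hy
        simp only [List.getLast?_append, List.getLast?_singleton, Option.mem_def] at hx
        simp at hx
        subst hx hy
        intro h1
        by_contra h2
        exact hcan ⟨h1, h2⟩
      have e : (⟨h0, l' ++ [(u', a)], hc⟩ : ReducedWord K P.CK P.CK').prod P.th * t ^ (u : ℤ) =
          (⟨h0, (l' ++ [(u', a)]) ++ [(u, 1)], hc'⟩ : ReducedWord K P.CK P.CK').prod P.th := by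
        simp [ReducedWord.prod, mul_assoc]
      rw [e, lam_prod]

end LAM

theorem t_LAM : S_LAM := by
  intro P
  refine ⟨LAM.lam_of P, fun k g p => ?_, fun g x p => ?_, fun g p => ⟨?_, ?_⟩, fun g x hg p => ?_⟩
  · unfold lam
    rw [LAM.hd_of_mul, K.mul_v]
  · exact LAM.mul_of P g (iK x) (Or.inl fun _ => rfl) p
  · have h := LAM.mul_t P g 1 p
    rwa [Units.val_one, zpow_one] at h
  · have h := LAM.mul_t P g (-1) p
    rwa [Units.val_neg, Units.val_one, zpow_neg, zpow_one] at h
  · exact LAM.mul_of P g (lamp x) (Or.inr hg) p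

end Pool.Agent.NH54.MG
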