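import Pool.Agent.NH54.MG.Stm

/-! Project MG (helper54), part LG: the Morse local-to-global property. -/

set_option autoImplicit false

open Set Filter Topology HNNExtension HNNExtension.NormalWord

namespace Pool.Agent.NH54.MG

namespace LG

/-- the generators have at most one letter `t` -/
theorem tl_gen (h3 : S_TL) (P : Par) (g : P.G) (hg : g ∈ P.S ∨ g⁻¹ ∈ P.S) : tl P.th g ≤ 1 := by
  obtain ⟨-, -, h30, h3inv, -, -, h3r, h3t, -⟩ := h3 K P.CK P.CK' P.th
  have hof : ∀ k : K, tl P.th (HNNExtension.of k) ≤ 1 := by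
    intro k
    have h := h3r 1 k
    rw [one_mul, h30] at h
    omega
  have key : ∀ x : P.G, x ∈ P.S → tl P.th x ≤ 1 := by
    intro x hx
    rcases hx with rfl | rfl | rfl | rfl | rfl
    · exact hof _
    · exact hof _
    · exact hof _
    · exact hof _
    · exact h3t.le
  rcases hg with hg | hg
  · exact key g hg
  · have h := key _ hg
    rwa [h3inv] at h

/-- the distance in the tree is at most the word metric -/
theorem tl_le (h1 : S_WL) (h2 : S_GEN) (h3 : S_TL) (P : Par) (g : P.G) : tl P.th g ≤ wl P.S g := by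
  obtain ⟨-, -, -, -, -, -, hgeo, -⟩ := h1 P.G P.S (h2 P).1
  obtain ⟨-, -, h30, h3inv, h3mul, -, -, -, -⟩ := h3 K P.CK P.CK' P.th
  obtain ⟨p, hp0, hpn, hps, -⟩ := hgeo g
  have key : ∀ i : ℕ, i ≤ wl P.S g → tl P.th (p i) ≤ i := by
    intro i
    induction i with
    | zero =>
      intro _
      rw [hp0, h30]
    | succ i ih =>
      intro hi
      have e1 := ih (by omega)
      have e2 := tl_gen h3 P _ (hps i (by omega))
      have e3 := h3mul (p i) ((p i)⁻¹ * p (i + 1))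
      rw [mul_inv_cancel_left] at e3
      omega
  have h := key _ le_rfl
  rwa [hpn] at h

theorem dT_le (h1 : S_WL) (h2 : S_GEN) (h3 : S_TL) (P : Par) (g h : P.G) :
    dT P.th g h ≤ wd P.S g h := by
  unfold dT wd
  exact_mod_cast tl_le h1 h2 h3 P (g⁻¹ * h)

/-- chains of short steps -/
theorem chain {X : Type} {d : X → X → ℝ} (hd : PM d) {c a b : ℝ} (hc : 0 ≤ c) {γ : ℝ → X}
    (hloc : ∀ s t : ℝ, a ≤ s → s ≤ t → t ≤ b → t - s ≤ 1 → d (γ s) (γ t) ≤ c) (n : ℕ) :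
    ∀ s t : ℝ, a ≤ s → s ≤ t → t ≤ b → t - s ≤ n → d (γ s) (γ t) ≤ c * n := by
  induction n with
  | zero =>
    intro s t _ hst _ hn
    have : s = t := by
      rw [Nat.cast_zero] at hn
      linarith
    rw [this, hd.self]
    simp
  | succ n ih =>
    intro s t hs hst ht hn
    push_cast at hn ⊢
    have h1 : s ≤ min (s + 1) t := le_min (by linarith) hst
    have h2 : min (s + 1) t ≤ t := min_le_right _ _
    have h3 : min (s + 1) t ≤ s + 1 := min_le_left _ _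
    have e1 := hloc s (min (s + 1) t) hs h1 (by linarith) (by linarith)
    have e2 := ih (min (s + 1) t) t (by linarith) h2 ht (by
      rcases min_cases (s + 1) t with ⟨h, -⟩ | ⟨h, -⟩
      · rw [h]; linarith
      · rw [h]
        have : (0 : ℝ) ≤ n := Nat.cast_nonneg n
        linarith)
    have e3 := hd.tri (γ s) (γ (min (s + 1) t)) (γ t)
    linarith

theorem chain' {X : Type} {d : X → X → ℝ} (hd : PM d) {c a b : ℝ} (hc : 0 ≤ c) {γ : ℝ → X}
    (hloc : ∀ s t : ℝ, a ≤ s → s ≤ t → t ≤ b → t - s ≤ 1 → d (γ s) (γ t) ≤ c)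
    (s t : ℝ) (hs : a ≤ s) (hst : s ≤ t) (ht : t ≤ b) : d (γ s) (γ t) ≤ c * (t - s) + c := by
  have h1 := chain hd hc hloc ⌈t - s⌉₊ s t hs hst ht (Nat.le_ceil _)
  have h2 := (Nat.ceil_lt_add_one (show 0 ≤ t - s by linarith)).le
  have h3 := mul_le_mul_of_nonneg_left h2 hc
  linarith

end LG

theorem t_LG (h1 : S_WL) (h2 : S_GEN) (h3 : S_TL) (h4 : S_HY) (h5 : S_D1) (h6 : S_D2)
    (h7 : S_D3) : S_LG := by
  intro P M hM l e hl he
  have hPM : PM (wd P.S) := (h1 P.G P.S (h2 P).1).1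
  obtain ⟨hPT, hHy⟩ := h4 K P.CK P.CK' P.th
  have hdT := LG.dT_le h1 h2 h3 P
  obtain ⟨κ₁, hκ₁, hD1⟩ := h5 P M hM l e hl he
  obtain ⟨κ, hκ⟩ : ∃ κ, κ = max κ₁ (l + e + 1) := ⟨_, rfl⟩
  have hk1 : κ₁ ≤ κ := by rw [hκ]; exact le_max_left _ _
  have hk2 : l + e + 1 ≤ κ := by rw [hκ]; exact le_max_right _ _
  obtain ⟨L₀, κ', hL₀, hκ', hD3⟩ := h7 κ (by linarith)
  obtain ⟨μ, hμ⟩ : ∃ μ, μ = max κ' (l + e) := ⟨_, rfl⟩
  have hm1 : κ' ≤ μ := by rw [hμ]; exact le_max_left _ _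
  have hm2 : l + e ≤ μ := by rw [hμ]; exact le_max_right _ _
  have hμ1 : 1 ≤ μ := by linarith
  obtain ⟨M', hM', hD2⟩ := h6 P μ hμ1
  refine ⟨max L₀ 1, M', μ, μ, le_trans hL₀ (le_max_left _ _), hM', hμ1, by linarith, ?_⟩
  intro a b γ hab hloc
  -- local progress in the tree
  have hprog := hD3 P.G (dT P.th) hPT hHy a b γ hab (by
    intro s t hs hst ht hL
    obtain ⟨hQ, hMo⟩ := hloc s t hs hst ht (le_trans hL (le_max_left _ _))
    have e1 := hD1 s t γ hst hQ hMo s ⟨le_rfl, hst⟩ t ⟨hst, le_rfl⟩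
    have e2 := (hQ s ⟨le_rfl, hst⟩ t ⟨hst, le_rfl⟩).2
    have e3 : |s - t| = t - s := by rw [abs_sub_comm, abs_of_nonneg (by linarith)]
    rw [e3] at e1 e2
    have e4 := hPT.nn (γ s) (γ t)
    have e5 := hdT (γ s) (γ t)
    have e6 : κ₁ * dT P.th (γ s) (γ t) ≤ κ * dT P.th (γ s) (γ t) :=
      mul_le_mul_of_nonneg_right hk1 e4
    have e7 : l * (t - s) ≤ κ * (t - s) := mul_le_mul_of_nonneg_right (by linarith) (by linarith)
    exact ⟨by linarith, by linarith⟩)
  -- the upper bound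
  have hup := LG.chain' hPM (c := l + e) (a := a) (b := b) (γ := γ) (by linarith) (by
    intro s t hs hst ht h
    obtain ⟨hQ, -⟩ := hloc s t hs hst ht (le_trans h (le_max_right _ _))
    have e2 := (hQ s ⟨le_rfl, hst⟩ t ⟨hst, le_rfl⟩).2
    have e3 : |s - t| = t - s := by rw [abs_sub_comm, abs_of_nonneg (by linarith)]
    rw [e3] at e2
    have e4 : l * (t - s) ≤ l * 1 := mul_le_mul_of_nonneg_left h (by linarith)
    linarith)
  have key0 : ∀ s t : ℝ, a ≤ s → s ≤ t → t ≤ b → t - s ≤ μ * dT P.th (γ s) (γ t) + μ ∧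
      wd P.S (γ s) (γ t) ≤ μ * (t - s) + μ := by
    intro s t hs hst ht
    have e1 := hprog s t hs hst ht
    have e2 := hup s t hs hst ht
    have e3 := mul_le_mul_of_nonneg_right hm1 (hPT.nn (γ s) (γ t))
    have e4 := mul_le_mul_of_nonneg_right hm2 (show 0 ≤ t - s by linarith)
    exact ⟨by linarith, by linarith⟩
  have key : ∀ s ∈ Icc a b, ∀ s' ∈ Icc a b, |s - s'| ≤ μ * dT P.th (γ s) (γ s') + μ ∧
      wd P.S (γ s) (γ s') ≤ μ * |s - s'| + μ := by
    intro s hs s' hs'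
    rcases le_total s s' with h | h
    · have e3 : |s - s'| = s' - s := by rw [abs_sub_comm, abs_of_nonneg (by linarith)]
      rw [e3]
      exact key0 s s' hs.1 h hs'.2
    · have e3 : |s - s'| = s - s' := abs_of_nonneg (by linarith)
      rw [e3, hPT.symm (γ s) (γ s'), hPM.symm (γ s) (γ s')]
      exact key0 s' s hs'.1 h hs.2
  refine ⟨fun s hs t ht => ?_, hD2 a b γ hab key⟩
  obtain ⟨e1, e2⟩ := key s hs t ht
  refine ⟨?_, e2⟩
  have e3 := hdT (γ s) (γ t)
  have e4 : |s - t| / μ ≤ dT P.th (γ s) (γ t) + 1 := by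
    rw [div_le_iff₀ (by linarith)]
    linarith
  linarith

end Pool.Agent.NH54.MG
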