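import Pool.Agent.NH54.MG.Stm

/-!
# MG-LIP: the lamps at two positions are Lipschitz
-/

set_option autoImplicit false

open Set Filter Topology HNNExtension HNNExtension.NormalWord

namespace Pool.Agent.NH54.MG

namespace LIP

variable (P : Par)

/-- the change of the lamps at two positions -/
noncomputable def dd (p q : D) (g h : P.G) : ℕ :=
  FreeGroup.norm ((lam P g p)⁻¹ * lam P h p) + FreeGroup.norm ((lam P g q)⁻¹ * lam P h q)

theorem norm_tri (x z w : LA) : FreeGroup.norm (x⁻¹ * w) ≤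
    FreeGroup.norm (x⁻¹ * z) + FreeGroup.norm (z⁻¹ * w) := by
  have h := FreeGroup.norm_mul_le (x⁻¹ * z) (z⁻¹ * w)
  have e : x⁻¹ * z * (z⁻¹ * w) = x⁻¹ * w := by group
  rwa [e] at h

theorem dd_tri (p q : D) (g h k : P.G) : dd P p q g k ≤ dd P p q g h + dd P p q h k := by
  unfold dd
  have h1 := norm_tri (lam P g p) (lam P h p) (lam P k p)
  have h2 := norm_tri (lam P g q) (lam P h q) (lam P k q)
  omega

theorem dd_eq (p q : D) (g h : P.G) (hp : lam P h p = lam P g p) (hq : lam P h q = lam P g q) :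
    dd P p q g h ≤ 1 := by
  unfold dd
  rw [hp, hq, inv_mul_cancel, inv_mul_cancel, FreeGroup.norm_one]
  omega

theorem lamp_inv (x : LA) : (lamp x)⁻¹ = lamp x⁻¹ := by
  apply K.ext
  · funext p
    show ((lamp x).v ((lamp x).δ * p))⁻¹ = (lamp x⁻¹).v p
    have : (lamp x).δ = 1 := rfl
    rw [this, one_mul]
    unfold lamp
    dsimp only
    split_ifs with h
    · rfl
    · exact inv_one
  · show ((lamp x).δ)⁻¹ = (lamp x⁻¹).δ
    exact inv_one

theorem dd_lamp (h3 : S_LAM) {p q : D} (hpq : p ≠ q) (g : P.G) {x : LA}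
    (hx : FreeGroup.norm x ≤ 1) : dd P p q g (g * of (lamp x)) ≤ 1 := by
  classical
  by_cases hg : ∃ k : K, g = of k
  · obtain ⟨k, rfl⟩ := hg
    have key : ∀ r : D, FreeGroup.norm ((lam P (of k) r)⁻¹ * lam P (of k * of (lamp x)) r) =
        if k.δ⁻¹ * r = 1 then FreeGroup.norm x else 0 := by
      intro r
      rw [← map_mul, (h3 P).1, (h3 P).1, K.mul_v, inv_mul_cancel_left]
      unfold lamp
      dsimp only
      split_ifs with h
      · rfl
      · exact FreeGroup.norm_one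
    unfold dd
    rw [key, key]
    split_ifs with h1 h2
    · exfalso
      apply hpq
      exact mul_left_cancel (h1.trans h2.symm)
    · omega
    · omega
    · omega
  · exact dd_eq P p q _ _ ((h3 P).2.2.2.2 g x hg p) ((h3 P).2.2.2.2 g x hg q)

theorem dd_step (h3 : S_LAM) {p q : D} (hpq : p ≠ q) (g s : P.G) (hs : s ∈ P.S ∨ s⁻¹ ∈ P.S) :
    dd P p q g (g * s) ≤ 1 := by
  have hK : ∀ x : D, dd P p q g (g * of (iK x)) ≤ 1 := fun x =>
    dd_eq P p q _ _ ((h3 P).2.2.1 g x p) ((h3 P).2.2.1 g x q)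
  have hn : ∀ b : Bool, FreeGroup.norm (FreeGroup.of b : LA) ≤ 1 := fun b => by
    rw [FreeGroup.norm_of]
  have hn' : ∀ b : Bool, FreeGroup.norm ((FreeGroup.of b : LA)⁻¹) ≤ 1 := fun b => by
    rw [FreeGroup.norm_inv_eq, FreeGroup.norm_of]
  rcases hs with hs | hs
  · rcases hs with rfl | rfl | rfl | rfl | hs
    · exact hK _
    · exact hK _
    · exact dd_lamp P h3 hpq g (hn _)
    · exact dd_lamp P h3 hpq g (hn _)
    · rw [mem_singleton_iff.1 hs]
      exact dd_eq P p q _ _ ((h3 P).2.2.2.1 g p).1 ((h3 P).2.2.2.1 g q).1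
  · rcases hs with hs | hs | hs | hs | hs
    · rw [inv_eq_iff_eq_inv.1 hs, ← map_inv, ← map_inv]
      exact hK _
    · rw [inv_eq_iff_eq_inv.1 hs, ← map_inv, ← map_inv]
      exact hK _
    · rw [inv_eq_iff_eq_inv.1 hs, ← map_inv, lamp_inv]
      exact dd_lamp P h3 hpq g (hn' _)
    · rw [inv_eq_iff_eq_inv.1 hs, ← map_inv, lamp_inv]
      exact dd_lamp P h3 hpq g (hn' _)
    · rw [inv_eq_iff_eq_inv.1 (mem_singleton_iff.1 hs)]
      exact dd_eq P p q _ _ ((h3 P).2.2.2.1 g p).2 ((h3 P).2.2.2.1 g q).2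

end LIP

open LIP

theorem t_LIP (h1 : S_WL) (h2 : S_GEN) (h3 : S_LAM) : S_LIP := by
  intro P p q hpq g h
  obtain ⟨f, hf0, hfl, hfs, -⟩ := (h1 P.G P.S (h2 P).1).2.2.2.2.2.2.1 (g⁻¹ * h)
  have key : ∀ i : ℕ, i ≤ wl P.S (g⁻¹ * h) → dd P p q g (g * f i) ≤ i := by
    intro i
    induction i with
    | zero =>
      intro _
      rw [hf0, mul_one]
      unfold dd
      rw [inv_mul_cancel, inv_mul_cancel, FreeGroup.norm_one]
    | succ i ih =>
      intro hi
      have h4 := ih (by omega)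
      have h5 := dd_step P h3 hpq (g * f i) ((f i)⁻¹ * f (i + 1)) (hfs i (by omega))
      have e : g * f i * ((f i)⁻¹ * f (i + 1)) = g * f (i + 1) := by group
      rw [e] at h5
      have h6 := dd_tri P p q g (g * f i) (g * f (i + 1))
      omega
  have h7 := key _ le_rfl
  rw [hfl, mul_inv_cancel_left] at h7
  exact h7

end Pool.Agent.NH54.MG
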