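import Pool.Agent.NH54.MG.Stm

/-!
# Project MG: lower bound of the translation length
-/

set_option autoImplicit false

open Set Filter Topology HNNExtension HNNExtension.NormalWord

namespace Pool.Agent.NH54.MG

namespace LOW

theorem th_apply (P : Par) (c : N) (hc : c ∈ P.CN) (h : jN c ∈ P.CK) :
    ((P.th ⟨jN c, h⟩ : P.CK') : K) = jN (P.Th c) := by
  have h1 : (P.CN.equivMapOfInjective jN jN_inj).symm ⟨jN c, h⟩ = ⟨c, hc⟩ := by
    rw [MulEquiv.symm_apply_eq]
    rfl
  exact congrArg (fun z => (((P.CN'.equivMapOfInjective jN jN_inj) (P.Th.subgroupMap P.CN z) :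
    P.CN'.map jN) : K)) h1

/-- the entries of the reduced word -/
noncomputable def ent (P : Par) (n i : ℕ) : ℤˣ × K :=
  (-1, if (i + 1) % P.q n = 0 then (jN (y (P.sg n)))⁻¹ else 1)

/-- the reduced word of the power -/
noncomputable def rw' (P : Par) (n m : ℕ) : ReducedWord K P.CK P.CK' where
  head := 1
  toList := (List.range (P.q n * m)).map (ent P n)
  chain := by
    rw [List.isChain_iff_getElem]
    intro i hi h
    simp only [List.getElem_map, ent]

theorem ent_add (P : Par) (n m i : ℕ) : ent P n (P.q n * m + i) = ent P n i := by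
  unfold ent
  rw [add_assoc, Nat.mul_add_mod]

/-- the power -/
noncomputable def bb (P : Par) (n : ℕ) : P.G := t⁻¹ ^ P.q n * of (jN (y (P.sg n)))⁻¹

theorem prod_one (P : Par) (n : ℕ) :
    ((List.range (P.q n)).map
      (fun i => (t : P.G) ^ ((ent P n i).1 : ℤ) * of (ent P n i).2)).prod = bb P n := by
  obtain ⟨q', hq'⟩ : ∃ q', P.q n = q' + 1 := ⟨P.q n - 1, by have := P.q2 n; omega⟩
  have h1 : ∀ j, j ≤ q' → ((List.range j).map
      (fun i => (t : P.G) ^ ((ent P n i).1 : ℤ) * of (ent P n i).2)).prod = t⁻¹ ^ j := by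
    intro j
    induction j with
    | zero => intro _; simp
    | succ j ih =>
      intro hj
      rw [List.range_succ, List.map_append, List.prod_append, ih (by omega), pow_succ]
      congr 1
      have h2 : (j + 1) % P.q n ≠ 0 := by
        rw [Nat.mod_eq_of_lt (by omega)]
        omega
      simp only [List.map_cons, List.map_nil, List.prod_cons, List.prod_nil, mul_one, ent,
        if_neg h2, map_one, Units.val_neg, Units.val_one, zpow_neg, zpow_one]
  have h3 : List.range (P.q n) = List.range q' ++ [q'] := by rw [hq', List.range_succ]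
  rw [h3, List.map_append, List.prod_append, h1 q' le_rfl]
  have h4 : (q' + 1) % P.q n = 0 := by rw [hq', Nat.mod_self]
  simp only [List.map_cons, List.map_nil, List.prod_cons, List.prod_nil, mul_one, ent,
    if_pos h4, Units.val_neg, Units.val_one, zpow_neg, zpow_one]
  unfold bb
  rw [hq', pow_succ, mul_assoc, map_inv]

theorem prod_pow (P : Par) (n m : ℕ) :
    ((List.range (P.q n * m)).map
      (fun i => (t : P.G) ^ ((ent P n i).1 : ℤ) * of (ent P n i).2)).prod = bb P n ^ m := by
  induction m with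
  | zero => simp
  | succ m ih =>
    rw [Nat.mul_succ, List.range_add, List.map_append, List.prod_append, ih, pow_succ]
    congr 1
    rw [List.map_map, ← prod_one]
    congr 1
    apply List.map_congr_left
    intro i _
    show (t : P.G) ^ ((ent P n (P.q n * m + i)).1 : ℤ) * of (ent P n (P.q n * m + i)).2 = _
    rw [ent_add]

theorem prod_rw (P : Par) (n m : ℕ) : (rw' P n m).prod P.th = bb P n ^ m := by
  rw [← prod_pow]
  unfold ReducedWord.prod rw'
  rw [map_one, one_mul, List.map_map]
  rfl

theorem pre_succ (P : Par) (n m i : ℕ) (hi : i < P.q n * m) :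
    pre P.th (rw' P n m) (i + 1) = pre P.th (rw' P n m) i * t⁻¹ * of (ent P n i).2 := by
  have hl : (rw' P n m).toList = (List.range (P.q n * m)).map (ent P n) := rfl
  unfold pre
  rw [hl, List.take_add_one, List.map_append, List.prod_append]
  have h1 : ((List.range (P.q n * m)).map (ent P n))[i]? = some (ent P n i) := by
    rw [List.getElem?_map, List.getElem?_range hi]
    rfl
  rw [h1]
  simp only [Option.toList_some, List.map_cons, List.map_nil, List.prod_cons, List.prod_nil,
    mul_one, ent, Units.val_neg, Units.val_one, zpow_neg, zpow_one, mul_assoc]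

/-- the lower bound for the times -/
theorem times (P : Par) (n m : ℕ) (h6 : S_LOWC) (L : ℕ) (p : ℕ → P.G) (τ : ℕ → ℕ)
    (hτL : ∀ i < P.q n * m, τ i < L) (hτ : ∀ i j : ℕ, i < j → j < P.q n * m → τ i < τ j)
    (hp : ∀ i < P.q n * m, p (τ i + 1) = p (τ i) * t⁻¹ ∧
      ∃ x ∈ P.CK, p (τ i) = pre P.th (rw' P n m) i * of x) :
    (P.q n + 1) * m ≤ L + 1 := by
  have hq := P.q2 n
  rcases Nat.eq_zero_or_pos m with rfl | hm
  · omega
  have hx : ∀ i < P.q n * m, ∃ c : N, c ∈ P.CN ∧
      p (τ i) = pre P.th (rw' P n m) i * of (jN c) := by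
    intro i hi
    obtain ⟨-, x, hx, hpx⟩ := hp i hi
    obtain ⟨c, hc, rfl⟩ := hx
    exact ⟨c, hc, hpx⟩
  choose! c hc hpc using hx
  -- one turn
  have turn : ∀ i, i + 1 < P.q n * m → τ (i + 1) = τ i + 1 →
      jN (P.Th (c i)) = (ent P n i).2 * jN (c (i + 1)) := by
    intro i hi hτi
    have h1 := (hp i (by omega)).1
    rw [← hτi, hpc i (by omega), hpc (i + 1) hi, pre_succ P n m i (by omega)] at h1
    have h2 : (of (jN (c i)) : P.G) * t⁻¹ = t⁻¹ * of (jN (P.Th (c i))) := by
      have hmem : jN (c i) ∈ P.CK := ⟨c i, hc i (by omega), rfl⟩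
      have h3 := of_mul_inv_t (φ := P.th) ⟨jN (c i), hmem⟩
      rw [th_apply P (c i) (hc i (by omega)) hmem] at h3
      exact h3
    rw [mul_assoc (pre P.th (rw' P n m) i) (of (jN (c i))) t⁻¹, h2] at h1
    simp only [mul_assoc] at h1
    have h4 := mul_left_cancel (mul_left_cancel h1)
    rw [← map_mul] at h4
    exact (of_injective P.th h4).symm
  have turn1 : ∀ i, i + 1 < P.q n * m → τ (i + 1) = τ i + 1 → (i + 1) % P.q n ≠ 0 →
      c (i + 1) = P.Th (c i) := by
    intro i hi hτi hne
    have h1 := turn i hi hτi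
    simp only [ent, if_neg hne, one_mul] at h1
    exact (jN_inj h1).symm
  have turn2 : ∀ i, i + 1 < P.q n * m → τ (i + 1) = τ i + 1 → (i + 1) % P.q n = 0 →
      c (i + 1) = y (P.sg n) * P.Th (c i) := by
    intro i hi hτi hne
    have h1 := turn i hi hτi
    simp only [ent, if_pos hne] at h1
    have h2 : jN (y (P.sg n) * P.Th (c i)) = jN (c (i + 1)) := by
      rw [map_mul, h1, mul_inv_cancel_left]
    exact (jN_inj h2).symm
  have step : ∀ i j, i + j < P.q n * m → τ i + j ≤ τ (i + j) := by
    intro i j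
    induction j with
    | zero => intro _; simp
    | succ j ih =>
      intro hj
      have h1 := ih (by omega)
      have h2 := hτ (i + j) (i + (j + 1)) (by omega) hj
      omega
  -- one block
  have block : ∀ k, k + 1 < m → τ (P.q n * k) + (P.q n + 1) ≤ τ (P.q n * (k + 1)) := by
    intro k hk
    have hkm : P.q n * (k + 1) < P.q n * m := Nat.mul_lt_mul_of_pos_left hk (by omega)
    have hkm' : P.q n * (k + 1) = P.q n * k + P.q n := Nat.mul_succ _ _
    by_contra hcon
    have h1 := step (P.q n * k) (P.q n) (by omega)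
    have h2 : τ (P.q n * k + P.q n) = τ (P.q n * k) + P.q n := by
      rw [hkm'] at hcon
      omega
    have hall : ∀ j ≤ P.q n, τ (P.q n * k + j) = τ (P.q n * k) + j := by
      intro j hj
      have h3 := step (P.q n * k) j (by omega)
      have h4 := step (P.q n * k + j) (P.q n - j) (by omega)
      have h5 : P.q n * k + j + (P.q n - j) = P.q n * k + P.q n := by omega
      rw [h5] at h4
      omega
    have hit : ∀ j < P.q n, c (P.q n * k + j) = (P.Th^[j]) (c (P.q n * k)) := by
      intro j
      induction j with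
      | zero => intro _; rfl
      | succ j ih =>
        intro hj
        rw [Function.iterate_succ_apply', ← ih (by omega)]
        have h5 := turn1 (P.q n * k + j) (by omega) (by
          rw [add_assoc, hall (j + 1) (by omega), hall j (by omega)]
          omega) (by
          rw [add_assoc, Nat.mul_add_mod, Nat.mod_eq_of_lt hj]
          omega)
        rw [← h5]
        rfl
    have h6' := h6 P n (c (P.q n * k)) (fun i hi => by
      rw [← hit i hi]
      exact hc _ (by omega))
    apply h6'
    obtain ⟨q', hq'⟩ : ∃ q', P.q n = q' + 1 := ⟨P.q n - 1, by omega⟩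
    have h7 := turn2 (P.q n * k + q') (by omega) (by
      rw [add_assoc, hall (q' + 1) (by omega), hall q' (by omega)]
      omega) (by
      rw [add_assoc, Nat.mul_add_mod, ← hq', Nat.mod_self])
    have h8 : ∀ r, r = q' + 1 →
        (P.Th^[r]) (c (P.q n * k)) = P.Th (c (P.q n * k + q')) := by
      rintro r rfl
      rw [Function.iterate_succ_apply', hit q' (by omega)]
    rw [h8 _ hq', ← h7]
    exact hc _ (by omega)
  have blocks : ∀ k, k < m → k * (P.q n + 1) ≤ τ (P.q n * k) := by
    intro k
    induction k with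
    | zero => intro _; simp
    | succ k ih =>
      intro hk
      have h1 := ih (by omega)
      have h2 := block k hk
      have h3 : (k + 1) * (P.q n + 1) = k * (P.q n + 1) + (P.q n + 1) := Nat.succ_mul _ _
      omega
  obtain ⟨m', rfl⟩ : ∃ m', m = m' + 1 := ⟨m - 1, by omega⟩
  have h1 := blocks m' (by omega)
  have h2 : P.q n * (m' + 1) = P.q n * m' + P.q n := Nat.mul_succ _ _
  have h3 := step (P.q n * m') (P.q n - 1) (by omega)
  have h4 := hτL (P.q n * m' + (P.q n - 1)) (by omega)
  have h5 : (P.q n + 1) * (m' + 1) = m' * (P.q n + 1) + (P.q n + 1) := by ring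
  omega

end LOW

open LOW in
theorem t_LOW (h1 : S_WL) (h2 : S_GEN) (h3 : S_TL) (h4 : S_CRS) (h5 : S_PN) (h6 : S_LOWC) :
    S_LOW := by
  intro P n
  obtain ⟨-, -, -, hinv, hmul, -, hgeo, -⟩ := h1 P.G P.S (h2 P).1
  set A : P.G := of (jN (y (P.al n 0))) with hA
  refine ⟨2 * wl P.S A + 1, fun m => ?_⟩
  have hpn : pn P n ^ (P.q n * m) = A * bb P n ^ m * A⁻¹ := by
    rw [(h5 P n).1 m, bb, map_inv]
  have hb : bb P n ^ m = A⁻¹ * pn P n ^ (P.q n * m) * A := by
    rw [hpn]; group
  have hle : wl P.S (bb P n ^ m) ≤ wl P.S (pn P n ^ (P.q n * m)) + 2 * wl P.S A := by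
    rw [hb]
    have e1 := hmul (A⁻¹ * pn P n ^ (P.q n * m)) A
    have e2 := hmul A⁻¹ (pn P n ^ (P.q n * m))
    rw [hinv A] at e2
    omega
  have key : (P.q n + 1) * m ≤ wl P.S (bb P n ^ m) + 1 := by
    obtain ⟨p, hp0, hpL, hst, -⟩ := hgeo (bb P n ^ m)
    have hstep : ∀ i < wl P.S (bb P n ^ m), (∃ k : K, p (i + 1) = p i * of k) ∨
        ∃ u : ℤˣ, p (i + 1) = p i * t ^ (u : ℤ) := by
      intro i hi
      have hS : ∀ g : P.G, g ∈ P.S → (∃ k : K, g = of k) ∨ g = t := by
        intro g hg
        rcases hg with rfl | rfl | rfl | rfl | hg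
        · exact Or.inl ⟨_, rfl⟩
        · exact Or.inl ⟨_, rfl⟩
        · exact Or.inl ⟨_, rfl⟩
        · exact Or.inl ⟨_, rfl⟩
        · exact Or.inr hg
      rcases hst i hi with h | h
      · rcases hS _ h with ⟨k, hk⟩ | hk
        · exact Or.inl ⟨k, by rw [← hk, mul_inv_cancel_left]⟩
        · exact Or.inr ⟨1, by rw [Units.val_one, zpow_one, ← hk, mul_inv_cancel_left]⟩
      · rcases hS _ h with ⟨k, hk⟩ | hk
        · refine Or.inl ⟨k⁻¹, ?_⟩
          rw [map_inv, ← hk, inv_inv, mul_inv_cancel_left]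
        · refine Or.inr ⟨-1, ?_⟩
          rw [Units.val_neg, Units.val_one, zpow_neg, zpow_one, ← hk, inv_inv,
            mul_inv_cancel_left]
    obtain ⟨τ, hτL, hτ, hτp⟩ := h4 K P.CK P.CK' P.th (rw' P n m) (wl P.S (bb P n ^ m)) p hp0
      (by rw [hpL, prod_rw]) hstep
    have hlen : (rw' P n m).toList.length = P.q n * m := by
      simp [rw']
    rw [hlen] at hτL hτ
    refine times P n m h6 _ p τ hτL hτ fun i hi => ?_
    have hi' : i < (rw' P n m).toList.length := by rw [hlen]; exact hi
    obtain ⟨e1, x, hx, e2⟩ := hτp i hi'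
    have e3 : ((rw' P n m).toList[i]'hi').1 = -1 := by
      simp [rw', ent]
    rw [e3] at e1 hx
    refine ⟨?_, x, ?_, e2⟩
    · rw [e1, Units.val_neg, Units.val_one, zpow_neg, zpow_one]
    · rw [neg_neg, toSubgroup_one] at hx
      exact hx
  omega

end Pool.Agent.NH54.MG
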