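import Pool.Agent.NH54.MG.Stm

/-!
# MG-LOWC: the combinatorial part of the lower bound of the translation length
-/

set_option autoImplicit false

open Set Filter Topology HNNExtension HNNExtension.NormalWord

namespace Pool.Agent.NH54.MG

namespace LOWC

variable (P : Par)

theorem cw_letter {L : List (ℤ × Bool)} (h : CW P L) :
    ∀ x ∈ L, ∃ m j : ℕ, j < P.q m ∧ x.1 = P.al m j := by
  induction h with
  | nil => intro x hx; cases hx
  | cons m i j L hi hj _ ih =>
    intro x hx
    rcases List.mem_cons.1 hx with rfl | hx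
    · exact ⟨m, i, hi, rfl⟩
    rcases List.mem_cons.1 hx with rfl | hx
    · exact ⟨m, j, hj, rfl⟩
    · exact ih x hx

theorem s_lt {m n : ℕ} (h : m < n) : P.s m < P.s n := by
  have := P.a_mono h
  have := P.sa m
  omega

theorem q_lt {m n : ℕ} (h : m < n) : P.q m < P.q n := by
  have h1 := P.a_mono h
  have h2 := P.qs n
  have h3 : P.s n < 4 ^ P.s n := Nat.lt_pow_self (by norm_num)
  have h4 : 2 * 4 ^ P.s n + 1 ≤ (n + 1) * (2 * 4 ^ P.s n + 1) :=
    Nat.le_mul_of_pos_left _ (Nat.succ_pos n)
  omega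

theorem sg_inj {m n : ℕ} (h : P.sg m = P.sg n) : m = n := by
  have h1 : P.s m = P.s n := by
    have : (4 : ℕ) ^ (P.s m) = 4 ^ P.s n := by
      have := h
      simp only [Par.sg] at this
      exact_mod_cast this
    exact Nat.pow_right_injective (by norm_num) this
  rcases lt_trichotomy m n with hlt | rfl | hlt
  · have := s_lt P hlt
    omega
  · rfl
  · have := s_lt P hlt
    omega

/-- the letters are moved one step by the shift -/
theorem step (h1 : S_CW) {c : N} (hc : c ∈ P.CN) {m j : ℕ} {b : Bool}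
    (hx : (P.al m j, b) ∈ c.toWord) (hj : j < P.q m) :
    (j + 1 < P.q m → (P.al m (j + 1), b) ∈ (P.Th c).toWord) ∧
      (j + 1 = P.q m → (P.sg m, b) ∈ (P.Th c).toWord) := by
  rw [(h1 P c hc).2]
  constructor
  · intro hj1
    refine List.mem_flatMap.2 ⟨_, hx, ?_⟩
    unfold ex
    simp only [P.dec_al hj, hj1, if_true]
    exact List.mem_singleton.2 rfl
  · intro hj1
    refine List.mem_flatMap.2 ⟨_, hx, ?_⟩
    unfold ex
    have hn : ¬ (j + 1 < P.q m) := by omega
    simp only [P.dec_al hj, hn, if_false]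
    cases b <;> simp

theorem no_sg (h1 : S_CW) {c : N} (hc : c ∈ P.CN) {m : ℕ} {b : Bool} :
    (P.sg m, b) ∉ c.toWord := by
  intro hx
  obtain ⟨m', j, hj, he⟩ := cw_letter P (h1 P c hc).1 _ hx
  exact P.al_ne_sg hj he.symm

/-- the bound for the index of a letter -/
theorem idx (h1 : S_CW) {n : ℕ} {c : N} (hc : ∀ i < P.q n, (P.Th^[i]) c ∈ P.CN) {m j : ℕ} {b : Bool}
    (hx : (P.al m j, b) ∈ c.toWord) (hj : j < P.q m) : j + (P.q n - 1) < P.q m := by
  by_contra hcon
  push Not at hcon
  have hind : ∀ i : ℕ, i < P.q n → j + i < P.q m → (P.al m (j + i), b) ∈ ((P.Th^[i]) c).toWord := by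
    intro i
    induction i with
    | zero => exact fun _ _ => hx
    | succ i ih =>
      intro hi hji
      have h2 := ih (by omega) (by omega)
      rw [Function.iterate_succ_apply']
      exact (step P h1 (hc i (by omega)) h2 (by omega)).1 (by omega)
  have hqn := P.q2 n
  have hlast := hind (P.q m - 1 - j) (by omega) (by omega)
  have h3 := (step P h1 (hc (P.q m - 1 - j) (by omega)) hlast (by omega)).2 (by omega)
  rw [← Function.iterate_succ_apply' (P.Th) (P.q m - 1 - j) c] at h3
  exact no_sg P h1 (hc (P.q m - 1 - j + 1) (by omega)) h3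

/-- the letters have large types -/
def Big (n : ℕ) (x : ℤ × Bool) : Prop :=
  (∃ m j : ℕ, n < m ∧ j < P.q m ∧ x.1 = P.al m j) ∨ ∃ m : ℕ, n < m ∧ x.1 = P.sg m

theorem cw_big {n : ℕ} {L : List (ℤ × Bool)} (h : CW P L) (hr : FreeGroup.IsReduced L)
    (hl : ∀ x ∈ L, ∀ m j : ℕ, j < P.q m → x.1 = P.al m j → n < m ∨ (m = n ∧ j = 0)) :
    ∀ x ∈ L, Big P n x := by
  induction h with
  | nil => intro x hx; cases hx
  | cons m i j L hi hj _ ih =>
    have hi' := hl _ (List.mem_cons_self ..) m i hi rfl
    have hj' := hl _ (List.mem_cons_of_mem _ (List.mem_cons_self ..)) m j hj rfl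
    have hr1 := FreeGroup.isReduced_cons_cons.1 hr
    have hm : n < m := by
      rcases hi' with h' | ⟨rfl, rfl⟩
      · exact h'
      · rcases hj' with h' | ⟨-, rfl⟩
        · exact h'
        · exact absurd (hr1.1 rfl) (by simp)
    have hr2 : FreeGroup.IsReduced L := by
      have := hr1.2
      unfold FreeGroup.IsReduced at this ⊢
      exact this.tail
    intro x hx
    rcases List.mem_cons.1 hx with rfl | hx
    · exact Or.inl ⟨m, i, hm, hi, rfl⟩
    rcases List.mem_cons.1 hx with rfl | hx
    · exact Or.inl ⟨m, j, hm, hj, rfl⟩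
    · exact ih hr2 (fun x hx => hl x (List.mem_cons_of_mem _ (List.mem_cons_of_mem _ hx))) x hx

theorem ex_big {n : ℕ} {x : ℤ × Bool} (h : Big P n x) : ∀ z ∈ ex P x, Big P n z := by
  rcases h with ⟨m, j, hm, hj, hx⟩ | ⟨m, hm, hx⟩
  · intro z hz
    unfold ex at hz
    rw [hx, P.dec_al hj] at hz
    dsimp only at hz
    have hq := P.q2 m
    split_ifs at hz with h2 h3
    · rw [List.mem_singleton] at hz
      rw [hz]
      exact Or.inl ⟨m, j + 1, hm, h2, rfl⟩
    · simp only [List.mem_cons, List.not_mem_nil, or_false] at hz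
      rcases hz with rfl | rfl
      · exact Or.inl ⟨m, 0, hm, by omega, rfl⟩
      · exact Or.inr ⟨m, hm, rfl⟩
    · simp only [List.mem_cons, List.not_mem_nil, or_false] at hz
      rcases hz with rfl | rfl
      · exact Or.inr ⟨m, hm, rfl⟩
      · exact Or.inl ⟨m, 0, hm, by omega, rfl⟩
  · intro z hz
    unfold ex at hz
    rw [hx, P.dec_sg m] at hz
    dsimp only at hz
    rw [List.mem_singleton] at hz
    rw [hz]
    exact Or.inr ⟨m, hm, hx⟩

theorem cw_head {L : List (ℤ × Bool)} (h : CW P L) {x : ℤ} {L' : List (ℤ × Bool)}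
    (he : L = (x, true) :: L') : False := by
  cases h with
  | nil => cases he
  | cons m i j L hi hj hL =>
    have h1 := congrArg (fun l : List (ℤ × Bool) => l.head?.map Prod.snd) he
    simp at h1

end LOWC

open LOWC

theorem t_LOWC (h1 : S_CW) (_h2 : S_TOP) : S_LOWC := by
  intro P n c hc hcon
  have hq := P.q2 n
  have hc0 : c ∈ P.CN := hc 0 (by omega)
  have hb : ∀ i : ℕ, i ≤ P.q n → ∀ x ∈ ((P.Th^[i]) c).toWord, Big P n x := by
    intro i
    induction i with
    | zero =>
      intro _
      refine cw_big P (h1 P c hc0).1 FreeGroup.isReduced_toWord ?_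
      rintro ⟨x, b⟩ hx m j hj rfl
      have h3 := idx P h1 hc hx hj
      rcases lt_trichotomy m n with hlt | rfl | hlt
      · have := q_lt P hlt
        omega
      · right
        exact ⟨rfl, by omega⟩
      · exact Or.inl hlt
    | succ i ih =>
      intro hi x hx
      rw [Function.iterate_succ_apply', (h1 P _ (hc i (by omega))).2, List.mem_flatMap] at hx
      obtain ⟨z, hz, hxz⟩ := hx
      exact ex_big P (ih (by omega) z hz) x hxz
  have hlast := hb (P.q n) le_rfl
  obtain ⟨w, hw⟩ : ∃ w, w = (P.Th^[P.q n]) c := ⟨_, rfl⟩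
  rw [← hw] at hlast hcon
  have hword : (y (P.sg n) * w).toWord = (P.sg n, true) :: w.toWord := by
    rw [FreeGroup.toWord_mul, FreeGroup.toWord_of]
    show FreeGroup.reduce ((P.sg n, true) :: w.toWord) = _
    apply FreeGroup.IsReduced.reduce_eq
    have hr : FreeGroup.IsReduced w.toWord := FreeGroup.isReduced_toWord
    rcases hL : w.toWord with _ | ⟨z, L⟩
    · exact FreeGroup.IsReduced.singleton
    · rw [hL] at hr hlast
      refine FreeGroup.isReduced_cons_cons.2 ⟨fun he => ?_, hr⟩
      exfalso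
      rcases hlast z (List.mem_cons_self ..) with ⟨m, j, hm, hj, hz⟩ | ⟨m, hm, hz⟩
      · exact P.al_ne_sg hj (hz.symm.trans he.symm)
      · have := sg_inj P (he.trans hz)
        omega
  have hcw := (h1 P _ hcon).1
  exact cw_head P hcw hword

end Pool.Agent.NH54.MG
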