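import Pool.Agent.NH54.MG.Stm
import Pool.Agent.H26R2.Basic

/-!
# MG-MAL: malnormality
-/

set_option autoImplicit false

namespace Pool.Agent.NH54.MG

namespace MAL

/-! ### retractions -/

/-- a malnormality property of the retracts of a free group -/
theorem retract (X : Subgroup N) (rho : N →* N) (h1 : ∀ x, rho x ∈ X) (h2 : ∀ x ∈ X, rho x = x)
    {h z u : N} (hh : h ≠ 1) (hX : h ∈ X) (hz : z ∈ X) (e : u * z = h * u) : u ∈ X := by
  set r := rho u with hr
  have hrX : r ∈ X := h1 u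
  have e2 : r * z = h * r := by
    have := congrArg rho e
    rwa [map_mul, map_mul, h2 z hz, h2 h hX, ← hr] at this
  have hc : Commute (u * r⁻¹) h := by
    show u * r⁻¹ * h = h * (u * r⁻¹)
    have e3 : z = r⁻¹ * h * r := by rw [mul_assoc, ← e2, inv_mul_cancel_left]
    rw [e3] at e
    have e4 : u * r⁻¹ * h * r = h * u := by rw [← e]; group
    calc u * r⁻¹ * h = (u * r⁻¹ * h * r) * r⁻¹ := by group
      _ = h * (u * r⁻¹) := by rw [e4]; group
  obtain ⟨g, k, l, hk, hl⟩ := Pool.Agent.H26R2.exists_root hc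
  have hw : rho (u * r⁻¹) = 1 := by
    rw [map_mul, map_inv, h2 r hrX, ← hr, mul_inv_cancel]
  have hp : h ^ k = 1 := by
    have e5 : (u * r⁻¹) ^ l = h ^ k := by
      rw [hk, hl, ← zpow_mul, ← zpow_mul, mul_comm]
    have e6 := congrArg rho e5
    rw [map_zpow, map_zpow, hw, one_zpow, h2 h hX] at e6
    exact e6.symm
  have hk0 : k = 0 := by
    by_contra hne
    exact hh ((IsMulTorsionFree.zpow_eq_one_iff_left hne).1 hp)
  rw [hk0, zpow_zero] at hk
  have : u = r := by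
    have := mul_inv_eq_one.1 hk
    exact this
  rw [this]
  exact hrX

/-- the retraction onto `C` on the letters -/
noncomputable def rl (P : Par) (p : ℤ) : N :=
  match P.dec p with
  | none => 1
  | some x => (y (P.al x.1 0))⁻¹ * y (P.al x.1 x.2)

/-- the retraction onto `C` -/
noncomputable def rho (P : Par) : N →* N := FreeGroup.lift (rl P)

theorem rho_y (P : Par) (p : ℤ) : rho P (y p) = rl P p := FreeGroup.lift_apply_of

theorem rho_al (P : Par) {n j : ℕ} (hj : j < P.q n) :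
    rho P (y (P.al n j)) = (y (P.al n 0))⁻¹ * y (P.al n j) := by
  rw [rho_y, rl, P.dec_al hj]

theorem rho_mem (P : Par) (x : N) : rho P x ∈ P.CN := by
  have h : (rho P).range ≤ P.CN := by
    refine FreeGroup.range_lift_le ?_
    rintro _ ⟨p, rfl⟩
    show rl P p ∈ P.CN
    rcases hd : P.dec p with _ | x
    · simp only [rl, hd]
      exact P.CN.one_mem
    · obtain ⟨h1, -⟩ := P.dec_some hd
      simp only [rl, hd]
      exact Subgroup.subset_closure ⟨x.1, 0, x.2, by omega, h1, rfl⟩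
  exact h ⟨x, rfl⟩

theorem rho_id (P : Par) (x : N) (hx : x ∈ P.CN) : rho P x = x := by
  have h : P.CN ≤ MonoidHom.eqLocus (rho P) (MonoidHom.id N) := by
    rw [Par.CN, Subgroup.closure_le]
    rintro _ ⟨n, i, j, hi, hj, rfl⟩
    show rho P _ = _
    rw [map_mul, map_inv, rho_al P hi, rho_al P hj, MonoidHom.id_apply]
    group
  exact h hx

theorem mem_CN (P : Par) {h z u : N} (hh : h ≠ 1) (hX : h ∈ P.CN) (hz : z ∈ P.CN)
    (e : u * z = h * u) : u ∈ P.CN :=
  retract P.CN (rho P) (rho_mem P) (rho_id P) hh hX hz e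

theorem mem_CN' (P : Par) {h z u : N} (hh : h ≠ 1) (hX : h ∈ P.CN') (hz : z ∈ P.CN')
    (e : u * z = h * u) : u ∈ P.CN' := by
  obtain ⟨h', hh', rfl⟩ := hX
  obtain ⟨z', hz', rfl⟩ := hz
  refine ⟨P.Th.symm u, mem_CN P (h := h') (z := z') ?_ hh' hz' ?_, P.Th.apply_symm_apply u⟩
  · rintro rfl
    exact hh (map_one _)
  · apply P.Th.injective
    rw [map_mul, map_mul, P.Th.apply_symm_apply]
    exact e

/-! ### exponent sums -/

/-- the weights of the letters -/
noncomputable def wt (P : Par) (p : ℤ) : ℤ :=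
  match P.dec p with
  | none => 1
  | some x => if x.2 = 0 then 1 else 2

theorem wt_pos (P : Par) (p : ℤ) : 0 < wt P p := by
  rcases hd : P.dec p with _ | x
  · simp only [wt, hd]; norm_num
  · simp only [wt, hd]
    split_ifs <;> norm_num

/-- weighted exponent sum -/
def ew (f : ℤ → ℤ) : N →* Multiplicative ℤ := FreeGroup.lift fun p => Multiplicative.ofAdd (f p)

theorem ew_y (f : ℤ → ℤ) (p : ℤ) : ew f (y p) = Multiplicative.ofAdd (f p) :=
  FreeGroup.lift_apply_of

theorem ew_CN (P : Par) (x : N) (hx : x ∈ P.CN) : ew (fun _ => 1) x = 1 := by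
  have h : P.CN ≤ (ew (fun _ => 1)).ker := by
    rw [Par.CN, Subgroup.closure_le]
    rintro _ ⟨n, i, j, hi, hj, rfl⟩
    show ew _ _ = 1
    rw [map_mul, map_inv, ew_y, ew_y, inv_mul_cancel]
  exact h hx

theorem ew_Th (P : Par) {n j : ℕ} (hj : j < P.q n) :
    ew (wt P) (P.Th (y (P.al n j))) = Multiplicative.ofAdd 2 := by
  have h0 : P.Th (y (P.al n j)) = P.thL (P.al n j) := FreeGroup.lift_apply_of
  have hq := P.q2 n
  rw [h0]
  simp only [Par.thL, P.dec_al hj]
  split_ifs with h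
  · rw [ew_y]
    simp only [wt, P.dec_al h]
    rw [if_neg (by omega)]
  · rw [map_mul, ew_y, ew_y]
    simp only [wt, P.dec_al (show 0 < P.q n by omega), P.dec_sg, if_true]
    rfl

theorem ew_CN' (P : Par) (x : N) (hx : x ∈ P.CN') : ew (wt P) x = 1 := by
  obtain ⟨c, hc, rfl⟩ := hx
  have h : P.CN ≤ ((ew (wt P)).comp (P.Th : N →* N)).ker := by
    rw [Par.CN, Subgroup.closure_le]
    rintro _ ⟨n, i, j, hi, hj, rfl⟩
    show ew (wt P) (P.Th _) = 1
    rw [map_mul, map_inv, map_mul, map_inv, ew_Th P hi, ew_Th P hj, inv_mul_cancel]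
  exact h hc

/-! ### the retraction onto the powers of four -/

/-- differences of powers of four -/
theorem four_aux {a b c d : ℕ} (h : (4 : ℤ) ^ b - 4 ^ a = 4 ^ d - 4 ^ c) (hab : a < b) :
    a = c := by
  have hcd : c < d := by
    by_contra hle
    have h1 : (4 : ℤ) ^ d ≤ 4 ^ c := pow_le_pow_right₀ (by norm_num) (by omega)
    have h2 : (4 : ℤ) ^ a < 4 ^ b := pow_lt_pow_right₀ (by norm_num) hab
    omega
  have key : ∀ a b c d : ℕ, a < b → c < d → (4 : ℤ) ^ b - 4 ^ a = 4 ^ d - 4 ^ c → ¬ a < c := by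
    intro a b c d hab hcd h hac
    obtain ⟨k, rfl⟩ : ∃ k, b = a + k + 1 := ⟨b - a - 1, by omega⟩
    obtain ⟨l, rfl⟩ : ∃ l, c = a + l + 1 := ⟨c - a - 1, by omega⟩
    obtain ⟨m, rfl⟩ : ∃ m, d = a + m + 1 := ⟨d - a - 1, by omega⟩
    have h3 : (4 : ℤ) ^ a * (4 * 4 ^ k - 1) = 4 ^ a * (4 * 4 ^ m - 4 * 4 ^ l) := by
      have e1 : (4 : ℤ) ^ (a + k + 1) = 4 ^ a * (4 * 4 ^ k) := by ring
      have e2 : (4 : ℤ) ^ (a + l + 1) = 4 ^ a * (4 * 4 ^ l) := by ring
      have e3 : (4 : ℤ) ^ (a + m + 1) = 4 ^ a * (4 * 4 ^ m) := by ring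
      rw [e1, e2, e3] at h
      linarith
    have h4 := mul_left_cancel₀ (by positivity) h3
    omega
  have h5 := key a b c d hab hcd h
  have h6 := key c d a b hcd hab h.symm
  omega

theorem four_inj {a b c d : ℕ} {t : ℤ} (ht : t ≠ 0) (h1 : (4 : ℤ) ^ a + t = 4 ^ b)
    (h2 : (4 : ℤ) ^ c + t = 4 ^ d) : b = d := by
  rcases lt_trichotomy a b with hab | rfl | hab
  · have h3 : a = c := four_aux (a := a) (b := b) (c := c) (d := d) (by linarith) hab
    subst h3
    have : (4 : ℤ) ^ b = 4 ^ d := by linarith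
    have h4 : (4 : ℕ) ^ b = 4 ^ d := by exact_mod_cast this
    exact Nat.pow_right_injective (by norm_num) h4
  · exact absurd (by linarith) ht
  · exact four_aux (a := b) (b := a) (c := d) (d := c) (by linarith) hab

open Classical in
/-- the letters which are not powers of four are deleted -/
noncomputable def rA : N →* N :=
  FreeGroup.lift fun p : ℤ => if ∃ k : ℕ, p = 4 ^ k then y p else 1

theorem rA_pow (k : ℕ) : rA (y (4 ^ k)) = y (4 ^ k) := by
  classical
  have h : rA (y (4 ^ k)) = if ∃ l : ℕ, (4 : ℤ) ^ k = 4 ^ l then y (4 ^ k) else 1 :=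
    FreeGroup.lift_apply_of
  rw [h, if_pos ⟨k, rfl⟩]

theorem rA_not {p : ℤ} (hp : ¬ ∃ k : ℕ, p = 4 ^ k) : rA (y p) = 1 := by
  classical
  have h : rA (y p) = if ∃ l : ℕ, p = 4 ^ l then y p else 1 :=
    FreeGroup.lift_apply_of
  rw [h, if_neg hp]

theorem rA_CN (P : Par) (x : N) (hx : x ∈ P.CN) : rA x = x := by
  have h : P.CN ≤ MonoidHom.eqLocus rA (MonoidHom.id N) := by
    rw [Par.CN, Subgroup.closure_le]
    rintro _ ⟨n, i, j, hi, hj, rfl⟩
    show rA _ = _
    rw [map_mul, map_inv, Par.al, Par.al, rA_pow, rA_pow, MonoidHom.id_apply]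
  exact h hx

theorem rA_Th (P : Par) {n j : ℕ} (hj : j < P.q n) :
    rA (P.Th (y (P.al n j))) = P.Th (y (P.al n j)) := by
  have h0 : P.Th (y (P.al n j)) = P.thL (P.al n j) := FreeGroup.lift_apply_of
  rw [h0]
  simp only [Par.thL, P.dec_al hj]
  split_ifs with h
  · rw [Par.al, rA_pow]
  · rw [map_mul, Par.al, Par.sg, rA_pow, rA_pow]

theorem rA_CN' (P : Par) (x : N) (hx : x ∈ P.CN') : rA x = x := by
  obtain ⟨c, hc, rfl⟩ := hx
  have h : P.CN ≤ MonoidHom.eqLocus (rA.comp (P.Th : N →* N)) (P.Th : N →* N) := by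
    rw [Par.CN, Subgroup.closure_le]
    rintro _ ⟨n, i, j, hi, hj, rfl⟩
    show rA (P.Th _) = P.Th _
    rw [map_mul, map_inv, map_mul, map_inv, rA_Th P hi, rA_Th P hj]
  exact h hc

/-- for `t ≠ 0` only one letter survives -/
theorem one_letter {t : ℤ} (ht : t ≠ 0) : ∃ q : ℤ, ∀ z : N, rA z = z →
    rA (sh t z) ∈ Subgroup.zpowers (y q) := by
  classical
  have key : ∃ q : ℤ, ∀ p : ℤ, (∃ k : ℕ, p = 4 ^ k) → (∃ k : ℕ, p + t = 4 ^ k) → p + t = q := by
    by_cases hex : ∃ p : ℤ, (∃ k : ℕ, p = 4 ^ k) ∧ ∃ k : ℕ, p + t = 4 ^ k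
    · obtain ⟨p₀, ⟨a, ha⟩, b, hb⟩ := hex
      refine ⟨p₀ + t, ?_⟩
      rintro p ⟨c, hc⟩ ⟨d, hd⟩
      have : b = d := four_inj ht (by rw [← ha]; exact hb) (by rw [← hc]; exact hd)
      rw [hb, hd, this]
    · exact ⟨0, fun p h1 h2 => absurd ⟨p, h1, h2⟩ hex⟩
  obtain ⟨q, hq⟩ := key
  refine ⟨q, fun z hz => ?_⟩
  have h : (rA.comp ((sh t : N →* N).comp rA)).range ≤ Subgroup.zpowers (y q) := by
    have e : rA.comp ((sh t : N →* N).comp rA) = FreeGroup.lift fun p : ℤ =>
        rA (sh t (rA (y p))) := by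
      ext p
      rw [FreeGroup.lift_apply_of]
      rfl
    rw [e]
    refine FreeGroup.range_lift_le ?_
    rintro _ ⟨p, rfl⟩
    show rA (sh t (rA (y p))) ∈ Subgroup.zpowers (y q)
    by_cases hp : ∃ k : ℕ, p = 4 ^ k
    · have e1 : rA (y p) = y p := by
        obtain ⟨k, rfl⟩ := hp
        exact rA_pow k
      rw [e1, sh_y]
      by_cases hp2 : ∃ k : ℕ, p + t = 4 ^ k
      · have e2 : rA (y (p + t)) = y (p + t) := by
          obtain ⟨k, hk⟩ := hp2
          rw [hk]
          exact rA_pow k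
        rw [e2, hq p hp hp2]
        exact Subgroup.mem_zpowers _
      · rw [rA_not hp2]
        exact Subgroup.one_mem _
    · rw [rA_not hp, map_one, map_one]
      exact Subgroup.one_mem _
  have h2 : (rA.comp ((sh t : N →* N).comp rA)) z = rA (sh t z) := by
    show rA (sh t (rA z)) = _
    rw [hz]
  rw [← h2]
  exact h ⟨z, rfl⟩

/-- `t = 0` -/
theorem t_zero (P : Par) {h z u : N} {t : ℤ} (hh : h ≠ 1) (e : u * sh t z = h * u)
    (h1 : h ∈ P.CN ∨ h ∈ P.CN') (h2 : z ∈ P.CN ∨ z ∈ P.CN') : t = 0 := by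
  by_contra ht
  obtain ⟨q, hq⟩ := one_letter ht
  have hz : rA z = z := h2.elim (rA_CN P z) (rA_CN' P z)
  have hhA : rA h = h := h1.elim (rA_CN P h) (rA_CN' P h)
  obtain ⟨m, hm⟩ := hq z hz
  have e1 : h = rA u * (y q) ^ m * (rA u)⁻¹ := by
    have := congrArg rA e
    rw [map_mul, map_mul, hhA] at this
    have hm' : (y q) ^ m = rA (sh t z) := hm
    rw [hm', this]
    group
  have key : ∃ f : ℤ → ℤ, 0 < f q ∧ ew f h = 1 := by
    rcases h1 with h1 | h1
    · exact ⟨fun _ => 1, one_pos, ew_CN P h h1⟩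
    · exact ⟨wt P, wt_pos P q, ew_CN' P h h1⟩
  obtain ⟨f, hf, hfh⟩ := key
  have e2 : ew f h = Multiplicative.ofAdd (m * f q) := by
    rw [e1, map_mul, map_mul, map_inv, map_zpow, ew_y, mul_comm (ew f (rA u)),
      mul_inv_cancel_right, ← ofAdd_zsmul, smul_eq_mul]
  rw [hfh] at e2
  have e3 : m * f q = 0 := by
    have := congrArg Multiplicative.toAdd e2
    exact this.symm
  rcases mul_eq_zero.1 e3 with h3 | h3
  · rw [h3, zpow_zero, mul_one, mul_inv_cancel] at e1
    exact hh e1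
  · omega

/-! ### the lamps -/

theorem iD_zpow_inj {h : N} (hh : h ≠ 1) : Function.Injective fun k : ℤ => (iD h) ^ k := by
  intro k l e
  have e1 : iD (h ^ k) = iD (h ^ l) := by
    rw [map_zpow, map_zpow]
    exact e
  have e2 : h ^ k = h ^ l := congrArg D.u e1
  have e3 : h ^ (k - l) = 1 := by rw [zpow_sub, e2, mul_inv_cancel]
  by_contra hne
  exact hh ((IsMulTorsionFree.zpow_eq_one_iff_left (sub_ne_zero.2 hne)).1 e3)

theorem no_lamps {h z : N} {a : K} (hh : h ≠ 1) (e : a * jN z = jN h * a) (p : D) :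
    a.v p = 1 := by
  have h1 : ∀ p, a.v (iD h * p) = a.v p := by
    intro p
    have h2 := congrArg (fun k : K => k.v (iD h * p)) e
    have h3 : (a * jN z).v (iD h * p) = a.v (iD h * p) := by
      show a.v (iD h * p) * 1 = _
      rw [mul_one]
    have h4 : (jN h * a).v (iD h * p) = a.v p := by
      show 1 * a.v ((iD h)⁻¹ * (iD h * p)) = _
      rw [one_mul, inv_mul_cancel_left]
    change (a * jN z).v (iD h * p) = (jN h * a).v (iD h * p) at h2
    rw [h3, h4] at h2
    exact h2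
  have h5 : ∀ (k : ℕ) (p : D), a.v ((iD h) ^ k * p) = a.v p := by
    intro k
    induction k with
    | zero => intro p; rw [pow_zero, one_mul]
    | succ k ih => intro p; rw [pow_succ', mul_assoc, h1, ih]
  by_contra hne
  have hinf : (Set.range fun k : ℕ => (iD h) ^ k * p).Infinite := by
    apply Set.infinite_range_of_injective
    intro k l hkl
    have := mul_right_cancel hkl
    have h6 : (iD h) ^ (k : ℤ) = (iD h) ^ (l : ℤ) := by
      rw [zpow_natCast, zpow_natCast]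
      exact this
    exact_mod_cast iD_zpow_inj hh h6
  refine hinf (a.fin.subset ?_)
  rintro _ ⟨k, rfl⟩
  show a.v ((iD h) ^ k * p) ≠ 1
  rw [h5]
  exact hne

end MAL

/-- **MG-MAL**: malnormality -/
theorem t_MAL (_h1 : S_SUB) : S_MAL := by
  intro P h z a hh e hh1 hz1
  have hδ := congrArg K.δ e
  have hu := congrArg D.u hδ
  have hu' : a.δ.u * sh a.δ.t z = h * a.δ.u := by
    have h1 : (a * jN z).δ.u = a.δ.u * sh a.δ.t z := rfl
    have h2 : (jN h * a).δ.u = h * sh 0 a.δ.u := rfl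
    rw [h1, h2, sh_zero] at hu
    exact hu
  have ht : a.δ.t = 0 := MAL.t_zero P hh hu' hh1 hz1
  have hv : a.v = 1 := by
    funext p
    exact MAL.no_lamps hh e p
  rw [ht, sh_zero] at hu'
  refine ⟨a.δ.u, ?_, fun h1 h2 => MAL.mem_CN P hh h1 h2 hu', fun h1 h2 =>
    MAL.mem_CN' P hh h1 h2 hu'⟩
  apply K.ext
  · rw [hv]
    rfl
  · apply D.ext
    · rfl
    · exact ht

end Pool.Agent.NH54.MG
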