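import Pool.Agent.NH54.MG.Stm

/-!
# Project MG (helper54), MP_284ea2_al: part MOR, elements which progress in the tree are Morse (helper63)
-/

set_option autoImplicit false

open Set Filter Topology HNNExtension HNNExtension.NormalWord

namespace Pool.Agent.NH54.MG

namespace MOR

/-- the number of letters is at most the word length -/
theorem tl_le_wl (h1 : S_WL) (h2 : S_GEN) (h3 : S_TL) (P : Par) (g : P.G) :
    tl P.th g ≤ wl P.S g := by
  obtain ⟨-, -, -, -, -, -, hp, -⟩ := h1 P.G P.S (h2 P).1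
  obtain ⟨-, -, k1, k2, k3, k4, -, k5, -⟩ := h3 K P.CK P.CK' P.th
  obtain ⟨p, p0, pn, ps, -⟩ := hp g
  have hof : ∀ k : K, tl P.th (of k : P.G) = 0 := by
    intro k
    have := k4 1 k
    rw [mul_one] at this
    rw [this, k1]
  have hS : ∀ x ∈ P.S, tl P.th x ≤ 1 := by
    intro x hx
    rcases hx with rfl | rfl | rfl | rfl | hx
    · rw [hof]; exact Nat.zero_le _
    · rw [hof]; exact Nat.zero_le _
    · rw [hof]; exact Nat.zero_le _
    · rw [hof]; exact Nat.zero_le _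
    · rw [Set.mem_singleton_iff.1 hx]
      exact k5.le
  have hstep : ∀ i ≤ wl P.S g, tl P.th (p i) ≤ i := by
    intro i
    induction i with
    | zero => intro _; rw [p0, k1]
    | succ i ih =>
      intro hi
      have h := ih (by omega)
      have e : p (i + 1) = p i * ((p i)⁻¹ * p (i + 1)) := by group
      have hx : tl P.th ((p i)⁻¹ * p (i + 1)) ≤ 1 := by
        rcases ps i (by omega) with hh | hh
        · exact hS _ hh
        · rw [← k2]; exact hS _ hh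
      have := k3 (p i) ((p i)⁻¹ * p (i + 1))
      rw [← e] at this
      omega
  have := hstep _ le_rfl
  rwa [pn] at this

/-- the word length of a power -/
theorem wl_zpow_le (h1 : S_WL) {G : Type} [Group G] (S : Set G) (hS : Subgroup.closure S = ⊤)
    (g : G) (n : ℤ) : (wl S (g ^ n) : ℝ) ≤ wl S g * |(n : ℝ)| := by
  obtain ⟨-, -, w1, w2, w3, -⟩ := h1 G S hS
  have hn : ∀ m : ℕ, (wl S (g ^ m) : ℝ) ≤ wl S g * m := by
    intro m
    induction m with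
    | zero => rw [pow_zero, w1]; simp
    | succ m ih =>
      have := w3 (g ^ m) g
      rw [← pow_succ] at this
      have h' : (wl S (g ^ (m + 1)) : ℝ) ≤ wl S (g ^ m) + wl S g := by exact_mod_cast this
      push_cast
      linarith
  rcases Int.le_total 0 n with h | h
  · obtain ⟨m, rfl⟩ := Int.eq_ofNat_of_zero_le h
    rw [zpow_natCast]
    have := hn m
    rwa [Int.cast_natCast, abs_of_nonneg (Nat.cast_nonneg m)]
  · obtain ⟨m, hm⟩ := Int.eq_ofNat_of_zero_le (neg_nonneg.2 h)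
    obtain rfl : n = -(m : ℤ) := by omega
    rw [zpow_neg, w2, zpow_natCast, Int.cast_neg, Int.cast_natCast, abs_neg,
      abs_of_nonneg (Nat.cast_nonneg m)]
    exact hn m

/-- the triangle inequality for the distance in the tree -/
theorem dT_tri (h3 : S_TL) (P : Par) (x z w : P.G) :
    dT P.th x w ≤ dT P.th x z + dT P.th z w := by
  obtain ⟨-, -, -, -, k3, -⟩ := h3 K P.CK P.CK' P.th
  have := k3 (x⁻¹ * z) (z⁻¹ * w)
  have e : x⁻¹ * z * (z⁻¹ * w) = x⁻¹ * w := by group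
  rw [e] at this
  unfold dT
  exact_mod_cast this

theorem dT_symm (h3 : S_TL) (P : Par) (x z : P.G) : dT P.th x z = dT P.th z x := by
  obtain ⟨-, -, -, k2, -⟩ := h3 K P.CK P.CK' P.th
  unfold dT
  rw [← k2 (x⁻¹ * z)]
  congr 3
  group

theorem dT_le_wd (h1 : S_WL) (h2 : S_GEN) (h3 : S_TL) (P : Par) (x z : P.G) :
    dT P.th x z ≤ wd P.S x z := by
  unfold dT wd
  exact_mod_cast tl_le_wl h1 h2 h3 P _

/-- the distance of two integer floors -/
theorem abs_floor_sub (s s' : ℝ) : |s - s'| ≤ |((⌊s'⌋ - ⌊s⌋ : ℤ) : ℝ)| + 1 ∧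
    |((⌊s'⌋ - ⌊s⌋ : ℤ) : ℝ)| ≤ |s - s'| + 1 := by
  have a1 := Int.floor_le s
  have a2 := Int.lt_floor_add_one s
  have b1 := Int.floor_le s'
  have b2 := Int.lt_floor_add_one s'
  push_cast
  constructor
  · rw [abs_le]
    have h1 := neg_abs_le ((⌊s'⌋ : ℝ) - ⌊s⌋)
    have h2 := le_abs_self ((⌊s'⌋ : ℝ) - ⌊s⌋)
    constructor <;> linarith
  · rw [abs_le]
    have h1 := neg_abs_le (s - s')
    have h2 := le_abs_self (s - s')
    constructor <;> linarith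

/-- the distance of two natural floors -/
theorem abs_nfloor_sub {s s' : ℝ} (hs : 0 ≤ s) (hs' : 0 ≤ s') :
    |s - s'| ≤ |(⌊s⌋₊ : ℝ) - ⌊s'⌋₊| + 1 ∧ |(⌊s⌋₊ : ℝ) - ⌊s'⌋₊| ≤ |s - s'| + 1 := by
  have a1 := Nat.floor_le hs
  have a2 := Nat.lt_floor_add_one s
  have b1 := Nat.floor_le hs'
  have b2 := Nat.lt_floor_add_one s'
  constructor
  · rw [abs_le]
    have h1 := neg_abs_le ((⌊s⌋₊ : ℝ) - ⌊s'⌋₊)
    have h2 := le_abs_self ((⌊s⌋₊ : ℝ) - ⌊s'⌋₊)
    constructor <;> linarith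
  · rw [abs_le]
    have h1 := neg_abs_le (s - s')
    have h2 := le_abs_self (s - s')
    constructor <;> linarith

theorem nfloor_le {n : ℕ} {s : ℝ} (hs : s ≤ n) : ⌊s⌋₊ ≤ n := by
  have := Nat.floor_mono hs
  rwa [Nat.floor_natCast] at this

end MOR

open MOR in
/-- MG-MOR: elements which progress in the tree are Morse -/
theorem t_MOR (h1 : S_WL) (h2 : S_GEN) (h3 : S_TL) (h4 : S_D2) : S_MOR := by
  intro P g hg
  obtain ⟨wPM, -, w1, w2, w3, -, hp, -⟩ := h1 P.G P.S (h2 P).1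
  obtain ⟨-, -, k1, k2, -, -, -, -, -⟩ := h3 K P.CK P.CK' P.th
  -- powers in the tree
  have tlz : ∀ n : ℤ, |(n : ℝ)| ≤ tl P.th (g ^ n) := by
    intro n
    rcases Int.le_total 0 n with h | h
    · obtain ⟨m, rfl⟩ := Int.eq_ofNat_of_zero_le h
      rw [zpow_natCast, Int.cast_natCast, abs_of_nonneg (Nat.cast_nonneg m)]
      exact_mod_cast hg m
    · obtain ⟨m, hm⟩ := Int.eq_ofNat_of_zero_le (neg_nonneg.2 h)
      obtain rfl : n = -(m : ℤ) := by omega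
      rw [zpow_neg, k2, zpow_natCast, Int.cast_neg, Int.cast_natCast, abs_neg,
        abs_of_nonneg (Nat.cast_nonneg m)]
      exact_mod_cast hg m
  refine ⟨⟨1, fun n => ⟨n, rfl, ?_⟩⟩, ?_⟩
  · have a := tlz n
    have b : (tl P.th (g ^ n) : ℝ) ≤ wl P.S (g ^ n) := by
      exact_mod_cast tl_le_wl h1 h2 h3 P (g ^ n)
    linarith
  -- the gauges
  obtain ⟨w, hw⟩ : ∃ w : ℝ, w = wl P.S g := ⟨_, rfl⟩
  have w0 : 0 ≤ w := by rw [hw]; exact Nat.cast_nonneg _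
  obtain ⟨M0, G0, H0⟩ := h4 P (w + 2) (by linarith)
  set R : ℝ := M0 1 1 with hR
  have R0 : 0 ≤ R := G0 1 1 le_rfl zero_le_one
  set κ : ℝ := 2 * R + 2 * R * w + w + 2 with hκ
  have Rw : 0 ≤ R * w := mul_nonneg R0 w0
  have κ1 : 1 ≤ κ := by rw [hκ]; linarith
  obtain ⟨M, G1, H1⟩ := h4 P κ κ1
  refine ⟨M, G1, ?_⟩
  -- the case `i ≤ j`, for `g` and for its inverse
  have key : ∀ h : P.G, (wl P.S h : ℝ) = w → (∀ n : ℤ, |(n : ℝ)| ≤ tl P.th (h ^ n)) →
      ∀ i j : ℤ, i ≤ j → ∃ (n : ℕ) (c : ℕ → P.G), c 0 = h ^ i ∧ c n = h ^ j ∧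
        (∀ k ≤ n, ∀ l ≤ n, wd P.S (c k) (c l) = |(k : ℝ) - l|) ∧
          Mrs (wd P.S) M 0 n (fun t => c ⌊t⌋₊) := by
    intro h hwh tlh i j hij
    -- powers
    have dpow : ∀ m m' : ℤ, (h ^ m)⁻¹ * h ^ m' = h ^ (m' - m) := by
      intro m m'
      rw [sub_eq_neg_add, zpow_add, zpow_neg]
    have wdp : ∀ m m' : ℤ, wd P.S (h ^ m) (h ^ m') ≤ w * |((m' - m : ℤ) : ℝ)| := by
      intro m m'
      unfold wd
      rw [dpow, ← hwh]
      exact wl_zpow_le h1 P.S (h2 P).1 h _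
    have dTp : ∀ m m' : ℤ, |((m' - m : ℤ) : ℝ)| ≤ dT P.th (h ^ m) (h ^ m') := by
      intro m m'
      unfold dT
      rw [dpow]
      exact tlh _
    -- the orbit is Morse
    have horb : Mrs (wd P.S) M0 i j (fun s => h ^ ⌊s⌋) := by
      refine H0 i j _ (by exact_mod_cast hij) ?_
      intro s _ s' _
      obtain ⟨f1, f2⟩ := abs_floor_sub s s'
      have a1 := dTp ⌊s⌋ ⌊s'⌋
      have a2 := wdp ⌊s⌋ ⌊s'⌋
      have d0 : 0 ≤ dT P.th (h ^ ⌊s⌋) (h ^ ⌊s'⌋) := Nat.cast_nonneg _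
      have hwd : 0 ≤ w * dT P.th (h ^ ⌊s⌋) (h ^ ⌊s'⌋) := mul_nonneg w0 d0
      refine ⟨?_, ?_⟩
      · show |s - s'| ≤ (w + 2) * dT P.th (h ^ ⌊s⌋) (h ^ ⌊s'⌋) + (w + 2)
        nlinarith
      · show wd P.S (h ^ ⌊s⌋) (h ^ ⌊s'⌋) ≤ (w + 2) * |s - s'| + (w + 2)
        have b := mul_le_mul_of_nonneg_left f2 w0
        have c := abs_nonneg (s - s')
        nlinarith
    -- the geodesic
    obtain ⟨p, p0, pn, -, pd⟩ := hp (h ^ (j - i))
    set n : ℕ := wl P.S (h ^ (j - i)) with hn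
    have hcn : h ^ i * p n = h ^ j := by
      rw [pn, ← zpow_add]
      congr 1
      ring
    have hc0 : h ^ i * p 0 = h ^ i := by rw [p0, mul_one]
    have hcd' : ∀ k l : ℕ, k ≤ l → l ≤ n →
        wd P.S (h ^ i * p k) (h ^ i * p l) = (l : ℝ) - k := by
      intro k l hkl hl
      unfold wd
      have e : (h ^ i * p k)⁻¹ * (h ^ i * p l) = (p k)⁻¹ * p l := by group
      rw [e, pd k l hkl hl, Nat.cast_sub hkl]
    have hcd : ∀ k ≤ n, ∀ l ≤ n, wd P.S (h ^ i * p k) (h ^ i * p l) = |(k : ℝ) - l| := by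
      intro k hk l hl
      rcases le_total k l with hkl | hkl
      · rw [hcd' k l hkl hl, abs_sub_comm, abs_of_nonneg]
        have : (k : ℝ) ≤ l := by exact_mod_cast hkl
        linarith
      · rw [wPM.symm, hcd' l k hkl hk, abs_of_nonneg]
        have : (l : ℝ) ≤ k := by exact_mod_cast hkl
        linarith
    refine ⟨n, fun k => h ^ i * p k, hc0, hcn, hcd, ?_⟩
    -- the geodesic is close to the orbit
    have hclose : ∀ k ≤ n, ∃ m : ℤ, wd P.S (h ^ i * p k) (h ^ m) ≤ R := by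
      intro k hk
      have hq : QG (wd P.S) 1 1 0 n (fun t => h ^ i * p ⌊t⌋₊) := by
        intro s hs t ht
        show |s - t| / 1 - 1 ≤ wd P.S (h ^ i * p ⌊s⌋₊) (h ^ i * p ⌊t⌋₊) ∧
          wd P.S (h ^ i * p ⌊s⌋₊) (h ^ i * p ⌊t⌋₊) ≤ 1 * |s - t| + 1
        rw [hcd _ (nfloor_le hs.2) _ (nfloor_le ht.2)]
        obtain ⟨f1, f2⟩ := abs_nfloor_sub hs.1 ht.1
        constructor <;> linarith
      obtain ⟨s, -, hs⟩ := horb 1 1 le_rfl zero_le_one 0 n (fun t => h ^ i * p ⌊t⌋₊)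
        (Nat.cast_nonneg n) hq
        ⟨i, ⟨le_rfl, by exact_mod_cast hij⟩, by
          show h ^ ⌊(i : ℝ)⌋ = h ^ i * p ⌊(0 : ℝ)⌋₊
          rw [Int.floor_intCast, Nat.floor_zero, hc0]⟩
        ⟨j, ⟨by exact_mod_cast hij, le_rfl⟩, by
          show h ^ ⌊(j : ℝ)⌋ = h ^ i * p ⌊(n : ℝ)⌋₊
          rw [Int.floor_intCast, Nat.floor_natCast, hcn]⟩
        k ⟨Nat.cast_nonneg k, by exact_mod_cast hk⟩
      refine ⟨⌊s⌋, ?_⟩
      have hs' : wd P.S (h ^ i * p ⌊(k : ℝ)⌋₊) (h ^ ⌊s⌋) ≤ M0 1 1 := hs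
      rwa [Nat.floor_natCast] at hs'
    -- the geodesic progresses
    have hprog : ∀ k ≤ n, ∀ l ≤ n, |(k : ℝ) - l| ≤
        2 * R + w * (dT P.th (h ^ i * p k) (h ^ i * p l) + 2 * R) := by
      intro k hk l hl
      obtain ⟨m, hm⟩ := hclose k hk
      obtain ⟨m', hm'⟩ := hclose l hl
      rw [← hcd k hk l hl]
      have t1 := wPM.tri (h ^ i * p k) (h ^ m) (h ^ i * p l)
      have t2 := wPM.tri (h ^ m) (h ^ m') (h ^ i * p l)
      have t3 : wd P.S (h ^ m') (h ^ i * p l) ≤ R := by rw [wPM.symm]; exact hm'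
      have t4 := wdp m m'
      have t5 := dTp m m'
      have u1 := dT_tri h3 P (h ^ m) (h ^ i * p k) (h ^ m')
      have u2 := dT_tri h3 P (h ^ i * p k) (h ^ i * p l) (h ^ m')
      have u3 := dT_le_wd h1 h2 h3 P (h ^ i * p l) (h ^ m')
      have u4 := dT_le_wd h1 h2 h3 P (h ^ i * p k) (h ^ m)
      rw [dT_symm h3 P (h ^ i * p k) (h ^ m)] at u4
      have v : |((m' - m : ℤ) : ℝ)| ≤ dT P.th (h ^ i * p k) (h ^ i * p l) + 2 * R := by linarith
      have v' := mul_le_mul_of_nonneg_left v w0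
      linarith
    -- the second application of D2
    refine H1 0 n (fun t => h ^ i * p ⌊t⌋₊) (Nat.cast_nonneg n) ?_
    intro s hs t ht
    obtain ⟨f1, f2⟩ := abs_nfloor_sub hs.1 ht.1
    have a1 := hprog _ (nfloor_le hs.2) _ (nfloor_le ht.2)
    have a2 := hcd _ (nfloor_le hs.2) _ (nfloor_le ht.2)
    have d0 : 0 ≤ dT P.th (h ^ i * p ⌊s⌋₊) (h ^ i * p ⌊t⌋₊) := Nat.cast_nonneg _
    refine ⟨?_, ?_⟩
    · show |s - t| ≤ κ * dT P.th (h ^ i * p ⌊s⌋₊) (h ^ i * p ⌊t⌋₊) + κ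
      have b1 : w * dT P.th (h ^ i * p ⌊s⌋₊) (h ^ i * p ⌊t⌋₊) ≤
          κ * dT P.th (h ^ i * p ⌊s⌋₊) (h ^ i * p ⌊t⌋₊) :=
        mul_le_mul_of_nonneg_right (by rw [hκ]; linarith) d0
      have b2 : κ = 2 * R + 2 * R * w + w + 2 := hκ
      nlinarith
    · show wd P.S (h ^ i * p ⌊s⌋₊) (h ^ i * p ⌊t⌋₊) ≤ κ * |s - t| + κ
      rw [a2]
      have c := abs_nonneg (s - t)
      nlinarith
  intro i j
  rcases le_total i j with hij | hij
  · exact key g hw.symm tlz i j hij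
  · have tli : ∀ n : ℤ, |(n : ℝ)| ≤ tl P.th (g⁻¹ ^ n) := by
      intro n
      rw [inv_zpow, k2]
      exact tlz n
    have := key g⁻¹ (by rw [w2, hw]) tli (-i) (-j) (by omega)
    simpa only [inv_zpow', neg_neg] using this

end Pool.Agent.NH54.MG
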