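import Pool.Agent.NH54.MG.Stm

/-!
# Project MG, job MG-PAR: parameters
-/

set_option autoImplicit false

namespace Pool.Agent.NH54.MG

namespace PAR

/-- the number of strands -/
def qf (n s : ℕ) : ℕ := (n + 1) * (2 * 4 ^ s + 1) + 2

/-- the truncation -/
def Ff (n s : ℕ) : ℕ := 8 * (n + 1) * (qf n s + 2)

/-- the first exponent -/
def af (n s : ℕ) : ℕ := Ff n s * 4 ^ s + s + 1

/-- the exponent of `σ n` -/
def sf : ℕ → ℕ
  | 0 => 1
  | n + 1 => af n (sf n) + qf n (sf n)

theorem sf_succ (n : ℕ) : sf (n + 1) = af n (sf n) + qf n (sf n) := rfl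

theorem af_ge (n s : ℕ) : Ff n s * 4 ^ s ≤ af n s := by
  unfold af
  exact (Nat.le_add_right _ _).trans (Nat.le_add_right _ _)

/-- the parameters -/
def par : Par where
  s := sf
  q n := qf n (sf n)
  a n := af n (sf n)
  F n := Ff n (sf n)
  q2 n := Nat.le_add_left _ _
  sa n := by
    show sf n < Ff n (sf n) * 4 ^ sf n + sf n + 1
    exact Nat.lt_succ_of_le (Nat.le_add_left _ _)
  as n := le_of_eq (sf_succ n).symm
  qs n := Nat.le_add_right _ _
  Fa n := (af_ge n (sf n)).trans (Nat.lt_pow_self (by norm_num)).le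
  Fq n := le_of_eq rfl

end PAR

theorem t_PAR : S_PAR := ⟨PAR.par⟩

end Pool.Agent.NH54.MG

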