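import Pool.Agent.NH54.MG.Stm

/-!
# Project MG: the powers of the elements `p n`
-/

set_option autoImplicit false

open Set Filter Topology HNNExtension HNNExtension.NormalWord

namespace Pool.Agent.NH54.MG

namespace PN

theorem th_apply (P : Par) (c : N) (hc : c ∈ P.CN) (h : jN c ∈ P.CK) :
    ((P.th ⟨jN c, h⟩ : P.CK') : K) = jN (P.Th c) := by
  have h1 : (P.CN.equivMapOfInjective jN jN_inj).symm ⟨jN c, h⟩ = ⟨c, hc⟩ := by
    rw [MulEquiv.symm_apply_eq]
    rfl
  exact congrArg (fun z => (((P.CN'.equivMapOfInjective jN jN_inj) (P.Th.subgroupMap P.CN z) :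
    P.CN'.map jN) : K)) h1

theorem of_t (P : Par) (c : N) (hc : c ∈ P.CN) :
    (of (jN c) : P.G) * t⁻¹ = t⁻¹ * of (jN (P.Th c)) := by
  have hmem : jN c ∈ P.CK := ⟨c, hc, rfl⟩
  have h3 := of_mul_inv_t (φ := P.th) ⟨jN c, hmem⟩
  rw [th_apply P c hc hmem] at h3
  exact h3

theorem Th_y (P : Par) (p : ℤ) : P.Th (y p) = P.thL p := by
  show FreeGroup.lift P.thL (FreeGroup.of p) = _
  rw [FreeGroup.lift_apply_of]

theorem Th_gl (P : Par) (n j : ℕ) (hj : j < P.q n) : P.Th (gl P n j) = gl P n (j + 1) := by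
  have h1 : gl P n j = y (P.al n j) := by rw [gl, if_pos hj]
  rw [h1, Th_y]
  simp only [Par.thL, P.dec_al hj, gl]

theorem step (P : Par) (n j : ℕ) (hj : j < P.q n) :
    pn P n = of (jN (gl P n j)) * t⁻¹ * (of (jN (gl P n (j + 1))))⁻¹ := by
  have hq := P.q2 n
  have h0 : 0 < P.q n := by omega
  have hc : (gl P n 0)⁻¹ * gl P n j ∈ P.CN := by
    apply Subgroup.subset_closure
    exact ⟨n, 0, j, h0, hj, by rw [gl, if_pos h0, gl, if_pos hj]⟩
  have h1 := of_t P _ hc
  rw [map_mul P.Th, map_inv P.Th, Th_gl P n 0 h0, Th_gl P n j hj, map_mul jN, map_mul jN,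
    map_inv jN, map_inv jN, map_mul, map_mul, map_inv, map_inv] at h1
  unfold pn
  rw [mul_inv_eq_iff_eq_mul, mul_assoc (_ * t⁻¹), mul_assoc (of (jN (gl P n j))) t⁻¹]
  rw [zero_add] at h1
  -- h1 : g0⁻¹ * gj * t⁻¹ = t⁻¹ * (g1⁻¹ * g')
  have h2 : (of (jN (gl P n j)) : P.G) * t⁻¹ =
      of (jN (gl P n 0)) * (t⁻¹ * ((of (jN (gl P n 1)))⁻¹ * of (jN (gl P n (j + 1))))) := by
    rw [← h1, mul_assoc, mul_inv_cancel_left]
  rw [← mul_assoc (of (jN (gl P n j))) t⁻¹, h2]
  group

theorem pow_le (P : Par) (n j : ℕ) (hj : j ≤ P.q n) :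
    pn P n ^ j = of (jN (gl P n 0)) * t⁻¹ ^ j * (of (jN (gl P n j)))⁻¹ := by
  induction j with
  | zero => simp
  | succ j ih =>
    rw [pow_succ, ih (by omega), step P n j (by omega), pow_succ]
    simp only [mul_assoc, inv_mul_cancel_left]

theorem gl_q (P : Par) (n : ℕ) : gl P n (P.q n) = y (P.al n 0) * y (P.sg n) := by
  rw [gl, if_neg (lt_irrefl _)]

theorem gl_0 (P : Par) (n : ℕ) : gl P n 0 = y (P.al n 0) := by
  have hq := P.q2 n
  rw [gl, if_pos (by omega)]

theorem aux {P : Par} (a b : P.G) (m : ℕ) :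
    a * (t⁻¹ * (b⁻¹ * a)) ^ m = (a * t⁻¹ * b⁻¹) ^ m * a := by
  induction m with
  | zero => simp
  | succ m ih =>
    rw [pow_succ, ← mul_assoc, ih, pow_succ]
    simp only [mul_assoc]

end PN

open PN in
theorem t_PN (h : S_TL) : S_PN := by
  intro P n
  refine ⟨fun m => ?_, fun m => ?_⟩
  · rw [pow_mul, pow_le P n _ le_rfl, gl_q, gl_0, map_mul jN, map_mul, mul_inv_rev]
    rw [← conj_pow]
    congr 1
    simp only [map_inv, mul_assoc]
  · obtain ⟨hw, -, -, -, -, -, hk, -⟩ := h K P.CK P.CK' P.th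
    set G0 : P.G := of (jN (gl P n 0)) with hG0
    set G1 : P.G := of (jN (gl P n 1)) with hG1
    have hpn : pn P n = G0 * t⁻¹ * G1⁻¹ := rfl
    let w : ReducedWord K P.CK P.CK' :=
      { head := jN (gl P n 0)
        toList := List.replicate m (-1, (jN (gl P n 1))⁻¹ * jN (gl P n 0))
        chain := by
          rw [List.isChain_iff_getElem]
          intro i hi h
          simp only [List.getElem_replicate] }
    have hprod : w.prod P.th = pn P n ^ m * of (jN (gl P n 0)) := by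
      have e1 : w.prod P.th = G0 * (t⁻¹ * (G1⁻¹ * G0)) ^ m := by
        show of (jN (gl P n 0)) * ((List.replicate m ((-1 : ℤˣ),
          (jN (gl P n 1))⁻¹ * jN (gl P n 0))).map
            (fun x => (t : P.G) ^ (x.1 : ℤ) * of x.2)).prod = _
        rw [List.map_replicate, List.prod_replicate, map_mul, map_inv, Units.val_neg,
          Units.val_one, zpow_neg, zpow_one]
      rw [e1, hpn, ← hG0]
      exact aux G0 G1 m
    have h1 := hk (pn P n ^ m) (jN (gl P n 0))
    rw [← h1, ← hprod, hw]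
    exact List.length_replicate

end Pool.Agent.NH54.MG
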