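import Pool.Agent.NH54.MG.Stm

/-!
# Project MG (helper54), part RAY (helper52): a geodesic of the tree `LA` which avoids a walk
-/

set_option autoImplicit false

open FreeGroup Finset

namespace Pool.Agent.NH54.MG.RAY

/-- letters -/
abbrev Lt : Type := Bool × Bool

theorem append_last (g : LA) (x : Lt) (v : List Lt) (hv : v <+: g.toWord) :
    v.dropLast <+: (g * mk [x]).toWord := by
  rcases List.eq_nil_or_concat' g.toWord with h | ⟨w, z, h⟩
  · rw [h] at hv
    rw [List.prefix_nil.1 hv]
    exact List.nil_prefix
  · by_cases hz : z = (x.1, !x.2)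
    · have h1 : g * mk [x] = mk w := by
        have h5 : Red.Step (w ++ [z] ++ [x]) w := by
          have := Red.Step.not (L₁ := w) (L₂ := []) (x := x.1) (b := !x.2)
          simpa [hz] using this
        conv_lhs => rw [← mk_toWord (x := g)]
        rw [h, mul_mk]
        exact Quot.sound h5
      have hw : IsReduced w := by
        have : IsReduced g.toWord := isReduced_toWord
        rw [h] at this
        exact List.IsChain.left_of_append this
      rw [h1, toWord_mk, hw.reduce_eq]
      rw [h] at hv
      rcases List.prefix_concat_iff.1 hv with h2 | h2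
      · rw [h2, List.dropLast_concat]
      · exact (List.dropLast_prefix v).trans h2
    · have h1 : g * mk [x] = mk (g.toWord ++ [x]) := by
        conv_lhs => rw [← mk_toWord (x := g)]
        rw [mul_mk]
      have hw : IsReduced (g.toWord ++ [x]) := by
        have h2 : IsReduced g.toWord := isReduced_toWord
        refine List.isChain_append.2 ⟨h2, List.isChain_singleton _, ?_⟩
        intro a ha b hb
        rw [h] at ha
        simp at ha hb
        subst ha hb
        intro h3
        by_contra h4
        apply hz
        ext1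
        · exact h3
        · revert h4
          cases z.2 <;> cases x.2 <;> simp
      rw [h1, toWord_mk, hw.reduce_eq]
      exact (List.dropLast_prefix v).trans (hv.trans (List.prefix_append _ _))

theorem append_list (l : List Lt) : ∀ (g : LA) (v : List Lt), v <+: g.toWord →
    v.take (v.length - l.length) <+: (g * mk l).toWord := by
  induction l with
  | nil =>
    intro g v hv
    rw [← one_eq_mk, mul_one]
    exact (List.take_prefix _ _).trans hv
  | cons x l ih =>
    intro g v hv
    have h1 := ih (g * mk [x]) v.dropLast (append_last g x v hv)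
    have h2 : g * mk [x] * mk l = g * mk (x :: l) := by
      rw [mul_assoc, mul_mk, List.singleton_append]
    rw [h2] at h1
    refine List.IsPrefix.trans ?_ h1
    rw [List.length_dropLast, List.length_cons, List.dropLast_eq_take, List.take_take,
      show min (v.length - 1 - l.length) (v.length - 1) = v.length - (l.length + 1) by omega]

/-- the weight -/
def T (n : ℕ) (u : ℕ → LA) (k : ℕ) (v : List Lt) : ℕ :=
  ∑ j ∈ Icc k n, ∑ c ∈ range (4 * (j - 4)),
    if v <+: (u c).toWord ∧ j ≤ (u c).toWord.length then 3 ^ (n - j) else 0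

theorem start (n : ℕ) : (∑ j ∈ range (n + 1), (4 * (j - 4)) * 3 ^ (n - j)) + 2 * n + 1 ≤ 3 ^ n := by
  induction n with
  | zero => simp
  | succ n ih =>
    rw [sum_range_succ]
    have h1 : ∑ j ∈ range (n + 1), (4 * (j - 4)) * 3 ^ (n + 1 - j) =
        3 * ∑ j ∈ range (n + 1), (4 * (j - 4)) * 3 ^ (n - j) := by
      rw [mul_sum]
      refine sum_congr rfl fun j hj => ?_
      have := mem_range.1 hj
      rw [show n + 1 - j = (n - j) + 1 by omega, pow_succ]
      ring
    rw [h1, Nat.sub_self, pow_zero, mul_one, pow_succ]
    omega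

theorem T_nil (n : ℕ) (u : ℕ → LA) : T n u 0 [] < 3 ^ n := by
  have h := start n
  have h1 : T n u 0 [] ≤ ∑ j ∈ range (n + 1), (4 * (j - 4)) * 3 ^ (n - j) := by
    have : Icc 0 n = range (n + 1) := by
      ext j
      simp
    rw [T, this]
    refine sum_le_sum fun j _ => ?_
    calc ∑ c ∈ range (4 * (j - 4)),
        (if ([] : List Lt) <+: (u c).toWord ∧ j ≤ (u c).toWord.length then 3 ^ (n - j) else 0)
        ≤ ∑ c ∈ range (4 * (j - 4)), 3 ^ (n - j) :=
          sum_le_sum fun c _ => by split_ifs <;> simp
      _ = (4 * (j - 4)) * 3 ^ (n - j) := by simp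
  omega

theorem T_step (n : ℕ) (u : ℕ → LA) (k : ℕ) (v : List Lt) :
    ∑ x : Lt, T n u (k + 1) (v ++ [x]) ≤ T n u k v := by
  unfold T
  rw [sum_comm]
  refine le_trans ?_ (sum_le_sum_of_subset (s := Icc (k + 1) n) fun j hj => by
    simp only [mem_Icc] at hj ⊢; omega)
  refine sum_le_sum fun j _ => ?_
  rw [sum_comm]
  refine sum_le_sum fun c _ => ?_
  by_cases h : ∃ x : Lt, v ++ [x] <+: (u c).toWord ∧ j ≤ (u c).toWord.length
  · obtain ⟨x, hx, hj⟩ := h
    rw [if_pos ⟨(List.prefix_append v [x]).trans hx, hj⟩, Finset.sum_eq_single x]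
    · split_ifs <;> simp
    · intro z _ hz
      rw [if_neg]
      rintro ⟨hz', _⟩
      apply hz
      have h3 : v ++ [z] = v ++ [x] := by
        rcases List.prefix_or_prefix_of_prefix hx hz' with h4 | h4
        · exact (h4.eq_of_length (by simp)).symm
        · exact h4.eq_of_length (by simp)
      simpa using h3
    · intro hx'
      exact absurd (mem_univ x) hx'
  · rw [sum_eq_zero]
    · exact Nat.zero_le _
    · intro x _
      rw [if_neg]
      intro hx
      exact h ⟨x, hx⟩

theorem exists_word (n : ℕ) (u : ℕ → LA) (k : ℕ) (hk : k ≤ n) :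
    ∃ L : List Lt, L.length = k ∧ IsReduced L ∧ ∀ i ≤ k, T n u i (L.take i) < 3 ^ (n - i) := by
  induction k with
  | zero =>
    refine ⟨[], rfl, IsReduced.nil, fun i hi => ?_⟩
    obtain rfl : i = 0 := by omega
    simpa using T_nil n u
  | succ k ih =>
    obtain ⟨L, hL, hr, hT⟩ := ih (by omega)
    -- the letter which must be avoided
    obtain ⟨z, hz⟩ : ∃ z : Lt, ∀ x : Lt, x ≠ z → IsReduced (L ++ [x]) := by
      rcases List.eq_nil_or_concat' L with h | ⟨w, y, h⟩
      · exact ⟨(true, true), fun x _ => by rw [h]; exact IsReduced.singleton⟩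
      · refine ⟨(y.1, !y.2), fun x hx => ?_⟩
        refine List.isChain_append.2 ⟨hr, List.isChain_singleton _, ?_⟩
        intro a ha b hb
        rw [h] at ha
        simp at ha hb
        subst ha hb
        intro h3
        by_contra h4
        apply hx
        ext1
        · exact h3.symm
        · revert h4
          cases y.2 <;> cases x.2 <;> simp
    have hlt : ∑ x : Lt, T n u (k + 1) (L ++ [x]) < 3 ^ (n - k) := by
      refine (T_step n u k L).trans_lt ?_
      have := hT k le_rfl
      rwa [← hL, List.take_length, hL] at this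
    have hex : ∃ x ∈ (univ : Finset Lt).erase z, T n u (k + 1) (L ++ [x]) < 3 ^ (n - (k + 1)) := by
      by_contra hcon
      push Not at hcon
      have h1 : ((univ : Finset Lt).erase z).card • 3 ^ (n - (k + 1)) ≤
          ∑ x ∈ (univ : Finset Lt).erase z, T n u (k + 1) (L ++ [x]) :=
        Finset.card_nsmul_le_sum _ _ _ hcon
      have h2 : ∑ x ∈ (univ : Finset Lt).erase z, T n u (k + 1) (L ++ [x]) ≤
          ∑ x : Lt, T n u (k + 1) (L ++ [x]) := sum_le_sum_of_subset (erase_subset _ _)
      have h3 : ((univ : Finset Lt).erase z).card = 3 := by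
        rw [card_erase_of_mem (mem_univ z)]
        rfl
      rw [h3, smul_eq_mul] at h1
      have h4 : 3 ^ (n - k) = 3 * 3 ^ (n - (k + 1)) := by
        rw [show n - k = (n - (k + 1)) + 1 by omega, pow_succ]
        ring
      omega
    obtain ⟨x, hx, hxT⟩ := hex
    refine ⟨L ++ [x], by simp [hL], hz x (ne_of_mem_erase hx), fun i hi => ?_⟩
    rcases Nat.lt_or_ge k i with h | h
    · obtain rfl : i = k + 1 := by omega
      rw [List.take_of_length_le (by simp [hL])]
      exact hxT
    · rw [List.take_append_of_le_length (by omega)]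
      exact hT i h

end Pool.Agent.NH54.MG.RAY

namespace Pool.Agent.NH54.MG

open RAY

theorem t_RAY : S_RAY := by
  intro n u h0 h1
  obtain ⟨L, hL, hr, hT⟩ := exists_word n u n le_rfl
  refine ⟨fun i => mk (L.take i), ?_, fun i j hij hj => ?_, fun a ha c => ?_⟩
  · simp [one_eq_mk]
  · have h2 : (mk (L.take j) : LA) = mk (L.take i) * mk ((L.take j).drop i) := by
      rw [mul_mk]
      congr 1
      conv_lhs => rw [← List.take_append_drop i (L.take j)]
      rw [List.take_take, min_eq_left hij]
    have h3 : IsReduced ((L.take j).drop i) :=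
      List.IsChain.drop (List.IsChain.take hr j) i
    show FreeGroup.norm ((mk (L.take i))⁻¹ * mk (L.take j)) = j - i
    rw [h2, inv_mul_cancel_left, FreeGroup.norm, toWord_mk, h3.reduce_eq]
    simp [hL, hj]
  · by_contra hcon
    push Not at hcon
    set g : LA := (mk (L.take a))⁻¹ * u c with hg
    have hu : u c = mk (L.take a) * mk g.toWord := by
      rw [mk_toWord, hg, mul_inv_cancel_left]
    have hra : IsReduced (L.take a) := List.IsChain.take hr a
    have h2 : L.take a <+: (mk (L.take a) : LA).toWord := by
      rw [toWord_mk, hra.reduce_eq]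
    have h3 := append_list g.toWord (mk (L.take a)) (L.take a) h2
    rw [← hu, List.length_take, hL, min_eq_left ha] at h3
    change (L.take a).take (a - g.norm) <+: (u c).toWord at h3
    set j := a - g.norm with hj
    rw [List.take_take, min_eq_left (by omega)] at h3
    have hT' := hT j (by omega)
    have h4 : 3 ^ (n - j) ≤ T n u j (L.take j) := by
      unfold T
      refine le_trans ?_ (Finset.single_le_sum (f := fun j' => ∑ c ∈ range (4 * (j' - 4)),
        if L.take j <+: (u c).toWord ∧ j' ≤ (u c).toWord.length then 3 ^ (n - j') else 0)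
        (fun _ _ => Nat.zero_le _) (mem_Icc.2 ⟨le_refl j, by omega⟩))
      refine le_trans ?_ (Finset.single_le_sum (f := fun c =>
        if L.take j <+: (u c).toWord ∧ j ≤ (u c).toWord.length then 3 ^ (n - j) else 0)
        (fun _ _ => Nat.zero_le _) (mem_range.2 (show c < 4 * (j - 4) by omega)))
      rw [if_pos]
      refine ⟨h3, ?_⟩
      have := h3.length_le
      rw [List.length_take, hL] at this
      omega
    omega

end Pool.Agent.NH54.MG
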