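import Pool.Agent.NH54.MG.Stm

/-!
# MG-SHR: after enough straight turns the stabiliser is trivial
-/

set_option autoImplicit false

namespace Pool.Agent.NH54.MG

namespace SHR

/-- the subgroup generated by the letters in `Q` -/
def FQ (Q : Set ℤ) : Subgroup N := Subgroup.closure (y '' Q)

open Classical in
/-- the retraction -/
noncomputable def rQ (Q : Set ℤ) : N →* N := FreeGroup.lift fun p => if p ∈ Q then y p else 1

theorem rQ_y_mem {Q : Set ℤ} {p : ℤ} (h : p ∈ Q) : rQ Q (y p) = y p := by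
  simp [rQ, y, h]

theorem rQ_y_not {Q : Set ℤ} {p : ℤ} (h : p ∉ Q) : rQ Q (y p) = 1 := by
  simp [rQ, y, h]

theorem y_mem {Q : Set ℤ} {p : ℤ} (h : p ∈ Q) : y p ∈ FQ Q :=
  Subgroup.subset_closure ⟨p, h, rfl⟩

theorem FQ_mono {Q Q' : Set ℤ} (h : Q ⊆ Q') : FQ Q ≤ FQ Q' :=
  Subgroup.closure_mono (Set.image_mono h)

/-- a homomorphism which maps the letters of `Q` into `H` maps `FQ Q` into `H` -/
theorem map_mem {Q : Set ℤ} {H : Subgroup N} (f : N →* N) (hf : ∀ p ∈ Q, f (y p) ∈ H) {x : N}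
    (hx : x ∈ FQ Q) : f x ∈ H := by
  have : FQ Q ≤ H.comap f := by
    rw [FQ, Subgroup.closure_le]
    rintro _ ⟨p, hp, rfl⟩
    exact hf p hp
  exact this hx

theorem rQ_id {Q : Set ℤ} {x : N} (hx : x ∈ FQ Q) : rQ Q x = x := by
  have : FQ Q ≤ (rQ Q).eqLocus (MonoidHom.id N) := by
    rw [FQ, Subgroup.closure_le]
    rintro _ ⟨p, hp, rfl⟩
    exact rQ_y_mem hp
  exact this hx

theorem rQ_inter {Q Q' : Set ℤ} {x : N} (hx : x ∈ FQ Q') : rQ Q x ∈ FQ (Q ∩ Q') := by
  refine map_mem (rQ Q) (fun p hp => ?_) hx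
  by_cases h : p ∈ Q
  · rw [rQ_y_mem h]
    exact y_mem ⟨h, hp⟩
  · rw [rQ_y_not h]
    exact one_mem _

/-- conjugate into `FQ Q` -/
def Cj (h : N) (Q : Set ℤ) : Prop := ∃ v : N, ∃ x ∈ FQ Q, h = v * x * v⁻¹

theorem Cj.inter {h : N} {Q Q' : Set ℤ} (h1 : Cj h Q) (h2 : Cj h Q') : Cj h (Q ∩ Q') := by
  obtain ⟨v, x, hx, rfl⟩ := h1
  obtain ⟨w, z, hz, hw⟩ := h2
  refine ⟨v * rQ Q (v⁻¹ * w), rQ Q z, rQ_inter hz, ?_⟩
  have e : x = (v⁻¹ * w) * z * (v⁻¹ * w)⁻¹ := by
    have e1 : x = v⁻¹ * (v * x * v⁻¹) * v := by group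
    rw [e1, hw]; group
  have e2 := congrArg (rQ Q) e
  rw [rQ_id hx, map_mul, map_mul, map_inv] at e2
  rw [e2, mul_inv_rev]
  group

theorem Cj.mono {h : N} {Q Q' : Set ℤ} (hQ : Q ⊆ Q') (h1 : Cj h Q) : Cj h Q' := by
  obtain ⟨v, x, hx, rfl⟩ := h1
  exact ⟨v, x, FQ_mono hQ hx, rfl⟩

theorem Cj.conj {h : N} {Q : Set ℤ} (h1 : Cj h Q) (w : N) : Cj (w * h * w⁻¹) Q := by
  obtain ⟨v, x, hx, rfl⟩ := h1
  exact ⟨w * v, x, hx, by group⟩

/-- transport by a homomorphism -/
theorem Cj.map {h : N} {Q Q' : Set ℤ} (f : N →* N) (hf : ∀ p ∈ Q, f (y p) ∈ FQ Q')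
    (h1 : Cj h Q) : Cj (f h) Q' := by
  obtain ⟨v, x, hx, rfl⟩ := h1
  exact ⟨f v, f x, map_mem f hf hx, by simp⟩

theorem mk_mem {Q : Set ℤ} : ∀ L : List (ℤ × Bool), (∀ x ∈ L, x.1 ∈ Q) → FreeGroup.mk L ∈ FQ Q
  | [], _ => one_mem _
  | (p, b) :: L, h => by
    have h1 : (FreeGroup.mk ((p, b) :: L) : N) = FreeGroup.mk [(p, b)] * FreeGroup.mk L := by
      rw [FreeGroup.mul_mk]; rfl
    rw [h1]
    refine mul_mem ?_ (mk_mem L fun x hx => h x (List.mem_cons_of_mem _ hx))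
    have hp : p ∈ Q := h (p, b) List.mem_cons_self
    cases b
    · have : (FreeGroup.mk [(p, false)] : N) = (y p)⁻¹ := rfl
      rw [this]
      exact inv_mem (y_mem hp)
    · exact y_mem hp

theorem letter_le {L : List (ℤ × Bool)} {x : ℤ × Bool} (hx : x ∈ L) :
    x.1.natAbs ≤ (L.map (fun x => x.1.natAbs)).foldr max 0 := by
  induction L with
  | nil => simp at hx
  | cons z L ih =>
    simp only [List.map_cons, List.foldr_cons]
    rcases List.mem_cons.1 hx with rfl | h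
    · exact le_max_left _ _
    · exact (ih h).trans (le_max_right _ _)

/-- the small letters -/
def sm (m : ℕ) : Set ℤ := {p | p.natAbs < m}

theorem mem_of_mN {u : N} {m : ℕ} (h : mN u < m) : u ∈ FQ (sm m) := by
  have := mk_mem (Q := sm m) u.toWord (fun x hx => lt_of_le_of_lt (letter_le hx) h)
  rwa [FreeGroup.mk_toWord] at this

variable (P : Par)

theorem al_natAbs (n j : ℕ) : (P.al n j).natAbs = 4 ^ (P.a n + j) := by
  unfold Par.al
  have : ((4 : ℤ) ^ (P.a n + j)) = ((4 ^ (P.a n + j) : ℕ) : ℤ) := by push_cast; rfl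
  rw [this, Int.natAbs_natCast]

theorem sg_natAbs (n : ℕ) : (P.sg n).natAbs = 4 ^ P.s n := by
  unfold Par.sg
  have : ((4 : ℤ) ^ (P.s n)) = ((4 ^ (P.s n) : ℕ) : ℤ) := by push_cast; rfl
  rw [this, Int.natAbs_natCast]

theorem al_sm {n j n₀ : ℕ} : P.al n j ∈ sm (4 ^ P.s n₀) ↔ P.a n + j < P.s n₀ := by
  unfold sm
  rw [Set.mem_ofPred_eq, al_natAbs]
  exact Nat.pow_lt_pow_iff_right (by norm_num)

theorem sg_sm {n n₀ : ℕ} : P.sg n ∈ sm (4 ^ P.s n₀) ↔ P.s n < P.s n₀ := by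
  unfold sm
  rw [Set.mem_ofPred_eq, sg_natAbs]
  exact Nat.pow_lt_pow_iff_right (by norm_num)

theorem s_mono {m n : ℕ} (h : m < n) : P.s m < P.s n := by
  have := P.a_mono h
  have := P.sa m
  omega

theorem sg_inj {m n : ℕ} (h : P.sg m = P.sg n) : m = n := by
  have h1 : P.s m = P.s n := by
    have := congrArg Int.natAbs h
    rw [sg_natAbs, sg_natAbs] at this
    exact Nat.pow_right_injective (by norm_num : 2 ≤ 4) this
  rcases lt_trichotomy m n with h2 | h2 | h2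
  · have := s_mono P h2; omega
  · exact h2
  · have := s_mono P h2; omega

theorem n_lt {n j n₀ : ℕ} (h : P.a n + j < P.s n₀) : n < n₀ := by
  by_contra hcon
  have hcon : n₀ ≤ n := not_lt.1 hcon
  have h1 : P.s n₀ ≤ P.s n := by
    rcases eq_or_lt_of_le hcon with rfl | h2
    · exact le_rfl
    · exact (s_mono P h2).le
  have := P.sa n
  omega

theorem Th_y (p : ℤ) : P.Th (y p) = P.thL p := by
  show FreeGroup.lift P.thL (y p) = _
  simp [y]

theorem Th_symm_y (p : ℤ) : P.Th.symm (y p) = P.thR p := by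
  show FreeGroup.lift P.thR (y p) = _
  simp [y]

theorem Th_sm {n₀ : ℕ} {p : ℤ} (hp : p ∈ sm (4 ^ P.s n₀)) : P.Th (y p) ∈ FQ (sm (4 ^ P.s n₀)) := by
  rw [Th_y]
  unfold Par.thL
  rcases h : P.dec p with _ | x
  · exact y_mem hp
  · obtain ⟨h1, h2⟩ := P.dec_some h
    rw [h2, al_sm] at hp
    have h3 := n_lt P hp
    have h4 := P.a_mono h3
    have h5 := P.sa x.1
    have h6 := s_mono P h3
    dsimp only
    split_ifs with h7
    · exact y_mem ((al_sm P).2 (by omega))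
    · exact mul_mem (y_mem ((al_sm P).2 (by omega))) (y_mem ((sg_sm P).2 h6))

theorem Th_symm_sm {n₀ : ℕ} {p : ℤ} (hp : p ∈ sm (4 ^ P.s n₀)) :
    P.Th.symm (y p) ∈ FQ (sm (4 ^ P.s n₀)) := by
  rw [Th_symm_y]
  unfold Par.thR
  rcases h : P.dec p with _ | x
  · exact y_mem hp
  · obtain ⟨h1, h2⟩ := P.dec_some h
    rw [h2, al_sm] at hp
    have h3 := n_lt P hp
    have h4 := P.a_mono h3
    have h5 := P.sa x.1
    have h6 := s_mono P h3
    dsimp only
    split_ifs with h7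
    · exact mul_mem (y_mem ((al_sm P).2 (by omega))) (inv_mem (y_mem ((sg_sm P).2 h6)))
    · exact y_mem ((al_sm P).2 (by omega))

/-- the letters `al n j` -/
def AL : Set ℤ := {p | ∃ n j : ℕ, j < P.q n ∧ p = P.al n j}

/-- the letters `al n j`, `n < n₀`, `r ≤ j < q n` -/
def PR (n₀ r : ℕ) : Set ℤ := {p | ∃ n j : ℕ, n < n₀ ∧ r ≤ j ∧ j < P.q n ∧ p = P.al n j}

theorem CN_le : P.CN ≤ FQ (AL P) := by
  unfold Par.CN
  rw [Subgroup.closure_le]
  rintro _ ⟨n, i, j, hi, hj, rfl⟩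
  exact mul_mem (inv_mem (y_mem ⟨n, i, hi, rfl⟩)) (y_mem ⟨n, j, hj, rfl⟩)

open Classical in
/-- the endomorphism `ψ` -/
noncomputable def psi : N →* N := FreeGroup.lift fun p =>
  if h : ∃ n, p = P.sg n then (y (P.al h.choose 0))⁻¹ * y p else y p

theorem psi_al {n j : ℕ} (hj : j < P.q n) : psi P (y (P.al n j)) = y (P.al n j) := by
  classical
  have : ¬ ∃ m, P.al n j = P.sg m := fun ⟨m, h⟩ => P.al_ne_sg hj h
  unfold psi y
  rw [FreeGroup.lift_apply_of, dif_neg this]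

theorem psi_sg (n : ℕ) : psi P (y (P.sg n)) = (y (P.al n 0))⁻¹ * y (P.sg n) := by
  classical
  have h : ∃ m, P.sg n = P.sg m := ⟨n, rfl⟩
  have h2 : h.choose = n := (sg_inj P h.choose_spec).symm
  unfold psi y
  rw [FreeGroup.lift_apply_of, dif_pos h, h2]

theorem psi_id {x : N} (hx : x ∈ FQ (AL P)) : psi P x = x := by
  have : FQ (AL P) ≤ (psi P).eqLocus (MonoidHom.id N) := by
    rw [FQ, Subgroup.closure_le]
    rintro _ ⟨p, ⟨n, j, hj, rfl⟩, rfl⟩
    exact psi_al P hj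
  exact this hx

theorem step {n₀ r : ℕ} {h h' u : N} (hh : h' ∈ P.CN) (hu : u * h' = P.Th h * u)
    (hc : Cj h (PR P n₀ r)) : Cj h' (PR P n₀ (r + 1)) := by
  have h1 : Cj (psi P (P.Th h)) (PR P n₀ (r + 1) ∪ {p | ∃ n, p = P.sg n}) := by
    refine hc.map ((psi P).comp (P.Th : N →* N)) fun p hp => ?_
    obtain ⟨n, j, hn, hr, hj, rfl⟩ := hp
    have e : ((psi P).comp (P.Th : N →* N)) (y (P.al n j)) = psi P (P.thL (P.al n j)) := by
      show psi P (P.Th (y (P.al n j))) = _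
      rw [Th_y]
    rw [e]
    unfold Par.thL
    rw [P.dec_al hj]
    dsimp only
    split_ifs with h7
    · rw [psi_al P h7]
      exact y_mem (Or.inl ⟨n, j + 1, hn, by omega, h7, rfl⟩)
    · have hq := P.q2 n
      rw [map_mul, psi_al P (by omega), psi_sg, mul_inv_cancel_left]
      exact y_mem (Or.inr ⟨n, rfl⟩)
  have h2 : h' ∈ FQ (AL P) := CN_le P hh
  have h3 : Cj h' (PR P n₀ (r + 1) ∪ {p | ∃ n, p = P.sg n}) := by
    have e : h' = (psi P u)⁻¹ * psi P (P.Th h) * ((psi P u)⁻¹)⁻¹ := by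
      have e1 : h' = u⁻¹ * P.Th h * u := by
        rw [mul_assoc, ← hu, inv_mul_cancel_left]
      have e2 := congrArg (psi P) e1
      rw [psi_id P h2, map_mul, map_mul, map_inv] at e2
      rw [inv_inv]
      exact e2
    rw [e]
    exact h1.conj _
  have h4 : Cj h' (AL P) := ⟨1, h', h2, by group⟩
  refine (h3.inter h4).mono ?_
  rintro p ⟨hp | ⟨n, rfl⟩, n', j', hj', hp'⟩
  · exact hp
  · exact absurd hp'.symm (P.al_ne_sg hj')

end SHR

open SHR in
theorem t_SHR (_h1 : S_SUB) : S_SHR := by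
  intro P n₀
  refine ⟨∑ n ∈ Finset.range n₀, P.q n, fun h u hmem hrel hsm => ?_⟩
  set W := ∑ n ∈ Finset.range n₀, P.q n with hW
  -- the first element is conjugate into the small letters
  have key : Cj (h 0) (sm (4 ^ P.s n₀)) := by
    rcases hsm with ⟨v, hv⟩ | ⟨v, hv⟩
    · exact ⟨v, _, mem_of_mN hv, by group⟩
    · have hback : ∀ i ≤ W, Cj (h (W - i)) (sm (4 ^ P.s n₀)) := by
        intro i
        induction i with
        | zero => intro _; exact ⟨v, _, mem_of_mN hv, by simp; group⟩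
        | succ i ih =>
          intro hi
          have h2 := ih (by omega)
          have e : W - i = (W - (i + 1)) + 1 := by omega
          rw [e] at h2
          have h3 := hrel (W - (i + 1)) (by omega)
          set a := W - (i + 1)
          have e2 : h a = P.Th.symm (u a * h (a + 1) * (u a)⁻¹) := by
            rw [h3, mul_inv_cancel_right, MulEquiv.symm_apply_apply]
          rw [e2]
          exact (h2.conj (u a)).map (P.Th.symm : N →* N) fun p hp => Th_symm_sm P hp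
      have := hback W le_rfl
      rwa [Nat.sub_self] at this
  have h0 : Cj (h 0) (PR P n₀ 0) := by
    have h4 : Cj (h 0) (AL P) := ⟨1, h 0, CN_le P (hmem 0 (Nat.zero_le _)), by group⟩
    refine (key.inter h4).mono ?_
    rintro p ⟨hp, n, j, hj, rfl⟩
    rw [al_sm] at hp
    exact ⟨n, j, n_lt P hp, Nat.zero_le _, hj, rfl⟩
  have hall : ∀ r ≤ W, Cj (h r) (PR P n₀ r) := by
    intro r
    induction r with
    | zero => intro _; exact h0
    | succ r ih =>
      intro hr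
      exact step P (hmem _ hr) (hrel r (by omega)) (ih (by omega))
  have hlast : h W = 1 := by
    obtain ⟨v, x, hx, hv⟩ := hall W le_rfl
    have hemp : PR P n₀ W = ∅ := by
      rw [Set.eq_empty_iff_forall_notMem]
      rintro p ⟨n, j, hn, hr, hj, -⟩
      have : P.q n ≤ W := Finset.single_le_sum (f := fun n => P.q n) (fun _ _ => Nat.zero_le _)
        (Finset.mem_range.2 hn)
      omega
    rw [hemp, FQ, Set.image_empty, Subgroup.closure_empty, Subgroup.mem_bot] at hx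
    rw [hv, hx]; group
  have hback : ∀ i ≤ W, h (W - i) = 1 := by
    intro i
    induction i with
    | zero => intro _; exact hlast
    | succ i ih =>
      intro hi
      have h2 := ih (by omega)
      have e : W - i = (W - (i + 1)) + 1 := by omega
      rw [e] at h2
      have h3 := hrel (W - (i + 1)) (by omega)
      rw [h2, mul_one] at h3
      have h4 : P.Th (h (W - (i + 1))) = 1 := by
        have := h3.symm
        rwa [mul_eq_right] at this
      exact (MulEquiv.map_eq_one_iff P.Th).1 h4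
  have := hback W le_rfl
  rwa [Nat.sub_self] at this

end Pool.Agent.NH54.MG
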