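import Pool.Agent.NH54.MG.Stm

/-!
# Project MG: stabilisers of long paths
-/

set_option autoImplicit false

open Set Filter Topology HNNExtension HNNExtension.NormalWord

namespace Pool.Agent.NH54.MG

namespace STAB

variable {P : Par}

theorem jN_u (z : N) : (jN z).δ.u = z := rfl

theorem mem_CK {k : K} (h : k ∈ P.CK) : k = jN k.δ.u ∧ k.δ.u ∈ P.CN := by
  obtain ⟨z, hz, rfl⟩ := h
  exact ⟨rfl, hz⟩

theorem mem_CK' {k : K} (h : k ∈ P.CK') : k = jN k.δ.u ∧ k.δ.u ∈ P.CN' := by
  obtain ⟨z, hz, rfl⟩ := h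
  exact ⟨rfl, hz⟩

theorem symm_mem {z : N} (h : z ∈ P.CN') : P.Th.symm z ∈ P.CN := by
  obtain ⟨w, hw, rfl⟩ := h
  have : P.Th.symm ((P.Th : N →* N) w) = w := P.Th.symm_apply_apply w
  rw [this]
  exact hw

theorem th_mem {z : N} (h : z ∈ P.CN) : P.Th z ∈ P.CN' := ⟨z, h, rfl⟩

theorem cases_unit (u : ℤˣ) : u = 1 ∨ u = -1 := Int.units_eq_one_or u

end STAB

open STAB in
/-- MG-STAB: stabilisers of long paths -/
theorem t_STAB (h1 : S_SUB) (h2 : S_MAL) (h3 : S_SHR) (h4 : S_TOP) : S_STAB := by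
  have _ := h1
  intro P n₀
  obtain ⟨W, hW⟩ := h3 P n₀
  refine ⟨W, fun ε a c hp hc => ?_⟩
  by_contra hne
  -- the offsets as elements of `N`
  have hz : ∀ i ≤ W, c i = jN (c i).δ.u ∧ (ε i = -1 → (c i).δ.u ∈ P.CN) ∧
      (ε i = 1 → (c i).δ.u ∈ P.CN') := by
    intro i hi
    have hm := hp.mem i hi
    rcases cases_unit (ε i) with h | h
    · rw [h, toSubgroup_neg_one] at hm
      obtain ⟨e1, e2⟩ := mem_CK' hm
      exact ⟨e1, fun h' => by rw [h] at h'; exact absurd h' (by decide), fun _ => e2⟩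
    · rw [h, neg_neg, toSubgroup_one] at hm
      obtain ⟨e1, e2⟩ := mem_CK hm
      exact ⟨e1, fun _ => e2, fun h' => by rw [h] at h'; exact absurd h' (by decide)⟩
  -- they are not trivial
  have hcp : ∀ i ≤ W, c i ≠ 1 → cp P (ε i) (c i) ≠ 1 := by
    intro i hi hci h
    unfold cp at h
    split_ifs at h with h'
    · have h5 : P.Th (c i).δ.u = 1 := jN_inj (h.trans (map_one jN).symm)
      have h6 : (c i).δ.u = 1 := (map_eq_one_iff P.Th P.Th.injective).1 h5
      exact hci (by rw [(hz i hi).1, h6, map_one])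
    · have h5 : P.Th.symm (c i).δ.u = 1 := jN_inj (h.trans (map_one jN).symm)
      have h6 : (c i).δ.u = 1 := (map_eq_one_iff P.Th.symm P.Th.symm.injective).1 h5
      exact hci (by rw [(hz i hi).1, h6, map_one])
  have hnz : ∀ i ≤ W, c i ≠ 1 := by
    intro i
    induction i with
    | zero => exact fun _ => hne
    | succ i ih =>
      intro hi h
      have h5 := hp.turn i (by omega)
      rw [h, mul_one] at h5
      have h6 : cp P (ε i) (c i) = 1 := by
        have h7 : cp P (ε i) (c i) * a i = 1 * a i := by rw [← h5, one_mul]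
        exact mul_right_cancel h7
      exact hcp i (by omega) (ih (by omega)) h6
  -- the turns
  have hturn : ∀ i < W, ε i = ε (i + 1) ∧ ∃ u : N, a i = jN u := by
    intro i hi
    have ht := hp.turn i hi
    have hn := hcp i (by omega) (hnz i (by omega))
    obtain ⟨e1, e2, e3⟩ := hz (i + 1) (by omega)
    obtain ⟨f1, f2, f3⟩ := hz i (by omega)
    rw [e1] at ht
    rcases cases_unit (ε i) with h | h
    · have hc1 : cp P (ε i) (c i) = jN (P.Th.symm (c i).δ.u) := by
        unfold cp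
        rw [if_neg (by rw [h]; decide)]
      rw [hc1] at ht hn
      have hx : P.Th.symm (c i).δ.u ∈ P.CN := symm_mem (f3 h)
      have hx1 : P.Th.symm (c i).δ.u ≠ 1 := fun h' => hn (by rw [h', map_one])
      rcases cases_unit (ε (i + 1)) with h' | h'
      · obtain ⟨u, hu, -, -⟩ := h2 P _ _ _ hx1 ht (Or.inl hx) (Or.inr (e3 h'))
        exact ⟨by rw [h, h'], u, hu⟩
      · obtain ⟨u, hu, hu2, -⟩ := h2 P _ _ _ hx1 ht (Or.inl hx) (Or.inl (e2 h'))
        refine ⟨hp.red i hi ?_, u, hu⟩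
        rw [h, toSubgroup_one, hu]
        exact ⟨u, hu2 hx (e2 h'), rfl⟩
    · have hc1 : cp P (ε i) (c i) = jN (P.Th (c i).δ.u) := by
        unfold cp
        rw [if_pos h]
      rw [hc1] at ht hn
      have hx : P.Th (c i).δ.u ∈ P.CN' := th_mem (f2 h)
      have hx1 : P.Th (c i).δ.u ≠ 1 := fun h' => hn (by rw [h', map_one])
      rcases cases_unit (ε (i + 1)) with h' | h'
      · obtain ⟨u, hu, -, hu2⟩ := h2 P _ _ _ hx1 ht (Or.inr hx) (Or.inr (e3 h'))
        refine ⟨hp.red i hi ?_, u, hu⟩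
        rw [h, toSubgroup_neg_one, hu]
        exact ⟨u, hu2 hx (e3 h'), rfl⟩
      · obtain ⟨u, hu, -, -⟩ := h2 P _ _ _ hx1 ht (Or.inr hx) (Or.inl (e2 h'))
        exact ⟨by rw [h, h'], u, hu⟩
  have hconst : ∀ i ≤ W, ε i = ε 0 := by
    intro i
    induction i with
    | zero => exact fun _ => rfl
    | succ i ih => exact fun hi => ((hturn i (by omega)).1.symm).trans (ih (by omega))
  have hex : ∀ i : ℕ, ∃ u : N, i < W → a i = jN u := by
    intro i
    by_cases hi : i < W
    · obtain ⟨u, hu⟩ := (hturn i hi).2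
      exact ⟨u, fun _ => hu⟩
    · exact ⟨1, fun h => absurd h hi⟩
  choose u hu using hex
  rcases cases_unit (ε 0) with h | h
  · -- all exponents are `1`
    have hall : ∀ i ≤ W, ε i = 1 := fun i hi => (hconst i hi).trans h
    have hmem : ∀ i ≤ W, P.Th.symm (c i).δ.u ∈ P.CN := fun i hi =>
      symm_mem ((hz i hi).2.2 (hall i hi))
    have key : ∀ i < W, u i * (c (i + 1)).δ.u = P.Th.symm (c i).δ.u * u i := by
      intro i hi
      have ht := hp.turn i hi
      have hc1 : cp P (ε i) (c i) = jN (P.Th.symm (c i).δ.u) := by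
        unfold cp
        rw [if_neg (by rw [hall i (by omega)]; decide)]
      rw [hc1, (hz (i + 1) (by omega)).1, hu i hi, ← map_mul, ← map_mul] at ht
      exact jN_inj ht
    have hfin := hW (fun j => P.Th.symm (c (W - j)).δ.u) (fun j => (u (W - j - 1))⁻¹)
      (fun j _ => hmem _ (by omega)) (fun j hj => by
        have h5 := key (W - j - 1) (by omega)
        rw [show W - j - 1 + 1 = W - j by omega] at h5
        show (u (W - j - 1))⁻¹ * P.Th.symm (c (W - (j + 1))).δ.u =
          P.Th (P.Th.symm (c (W - j)).δ.u) * (u (W - j - 1))⁻¹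
        rw [P.Th.apply_symm_apply, show W - (j + 1) = W - j - 1 by omega, inv_mul_eq_iff_eq_mul,
          ← mul_assoc, h5, mul_inv_cancel_right])
      (Or.inr ⟨1, by
        show mN (1⁻¹ * P.Th.symm (c (W - W)).δ.u * 1) < 4 ^ P.s n₀
        rw [Nat.sub_self, inv_one, one_mul, mul_one]
        rcases (h4 P _ (hmem 0 (by omega))).2 n₀ with h5 | h5
        · have h6 := h5.2
          rw [P.Th.apply_symm_apply] at h6
          have h7 : 4 ^ P.s n₀ ≤ 4 ^ P.a n₀ := Nat.pow_le_pow_right (by norm_num) (P.sa n₀).le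
          omega
        · exact h5.1⟩)
    have h5 : P.Th.symm (c W).δ.u = 1 := hfin
    have h6 : (c W).δ.u = 1 := (map_eq_one_iff P.Th.symm P.Th.symm.injective).1 h5
    exact hnz W le_rfl (by rw [(hz W le_rfl).1, h6, map_one])
  · -- all exponents are `-1`
    have hall : ∀ i ≤ W, ε i = -1 := fun i hi => (hconst i hi).trans h
    have hmem : ∀ i ≤ W, (c i).δ.u ∈ P.CN := fun i hi => (hz i hi).2.1 (hall i hi)
    have key : ∀ i < W, u i * (c (i + 1)).δ.u = P.Th (c i).δ.u * u i := by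
      intro i hi
      have ht := hp.turn i hi
      have hc1 : cp P (ε i) (c i) = jN (P.Th (c i).δ.u) := by
        unfold cp
        rw [if_pos (hall i (by omega))]
      rw [hc1, (hz (i + 1) (by omega)).1, hu i hi, ← map_mul, ← map_mul] at ht
      exact jN_inj ht
    have h6 : (c 0).δ.u = 1 := hW (fun j => (c j).δ.u) u hmem key (Or.inl ⟨1, by
      show mN (1⁻¹ * (c 0).δ.u * 1) < 4 ^ P.s n₀
      rw [inv_one, one_mul, mul_one]
      exact hc⟩)
    exact hne (by rw [(hz 0 (by omega)).1, h6, map_one])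

end Pool.Agent.NH54.MG
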