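import Pool.Agent.NH54.MG.Stm

set_option autoImplicit false

open Filter Topology

namespace Pool.Agent.NH54.MG

theorem t_TEND (h : S_WL) : S_TEND := by
  intro G _ S hS g
  obtain ⟨-, -, -, -, hmul, -⟩ := h G S hS
  have hsub : Subadditive (fun n : ℕ => (wl S (g ^ n) : ℝ)) := by
    intro m n
    show (wl S (g ^ (m + n)) : ℝ) ≤ wl S (g ^ m) + wl S (g ^ n)
    rw [pow_add]
    exact_mod_cast hmul (g ^ m) (g ^ n)
  refine ⟨hsub.lim, hsub.tendsto_lim ⟨0, ?_⟩⟩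
  rintro x ⟨n, rfl⟩
  positivity

end Pool.Agent.NH54.MG
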