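import Pool.Agent.NH54.MG.Stm

/-!
# Project MG: the number of `t`-letters
-/

set_option autoImplicit false

open HNNExtension HNNExtension.NormalWord

namespace Pool.Agent.NH54.MG

namespace TL

variable {K₀ : Type} [Group K₀] {A B : Subgroup K₀} (φ : A ≃* B)

theorem tl_prod (w : ReducedWord K₀ A B) : tl φ (w.prod φ) = w.toList.length := by
  have h : {n | ∃ w' : ReducedWord K₀ A B, w'.prod φ = w.prod φ ∧ w'.toList.length = n} =
      {w.toList.length} := by
    ext n
    constructor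
    · rintro ⟨w', h1, rfl⟩
      have h2 := (ReducedWord.map_fst_eq_and_of_prod_eq φ h1).1
      have h3 := congrArg List.length h2
      rw [List.length_map, List.length_map] at h3
      exact h3
    · rintro rfl
      exact ⟨w, rfl, rfl⟩
  rw [tl, h, csInf_singleton]

theorem ex_word (d : TransversalPair K₀ A B) (g : HNNExtension K₀ A B φ) :
    (g • (empty : NormalWord d)).prod φ = g := by
  rw [prod_smul, prod_empty, mul_one]

theorem tl_eq (d : TransversalPair K₀ A B) (g : HNNExtension K₀ A B φ) :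
    tl φ g = (g • (empty : NormalWord d)).toList.length := by
  conv_lhs => rw [← ex_word φ d g]
  exact tl_prod φ _

theorem tl_one : tl φ (1 : HNNExtension K₀ A B φ) = 0 := by
  have h := tl_prod φ (ReducedWord.empty K₀ A B)
  have e : (ReducedWord.empty K₀ A B).prod φ = 1 := by simp [ReducedWord.prod]
  rw [e] at h
  exact h

theorem tl_of_mul (g : HNNExtension K₀ A B φ) (k : K₀) : tl φ (of k * g) = tl φ g := by
  obtain ⟨d⟩ := TransversalPair.nonempty K₀ A B
  rw [tl_eq φ d, tl_eq φ d, mul_smul, of_smul_eq_smul, group_smul_toList]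

theorem tl_of (k : K₀) : tl φ (of k : HNNExtension K₀ A B φ) = 0 := by
  rw [← mul_one (of k : HNNExtension K₀ A B φ), tl_of_mul, tl_one]

theorem len_smul {d : TransversalPair K₀ A B} (u : ℤˣ) (w : NormalWord d) :
    (unitsSMul φ u w).toList.length ≤ w.toList.length + 1 := by
  by_cases h : Cancels u w
  · rw [unitsSMul, dif_pos h]
    cases w using consRecOn with
    | ofGroup g => simp [Cancels] at h
    | cons g u' w h1 h2 ih =>
      simp only [unitsSMulWithCancel, consRecOn_cons, group_smul_toList, cons_toList,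
        List.length_cons]
      omega
  · rw [unitsSMul, dif_neg h]
    simp only [cons_toList, List.length_cons, group_smul_toList, le_refl]

theorem tl_t_mul (u : ℤˣ) (g : HNNExtension K₀ A B φ) : tl φ (t ^ (u : ℤ) * g) ≤ tl φ g + 1 := by
  obtain ⟨d⟩ := TransversalPair.nonempty K₀ A B
  rw [tl_eq φ d, tl_eq φ d, mul_smul, t_pow_smul_eq_unitsSMul]
  exact len_smul φ u _

/-- the product of a list -/
def lp (l : List (ℤˣ × K₀)) : HNNExtension K₀ A B φ :=
  (l.map (fun x => t ^ (x.1 : ℤ) * of x.2)).prod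

theorem lp_mul (l : List (ℤˣ × K₀)) (h : HNNExtension K₀ A B φ) :
    tl φ (lp φ l * h) ≤ l.length + tl φ h := by
  induction l with
  | nil => simp [lp]
  | cons a l ih =>
    have e : lp φ (a :: l) * h = t ^ (a.1 : ℤ) * (of a.2 * (lp φ l * h)) := by
      simp only [lp, List.map_cons, List.prod_cons, mul_assoc]
    rw [e]
    have h1 := tl_t_mul φ a.1 (of a.2 * (lp φ l * h))
    rw [tl_of_mul] at h1
    rw [List.length_cons]
    omega

theorem prod_eq (w : ReducedWord K₀ A B) : w.prod φ = of w.head * lp φ w.toList := rfl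

theorem exw (g : HNNExtension K₀ A B φ) : ∃ w : ReducedWord K₀ A B, w.prod φ = g := by
  obtain ⟨d⟩ := TransversalPair.nonempty K₀ A B
  exact ⟨_, ex_word φ d g⟩

theorem tl_mul (g h : HNNExtension K₀ A B φ) : tl φ (g * h) ≤ tl φ g + tl φ h := by
  obtain ⟨w, rfl⟩ := exw φ g
  rw [tl_prod, prod_eq, mul_assoc, tl_of_mul]
  exact lp_mul φ _ _

theorem lp_inv (l : List (ℤˣ × K₀)) : tl φ (lp φ l : HNNExtension K₀ A B φ)⁻¹ ≤ l.length := by
  induction l with
  | nil => simp [lp, tl_one]
  | cons a l ih =>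
    have e : (lp φ (a :: l) : HNNExtension K₀ A B φ)⁻¹ =
        (lp φ l)⁻¹ * (of a.2⁻¹ * t ^ ((-a.1 : ℤˣ) : ℤ)) := by
      simp only [lp, List.map_cons, List.prod_cons, mul_inv_rev, map_inv, Units.val_neg, zpow_neg]
    rw [e]
    have h1 := tl_mul φ (lp φ l)⁻¹ (of a.2⁻¹ * t ^ ((-a.1 : ℤˣ) : ℤ))
    have h2 := tl_t_mul φ (-a.1) 1
    rw [mul_one, tl_one] at h2
    rw [tl_of_mul] at h1
    rw [List.length_cons]
    omega

theorem tl_inv_le (g : HNNExtension K₀ A B φ) : tl φ g⁻¹ ≤ tl φ g := by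
  obtain ⟨w, rfl⟩ := exw φ g
  rw [tl_prod, prod_eq, mul_inv_rev, ← map_inv]
  have h1 := tl_mul φ (lp φ w.toList)⁻¹ (of w.head⁻¹)
  have h2 := lp_inv φ w.toList
  rw [tl_of] at h1
  omega

theorem tl_inv (g : HNNExtension K₀ A B φ) : tl φ g⁻¹ = tl φ g := by
  apply le_antisymm (tl_inv_le φ g)
  have h := tl_inv_le φ g⁻¹
  rwa [inv_inv] at h

theorem tl_mul_of (g : HNNExtension K₀ A B φ) (k : K₀) : tl φ (g * of k) = tl φ g := by
  rw [← tl_inv, mul_inv_rev, ← map_inv, tl_of_mul, tl_inv]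

theorem tl_t : tl φ (t : HNNExtension K₀ A B φ) = 1 := by
  let w : ReducedWord K₀ A B := ⟨1, [(1, 1)], List.isChain_singleton _⟩
  have h := tl_prod φ w
  have e : w.prod φ = t := by simp [w, ReducedWord.prod]
  rw [e] at h
  exact h

theorem tl_zero (g : HNNExtension K₀ A B φ) (h : tl φ g = 0) : ∃ k, g = of k := by
  obtain ⟨w, rfl⟩ := exw φ g
  rw [tl_prod] at h
  refine ⟨w.head, ?_⟩
  rw [prod_eq, List.eq_nil_of_length_eq_zero h]
  simp [lp]

end TL

open TL in
theorem t_TL : S_TL := by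
  intro K₀ _ A B φ
  exact ⟨tl_prod φ, exw φ, tl_one φ, tl_inv φ, tl_mul φ, tl_of_mul φ, tl_mul_of φ, tl_t φ,
    tl_zero φ⟩

end Pool.Agent.NH54.MG
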