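import Pool.Agent.NH54.MG.Stm

/-!
# Project MG, part TOP: the type of an element of `C`
-/

set_option autoImplicit false

open Set Filter Topology

namespace Pool.Agent.NH54.MG

namespace TOP

/-- the maximum of the absolute values of the letters of a word -/
def mL (L : List (ℤ × Bool)) : ℕ := (L.map (fun x => x.1.natAbs)).foldr max 0

theorem mN_eq (u : N) : mN u = mL u.toWord := rfl

theorem mL_cons (x : ℤ × Bool) (L : List (ℤ × Bool)) : mL (x :: L) = max x.1.natAbs (mL L) := rfl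

theorem le_mL {L : List (ℤ × Bool)} {x : ℤ × Bool} (h : x ∈ L) : x.1.natAbs ≤ mL L := by
  induction L with
  | nil => simp at h
  | cons z L ih =>
    rw [mL_cons]
    rcases List.mem_cons.1 h with h | h
    · subst h
      exact le_max_left _ _
    · exact (ih h).trans (le_max_right _ _)

theorem mL_lt {L : List (ℤ × Bool)} {m : ℕ} (hm : 0 < m) (h : ∀ x ∈ L, x.1.natAbs < m) :
    mL L < m := by
  induction L with
  | nil => exact hm
  | cons z L ih =>
    rw [mL_cons]
    exact max_lt (h z (by simp)) (ih fun x hx => h x (by simp [hx]))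

theorem exists_eq {L : List (ℤ × Bool)} (hL : L ≠ []) : ∃ x ∈ L, mL L = x.1.natAbs := by
  induction L with
  | nil => exact absurd rfl hL
  | cons z L ih =>
    by_cases h : L = []
    · subst h
      exact ⟨z, by simp, by simp [mL]⟩
    · obtain ⟨x, hx, hx2⟩ := ih h
      rw [mL_cons]
      rcases le_total (mL L) z.1.natAbs with h1 | h1
      · exact ⟨z, by simp, max_eq_left h1⟩
      · exact ⟨x, by simp [hx], by rw [max_eq_right h1, hx2]⟩

variable (P : Par)

theorem natAbs_al (n j : ℕ) : (P.al n j).natAbs = 4 ^ (P.a n + j) := by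
  rw [Par.al, Int.natAbs_pow]
  rfl

theorem natAbs_sg (n : ℕ) : (P.sg n).natAbs = 4 ^ P.s n := by
  rw [Par.sg, Int.natAbs_pow]
  rfl

theorem a_le {m n : ℕ} (h : m ≤ n) : P.a m ≤ P.a n := by
  rcases eq_or_lt_of_le h with rfl | h
  · exact le_rfl
  · have h1 := P.a_mono h
    have h2 := P.sa n
    omega

theorem letters {L : List (ℤ × Bool)} (h : CW P L) :
    ∀ x ∈ L, ∃ n j : ℕ, j < P.q n ∧ x.1 = P.al n j := by
  induction h with
  | nil => intro x hx; simp at hx
  | cons n i j L hi hj hL ih =>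
    intro x hx
    rcases List.mem_cons.1 hx with hx | hx
    · subst hx
      exact ⟨n, i, hi, rfl⟩
    · rcases List.mem_cons.1 hx with hx | hx
      · subst hx
        exact ⟨n, j, hj, rfl⟩
      · exact ih x hx

theorem ex_big {x : ℤ × Bool} {n j : ℕ} (hj : j < P.q n) (hx : x.1 = P.al n j) :
    ∃ z ∈ ex P x, ∃ j' : ℕ, z.1 = P.al n j' := by
  obtain ⟨x1, b⟩ := x
  simp only at hx
  subst hx
  rw [ex, P.dec_al hj]
  simp only
  split_ifs with h1 h2
  · exact ⟨_, List.mem_singleton.2 rfl, j + 1, rfl⟩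
  · exact ⟨(P.al n 0, true), by simp, 0, rfl⟩
  · exact ⟨(P.al n 0, false), by simp, 0, rfl⟩

theorem ex_small {x : ℤ × Bool} {n j : ℕ} (hj : j < P.q n) (hx : x.1 = P.al n j) :
    ∀ z ∈ ex P x, (∃ j' : ℕ, j' < P.q n ∧ z.1 = P.al n j') ∨ z.1 = P.sg n := by
  obtain ⟨x1, b⟩ := x
  simp only at hx
  subst hx
  rw [ex, P.dec_al hj]
  simp only
  have hq := P.q2 n
  intro z hz
  split_ifs at hz with h1 h2
  · rw [List.mem_singleton.1 hz]
    exact Or.inl ⟨j + 1, h1, rfl⟩
  · simp only [List.mem_cons, List.not_mem_nil, or_false] at hz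
    rcases hz with hz | hz
    · subst hz
      exact Or.inl ⟨0, by omega, rfl⟩
    · subst hz
      exact Or.inr rfl
  · simp only [List.mem_cons, List.not_mem_nil, or_false] at hz
    rcases hz with hz | hz
    · subst hz
      exact Or.inr rfl
    · subst hz
      exact Or.inl ⟨0, by omega, rfl⟩

theorem al_lt {n m j : ℕ} (hm : m < n) (hj : j < P.q m) : (P.al m j).natAbs < 4 ^ P.s n := by
  rw [natAbs_al]
  apply Nat.pow_lt_pow_right (by norm_num)
  have := P.a_mono hm
  omega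

theorem sg_lt {n m : ℕ} (hm : m < n) : (P.sg m).natAbs < 4 ^ P.s n := by
  rw [natAbs_sg]
  apply Nat.pow_lt_pow_right (by norm_num)
  have := P.a_mono hm
  have := P.sa m
  omega

theorem le_al {n m j : ℕ} (hm : n ≤ m) : 4 ^ P.a n ≤ (P.al m j).natAbs := by
  rw [natAbs_al]
  apply Nat.pow_le_pow_right (by norm_num)
  have := a_le P hm
  omega

theorem second {L : List (ℤ × Bool)} (h : CW P L) (n : ℕ) :
    (4 ^ P.a n ≤ mL L ∧ 4 ^ P.a n ≤ mL (L.flatMap (ex P))) ∨
      (mL L < 4 ^ P.s n ∧ mL (L.flatMap (ex P)) < 4 ^ P.s n) := by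
  have hl := letters P h
  have hpos : 0 < 4 ^ P.s n := by positivity
  by_cases hb : ∃ x ∈ L, ∃ m j : ℕ, n ≤ m ∧ j < P.q m ∧ x.1 = P.al m j
  · left
    obtain ⟨x, hx, m, j, hm, hj, hxj⟩ := hb
    refine ⟨?_, ?_⟩
    · refine le_trans ?_ (le_mL hx)
      rw [hxj]
      exact le_al P hm
    · obtain ⟨z, hz, j', hz2⟩ := ex_big P hj hxj
      refine le_trans ?_ (le_mL (List.mem_flatMap.2 ⟨x, hx, hz⟩))
      rw [hz2]
      exact le_al P hm
  · right
    push Not at hb
    have key : ∀ x ∈ L, ∃ m j : ℕ, m < n ∧ j < P.q m ∧ x.1 = P.al m j := by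
      intro x hx
      obtain ⟨m, j, hj, hxj⟩ := hl x hx
      refine ⟨m, j, ?_, hj, hxj⟩
      by_contra hmn
      exact hb x hx m j (not_lt.1 hmn) hj hxj
    refine ⟨mL_lt hpos fun x hx => ?_, mL_lt hpos fun z hz => ?_⟩
    · obtain ⟨m, j, hm, hj, hxj⟩ := key x hx
      rw [hxj]
      exact al_lt P hm hj
    · obtain ⟨x, hx, hz⟩ := List.mem_flatMap.1 hz
      obtain ⟨m, j, hm, hj, hxj⟩ := key x hx
      rcases ex_small P hj hxj z hz with ⟨j', hj', h2⟩ | h2
      · rw [h2]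
        exact al_lt P hm hj'
      · rw [h2]
        exact sg_lt P hm

end TOP

open TOP in
theorem t_TOP (h1 : S_CW) : S_TOP := by
  intro P c hc
  obtain ⟨hw, hT⟩ := h1 P c hc
  have hsec : ∀ n : ℕ, (4 ^ P.a n ≤ mN c ∧ 4 ^ P.a n ≤ mN (P.Th c)) ∨
      (mN c < 4 ^ P.s n ∧ mN (P.Th c) < 4 ^ P.s n) := by
    intro n
    rw [mN_eq, mN_eq, hT]
    exact second P hw n
  refine ⟨fun hne => ?_, hsec⟩
  have hnil : c.toWord ≠ [] := fun h => hne (FreeGroup.toWord_eq_nil_iff.1 h)
  obtain ⟨x, hx, hx2⟩ := exists_eq hnil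
  obtain ⟨n, j, hj, hxj⟩ := letters P hw x hx
  have e1 : 4 ^ P.a n ≤ mN c := by
    rw [mN_eq, hx2, hxj]
    exact le_al P le_rfl
  have e2 : mN c < 4 ^ P.s (n + 1) := by
    rw [mN_eq, hx2, hxj]
    exact al_lt P (Nat.lt_succ_self n) hj
  have e3 : 4 ^ P.s n < 4 ^ P.a n := Nat.pow_lt_pow_right (by norm_num) (P.sa n)
  have e4 : 4 ^ P.s (n + 1) < 4 ^ P.a (n + 1) := Nat.pow_lt_pow_right (by norm_num) (P.sa (n + 1))
  refine ⟨n, e1, e2, ?_, ?_⟩
  · rcases hsec n with h | h
    · exact h.2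
    · omega
  · rcases hsec (n + 1) with h | h
    · omega
    · exact h.2

end Pool.Agent.NH54.MG
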