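import Pool.Agent.NH54.MG.Stm2

/-!
# Project MG, part TRA: the Morse local-to-global property for the Cayley graph
-/

set_option autoImplicit false

open Set Filter Topology HNNExtension HNNExtension.NormalWord

namespace Pool.Agent.NH54.MG

/-- the Morse local-to-global property of the vertex set implies it for the Cayley graph -/
theorem t_TRA : S_TRA := by
  classical
  intro G _ S _ hG X d ι hX M hM l e hl he
  choose π hπ using hX.dense
  have hsymm := hX.pm.symm
  have htri := hX.pm.tri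
  -- distances after projection
  have hproj : ∀ x z : X, d x z - 2 ≤ wd S (π x) (π z) ∧ wd S (π x) (π z) ≤ d x z + 2 := by
    intro x z
    rw [← hX.iso]
    have h1 := hπ x
    have h2 := hπ z
    have h3 := htri x (ι (π x)) z
    have h4 := htri (ι (π x)) (ι (π z)) z
    have h5 := htri (ι (π x)) x (ι (π z))
    have h6 := htri x z (ι (π z))
    have h7 := hsymm (ι (π x)) x
    have h8 := hsymm (ι (π z)) z
    constructor <;> linarith
  have hqg : ∀ (l e a b : ℝ) (γ : ℝ → X), QG d l e a b γ → QG (wd S) l (e + 2) a b (fun t => π (γ t)) := by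
    intro l e a b γ h s hs t ht
    have h1 := h s hs t ht
    have h2 := hproj (γ s) (γ t)
    constructor <;> linarith [h1.1, h1.2, h2.1, h2.2]
  obtain ⟨L, M', l', e', hL, hM', hl', he', hglob⟩ :=
    hG (fun l₁ e₁ => M l₁ (e₁ + 2) + 3) (fun l₁ e₁ h1 h2 => by
      have := hM l₁ (e₁ + 2) h1 (by linarith)
      linarith) l (e + 2) hl (by linarith)
  refine ⟨L, fun l₂ e₂ => M' l₂ (e₂ + 2) + 2, l', e' + 2, hL, fun l₂ e₂ h1 h2 => by
      have := hM' l₂ (e₂ + 2) h1 (by linarith)
      linarith, hl', by linarith, ?_⟩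
  intro a b γ hab hloc
  have hloc' : ∀ s t : ℝ, a ≤ s → s ≤ t → t ≤ b → t - s ≤ L →
      QG (wd S) l (e + 2) s t (fun t => π (γ t)) ∧
      Mrs (wd S) (fun l₁ e₁ => M l₁ (e₁ + 2) + 3) s t (fun t => π (γ t)) := by
    intro s t h1 h2 h3 h4
    obtain ⟨hq, hm⟩ := hloc s t h1 h2 h3 h4
    refine ⟨hqg _ _ _ _ _ hq, ?_⟩
    intro l₁ e₁ hl₁ he₁ a' b' η hab' hη hs0 hs1 u hu
    obtain ⟨s0, hs0, hs0'⟩ := hs0
    obtain ⟨s1, hs1, hs1'⟩ := hs1
    have hMn : 0 ≤ M l₁ (e₁ + 2) := hM l₁ (e₁ + 2) hl₁ (by linarith)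
    rcases eq_or_lt_of_le hab' with heq | hlt
    · refine ⟨s0, hs0, ?_⟩
      have hua : u = a' := le_antisymm (by linarith [hu.2]) hu.1
      have h5 : wd S (η u) (π (γ s0)) = 0 := by
        have h6 : π (γ s0) = η a' := hs0'
        rw [hua, h6, ← hX.iso, hX.pm.self]
      show wd S (η u) (π (γ s0)) ≤ M l₁ (e₁ + 2) + 3
      linarith
    · set η' : ℝ → X := fun u => if u = a' then γ s0 else if u = b' then γ s1 else ι (η u) with hη'
      have hcl : ∀ u, d (η' u) (ι (η u)) ≤ 1 := by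
        intro u
        simp only [hη']
        split_ifs with h5 h6
        · have h7 : π (γ s0) = η u := by rw [h5]; exact hs0'
          rw [← h7]
          exact hπ _
        · have h7 : π (γ s1) = η u := by rw [h6]; exact hs1'
          rw [← h7]
          exact hπ _
        · rw [hX.pm.self]
          exact zero_le_one
      have hq' : QG d l₁ (e₁ + 2) a' b' η' := by
        intro x hx z hz
        have h5 := hη x hx z hz
        rw [← hX.iso] at h5
        have h6 := hcl x
        have h7 := hcl z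
        have h8 := htri (η' x) (ι (η x)) (η' z)
        have h9 := htri (ι (η x)) (ι (η z)) (η' z)
        have h10 := htri (ι (η x)) (η' x) (ι (η z))
        have h11 := htri (η' x) (η' z) (ι (η z))
        have h12 := hsymm (ι (η x)) (η' x)
        have h13 := hsymm (ι (η z)) (η' z)
        constructor <;> linarith [h5.1, h5.2]
      obtain ⟨x, hx, hx'⟩ := hm l₁ (e₁ + 2) hl₁ (by linarith) a' b' η' hab' hq'
        ⟨s0, hs0, by simp [hη']⟩ ⟨s1, hs1, by simp [hη', hlt.ne']⟩ u hu
      refine ⟨x, hx, ?_⟩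
      have h6 := hcl u
      have h7 := hπ (γ x)
      have h8 := htri (ι (η u)) (η' u) (ι (π (γ x)))
      have h9 := htri (η' u) (γ x) (ι (π (γ x)))
      have h10 := hsymm (ι (η u)) (η' u)
      have h11 := hX.iso (η u) (π (γ x))
      show wd S (η u) (π (γ x)) ≤ M l₁ (e₁ + 2) + 3
      linarith
  obtain ⟨hQ, hR⟩ := hglob a b (fun t => π (γ t)) hab hloc'
  constructor
  · intro s hs t ht
    have h1 := hQ s hs t ht
    have h2 := hproj (γ s) (γ t)
    constructor <;> linarith [h1.1, h1.2, h2.1, h2.2]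
  · intro l₂ e₂ hl₂ he₂ a' b' η hab' hη hs0 hs1 u hu
    obtain ⟨s0, hs0, hs0'⟩ := hs0
    obtain ⟨s1, hs1, hs1'⟩ := hs1
    obtain ⟨x, hx, hx'⟩ := hR l₂ (e₂ + 2) hl₂ (by linarith) a' b' (fun t => π (η t)) hab'
      (hqg _ _ _ _ _ hη) ⟨s0, hs0, congrArg π hs0'⟩ ⟨s1, hs1, congrArg π hs1'⟩ u hu
    refine ⟨x, hx, ?_⟩
    have h2 := hproj (η u) (γ x)
    show d (η u) (γ x) ≤ M' l₂ (e₂ + 2) + 2
    have h3 : wd S (π (η u)) (π (γ x)) ≤ M' l₂ (e₂ + 2) := hx'
    linarith [h2.1]

end Pool.Agent.NH54.MG
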