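import Pool.Agent.NH54.MG.Stm2

/-!
# Project MG (helper54): MG-TRM, Morse elements in the Cayley graph (helper31)
-/

set_option autoImplicit false

open Set Filter Topology HNNExtension HNNExtension.NormalWord

namespace Pool.Agent.NH54.MG

namespace TRM

section Gen

variable {G : Type} [Group G] {S : Set G}

theorem wl_pow (h1 : S_WL) (hS : Subgroup.closure S = ⊤) (g : G) (m : ℕ) :
    wl S (g ^ m) ≤ m * wl S g := by
  obtain ⟨-, -, h0, -, hmul, -, -, -⟩ := h1 G S hS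
  induction m with
  | zero => rw [pow_zero, h0]; omega
  | succ m ih =>
    rw [pow_succ]
    have := hmul (g ^ m) g
    have e : (m + 1) * wl S g = m * wl S g + wl S g := by ring
    omega

theorem wl_zpow (h1 : S_WL) (hS : Subgroup.closure S = ⊤) (g : G) (m : ℤ) :
    (wl S (g ^ m) : ℝ) ≤ |(m : ℝ)| * wl S g := by
  obtain ⟨-, -, h0, hinv, hmul, -, -, -⟩ := h1 G S hS
  have key : ∀ k : ℕ, (wl S (g ^ k) : ℝ) ≤ (k : ℝ) * wl S g := fun k => by
    exact_mod_cast wl_pow h1 hS g k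
  rcases Int.eq_nat_or_neg m with ⟨k, rfl | rfl⟩
  · rw [zpow_natCast]
    simpa using key k
  · rw [zpow_neg, zpow_natCast, hinv]
    simpa using key k

theorem wd_zpow (h1 : S_WL) (hS : Subgroup.closure S = ⊤) (g : G) (m m' : ℤ) :
    wd S (g ^ m) (g ^ m') ≤ |(m : ℝ) - m'| * wl S g := by
  have e : (g ^ m)⁻¹ * g ^ m' = g ^ (m' - m) := by
    rw [← zpow_neg, ← zpow_add]; congr 1; ring
  have h := wl_zpow h1 hS g (m' - m)
  rw [wd, e]
  push_cast at h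
  rwa [abs_sub_comm] at h

end Gen

theorem tl_gen (h3 : S_TL) (P : Par) {s : P.G} (hs : s ∈ P.S) : tl P.th s ≤ 1 := by
  obtain ⟨-, -, h0, -, -, hl, -, ht, -⟩ := h3 K P.CK P.CK' P.th
  have hof : ∀ k : K, tl P.th (of k) ≤ 1 := fun k => by
    have := hl 1 k
    rw [mul_one, h0] at this
    omega
  simp only [Par.S, mem_insert_iff, mem_singleton_iff] at hs
  rcases hs with rfl | rfl | rfl | rfl | rfl
  · exact hof _
  · exact hof _
  · exact hof _
  · exact hof _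
  · exact ht.le

theorem tl_le_wl (h1 : S_WL) (h2 : S_GEN) (h3 : S_TL) (P : Par) (g : P.G) :
    tl P.th g ≤ wl P.S g := by
  obtain ⟨-, -, -, -, -, -, hp, -⟩ := h1 P.G P.S (h2 P).1
  obtain ⟨-, -, h0, hi, hm, -, -, -, -⟩ := h3 K P.CK P.CK' P.th
  obtain ⟨p, hp0, hp1, hp2, -⟩ := hp g
  have key : ∀ i ≤ wl P.S g, tl P.th (p i) ≤ i := by
    intro i
    induction i with
    | zero => intro _; rw [hp0, h0]
    | succ i ih =>
      intro hle
      have h4 := ih (by omega)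
      have e : p (i + 1) = p i * ((p i)⁻¹ * p (i + 1)) := by rw [mul_inv_cancel_left]
      have h5 : tl P.th ((p i)⁻¹ * p (i + 1)) ≤ 1 := by
        rcases hp2 i (by omega) with h | h
        · exact tl_gen h3 P h
        · rw [← hi]
          exact tl_gen h3 P h
      have h6 := hm (p i) ((p i)⁻¹ * p (i + 1))
      rw [← e] at h6
      omega
  have := key _ le_rfl
  rwa [hp1] at this

theorem dT_le (h1 : S_WL) (h2 : S_GEN) (h3 : S_TL) (P : Par) (g h : P.G) :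
    dT P.th g h ≤ wd P.S g h := by
  rw [dT, wd]
  exact_mod_cast tl_le_wl h1 h2 h3 P _

theorem dT_tri (h3 : S_TL) (P : Par) (x y z : P.G) :
    dT P.th x z ≤ dT P.th x y + dT P.th y z := by
  obtain ⟨-, -, -, -, hm, -, -, -, -⟩ := h3 K P.CK P.CK' P.th
  rw [dT, dT, dT]
  have := hm (x⁻¹ * y) (y⁻¹ * z)
  rw [mul_assoc, mul_inv_cancel_left] at this
  exact_mod_cast this

theorem tl_zpow (h3 : S_TL) (P : Par) {g : P.G} (hg : ∀ n : ℕ, n ≤ tl P.th (g ^ n)) (m m' : ℤ) :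
    |(m : ℝ) - m'| ≤ dT P.th (g ^ m) (g ^ m') := by
  obtain ⟨-, -, -, hi, -, -, -, -, -⟩ := h3 K P.CK P.CK' P.th
  have e : (g ^ m)⁻¹ * g ^ m' = g ^ (m' - m) := by
    rw [← zpow_neg, ← zpow_add]; congr 1; ring
  rw [dT, e]
  have key : ∀ k : ℤ, |(k : ℝ)| ≤ tl P.th (g ^ k) := by
    intro k
    rcases Int.eq_nat_or_neg k with ⟨n, rfl | rfl⟩
    · rw [zpow_natCast]
      have := hg n
      simp only [Int.cast_natCast, Nat.abs_cast]
      exact_mod_cast this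
    · rw [zpow_neg, zpow_natCast, hi]
      have := hg n
      simp only [Int.cast_neg, Int.cast_natCast, abs_neg, Nat.abs_cast]
      exact_mod_cast this
  have := key (m' - m)
  push_cast at this
  rwa [abs_sub_comm] at this

/-- the orbit path is Morse -/
theorem orbit (h1 : S_WL) (h2 : S_GEN) (h3 : S_TL) (h4 : S_D2) (P : Par) {g : P.G}
    (hg : ∀ n : ℕ, n ≤ tl P.th (g ^ n)) :
    ∃ M : ℝ → ℝ → ℝ, Gauge M ∧ ∀ a b : ℝ, a ≤ b → Mrs (wd P.S) M a b (fun s => g ^ ⌊s⌋) := by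
  have hκ : (1 : ℝ) ≤ (wl P.S g : ℝ) + 1 := by
    have : (0 : ℝ) ≤ wl P.S g := Nat.cast_nonneg _
    linarith
  obtain ⟨M, hM, h⟩ := h4 P _ hκ
  refine ⟨M, hM, fun a b hab => h a b _ hab fun s _ s' _ => ?_⟩
  have g1 := tl_zpow h3 P hg ⌊s⌋ ⌊s'⌋
  have g2 := wd_zpow h1 (h2 P).1 g ⌊s⌋ ⌊s'⌋
  have f1 := Int.floor_le s
  have f2 := Int.lt_floor_add_one s
  have f3 := Int.floor_le s'
  have f4 := Int.lt_floor_add_one s'
  have h5 : |s - s'| ≤ |(⌊s⌋ : ℝ) - ⌊s'⌋| + 1 := by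
    rw [abs_le]
    constructor
    · have := neg_abs_le ((⌊s⌋ : ℝ) - ⌊s'⌋)
      linarith
    · have := le_abs_self ((⌊s⌋ : ℝ) - ⌊s'⌋)
      linarith
  have h6 : |(⌊s⌋ : ℝ) - ⌊s'⌋| ≤ |s - s'| + 1 := by
    rw [abs_le]
    constructor
    · have := neg_abs_le (s - s')
      linarith
    · have := le_abs_self (s - s')
      linarith
  have h7 : (0 : ℝ) ≤ wl P.S g := Nat.cast_nonneg _
  have h8 : 0 ≤ |(⌊s⌋ : ℝ) - ⌊s'⌋| := abs_nonneg _
  have h9 : 0 ≤ |s - s'| := abs_nonneg _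
  constructor
  · show |s - s'| ≤ ((wl P.S g : ℝ) + 1) * dT P.th (g ^ ⌊s⌋) (g ^ ⌊s'⌋) + ((wl P.S g : ℝ) + 1)
    nlinarith
  · show wd P.S (g ^ ⌊s⌋) (g ^ ⌊s'⌋) ≤ ((wl P.S g : ℝ) + 1) * |s - s'| + ((wl P.S g : ℝ) + 1)
    nlinarith

/-- a path in the group close to a path in the model -/
theorem close_path {G : Type} [Group G] {S : Set G} {X : Type} {d : X → X → ℝ} {ι : G → X}
    (hX : Model S X d ι) (f : ℝ → X) {u v : ℝ} {x y : G} (hx : d (f u) (ι x) ≤ 1)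
    (hy : d (f v) (ι y) ≤ 1) (huv : u = v → x = y) :
    ∃ θ : ℝ → G, θ u = x ∧ θ v = y ∧ ∀ t, d (f t) (ι (θ t)) ≤ 1 := by
  classical
  choose π hπ using hX.dense
  refine ⟨fun t => if t = u then x else if t = v then y else π (f t), by simp, ?_, fun t => ?_⟩
  · by_cases h : v = u
    · simp only [h, if_true]
      exact huv h.symm
    · simp only [h, if_false, if_true]
  · by_cases h : t = u
    · simp only [h, if_true]
      exact hx
    · by_cases h' : t = v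
      · show d (f t) (ι (if t = u then x else if t = v then y else π (f t))) ≤ 1
        rw [if_neg h, if_pos h', h']
        exact hy
      · show d (f t) (ι (if t = u then x else if t = v then y else π (f t))) ≤ 1
        rw [if_neg h, if_neg h']
        exact hπ _

theorem close_dist {G : Type} [Group G] {S : Set G} {X : Type} {d : X → X → ℝ} {ι : G → X}
    (hX : Model S X d ι) {x y : X} {g h : G} (hx : d x (ι g) ≤ 1) (hy : d y (ι h) ≤ 1) :
    wd S g h ≤ d x y + 2 ∧ d x y ≤ wd S g h + 2 := by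
  have e := hX.iso g h
  have a1 := hX.pm.tri (ι g) x (ι h)
  have a2 := hX.pm.tri x y (ι h)
  have a3 := hX.pm.symm (ι g) x
  have b1 := hX.pm.tri x (ι g) y
  have b2 := hX.pm.tri (ι g) (ι h) y
  have b3 := hX.pm.symm (ι h) y
  constructor <;> linarith

end TRM

open TRM in
/-- MG-TRM: Morse elements, in the Cayley graph -/
theorem t_TRM (h1 : S_WL) (h2 : S_GEN) (h3 : S_TL) (h4 : S_D2) : S_TRM := by
  intro P g hg X d ι hX
  obtain ⟨M0, hM0, horb⟩ := orbit h1 h2 h3 h4 P hg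
  set R : ℝ := M0 1 2 with hR
  have hR0 : 0 ≤ R := hM0 1 2 le_rfl (by norm_num)
  set w : ℝ := (wl P.S g : ℝ) with hw
  have hw0 : 0 ≤ w := Nat.cast_nonneg _
  set κ : ℝ := 3 + w + 2 * R + 2 * R * w with hκ
  have hRw : 0 ≤ R * w := mul_nonneg hR0 hw0
  have hκ1 : 1 ≤ κ := by rw [hκ]; nlinarith
  obtain ⟨M1, hM1, hD2⟩ := h4 P κ hκ1
  refine ⟨fun l e => M1 l (e + 2) + 2, fun l e hl he => ?_, ?_⟩
  · have := hM1 l (e + 2) hl (by linarith)
    linarith
  intro i j n c hn hc0 hcn hc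
  obtain ⟨hpm, heq, -, -, -, -, -, -⟩ := h1 P.G P.S (h2 P).1
  -- the path in the group
  obtain ⟨η, hη0, hηn, hη⟩ := close_path hX c (u := 0) (v := n) (x := g ^ i) (y := g ^ j)
    (by rw [hc0, hX.pm.self]; norm_num) (by rw [hcn, hX.pm.self]; norm_num) (fun h => by
      refine heq _ _ ?_
      rw [← hX.iso, ← hc0, ← hcn, ← h, hX.pm.self])
  have hdist : ∀ s ∈ Icc 0 n, ∀ s' ∈ Icc 0 n,
      wd P.S (η s) (η s') ≤ |s - s'| + 2 ∧ |s - s'| ≤ wd P.S (η s) (η s') + 2 := by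
    intro s hs s' hs'
    have := close_dist hX (hη s) (hη s')
    rwa [hc s hs s' hs'] at this
  have hQG : QG (wd P.S) 1 2 0 n η := by
    intro s hs t ht
    obtain ⟨k1, k2⟩ := hdist s hs t ht
    constructor
    · rw [div_one]; linarith
    · linarith
  have hmem : ∀ k : ℤ, min (i : ℝ) j ≤ k → (k : ℝ) ≤ max (i : ℝ) j →
      ∃ s ∈ Icc (min (i : ℝ) j) (max (i : ℝ) j), g ^ ⌊s⌋ = g ^ k := fun k k1 k2 =>
    ⟨(k : ℝ), ⟨k1, k2⟩, by rw [Int.floor_intCast]⟩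
  have hclose : ∀ t ∈ Icc 0 n, ∃ m : ℤ, wd P.S (η t) (g ^ m) ≤ R := by
    intro t ht
    obtain ⟨s, -, hs⟩ := horb (min (i : ℝ) j) (max (i : ℝ) j) min_le_max 1 2 le_rfl (by norm_num) 0 n η
      hn hQG (by rw [hη0]; exact hmem i (min_le_left _ _) (le_max_left _ _))
      (by rw [hηn]; exact hmem j (min_le_right _ _) (le_max_right _ _)) t ht
    exact ⟨⌊s⌋, hs⟩
  have hMorse : Mrs (wd P.S) M1 0 n η := by
    refine hD2 0 n η hn fun s hs s' hs' => ?_
    obtain ⟨k1, k2⟩ := hdist s hs s' hs'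
    obtain ⟨m, hm⟩ := hclose s hs
    obtain ⟨m', hm'⟩ := hclose s' hs'
    have e1 := hpm.tri (η s) (g ^ m) (η s')
    have e2 := hpm.tri (g ^ m) (g ^ m') (η s')
    have e3 := hpm.symm (g ^ m') (η s')
    have e4 := wd_zpow h1 (h2 P).1 g m m'
    have e5 := tl_zpow h3 P hg m m'
    have e6 := dT_tri h3 P (g ^ m) (η s) (g ^ m')
    have e7 := dT_tri h3 P (η s) (η s') (g ^ m')
    have e8 := dT_le h1 h2 h3 P (g ^ m) (η s)
    have e9 := dT_le h1 h2 h3 P (η s') (g ^ m')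
    have e10 := hpm.symm (g ^ m) (η s)
    have hT0 : 0 ≤ dT P.th (η s) (η s') := by rw [dT]; exact Nat.cast_nonneg _
    have hmm : |(m : ℝ) - m'| ≤ dT P.th (η s) (η s') + 2 * R := by linarith
    have hmw : |(m : ℝ) - m'| * w ≤ (dT P.th (η s) (η s') + 2 * R) * w :=
      mul_le_mul_of_nonneg_right hmm hw0
    have hs0 : 0 ≤ |s - s'| := abs_nonneg _
    constructor
    · have h5 : |s - s'| ≤ 2 + 2 * R + (dT P.th (η s) (η s') + 2 * R) * w := by linarith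
      have h6 : 0 ≤ R * dT P.th (η s) (η s') := mul_nonneg hR0 hT0
      have h7 : 0 ≤ R * w * dT P.th (η s) (η s') := mul_nonneg hRw hT0
      rw [hκ]
      nlinarith
    · have h6 : 0 ≤ (κ - 1) * |s - s'| := mul_nonneg (by linarith) hs0
      have h7 : 2 ≤ κ := by rw [hκ]; nlinarith
      nlinarith
  -- the conclusion
  intro l e hl he a' b' ζ hab hζ hs0 hs1 t ht
  obtain ⟨s0, hs0, h5⟩ := hs0
  obtain ⟨s1, hs1, h6⟩ := hs1
  have h5' : d (ζ a') (ι (η s0)) ≤ 1 := by rw [← h5]; exact hη s0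
  have h6' : d (ζ b') (ι (η s1)) ≤ 1 := by rw [← h6]; exact hη s1
  obtain ⟨θ, hθ⟩ : ∃ θ : ℝ → P.G, (∃ s ∈ Icc 0 n, η s = θ a') ∧ (∃ s ∈ Icc 0 n, η s = θ b') ∧
      ∀ u, d (ζ u) (ι (θ u)) ≤ 1 := by
    by_cases hab' : a' = b'
    · obtain ⟨θ, k1, -, k3⟩ := close_path hX ζ (u := a') (v := a') (x := η s0) (y := η s0) h5' h5'
        (fun _ => rfl)
      exact ⟨θ, ⟨s0, hs0, k1.symm⟩, ⟨s0, hs0, by rw [← hab', k1]⟩, k3⟩
    · obtain ⟨θ, k1, k2, k3⟩ := close_path hX ζ (u := a') (v := b') (x := η s0) (y := η s1) h5' h6'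
        (fun h => absurd h hab')
      exact ⟨θ, ⟨s0, hs0, k1.symm⟩, ⟨s1, hs1, k2.symm⟩, k3⟩
  obtain ⟨k1, k2, k3⟩ := hθ
  have hQ : QG (wd P.S) l (e + 2) a' b' θ := by
    intro u hu v hv
    obtain ⟨q1, q2⟩ := hζ u hu v hv
    obtain ⟨q3, q4⟩ := close_dist hX (k3 u) (k3 v)
    constructor <;> linarith
  obtain ⟨s, hs, h7⟩ := hMorse l (e + 2) hl (by linarith) a' b' θ hab hQ k1 k2 t ht
  refine ⟨s, hs, ?_⟩
  obtain ⟨q3, q4⟩ := close_dist hX (k3 t) (hη s)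
  show d (ζ t) (c s) ≤ M1 l (e + 2) + 2
  linarith

end Pool.Agent.NH54.MG
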