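import Pool.Agent.NH54.MG.Stm

/-! MG-UP: upper bound of the translation length. -/

set_option autoImplicit false

open Set Filter Topology HNNExtension HNNExtension.NormalWord

namespace Pool.Agent.NH54.MG

namespace UP

theorem pow_le {G : Type} [Group G] {S : Set G} (h0 : wl S (1 : G) = 0)
    (h : ∀ g h : G, wl S (g * h) ≤ wl S g + wl S h) (g : G) (m : ℕ) :
    wl S (g ^ m) ≤ m * wl S g := by
  induction m with
  | zero => rw [pow_zero, h0]; exact Nat.zero_le _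
  | succ m ih =>
    rw [pow_succ]
    calc wl S (g ^ m * g) ≤ wl S (g ^ m) + wl S g := h _ _
      _ ≤ m * wl S g + wl S g := Nat.add_le_add_right ih _
      _ = (m + 1) * wl S g := by ring

theorem a_pow (k : ℕ) : (⟨1, 1⟩ : D) ^ k = ⟨1, k⟩ := by
  induction k with
  | zero => rw [pow_zero]; rfl
  | succ k ih =>
    rw [pow_succ, ih]
    ext1
    · simp
    · simp

theorem y_eq (k : ℕ) : iD (y (k : ℤ)) = (⟨1, 1⟩ : D) ^ k * ⟨y 0, 0⟩ * ((⟨1, 1⟩ : D) ^ k)⁻¹ := by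
  rw [a_pow]
  ext1
  · simp only [D.mul_u, D.inv_u, sh_y, one_mul, inv_one, map_one, mul_one, zero_add]
    rfl
  · simp only [D.mul_t, D.inv_t]
    show (0 : ℤ) = _
    ring

end UP

open UP in
theorem t_UP (h1 : S_WL) (h2 : S_GEN) (h3 : S_PN) : S_UP := by
  intro P n
  obtain ⟨hcl, -⟩ := h2 P
  obtain ⟨-, -, w1, winv, wmul, wmem, -, -⟩ := h1 P.G P.S hcl
  set X : P.G := of (jN (y (P.al n 0))) with hX
  set A : P.G := of (iK ⟨1, 1⟩) with hA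
  set B : P.G := of (iK ⟨y 0, 0⟩) with hB
  have hA1 : wl P.S A ≤ 1 := wmem A (by simp [Par.S, hA])
  have hB1 : wl P.S B ≤ 1 := wmem B (by simp [Par.S, hB])
  have ht1 : wl P.S (t : P.G) ≤ 1 := wmem t (by simp [Par.S])
  have hy : wl P.S (of (jN (y (P.sg n))⁻¹) : P.G) ≤ 2 * 4 ^ P.s n + 1 := by
    have e1 : (of (jN (y (P.sg n))⁻¹) : P.G) = (A ^ (4 ^ P.s n) * B * (A ^ (4 ^ P.s n))⁻¹)⁻¹ := by
      have e2 : P.sg n = ((4 ^ P.s n : ℕ) : ℤ) := by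
        unfold Par.sg
        push_cast
        rfl
      rw [map_inv, map_inv, e2]
      show (of (iK (iD (y ((4 ^ P.s n : ℕ) : ℤ)))) : P.G)⁻¹ = _
      simp only [y_eq, map_mul, map_inv, map_pow]
      rfl
    rw [e1, winv]
    have e3 := pow_le w1 wmul A (4 ^ P.s n)
    have e4 : wl P.S (A ^ (4 ^ P.s n)) ≤ 4 ^ P.s n := e3.trans (by
      calc 4 ^ P.s n * wl P.S A ≤ 4 ^ P.s n * 1 := Nat.mul_le_mul_left _ hA1
        _ = 4 ^ P.s n := mul_one _)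
    have e5 := wmul (A ^ (4 ^ P.s n) * B) (A ^ (4 ^ P.s n))⁻¹
    have e6 := wmul (A ^ (4 ^ P.s n)) B
    rw [winv] at e5
    omega
  refine ⟨2 * wl P.S X, fun m => ?_⟩
  rw [(h3 P n).1 m, ← hX]
  have e1 := wmul (X * (t⁻¹ ^ P.q n * of (jN (y (P.sg n))⁻¹)) ^ m) X⁻¹
  have e2 := wmul X ((t⁻¹ ^ P.q n * of (jN (y (P.sg n))⁻¹)) ^ m)
  have e3 := pow_le w1 wmul ((t : P.G)⁻¹ ^ P.q n * of (jN (y (P.sg n))⁻¹)) m
  have e4 := wmul ((t : P.G)⁻¹ ^ P.q n) (of (jN (y (P.sg n))⁻¹))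
  have e5 := pow_le w1 wmul ((t : P.G)⁻¹) (P.q n)
  rw [winv] at e1 e5
  have e6 : P.q n * wl P.S (t : P.G) ≤ P.q n := by
    calc P.q n * wl P.S (t : P.G) ≤ P.q n * 1 := Nat.mul_le_mul_left _ ht1
      _ = P.q n := mul_one _
  have e7 : wl P.S ((t : P.G)⁻¹ ^ P.q n * of (jN (y (P.sg n))⁻¹)) ≤
      P.q n + (2 * 4 ^ P.s n + 1) := by omega
  have e8 : m * wl P.S ((t : P.G)⁻¹ ^ P.q n * of (jN (y (P.sg n))⁻¹)) ≤
      (P.q n + (2 * 4 ^ P.s n + 1)) * m := by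
    rw [mul_comm]
    exact Nat.mul_le_mul_right _ e7
  omega

end Pool.Agent.NH54.MG
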