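import Pool.Agent.NH54.MG.Wb

/-!
# MG-W: the cosets of `K` are wide
-/

set_option autoImplicit false

open Set Filter Topology HNNExtension

namespace Pool.Agent.NH54.MG

theorem t_W (h1 : S_WL) (h2 : S_GEN) (h3 : S_LAM) (h4 : S_LIP) (h5 : S_RAY) : S_W := by
  intro P
  obtain ⟨hPM, -, hone, hinv, hmul, hS, -, -⟩ := h1 P.G P.S (h2 P).1
  refine ⟨20000, by norm_num, ?_⟩
  intro k
  by_cases hk : k.δ = 1
  · set b : K := iK ⟨y 0, 0⟩ with hb
    have hbS : wl P.S (of b : P.G) ≤ 1 := by
      apply hS
      unfold Par.S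
      simp [hb]
    have hδ : (k * b).δ ≠ 1 := by
      rw [K.mul_δ, hk, one_mul]
      intro h
      have h6 : (⟨y 0, 0⟩ : D).u = (1 : D).u := congrArg D.u h
      simp only [D.one_u] at h6
      exact FreeGroup.of_ne_one 0 h6
    obtain ⟨L, w, hw0, hwL, hw1, hw2, i0, hi0, hi1⟩ := W.main h1 h2 h3 h4 h5 P (k * b) hδ
    have hkb : wl P.S (of k : P.G) ≤ wl P.S (of (k * b) : P.G) + 1 := by
      have h6 := hmul (of (k * b) : P.G) (of b)⁻¹
      rw [map_mul, mul_inv_cancel_right, hinv, ← map_mul] at h6
      omega
    have hlast : wd P.S (w L) (of k) ≤ 1 := by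
      unfold wd
      rw [hwL, map_mul, mul_inv_rev, mul_assoc, inv_mul_cancel, mul_one, hinv]
      exact_mod_cast hbS
    set w' : ℕ → P.G := fun i => if i ≤ L then w i else of k with hw'
    have e1 : ∀ i ≤ L, w' i = w i := by intro i hi; simp only [hw', if_pos hi]
    have e2 : w' (L + 1) = of k := by simp only [hw', if_neg (show ¬ L + 1 ≤ L by omega)]
    refine ⟨L + 1, w', ?_, e2, ?_, ?_, i0, by omega, ?_⟩
    · rw [e1 0 (by omega), hw0]
    · intro i hi
      rcases Nat.lt_or_ge i L with h | h
      · rw [e1 i h.le, e1 (i + 1) (by omega)]; exact hw1 i h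
      · have : i = L := by omega
        subst this
        rw [e1 i le_rfl, e2]; exact hlast
    · intro i j hij hj
      rcases Nat.lt_or_ge j (L + 1) with h | h
      · rw [e1 i (by omega), e1 j (by omega)]
        have h6 := hw2 i j hij (by omega)
        have h7 := hPM.nn (w i) (w j)
        linarith
      · have hjL : j = L + 1 := by omega
        subst hjL
        rcases Nat.lt_or_ge i (L + 1) with h' | h'
        · rw [e1 i (by omega), e2]
          have h6 := hw2 i L (by omega) le_rfl
          have h7 := hPM.tri (w i) (of k) (w L)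
          rw [hPM.symm (of k) (w L)] at h7
          have h8 := hPM.nn (w i) (of k)
          push_cast
          linarith
        · have hiL : i = L + 1 := by omega
          subst hiL
          rw [hPM.self]
          push_cast
          linarith
    · rw [e1 i0 hi0]
      omega
  · obtain ⟨L, w, hw0, hwL, hw1, hw2, i0, hi0, hi1⟩ := W.main h1 h2 h3 h4 h5 P k hk
    refine ⟨L, w, hw0, hwL, hw1, ?_, i0, hi0, by omega⟩
    intro i j hij hj
    have h6 := hw2 i j hij hj
    have h7 := hPM.nn (w i) (w j)
    linarith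

end Pool.Agent.NH54.MG
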