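import Pool.Agent.NH54.MG.Stm

/-!
# Project MG, MG-WL: the word metric
-/

set_option autoImplicit false

open Set

namespace Pool.Agent.NH54.MG

namespace WL

variable {G : Type} [Group G] {S : Set G}

theorem wl_le (l : List G) (hl : ∀ x ∈ l, x ∈ S ∨ x⁻¹ ∈ S) : wl S l.prod ≤ l.length :=
  Nat.sInf_le ⟨l, rfl, hl, rfl⟩

theorem exists_list (hS : Subgroup.closure S = ⊤) (g : G) :
    ∃ l : List G, l.length = wl S g ∧ (∀ x ∈ l, x ∈ S ∨ x⁻¹ ∈ S) ∧ l.prod = g := by
  have hne : {n | ∃ l : List G, l.length = n ∧ (∀ x ∈ l, x ∈ S ∨ x⁻¹ ∈ S) ∧ l.prod = g}.Nonempty := by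
    have hg : g ∈ Subgroup.closure S := by rw [hS]; exact Subgroup.mem_top g
    rw [← Subgroup.mem_toSubmonoid, Subgroup.closure_toSubmonoid] at hg
    obtain ⟨l, h1, h2⟩ := Submonoid.exists_list_of_mem_closure hg
    exact ⟨l.length, l, rfl, h1, h2⟩
  exact Nat.sInf_mem hne

theorem wl_one : wl S (1 : G) = 0 :=
  Nat.le_zero.1 (wl_le (S := S) [] (by simp))

theorem wl_mul (hS : Subgroup.closure S = ⊤) (g h : G) : wl S (g * h) ≤ wl S g + wl S h := by
  obtain ⟨l, h1, h2, h3⟩ := exists_list hS g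
  obtain ⟨m, m1, m2, m3⟩ := exists_list hS h
  have := wl_le (S := S) (l ++ m) (by
    intro x hx
    rcases List.mem_append.1 hx with hx | hx
    · exact h2 x hx
    · exact m2 x hx)
  rwa [List.prod_append, List.length_append, h1, h3, m1, m3] at this

theorem wl_inv_le (hS : Subgroup.closure S = ⊤) (g : G) : wl S g⁻¹ ≤ wl S g := by
  obtain ⟨l, h1, h2, h3⟩ := exists_list hS g
  have := wl_le (S := S) (l.map (fun x => x⁻¹)).reverse (by
    intro x hx
    rw [List.mem_reverse, List.mem_map] at hx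
    obtain ⟨y, hy, rfl⟩ := hx
    rw [inv_inv]
    exact (h2 y hy).symm)
  rwa [← List.prod_inv_reverse, List.length_reverse, List.length_map, h1, h3] at this

theorem wl_inv (hS : Subgroup.closure S = ⊤) (g : G) : wl S g⁻¹ = wl S g := by
  refine le_antisymm (wl_inv_le hS g) ?_
  have := wl_inv_le hS g⁻¹
  rwa [inv_inv] at this

theorem eq_one (hS : Subgroup.closure S = ⊤) (g : G) (h : wl S g = 0) : g = 1 := by
  obtain ⟨l, h1, h2, h3⟩ := exists_list hS g
  rw [h] at h1
  rw [← h3, List.length_eq_zero_iff.1 h1, List.prod_nil]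

theorem pm (hS : Subgroup.closure S = ⊤) : PM (wd S) where
  self g := by rw [wd, inv_mul_cancel, wl_one, Nat.cast_zero]
  nn g h := Nat.cast_nonneg _
  symm g h := by
    rw [wd, wd, ← wl_inv hS, mul_inv_rev, inv_inv]
  tri g h k := by
    have := wl_mul hS (g⁻¹ * h) (h⁻¹ * k)
    rw [mul_assoc, mul_inv_cancel_left] at this
    rw [wd, wd, wd]
    exact_mod_cast this

theorem geod (hS : Subgroup.closure S = ⊤) (g : G) : ∃ p : ℕ → G, p 0 = 1 ∧ p (wl S g) = g ∧
    (∀ i < wl S g, (p i)⁻¹ * p (i + 1) ∈ S ∨ ((p i)⁻¹ * p (i + 1))⁻¹ ∈ S) ∧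
    ∀ i j : ℕ, i ≤ j → j ≤ wl S g → wl S ((p i)⁻¹ * p j) = j - i := by
  obtain ⟨l, h1, h2, h3⟩ := exists_list hS g
  have hd : ∀ i j : ℕ, ((l.take i).prod)⁻¹ * (l.take (i + j)).prod = ((l.drop i).take j).prod := by
    intro i j
    rw [List.take_add, List.prod_append, inv_mul_cancel_left]
  have hup : ∀ i j : ℕ, wl S (((l.take i).prod)⁻¹ * (l.take (i + j)).prod) ≤ j := by
    intro i j
    rw [hd]
    refine (wl_le _ fun x hx => h2 x (List.mem_of_mem_drop (List.mem_of_mem_take hx))).trans ?_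
    exact List.length_take_le _ _
  refine ⟨fun i => (l.take i).prod, by simp, by
    show (l.take (wl S g)).prod = g
    rw [← h1, List.take_length, h3], ?_, ?_⟩
  · intro i hi
    show ((l.take i).prod)⁻¹ * (l.take (i + 1)).prod ∈ S ∨
      (((l.take i).prod)⁻¹ * (l.take (i + 1)).prod)⁻¹ ∈ S
    have hi' : i < l.length := by rw [h1]; exact hi
    have : ((l.take i).prod)⁻¹ * (l.take (i + 1)).prod = l[i] := by
      rw [List.take_succ_eq_append_getElem hi', List.prod_append, inv_mul_cancel_left,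
        List.prod_singleton]
    rw [this]
    exact h2 _ (List.getElem_mem hi')
  · intro i j hij hj
    obtain ⟨k, rfl⟩ := Nat.exists_eq_add_of_le hij
    obtain ⟨m, hm⟩ := Nat.exists_eq_add_of_le hj
    have hg : (l.take (i + k + m)).prod = g := by
      rw [← hm, ← h1, List.take_length, h3]
    have e1 := hup i k
    have e2 := hup (i + k) m
    have e3 := hup 0 i
    rw [List.take_zero, List.prod_nil, inv_one, one_mul, zero_add] at e3
    rw [hg] at e2
    have e4 : g = (l.take i).prod * (((l.take i).prod)⁻¹ * (l.take (i + k)).prod) *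
        (((l.take (i + k)).prod)⁻¹ * g) := by
      rw [mul_inv_cancel_left, mul_inv_cancel_left]
    have e5 := wl_mul hS ((l.take i).prod * (((l.take i).prod)⁻¹ * (l.take (i + k)).prod))
      (((l.take (i + k)).prod)⁻¹ * g)
    rw [← e4] at e5
    have e6 := wl_mul hS (l.take i).prod (((l.take i).prod)⁻¹ * (l.take (i + k)).prod)
    show wl S (((l.take i).prod)⁻¹ * (l.take (i + k)).prod) = i + k - i
    omega

theorem ball (hS : Subgroup.closure S = ⊤) (hf : S.Finite) (r : ℕ) : {g | wl S g ≤ r}.Finite := by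
  set T : Set G := {x | x ∈ S ∨ x⁻¹ ∈ S} with hT
  have hTf : T.Finite := hf.union (hf.preimage (f := fun x : G => x⁻¹) inv_injective.injOn)
  have : Finite T := hTf
  refine ((List.finite_length_le T r).image fun l => (l.map Subtype.val).prod).subset ?_
  intro g hg
  obtain ⟨l, h1, h2, h3⟩ := exists_list hS g
  lift l to List T using h2
  refine ⟨l, ?_, h3⟩
  have h4 : wl S g ≤ r := hg
  rw [← h1, List.length_map] at h4
  exact h4

end WL

open WL in
theorem t_WL : S_WL := by
  intro G _ S hS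
  refine ⟨pm hS, fun g h hgh => ?_, wl_one, wl_inv hS, wl_mul hS, fun g hg => ?_, geod hS,
    fun hf r => ball hS hf r⟩
  · have h1 : wl S (g⁻¹ * h) = 0 := by
      have : (wl S (g⁻¹ * h) : ℝ) = 0 := hgh
      exact_mod_cast this
    exact inv_mul_eq_one.1 (eq_one hS _ h1)
  · have := wl_le (S := S) [g] (by
      intro x hx
      rw [List.mem_singleton] at hx
      rw [hx]
      exact Or.inl hg)
    simpa using this

end Pool.Agent.NH54.MG
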