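import Pool.Agent.NH54.MG.FINC
import Pool.Agent.NH54.MG.WL
import Pool.Agent.NH54.MG.DISC
import Pool.Agent.NH54.MG.D3
import Pool.Agent.NH54.MG.TL
import Pool.Agent.NH54.MG.HY
import Pool.Agent.NH54.MG.CRS
import Pool.Agent.NH54.MG.GEN
import Pool.Agent.NH54.MG.LAM
import Pool.Agent.NH54.MG.LIP
import Pool.Agent.NH54.MG.RAY
import Pool.Agent.NH54.MG.W
import Pool.Agent.NH54.MG.D1A
import Pool.Agent.NH54.MG.D1
import Pool.Agent.NH54.MG.SUB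
import Pool.Agent.NH54.MG.CW
import Pool.Agent.NH54.MG.TOP
import Pool.Agent.NH54.MG.FLOW
import Pool.Agent.NH54.MG.BIG
import Pool.Agent.NH54.MG.IDX2
import Pool.Agent.NH54.MG.KEY
import Pool.Agent.NH54.MG.KN
import Pool.Agent.NH54.MG.CASEA
import Pool.Agent.NH54.MG.MAL
import Pool.Agent.NH54.MG.SHR
import Pool.Agent.NH54.MG.STAB
import Pool.Agent.NH54.MG.CASEB
import Pool.Agent.NH54.MG.CORE
import Pool.Agent.NH54.MG.D2B
import Pool.Agent.NH54.MG.D2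
import Pool.Agent.NH54.MG.LG
import Pool.Agent.NH54.MG.MOR
import Pool.Agent.NH54.MG.PN
import Pool.Agent.NH54.MG.UP
import Pool.Agent.NH54.MG.LOWC
import Pool.Agent.NH54.MG.LOW
import Pool.Agent.NH54.MG.TEND
import Pool.Agent.NH54.MG.PAR
import Pool.Agent.NH54.MG.TRA
import Pool.Agent.NH54.MG.TRM
import Pool.Agent.NH54.MG.CGM
import Pool.Agent.NH54.MG.CGG

/-!
# Project MG: all parts together
-/

set_option autoImplicit false

namespace Pool.Agent.NH54.MG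

theorem all_D1 : S_D1 :=
  t_D1 t_WL t_GEN t_TL t_CRS (t_D1A t_WL t_GEN (t_W t_WL t_GEN t_LAM (t_LIP t_WL t_GEN t_LAM) t_RAY))

theorem all_TOP : S_TOP := t_TOP t_CW

theorem all_IDX : S_IDX := t_IDX' t_CW all_TOP t_SUB

theorem all_FLOW : S_FLOW := t_FLOW t_WL t_GEN t_SUB all_TOP

theorem all_CASEA : S_CASEA :=
  t_CASEA t_WL t_GEN t_SUB all_TOP all_FLOW all_IDX (t_KEY t_BIG all_IDX all_TOP t_SUB)
    (t_KN t_SUB t_CW all_TOP t_BIG)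

theorem all_CASEB : S_CASEB :=
  t_CASEB t_WL t_GEN t_SUB (t_STAB t_SUB (t_MAL t_SUB) (t_SHR t_SUB) all_TOP)

theorem all_D2 : S_D2 :=
  t_D2 t_WL t_GEN t_TL (t_DISC t_WL) (t_D2B t_WL t_GEN t_TL t_CRS
    (t_CORE t_WL t_GEN t_SUB all_TOP all_FLOW all_CASEA all_CASEB))

theorem all_LG : S_LG := t_LG t_WL t_GEN t_TL (t_HY t_TL) all_D1 all_D2 t_D3

theorem all_FINC : S_FINC :=
  t_FINC t_WL t_GEN t_TL all_LG (t_MOR t_WL t_GEN t_TL all_D2) (t_PN t_TL) (t_UP t_WL t_GEN (t_PN t_TL))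
    (t_LOW t_WL t_GEN t_TL t_CRS (t_PN t_TL) (t_LOWC t_CW all_TOP)) (t_TEND t_WL) t_PAR t_TRA
    (t_TRM t_WL t_GEN t_TL all_D2) (t_CGM t_WL) (t_CGG t_WL (t_CGM t_WL))

end Pool.Agent.NH54.MG
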