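import Mathlib

/-!
# Cayley graphs, Morse quasi-geodesics, the Morse local-to-global property and translation lengths

The definitions used by the statement of the hand-in for `MP_284ea2_al`.
-/

set_option autoImplicit false

open Set Filter Topology

namespace Pool.Agent.NH54.MG

/-! ## Morse quasi-geodesics (for a distance function `d` on `X`) -/

section Coarse

variable {X : Type}

/-- `γ` is an `(l, e)`-quasi-geodesic on `[a, b]` -/
def QG (d : X → X → ℝ) (l e a b : ℝ) (γ : ℝ → X) : Prop :=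
  ∀ s ∈ Icc a b, ∀ t ∈ Icc a b,
    |s - t| / l - e ≤ d (γ s) (γ t) ∧ d (γ s) (γ t) ≤ l * |s - t| + e

/-- `M` is a Morse gauge: a function from `[1, ∞) × [0, ∞)` to `[0, ∞)` -/
def Gauge (M : ℝ → ℝ → ℝ) : Prop := ∀ l e : ℝ, 1 ≤ l → 0 ≤ e → 0 ≤ M l e

/-- the path `γ` on `[a, b]` is `M`-Morse: for all `l ≥ 1`, `e ≥ 0`, every `(l, e)`-quasi-geodesic `η` with
both endpoints on `γ` lies in the `M l e`-neighbourhood of `γ` -/
def Mrs (d : X → X → ℝ) (M : ℝ → ℝ → ℝ) (a b : ℝ) (γ : ℝ → X) : Prop :=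
  ∀ l e : ℝ, 1 ≤ l → 0 ≤ e → ∀ (a' b' : ℝ) (η : ℝ → X), a' ≤ b' → QG d l e a' b' η →
    (∃ s ∈ Icc a b, γ s = η a') → (∃ s ∈ Icc a b, γ s = η b') →
    ∀ t ∈ Icc a' b', ∃ s ∈ Icc a b, d (η t) (γ s) ≤ M l e

/-- the Morse local-to-global property: for every gauge `M` and all `l ≥ 1`, `e ≥ 0` there are `L`, `M'`, `l'`,
`e'` such that every path `γ` on an interval `[a, b]`, whose restrictions to the subintervals of length at
most `L` are `M`-Morse `(l, e)`-quasi-geodesics, is an `M'`-Morse `(l', e')`-quasi-geodesic -/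
def MLTG (d : X → X → ℝ) : Prop :=
  ∀ M : ℝ → ℝ → ℝ, Gauge M → ∀ l e : ℝ, 1 ≤ l → 0 ≤ e →
    ∃ (L : ℝ) (M' : ℝ → ℝ → ℝ) (l' e' : ℝ), 0 ≤ L ∧ Gauge M' ∧ 1 ≤ l' ∧ 0 ≤ e' ∧
      ∀ (a b : ℝ) (γ : ℝ → X), a ≤ b →
        (∀ s t : ℝ, a ≤ s → s ≤ t → t ≤ b → t - s ≤ L → QG d l e s t γ ∧ Mrs d M s t γ) →
        QG d l' e' a b γ ∧ Mrs d M' a b γ

end Coarse

/-! ## The Cayley graph -/

section Cayley

variable {G : Type} [Group G]

/-- the word length with respect to `S` -/
noncomputable def wl (S : Set G) (g : G) : ℕ :=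
  sInf {n | ∃ l : List G, l.length = n ∧ (∀ x ∈ l, x ∈ S ∨ x⁻¹ ∈ S) ∧ l.prod = g}

/-- the word metric with respect to `S` -/
noncomputable def wd (S : Set G) (g h : G) : ℝ := wl S (g⁻¹ * h)

/-- the points of the Cayley graph: the vertices, and for `s ∈ S` and `0 < r < 1` the point `edge g s r` at
distance `r` from `g` on the edge from `g` to `g * s` -/
inductive CG (S : Set G) : Type
  | vert (g : G) : CG S
  | edge (g s : G) (hs : s ∈ S) (r : ℝ) (hr : 0 < r ∧ r < 1) : CG S

namespace CG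

variable {S : Set G}

/-- the two ends of the edge of a point; for a vertex both are the vertex -/
def en : CG S → Bool → G
  | vert g, _ => g
  | edge g s _ _ _, b => if b then g * s else g

/-- the distances along the edge from a point to the two ends -/
def ps : CG S → Bool → ℝ
  | vert _, _ => 0
  | edge _ _ _ r _, b => if b then 1 - r else r

/-- the length of a shortest path through a vertex -/
noncomputable def via (x z : CG S) : ℝ :=
  ⨅ p : Bool × Bool, (x.ps p.1 + wd S (x.en p.1) (z.en p.2) + z.ps p.2)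

/-- two points in the interior of the same edge -/
def same : CG S → CG S → Prop
  | edge g s _ _ _, edge g' s' _ _ _ => g = g' ∧ s = s'
  | _, _ => False

open Classical in
/-- the distance of the Cayley graph: the length of a shortest path -/
noncomputable def dst (x z : CG S) : ℝ :=
  if same x z then min |x.ps false - z.ps false| (via x z) else via x z

end CG

/-! ## Morse elements and translation lengths -/

/-- `g` is a Morse element: `⟨g⟩` is undistorted, and for some gauge `M` any two elements of `⟨g⟩` are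
joined by an `M`-Morse geodesic of the Cayley graph -/
def IsMorseC (S : Set G) (g : G) : Prop :=
  (∃ C : ℝ, ∀ n : ℤ, ∃ m : ℤ, g ^ m = g ^ n ∧ |(m : ℝ)| ≤ C * wl S (g ^ n) + C) ∧
  ∃ M : ℝ → ℝ → ℝ, Gauge M ∧ ∀ i j : ℤ, ∃ (n : ℝ) (c : ℝ → CG S), 0 ≤ n ∧ c 0 = CG.vert (g ^ i) ∧
    c n = CG.vert (g ^ j) ∧ (∀ s ∈ Icc 0 n, ∀ t ∈ Icc 0 n, CG.dst (c s) (c t) = |s - t|) ∧
    Mrs CG.dst M 0 n c

/-- the set of the translation lengths `lim |g ^ n| / n` of the Morse elements `g` -/
def TSC (S : Set G) : Set ℝ :=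
  {τ | ∃ g : G, IsMorseC S g ∧ Tendsto (fun n : ℕ => (wl S (g ^ n) : ℝ) / n) atTop (𝓝 τ)}

end Cayley

end Pool.Agent.NH54.MG
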