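import Pool.Agent.NH54.MG.Stm

/-!
# MG-D2: paths which progress in the tree are uniformly Morse
-/

set_option autoImplicit false

open Set HNNExtension HNNExtension.NormalWord

namespace Pool.Agent.NH54.MG

namespace D2

variable (P : Par)

theorem tl_gen (h3 : S_TL) (x : P.G) (hx : x ∈ P.S ∨ x⁻¹ ∈ P.S) : tl P.th x ≤ 1 := by
  obtain ⟨-, -, h1, hinv, -, hof, -, ht, -⟩ := h3 K P.CK P.CK' P.th
  have hk : ∀ k : K, tl P.th (of k : P.G) = 0 := fun k => by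
    have := hof 1 k
    rw [mul_one, h1] at this
    exact this
  have key : ∀ z : P.G, z ∈ P.S → tl P.th z ≤ 1 := by
    rintro z (rfl | rfl | rfl | rfl | rfl)
    · rw [hk]
      exact Nat.zero_le _
    · rw [hk]
      exact Nat.zero_le _
    · rw [hk]
      exact Nat.zero_le _
    · rw [hk]
      exact Nat.zero_le _
    · rw [ht]
  rcases hx with hx | hx
  · exact key x hx
  · rw [← hinv]
    exact key _ hx

theorem tl_le (h1 : S_WL) (h2 : S_GEN) (h3 : S_TL) (g : P.G) : tl P.th g ≤ wl P.S g := by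
  obtain ⟨-, -, htl1, -, hmul, -, -, -, -⟩ := h3 K P.CK P.CK' P.th
  obtain ⟨-, -, -, -, -, -, hpath, -⟩ := h1 P.G P.S (h2 P).1
  obtain ⟨p, hp0, hp1, hst, -⟩ := hpath g
  have key : ∀ i : ℕ, i ≤ wl P.S g → tl P.th (p i) ≤ i := by
    intro i
    induction i with
    | zero =>
      intro _
      rw [hp0, htl1]
    | succ i ih =>
      intro hi
      have e : p (i + 1) = p i * ((p i)⁻¹ * p (i + 1)) := by group
      rw [e]
      refine le_trans (hmul _ _) ?_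
      have e1 := ih (by omega)
      have e2 := tl_gen P h3 _ (hst i (by omega))
      omega
  have := key _ le_rfl
  rwa [hp1] at this

theorem dT_le (h1 : S_WL) (h2 : S_GEN) (h3 : S_TL) (g h : P.G) : dT P.th g h ≤ wd P.S g h := by
  unfold dT wd
  exact_mod_cast tl_le P h1 h2 h3 _

theorem dT_tri (h3 : S_TL) (x y z : P.G) : dT P.th x z ≤ dT P.th x y + dT P.th y z := by
  obtain ⟨-, -, -, -, hmul, -, -, -, -⟩ := h3 K P.CK P.CK' P.th
  unfold dT
  have := hmul (x⁻¹ * y) (y⁻¹ * z)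
  have e : x⁻¹ * y * (y⁻¹ * z) = x⁻¹ * z := by group
  rw [e] at this
  exact_mod_cast this

/-- the core -/
theorem core (h1 : S_WL) (h2 : S_GEN) (h3 : S_TL) (h4 : S_DISC) (h5 : S_D2B) (κ : ℝ) (hκ : 1 ≤ κ)
    (l e : ℝ) (hl : 1 ≤ l) (he : 0 ≤ e) : ∃ B : ℝ, 0 ≤ B ∧ ∀ (a b : ℝ) (γ : ℝ → P.G),
      (∀ s ∈ Icc a b, ∀ s' ∈ Icc a b, |s - s'| ≤ κ * dT P.th (γ s) (γ s') + κ ∧
        wd P.S (γ s) (γ s') ≤ κ * |s - s'| + κ) →
      ∀ (a' b' : ℝ) (η : ℝ → P.G), a' ≤ b' → QG (wd P.S) l e a' b' η →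
      ∀ s0 ∈ Icc a b, ∀ s1 ∈ Icc a b, s0 ≤ s1 → γ s0 = η a' → γ s1 = η b' →
      ∀ t ∈ Icc a' b', ∃ s ∈ Icc a b, wd P.S (η t) (γ s) ≤ B := by
  have hκ0 : 0 ≤ κ := by linarith
  obtain ⟨C1, hC1, hd1⟩ := h4 κ κ hκ hκ0
  obtain ⟨C2, hC2, hd2⟩ := h4 l e hl he
  have hpm := (h1 P.G P.S (h2 P).1).1
  set κ' : ℝ := 2 * C1 ^ 2 * κ + C1 * κ + C1 + C2 with hκ'
  have hC1κ : 1 ≤ C1 * κ := one_le_mul_of_one_le_of_one_le hC1 hκ
  have hC1C1κ : 0 ≤ 2 * C1 ^ 2 * κ := by positivity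
  have hκ'1 : 1 ≤ κ' := by
    rw [hκ']
    linarith
  obtain ⟨R, hR⟩ := h5 P κ' hκ'1
  refine ⟨|R| + C1 + C2, by positivity, ?_⟩
  intro a b γ hγ a' b' η hab' hη s0 hs0 s1 hs1 h01 hg0 hg1 t ht
  have hsub : ∀ s ∈ Icc s0 s1, s ∈ Icc a b := fun s hs => ⟨hs0.1.trans hs.1, hs.2.trans hs1.2⟩
  have hQ : QG (wd P.S) κ κ s0 s1 γ := by
    intro s hs s' hs'
    obtain ⟨e1, e2⟩ := hγ s (hsub s hs) s' (hsub s' hs')
    refine ⟨?_, e2⟩
    have e3 := dT_le P h1 h2 h3 (γ s) (γ s')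
    have e4 : |s - s'| ≤ κ * (wd P.S (γ s) (γ s') + 1) := by
      nlinarith
    have e5 : |s - s'| / κ ≤ wd P.S (γ s) (γ s') + 1 := by
      rw [div_le_iff₀ (by linarith)]
      linarith
    linarith
  obtain ⟨L, r, f, hr0, hrL, hrD, hf0, hfL, hfm, hfd, -, hrf, -⟩ :=
    hd1 P.G P.S (h2 P).1 s0 s1 γ h01 hQ
  obtain ⟨L', p, f', hp0, hpL, hpD, -, -, -, -, hpd, -, hpη⟩ :=
    hd2 P.G P.S (h2 P).1 a' b' η hab' hη
  have hfI : ∀ i ≤ L, f i ∈ Icc s0 s1 := fun i hi => by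
    refine ⟨?_, ?_⟩
    · rw [← hf0]
      exact hfm 0 i (Nat.zero_le _) hi
    · rw [← hfL]
      exact hfm i L hi le_rfl
  have hprog : ∀ i j : ℕ, i ≤ j → j ≤ L → (j - i : ℝ) ≤ κ' * dT P.th (r i) (r j) + κ' := by
    intro i j hij hj
    have e1 := hfd i j hij hj
    have e2 := (hγ (f i) (hsub _ (hfI i (hij.trans hj))) (f j) (hsub _ (hfI j hj))).1
    have e3 : f j - f i ≤ |f i - f j| := by
      rw [abs_sub_comm]
      exact le_abs_self _
    have e4 := dT_tri P h3 (γ (f i)) (r i) (γ (f j))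
    have e5 := dT_tri P h3 (r i) (r j) (γ (f j))
    have e6 : dT P.th (γ (f i)) (r i) ≤ C1 := by
      refine (dT_le P h1 h2 h3 _ _).trans ?_
      rw [hpm.symm]
      exact hrf i (hij.trans hj)
    have e7 : dT P.th (r j) (γ (f j)) ≤ C1 := (dT_le P h1 h2 h3 _ _).trans (hrf j hj)
    have e8 : dT P.th (γ (f i)) (γ (f j)) ≤ dT P.th (r i) (r j) + 2 * C1 := by linarith
    have e9 : f j - f i ≤ κ * (dT P.th (r i) (r j) + 2 * C1) + κ := by
      have := mul_le_mul_of_nonneg_left e8 hκ0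
      linarith
    have e10 : (j - i : ℝ) ≤ C1 * (κ * (dT P.th (r i) (r j) + 2 * C1) + κ) + C1 := by
      have := mul_le_mul_of_nonneg_left e9 (by linarith : (0 : ℝ) ≤ C1)
      linarith
    have e11 : (0 : ℝ) ≤ dT P.th (r i) (r j) := by
      unfold dT
      positivity
    have e12 : C1 * κ * dT P.th (r i) (r j) ≤ κ' * dT P.th (r i) (r j) := by
      refine mul_le_mul_of_nonneg_right ?_ e11
      rw [hκ']
      linarith
    have e13 : C1 * (κ * (dT P.th (r i) (r j) + 2 * C1) + κ) + C1 =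
        C1 * κ * dT P.th (r i) (r j) + (2 * C1 ^ 2 * κ + C1 * κ + C1) := by ring
    rw [e13] at e10
    have e14 : 2 * C1 ^ 2 * κ + C1 * κ + C1 ≤ κ' := by
      rw [hκ']
      linarith
    linarith
  have hp' : ∀ i j : ℕ, i ≤ j → j ≤ L' → (j - i : ℝ) ≤ κ' * wd P.S (p i) (p j) + κ' := by
    intro i j hij hj
    have e1 := hpd i j hij hj
    have e2 : C2 ≤ κ' := by
      rw [hκ']
      linarith
    have e3 := mul_le_mul_of_nonneg_right e2 (hpm.nn (p i) (p j))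
    linarith
  obtain ⟨i, hi, hit⟩ := hpη t ht
  obtain ⟨j, hj, hij⟩ := hR L L' r p hrD hpD (by rw [hp0, hr0, hg0]) (by rw [hpL, hrL, hg1])
    hprog hp' i hi
  refine ⟨f j, hsub _ (hfI j hj), ?_⟩
  have e1 := hpm.tri (η t) (p i) (γ (f j))
  have e2 := hpm.tri (p i) (r j) (γ (f j))
  have e3 := hrf j hj
  have e4 := le_abs_self R
  linarith

end D2

open D2 in
/-- MG-D2 -/
theorem t_D2 (h1 : S_WL) (h2 : S_GEN) (h3 : S_TL) (h4 : S_DISC) (h5 : S_D2B) : S_D2 := by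
  classical
  intro P κ hκ
  have hcore := core P h1 h2 h3 h4 h5 κ hκ
  refine ⟨fun l e => if h : 1 ≤ l ∧ 0 ≤ e then (hcore l e h.1 h.2).choose else 0, ?_, ?_⟩
  · intro l e hl he
    show 0 ≤ (if h : 1 ≤ l ∧ 0 ≤ e then (hcore l e h.1 h.2).choose else 0)
    rw [dif_pos ⟨hl, he⟩]
    exact (hcore l e hl he).choose_spec.1
  · intro a b γ _ hγ l e hl he a' b' η hab' hη hs0 hs1 t ht
    show ∃ s ∈ Icc a b, wd P.S (η t) (γ s) ≤
      (if h : 1 ≤ l ∧ 0 ≤ e then (hcore l e h.1 h.2).choose else 0)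
    rw [dif_pos ⟨hl, he⟩]
    have key := (hcore l e hl he).choose_spec.2
    obtain ⟨s0, hs0, hg0⟩ := hs0
    obtain ⟨s1, hs1, hg1⟩ := hs1
    rcases le_total s0 s1 with h01 | h01
    · exact key a b γ hγ a' b' η hab' hη s0 hs0 s1 hs1 h01 hg0 hg1 t ht
    · have hneg : ∀ s ∈ Icc (-b) (-a), -s ∈ Icc a b := fun s hs =>
        ⟨by linarith [hs.2], by linarith [hs.1]⟩
      have hneg' : ∀ s ∈ Icc a b, -s ∈ Icc (-b) (-a) := fun s hs =>
        ⟨by linarith [hs.2], by linarith [hs.1]⟩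
      obtain ⟨s, hs, hle⟩ := key (-b) (-a) (fun x => γ (-x)) (fun s hs s' hs' => by
          have := hγ (-s) (hneg s hs) (-s') (hneg s' hs')
          have e : |(-s) - (-s')| = |s - s'| := by
            rw [← abs_neg]
            congr 1
            ring
          rwa [e] at this) a' b' η hab' hη (-s0) (hneg' s0 hs0) (-s1) (hneg' s1 hs1)
        (by linarith) (by simpa using hg0) (by simpa using hg1) t ht
      exact ⟨-s, hneg s hs, hle⟩

end Pool.Agent.NH54.MG
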