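import Pool.Agent.NH54.MG.Cay

/-!
# Project MG (helper54), MP_284ea2_al: definitions

A finitely generated Morse local-to-global group whose Morse elements have a non-discrete set of translation
lengths. Paper proof: `NOTES.md` in this folder.
-/

set_option autoImplicit false

open Set Filter Topology

namespace Pool.Agent.NH54.MG

/-! ## Coarse geometry (distance functions on arbitrary types) -/

section Coarse

variable {X : Type}

/-- metric axioms (for pseudo-distances) -/
structure PM (d : X → X → ℝ) : Prop where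
  self : ∀ x, d x x = 0
  nn : ∀ x y, 0 ≤ d x y
  symm : ∀ x y, d x y = d y x
  tri : ∀ x y z, d x z ≤ d x y + d y z

/-- `0`-hyperbolic: the Gromov product inequality -/
def Hyp0 (d : X → X → ℝ) : Prop :=
  ∀ p x y z : X, min (d p x + d p y - d x y) (d p y + d p z - d y z) ≤ d p x + d p z - d x z

end Coarse

/-! ## Word lengths, Morse elements, translation lengths -/

section Word

variable {G : Type} [Group G]

/-- `g` is a Morse element: `⟨g⟩` is undistorted, and for some gauge `M` any two elements of `⟨g⟩` are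
joined by an `M`-Morse geodesic -/
def IsMorseEl (S : Set G) (g : G) : Prop :=
  (∃ C : ℝ, ∀ n : ℤ, ∃ m : ℤ, g ^ m = g ^ n ∧ |(m : ℝ)| ≤ C * wl S (g ^ n) + C) ∧
  ∃ M : ℝ → ℝ → ℝ, Gauge M ∧ ∀ i j : ℤ, ∃ (n : ℕ) (c : ℕ → G), c 0 = g ^ i ∧ c n = g ^ j ∧
    (∀ k ≤ n, ∀ l ≤ n, wd S (c k) (c l) = |(k : ℝ) - l|) ∧ Mrs (wd S) M 0 n (fun t => c ⌊t⌋₊)

/-- the set of the translation lengths of Morse elements -/
def TS (S : Set G) : Set ℝ :=
  {τ | ∃ g : G, IsMorseEl S g ∧ Tendsto (fun n : ℕ => (wl S (g ^ n) : ℝ) / n) atTop (𝓝 τ)}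

end Word

/-! ## The free group `N` on `ℤ`, the group `D = N ⋊ ℤ` and the group `K = A ≀ D` -/

/-- the free group with basis `y p`, `p ∈ ℤ` -/
abbrev N : Type := FreeGroup ℤ

/-- the basis of `N` -/
abbrev y (p : ℤ) : N := FreeGroup.of p

/-- the shift of `N` by `t` -/
def sh (t : ℤ) : N ≃* N := FreeGroup.freeGroupCongr (Equiv.addRight t)

@[simp] theorem sh_y (t p : ℤ) : sh t (y p) = y (p + t) := by
  simp [sh, y]

theorem sh_zero (u : N) : sh 0 u = u := by
  have h : (sh 0).toMonoidHom = MonoidHom.id N := by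
    ext p
    show sh 0 (y p) = y p
    rw [sh_y, add_zero]
  exact DFunLike.congr_fun h u

theorem sh_add (s t : ℤ) (u : N) : sh (s + t) u = sh s (sh t u) := by
  have h : (sh (s + t)).toMonoidHom = (sh s).toMonoidHom.comp (sh t).toMonoidHom := by
    ext p
    show sh (s + t) (y p) = sh s (sh t (y p))
    rw [sh_y, sh_y, sh_y]
    congr 1
    ring
  exact DFunLike.congr_fun h u

/-- the group `D = N ⋊ ℤ`, a free group with basis `⟨1, 1⟩`, `⟨y 0, 0⟩` -/
@[ext] structure D where
  /-- the element of `N` -/
  u : N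
  /-- the exponent -/
  t : ℤ

namespace D

instance : Mul D := ⟨fun x z => ⟨x.u * sh x.t z.u, x.t + z.t⟩⟩
instance : One D := ⟨⟨1, 0⟩⟩
instance : Inv D := ⟨fun x => ⟨sh (-x.t) x.u⁻¹, -x.t⟩⟩

@[simp] theorem mul_u (x z : D) : (x * z).u = x.u * sh x.t z.u := rfl
@[simp] theorem mul_t (x z : D) : (x * z).t = x.t + z.t := rfl
@[simp] theorem one_u : (1 : D).u = 1 := rfl
@[simp] theorem one_t : (1 : D).t = 0 := rfl
@[simp] theorem inv_u (x : D) : (x⁻¹).u = sh (-x.t) x.u⁻¹ := rfl
@[simp] theorem inv_t (x : D) : (x⁻¹).t = -x.t := rfl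

instance : Group D := Group.ofLeftAxioms
  (fun x z w => by
    ext1
    · simp only [mul_u, mul_t, map_mul, sh_add, mul_assoc]
    · simp only [mul_t, add_assoc])
  (fun x => by
    ext1
    · simp only [mul_u, one_u, one_t, sh_zero, one_mul]
    · simp only [mul_t, one_t, zero_add])
  (fun x => by
    ext1
    · simp only [mul_u, inv_u, inv_t, one_u, ← map_mul, inv_mul_cancel, map_one]
    · simp only [mul_t, inv_t, one_t, neg_add_cancel])

end D

/-- the embedding of `N` into `D` -/
def iD : N →* D where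
  toFun u := ⟨u, 0⟩
  map_one' := rfl
  map_mul' u v := by
    ext1
    · simp only [D.mul_u, sh_zero]
    · simp only [D.mul_t, add_zero]

/-- the lamp group, a free group of rank two -/
abbrev LA : Type := FreeGroup Bool

/-- the wreath product `K = LA ≀ D` (finitely supported lamps) -/
@[ext] structure K where
  /-- the lamps -/
  v : D → LA
  /-- finite support -/
  fin : (Function.mulSupport v).Finite
  /-- the position -/
  δ : D

namespace K

instance : Mul K := ⟨fun x z => ⟨fun p => x.v p * z.v (x.δ⁻¹ * p), by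
  refine (x.fin.union (z.fin.preimage (f := fun p => x.δ⁻¹ * p)
    (mul_right_injective x.δ⁻¹).injOn)).subset fun p hp => ?_
  by_contra h
  simp only [Set.mem_union, Set.mem_preimage, Function.mem_mulSupport, not_or, not_not] at h
  exact hp (by simp only [h.1, h.2, mul_one]), x.δ * z.δ⟩⟩
instance : One K := ⟨⟨1, by simp, 1⟩⟩
instance : Inv K := ⟨fun x => ⟨fun p => (x.v (x.δ * p))⁻¹, by
  refine (x.fin.preimage (f := fun p => x.δ * p) (mul_right_injective x.δ).injOn).subset
    fun p hp => ?_
  by_contra h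
  simp only [Set.mem_preimage, Function.mem_mulSupport, not_not] at h
  exact hp (by simp only [h, inv_one]), x.δ⁻¹⟩⟩

@[simp] theorem mul_v (x z : K) (p : D) : (x * z).v p = x.v p * z.v (x.δ⁻¹ * p) := rfl
@[simp] theorem mul_δ (x z : K) : (x * z).δ = x.δ * z.δ := rfl
@[simp] theorem one_v (p : D) : (1 : K).v p = 1 := rfl
@[simp] theorem one_δ : (1 : K).δ = 1 := rfl
@[simp] theorem inv_v (x : K) (p : D) : (x⁻¹).v p = (x.v (x.δ * p))⁻¹ := rfl
@[simp] theorem inv_δ (x : K) : (x⁻¹).δ = x.δ⁻¹ := rfl

instance : Group K := Group.ofLeftAxioms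
  (fun x z w => by
    apply K.ext
    · funext p
      simp only [mul_v, mul_δ, mul_inv_rev, mul_assoc]
    · simp only [mul_δ, mul_assoc])
  (fun x => by
    apply K.ext
    · funext p
      simp only [mul_v, one_v, one_δ, inv_one, one_mul]
    · simp only [mul_δ, one_δ, one_mul])
  (fun x => by
    apply K.ext
    · funext p
      simp only [mul_v, inv_v, inv_δ, inv_inv, one_v, inv_mul_cancel]
    · simp only [mul_δ, inv_δ, one_δ, inv_mul_cancel])

end K

/-- the embedding of `D` into `K` -/
def iK : D →* K where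
  toFun x := ⟨1, by simp, x⟩
  map_one' := rfl
  map_mul' x z := by
    apply K.ext
    · funext p
      simp only [K.mul_v, Pi.one_apply, mul_one]
    · rfl

/-- the embedding of `N` into `K` -/
def jN : N →* K := iK.comp iD

theorem jN_inj : Function.Injective jN := fun u v h => by
  have := congrArg (fun k : K => k.δ.u) h
  exact this

open Classical in
/-- the lamp `x` at the position `1` -/
noncomputable def lamp (x : LA) : K := ⟨fun p => if p = 1 then x else 1, by
  refine (Set.finite_singleton (1 : D)).subset fun p hp => ?_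
  by_contra h
  exact hp (if_neg h), 1⟩

/-! ## Parameters -/

/-- the parameters: `σ n = 4 ^ s n`, the letters `4 ^ (a n + j)`, `j < q n`, of the type `n`, and the
truncation `F n` of the norm of the type `n` -/
structure Par where
  /-- exponent of `σ n` -/
  s : ℕ → ℕ
  /-- the number of strands -/
  q : ℕ → ℕ
  /-- first exponent of the type `n` -/
  a : ℕ → ℕ
  /-- the truncation -/
  F : ℕ → ℕ
  q2 : ∀ n, 2 ≤ q n
  sa : ∀ n, s n < a n
  as : ∀ n, a n + q n ≤ s (n + 1)
  qs : ∀ n, (n + 1) * (2 * 4 ^ s n + 1) ≤ q n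
  Fa : ∀ n, F n * 4 ^ s n ≤ 4 ^ a n
  Fq : ∀ n, 8 * (n + 1) * (q n + 2) ≤ F n

variable (P : Par)

/-- the letter `σ n` -/
def Par.sg (n : ℕ) : ℤ := 4 ^ P.s n

/-- the letter `j` of the type `n` -/
def Par.al (n j : ℕ) : ℤ := 4 ^ (P.a n + j)

open Classical in
/-- `some (n, j)` for the letter `al n j` with `j < q n`, `none` otherwise -/
noncomputable def Par.dec (p : ℤ) : Option (ℕ × ℕ) :=
  if h : ∃ x : ℕ × ℕ, x.2 < P.q x.1 ∧ p = P.al x.1 x.2 then some h.choose else none

theorem Par.a_mono {m n : ℕ} (h : m < n) : P.a m + P.q m ≤ P.s n := by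
  induction n with
  | zero => omega
  | succ n ih =>
    rcases Nat.lt_succ_iff_lt_or_eq.1 h with h | rfl
    · have h1 := ih h
      have h2 := P.sa n
      have h3 := P.as n
      omega
    · exact P.as m

theorem Par.al_inj {n j m i : ℕ} (hj : j < P.q n) (hi : i < P.q m) (h : P.al n j = P.al m i) :
    n = m ∧ j = i := by
  have h1 : P.a n + j = P.a m + i := by
    have : (4 : ℕ) ^ (P.a n + j) = 4 ^ (P.a m + i) := by
      have := h
      simp only [Par.al] at this
      exact_mod_cast this
    exact Nat.pow_right_injective (by norm_num) this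
  rcases lt_trichotomy n m with hlt | rfl | hlt
  · have := P.a_mono hlt
    have := P.sa m
    omega
  · exact ⟨rfl, by omega⟩
  · have := P.a_mono hlt
    have := P.sa n
    omega

theorem Par.al_ne_sg {n j m : ℕ} (hj : j < P.q n) : P.al n j ≠ P.sg m := by
  intro h
  have h1 : P.a n + j = P.s m := by
    have : (4 : ℕ) ^ (P.a n + j) = 4 ^ P.s m := by
      have := h
      simp only [Par.al, Par.sg] at this
      exact_mod_cast this
    exact Nat.pow_right_injective (by norm_num) this
  rcases lt_or_ge n m with hlt | hge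
  · have := P.a_mono hlt
    omega
  · rcases eq_or_lt_of_le hge with rfl | hlt
    · have := P.sa m
      omega
    · have := P.a_mono hlt
      have := P.sa m
      have := P.sa n
      omega

theorem Par.dec_al {n j : ℕ} (hj : j < P.q n) : P.dec (P.al n j) = some (n, j) := by
  classical
  have hex : ∃ x : ℕ × ℕ, x.2 < P.q x.1 ∧ P.al n j = P.al x.1 x.2 := ⟨(n, j), hj, rfl⟩
  rw [Par.dec, dif_pos hex]
  obtain ⟨h1, h2⟩ := P.al_inj hj hex.choose_spec.1 hex.choose_spec.2
  rw [← Prod.mk.eta (p := hex.choose), ← h1, ← h2]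

theorem Par.dec_sg (m : ℕ) : P.dec (P.sg m) = none := by
  classical
  rw [Par.dec, dif_neg]
  rintro ⟨x, hx, h⟩
  exact P.al_ne_sg hx h.symm

theorem Par.dec_some {p : ℤ} {x : ℕ × ℕ} (h : P.dec p = some x) :
    x.2 < P.q x.1 ∧ p = P.al x.1 x.2 := by
  classical
  by_cases hex : ∃ x : ℕ × ℕ, x.2 < P.q x.1 ∧ p = P.al x.1 x.2
  · rw [Par.dec, dif_pos hex] at h
    obtain rfl := Option.some.inj h
    exact hex.choose_spec
  · rw [Par.dec, dif_neg hex] at h
    cases h

/-- the images of the letters under the shift `Θ`: the letter `j` of the type `n` goes to the letter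
`j + 1`, the last one to `al n 0 * sg n` -/
noncomputable def Par.thL (p : ℤ) : N :=
  match P.dec p with
  | none => y p
  | some x => if x.2 + 1 < P.q x.1 then y (P.al x.1 (x.2 + 1)) else y (P.al x.1 0) * y (P.sg x.1)

/-- the images of the letters under the inverse of `Θ` -/
noncomputable def Par.thR (p : ℤ) : N :=
  match P.dec p with
  | none => y p
  | some x => if x.2 = 0 then y (P.al x.1 (P.q x.1 - 1)) * (y (P.sg x.1))⁻¹
      else y (P.al x.1 (x.2 - 1))

/-- the shift `Θ`, an automorphism of `N` -/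
noncomputable def Par.Th : N ≃* N :=
  MonoidHom.toMulEquiv (FreeGroup.lift P.thL) (FreeGroup.lift P.thR)
    (by
      ext p
      simp only [MonoidHom.comp_apply, FreeGroup.lift_apply_of, MonoidHom.id_apply]
      rcases h : P.dec p with _ | x
      · simp only [Par.thL, h, y, FreeGroup.lift_apply_of, Par.thR]
      · obtain ⟨h1, h2⟩ := P.dec_some h
        have hq := P.q2 x.1
        simp only [Par.thL, h]
        split_ifs with h3
        · simp only [y, FreeGroup.lift_apply_of, Par.thR, P.dec_al h3]
          rw [if_neg (by omega), h2, Nat.add_sub_cancel]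
        · simp only [y, map_mul, FreeGroup.lift_apply_of, Par.thR, P.dec_al (show 0 < P.q x.1 by omega),
            P.dec_sg, if_true]
          rw [inv_mul_cancel_right, h2, show P.q x.1 - 1 = x.2 by omega])
    (by
      ext p
      simp only [MonoidHom.comp_apply, FreeGroup.lift_apply_of, MonoidHom.id_apply]
      rcases h : P.dec p with _ | x
      · simp only [Par.thL, h, y, FreeGroup.lift_apply_of, Par.thR]
      · obtain ⟨h1, h2⟩ := P.dec_some h
        have hq := P.q2 x.1
        simp only [Par.thR, h]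
        split_ifs with h3
        · simp only [y, map_mul, map_inv, FreeGroup.lift_apply_of, Par.thL,
            P.dec_al (show P.q x.1 - 1 < P.q x.1 by omega), P.dec_sg]
          rw [if_neg (by omega), mul_inv_cancel_right, h2, h3]
        · simp only [y, FreeGroup.lift_apply_of, Par.thL,
            P.dec_al (show x.2 - 1 < P.q x.1 by omega)]
          rw [if_pos (by omega), h2, show x.2 - 1 + 1 = x.2 by omega])

/-- the subgroup `C` of `N`, generated by the `(al n i)⁻¹ * al n j` -/
def Par.CN : Subgroup N :=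
  Subgroup.closure {x | ∃ n i j : ℕ, i < P.q n ∧ j < P.q n ∧ x = (y (P.al n i))⁻¹ * y (P.al n j)}

/-- the subgroup `C' = Θ C` of `N` -/
noncomputable def Par.CN' : Subgroup N := P.CN.map (P.Th : N →* N)

/-- `C` as a subgroup of `K` -/
def Par.CK : Subgroup K := P.CN.map jN

/-- `C'` as a subgroup of `K` -/
noncomputable def Par.CK' : Subgroup K := P.CN'.map jN

/-- the isomorphism of `C` and `C'` -/
noncomputable def Par.th : P.CK ≃* P.CK' :=
  (P.CN.equivMapOfInjective jN jN_inj).symm.trans
    ((P.Th.subgroupMap P.CN).trans (P.CN'.equivMapOfInjective jN jN_inj))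

/-- the group: `t * c = θ c * t` for `c ∈ C` -/
abbrev Par.G : Type := HNNExtension K P.CK P.CK' P.th

/-- the generating set: `a`, `b`, two lamps and `t` -/
def Par.S : Set P.G :=
  {HNNExtension.of (iK ⟨1, 1⟩), HNNExtension.of (iK ⟨y 0, 0⟩),
    HNNExtension.of (lamp (FreeGroup.of true)), HNNExtension.of (lamp (FreeGroup.of false)),
    HNNExtension.t}

end Pool.Agent.NH54.MG
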