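import Pool.Agent.NH54.MG.Stm

/-!
# Project MG: the assembly
-/

set_option autoImplicit false

open Set Filter Topology HNNExtension HNNExtension.NormalWord

namespace Pool.Agent.NH54.MG

namespace FIN

/-- the reduced word of `t ^ n` -/
def wt {K₀ : Type} [Group K₀] (A B : Subgroup K₀) (n : ℕ) : ReducedWord K₀ A B where
  head := 1
  toList := List.replicate n (1, 1)
  chain := by
    refine List.isChain_replicate_of_rel n ?_
    intro _
    rfl

theorem wt_prod {K₀ : Type} [Group K₀] {A B : Subgroup K₀} (φ : A ≃* B) (n : ℕ) :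
    (wt A B n).prod φ = t ^ n := by
  unfold wt ReducedWord.prod
  rw [List.map_replicate, List.prod_replicate, map_one, one_mul, mul_one]
  simp

theorem tl_t (h3 : S_TL) {K₀ : Type} [Group K₀] {A B : Subgroup K₀} (φ : A ≃* B) (n : ℕ) :
    tl φ (t ^ n) = n := by
  have h := (h3 K₀ A B φ).1 (wt A B n)
  rw [wt_prod] at h
  rw [h]
  exact List.length_replicate

theorem tl_gen (h3 : S_TL) (P : Par) {s : P.G} (hs : s ∈ P.S) : tl P.th s ≤ 1 := by
  obtain ⟨-, -, h1, -, -, h2, -, ht, -⟩ := h3 K P.CK P.CK' P.th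
  have hof : ∀ k : K, tl P.th (of k) = 0 := fun k => by
    have := h2 1 k
    rw [mul_one, h1] at this
    exact this
  rcases hs with rfl | rfl | rfl | rfl | rfl
  · rw [hof]; exact Nat.zero_le _
  · rw [hof]; exact Nat.zero_le _
  · rw [hof]; exact Nat.zero_le _
  · rw [hof]; exact Nat.zero_le _
  · rw [ht]

theorem tl_le (h1 : S_WL) (h2 : S_GEN) (h3 : S_TL) (P : Par) (g : P.G) :
    tl P.th g ≤ wl P.S g := by
  obtain ⟨-, -, -, -, -, -, hg, -⟩ := h1 P.G P.S (h2 P).1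
  obtain ⟨-, -, t1, ti, tm, -, -, -, -⟩ := h3 K P.CK P.CK' P.th
  obtain ⟨p, hp0, hpg, hp, -⟩ := hg g
  have key : ∀ i ≤ wl P.S g, tl P.th (p i) ≤ i := by
    intro i
    induction i with
    | zero =>
      intro _
      rw [hp0, t1]
    | succ i ih =>
      intro hi
      have h4 := ih (by omega)
      have h5 : tl P.th ((p i)⁻¹ * p (i + 1)) ≤ 1 := by
        rcases hp i (by omega) with h | h
        · exact tl_gen h3 P h
        · rw [← ti]
          exact tl_gen h3 P h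
      have h6 := tm (p i) ((p i)⁻¹ * p (i + 1))
      rw [mul_inv_cancel_left] at h6
      omega
  have := key _ le_rfl
  rwa [hpg] at this

theorem wl_t (h1 : S_WL) (h2 : S_GEN) (h3 : S_TL) (P : Par) (n : ℕ) :
    wl P.S ((t : P.G) ^ n) = n := by
  obtain ⟨-, -, h0, -, hm, hs, -, -⟩ := h1 P.G P.S (h2 P).1
  refine le_antisymm ?_ ?_
  · induction n with
    | zero => rw [pow_zero, h0]
    | succ n ih =>
      rw [pow_succ]
      have h4 := hm ((t : P.G) ^ n) t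
      have h5 := hs t (by
        unfold Par.S
        simp)
      omega
  · have := tl_le h1 h2 h3 P ((t : P.G) ^ n)
    rwa [tl_t h3] at this

/-- the limit of a sequence with a linear lower bound -/
theorem lim_low {W : ℕ → ℕ} {τ : ℝ} {q A C : ℕ} (hq : 0 < q)
    (h : Tendsto (fun n : ℕ => (W n : ℝ) / n) atTop (𝓝 τ))
    (hl : ∀ m : ℕ, A * m ≤ W (q * m) + C) : (A : ℝ) / q ≤ τ := by
  have hq' : (0 : ℝ) < q := by exact_mod_cast hq
  have h1 : Tendsto (fun m : ℕ => (W (q * m) : ℝ) / ((q * m : ℕ) : ℝ)) atTop (𝓝 τ) :=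
    h.comp (Filter.tendsto_id.const_mul_atTop' hq)
  have h2 : Tendsto (fun m : ℕ => (A : ℝ) / q - (C : ℝ) / q * (1 / (m : ℝ))) atTop
      (𝓝 ((A : ℝ) / q - (C : ℝ) / q * 0)) :=
    tendsto_const_nhds.sub (tendsto_one_div_atTop_nhds_zero_nat.const_mul _)
  rw [mul_zero, sub_zero] at h2
  refine le_of_tendsto_of_tendsto h2 h1 ?_
  filter_upwards [eventually_ge_atTop 1] with m hm
  have hm' : (0 : ℝ) < m := by exact_mod_cast hm
  have h3 : (A : ℝ) * m ≤ W (q * m) + C := by exact_mod_cast hl m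
  rw [sub_le_iff_le_add]
  calc (A : ℝ) / q = ((A : ℝ) * m) / (q * m) := by field_simp
    _ ≤ (W (q * m) + C) / (q * m) := by gcongr
    _ = (W (q * m) : ℝ) / ((q * m : ℕ) : ℝ) + (C : ℝ) / q * (1 / (m : ℝ)) := by
      push_cast
      field_simp

/-- the limit of a sequence with a linear upper bound -/
theorem lim_up {W : ℕ → ℕ} {τ : ℝ} {q A C : ℕ} (hq : 0 < q)
    (h : Tendsto (fun n : ℕ => (W n : ℝ) / n) atTop (𝓝 τ))
    (hl : ∀ m : ℕ, W (q * m) ≤ A * m + C) : τ ≤ (A : ℝ) / q := by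
  have hq' : (0 : ℝ) < q := by exact_mod_cast hq
  have h1 : Tendsto (fun m : ℕ => (W (q * m) : ℝ) / ((q * m : ℕ) : ℝ)) atTop (𝓝 τ) :=
    h.comp (Filter.tendsto_id.const_mul_atTop' hq)
  have h2 : Tendsto (fun m : ℕ => (A : ℝ) / q + (C : ℝ) / q * (1 / (m : ℝ))) atTop
      (𝓝 ((A : ℝ) / q + (C : ℝ) / q * 0)) :=
    tendsto_const_nhds.add (tendsto_one_div_atTop_nhds_zero_nat.const_mul _)
  rw [mul_zero, add_zero] at h2
  refine le_of_tendsto_of_tendsto h1 h2 ?_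
  filter_upwards [eventually_ge_atTop 1] with m hm
  have hm' : (0 : ℝ) < m := by exact_mod_cast hm
  have h3 : (W (q * m) : ℝ) ≤ (A : ℝ) * m + C := by exact_mod_cast hl m
  calc (W (q * m) : ℝ) / ((q * m : ℕ) : ℝ) = (W (q * m) : ℝ) / (q * m) := by push_cast; rfl
    _ ≤ ((A : ℝ) * m + C) / (q * m) := by gcongr
    _ = (A : ℝ) / q + (C : ℝ) / q * (1 / (m : ℝ)) := by field_simp

end FIN

open FIN in
theorem t_FIN (h1 : S_WL) (h2 : S_GEN) (h3 : S_TL) (h4 : S_LG) (h5 : S_MOR) (h6 : S_PN)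
    (h7 : S_UP) (h8 : S_LOW) (h9 : S_TEND) (h10 : S_PAR) : S_FIN := by
  obtain ⟨P⟩ := h10
  refine ⟨P, (h2 P).2, (h2 P).1, h4 P, 1, ⟨t, h5 P t fun n => ?_, ?_⟩, fun δ hδ => ?_⟩
  · rw [tl_t h3]
  · refine tendsto_const_nhds.congr' ?_
    filter_upwards [eventually_ge_atTop 1] with n hn
    have hn' : (n : ℝ) ≠ 0 := by
      have : n ≠ 0 := by omega
      exact_mod_cast this
    rw [wl_t h1 h2 h3, div_self hn']
  · obtain ⟨n, hn⟩ := exists_nat_one_div_lt hδ
    obtain ⟨τ, hτ⟩ := h9 P.G P.S (h2 P).1 (pn P n)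
    obtain ⟨C, hC⟩ := h7 P n
    obtain ⟨C', hC'⟩ := h8 P n
    have hq := P.q2 n
    have hq0 : 0 < P.q n := by omega
    have hqr : (0 : ℝ) < P.q n := by exact_mod_cast hq0
    have l1 : ((P.q n + 1 : ℕ) : ℝ) / P.q n ≤ τ := lim_low hq0 hτ hC'
    have l2 : τ ≤ ((P.q n + (2 * 4 ^ P.s n + 1) : ℕ) : ℝ) / P.q n := lim_up hq0 hτ hC
    have e1 : ((P.q n + 1 : ℕ) : ℝ) / P.q n = 1 + 1 / P.q n := by
      push_cast
      field_simp
    have e2 : ((P.q n + (2 * 4 ^ P.s n + 1) : ℕ) : ℝ) / P.q n =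
        1 + ((2 * 4 ^ P.s n + 1 : ℕ) : ℝ) / P.q n := by
      push_cast
      field_simp
    have e3 : ((2 * 4 ^ P.s n + 1 : ℕ) : ℝ) / P.q n ≤ 1 / ((n : ℝ) + 1) := by
      rw [div_le_div_iff₀ hqr (by positivity)]
      have := P.qs n
      have h : (((n + 1) * (2 * 4 ^ P.s n + 1) : ℕ) : ℝ) ≤ P.q n := by exact_mod_cast this
      push_cast at h ⊢
      linarith
    have e4 : 0 < 1 / (P.q n : ℝ) := by positivity
    rw [e1] at l1
    rw [e2] at l2
    refine ⟨τ, ⟨pn P n, h5 P (pn P n) fun m => ?_, hτ⟩, ?_, ?_⟩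
    · rw [(h6 P n).2 m]
    · intro h
      rw [h] at l1
      linarith
    · rw [abs_lt]
      constructor <;> linarith

end Pool.Agent.NH54.MG
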