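import Pool.Agent.NH54.MG.Stm3
import Pool.Agent.NH54.MG.FIN

/-!
# Project MG: the assembly for the Cayley graph
-/

set_option autoImplicit false

open Set Filter Topology HNNExtension HNNExtension.NormalWord

namespace Pool.Agent.NH54.MG

namespace FINC

/-- elements which progress in the tree are Morse -/
theorem mor (h2 : S_GEN) (h5 : S_MOR) (h12 : S_TRM) (h13 : S_CGM) (h14 : S_CGG) (P : Par) (g : P.G)
    (hg : ∀ n : ℕ, n ≤ tl P.th (g ^ n)) : IsMorseC P.S g := by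
  refine ⟨(h5 P g hg).1, ?_⟩
  have hS := (h2 P).1
  obtain ⟨M, hM, hall⟩ := h12 P g hg (CG P.S) CG.dst CG.vert (h13 P.G P.S hS).1
  refine ⟨M, hM, fun i j => ?_⟩
  obtain ⟨c, hc0, hc1, hc⟩ := h14 P.G P.S hS (g ^ i) (g ^ j)
  exact ⟨_, c, Nat.cast_nonneg _, hc0, hc1, hc, hall i j _ c (Nat.cast_nonneg _) hc0 hc1 hc⟩

end FINC

open FIN in
theorem t_FINC (h1 : S_WL) (h2 : S_GEN) (h3 : S_TL) (h4 : S_LG) (h5 : S_MOR) (h6 : S_PN)
    (h7 : S_UP) (h8 : S_LOW) (h9 : S_TEND) (h10 : S_PAR) (h11 : S_TRA) (h12 : S_TRM)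
    (h13 : S_CGM) (h14 : S_CGG) : S_FINC := by
  obtain ⟨P⟩ := h10
  have hmor := FINC.mor h2 h5 h12 h13 h14 P
  refine ⟨P, (h2 P).2, (h2 P).1, h11 P.G P.S (h2 P).1 (h4 P) (CG P.S) CG.dst CG.vert
    (h13 P.G P.S (h2 P).1).1, ⟨t, hmor t fun n => ?_, ?_⟩, fun δ hδ => ?_⟩
  · rw [tl_t h3]
  · refine tendsto_const_nhds.congr' ?_
    filter_upwards [eventually_ge_atTop 1] with n hn
    have hn' : (n : ℝ) ≠ 0 := by
      have : n ≠ 0 := by omega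
      exact_mod_cast this
    rw [wl_t h1 h2 h3, div_self hn']
  · obtain ⟨n, hn⟩ := exists_nat_one_div_lt hδ
    obtain ⟨τ, hτ⟩ := h9 P.G P.S (h2 P).1 (pn P n)
    obtain ⟨C, hC⟩ := h7 P n
    obtain ⟨C', hC'⟩ := h8 P n
    have hq := P.q2 n
    have hq0 : 0 < P.q n := by omega
    have hqr : (0 : ℝ) < P.q n := by exact_mod_cast hq0
    have l1 : ((P.q n + 1 : ℕ) : ℝ) / P.q n ≤ τ := lim_low hq0 hτ hC'
    have l2 : τ ≤ ((P.q n + (2 * 4 ^ P.s n + 1) : ℕ) : ℝ) / P.q n := lim_up hq0 hτ hC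
    have e1 : ((P.q n + 1 : ℕ) : ℝ) / P.q n = 1 + 1 / P.q n := by
      push_cast
      field_simp
    have e2 : ((P.q n + (2 * 4 ^ P.s n + 1) : ℕ) : ℝ) / P.q n =
        1 + ((2 * 4 ^ P.s n + 1 : ℕ) : ℝ) / P.q n := by
      push_cast
      field_simp
    have e3 : ((2 * 4 ^ P.s n + 1 : ℕ) : ℝ) / P.q n ≤ 1 / ((n : ℝ) + 1) := by
      rw [div_le_div_iff₀ hqr (by positivity)]
      have := P.qs n
      have h : (((n + 1) * (2 * 4 ^ P.s n + 1) : ℕ) : ℝ) ≤ P.q n := by exact_mod_cast this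
      push_cast at h ⊢
      linarith
    have e4 : 0 < 1 / (P.q n : ℝ) := by positivity
    rw [e1] at l1
    rw [e2] at l2
    refine ⟨τ, ⟨pn P n, hmor (pn P n) fun m => ?_, hτ⟩, ?_, ?_⟩
    · rw [(h6 P n).2 m]
    · linarith
    · linarith

end Pool.Agent.NH54.MG
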