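import Pool.Agent.NH54.MG.Stm

/-!
# Project MG: subadditivity of the letter norms (MG-SUB)
-/

set_option autoImplicit false

open Set

namespace Pool.Agent.NH54.MG

namespace SUB

theorem foldr_le (L : List ℕ) (m : ℕ) : L.foldr max 0 ≤ m ↔ ∀ x ∈ L, x ≤ m := by
  induction L with
  | nil => simp
  | cons a L ih => simp [ih]

theorem mN_le (u : N) (m : ℕ) : mN u ≤ m ↔ ∀ x ∈ u.toWord, x.1.natAbs ≤ m := by
  rw [mN, foldr_le]
  simp only [List.mem_map, forall_exists_index, and_imp, forall_apply_eq_imp_iff₂]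

theorem letter_le (u : N) (x : ℤ × Bool) (hx : x ∈ u.toWord) : x.1.natAbs ≤ mN u :=
  (mN_le u (mN u)).1 le_rfl x hx

/-- it is enough to bound the letters of any word which represents the element -/
theorem mN_mk_le (L : List (ℤ × Bool)) (m : ℕ) (h : ∀ x ∈ L, x.1.natAbs ≤ m) :
    mN (FreeGroup.mk L) ≤ m := by
  rw [mN_le, FreeGroup.toWord_mk]
  intro x hx
  exact h x ((FreeGroup.Red.sublist FreeGroup.reduce.red).subset hx)

theorem mN_mul (u v : N) : mN (u * v) ≤ max (mN u) (mN v) := by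
  rw [mN_le]
  intro x hx
  have hx' := (FreeGroup.toWord_mul_sublist u v).subset hx
  rw [List.mem_append] at hx'
  rcases hx' with h | h
  · exact (letter_le u x h).trans (le_max_left _ _)
  · exact (letter_le v x h).trans (le_max_right _ _)

theorem mN_inv_le (u : N) : mN u⁻¹ ≤ mN u := by
  have h : u⁻¹ = FreeGroup.mk (FreeGroup.invRev u.toWord) := by
    conv_lhs => rw [← FreeGroup.mk_toWord (x := u)]
    rw [FreeGroup.inv_mk]
  rw [h]
  apply mN_mk_le
  intro x hx
  simp only [FreeGroup.invRev, List.mem_reverse, List.mem_map] at hx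
  obtain ⟨z, hz, rfl⟩ := hx
  exact letter_le u z hz

theorem mN_inv (u : N) : mN u⁻¹ = mN u := by
  refine le_antisymm (mN_inv_le u) ?_
  have := mN_inv_le u⁻¹
  rwa [inv_inv] at this

theorem mN_sh (u : N) (t : ℤ) : mN (sh t u) ≤ mN u + t.natAbs := by
  have h : sh t u = FreeGroup.mk (u.toWord.map (fun x => (x.1 + t, x.2))) := by
    conv_lhs => rw [← FreeGroup.mk_toWord (x := u)]
    rfl
  rw [h]
  apply mN_mk_le
  intro x hx
  rw [List.mem_map] at hx
  obtain ⟨z, hz, rfl⟩ := hx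
  have h1 := letter_le u z hz
  have h2 := Int.natAbs_add_le z.1 t
  show (z.1 + t).natAbs ≤ _
  omega

theorem mD_mul (x z : D) : mD (x * z) ≤ mD x + mD z := by
  have h1 := mN_mul x.u (sh x.t z.u)
  have h2 := mN_sh z.u x.t
  have h3 := Int.natAbs_add_le x.t z.t
  simp only [mD, D.mul_u, D.mul_t]
  omega

theorem mD_inv (x : D) : mD x⁻¹ ≤ 2 * mD x := by
  have h1 := mN_sh x.u⁻¹ (-x.t)
  have h2 := mN_inv x.u
  have h3 := Int.natAbs_neg x.t
  simp only [mD, D.inv_u, D.inv_t]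
  omega

theorem mD_δ_le (k : K) : mD k.δ ≤ mK k := le_max_left _ _

theorem mD_supp_le (k : K) (p : D) (hp : k.v p ≠ 1) : mD p ≤ mK k := by
  refine le_trans ?_ (le_max_right _ _)
  exact Finset.le_sup (f := mD) (k.fin.mem_toFinset.2 hp)

theorem mK_le (k : K) (m : ℕ) (h1 : mD k.δ ≤ m) (h2 : ∀ p, k.v p ≠ 1 → mD p ≤ m) :
    mK k ≤ m := by
  refine max_le h1 (Finset.sup_le fun p hp => h2 p ?_)
  exact k.fin.mem_toFinset.1 hp

theorem mK_mul (x z : K) : mK (x * z) ≤ mK x + mK z := by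
  apply mK_le
  · rw [K.mul_δ]
    exact (mD_mul _ _).trans (add_le_add (mD_δ_le x) (mD_δ_le z))
  · intro p hp
    rw [K.mul_v] at hp
    by_cases hx : x.v p = 1
    · have hz : z.v (x.δ⁻¹ * p) ≠ 1 := by
        intro hz
        exact hp (by rw [hx, hz, mul_one])
      have h1 := mD_supp_le z _ hz
      have h2 := mD_mul x.δ (x.δ⁻¹ * p)
      rw [mul_inv_cancel_left] at h2
      have h3 := mD_δ_le x
      omega
    · have h1 := mD_supp_le x p hx
      omega

theorem mK_jN (u : N) : mK (jN u) = mN u := by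
  have h1 : (jN u).δ = ⟨u, 0⟩ := rfl
  have h2 : ∀ p, (jN u).v p = 1 := fun _ => rfl
  have h3 : mD (jN u).δ = mN u := by
    rw [h1]
    simp [mD]
  apply le_antisymm
  · apply mK_le
    · exact h3.le
    · intro p hp
      exact absurd (h2 p) hp
  · rw [← h3]
    exact mD_δ_le _

end SUB

open SUB in
/-- MG-SUB -/
theorem t_SUB : S_SUB :=
  ⟨mN_mul, mN_inv, mN_sh, mD_mul, mD_inv, mK_mul, mK_jN⟩

end Pool.Agent.NH54.MG
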