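import Pool.Agent.NH54.MG.Defs

/-!
# Project MG (helper54), MP_284ea2_al: the statements of the parts (proofs: `NOTES.md`)
-/

set_option autoImplicit false

open Set Filter Topology HNNExtension HNNExtension.NormalWord

namespace Pool.Agent.NH54.MG

/-! ## Generic parts -/

/-- MG-WL: the word metric -/
def S_WL : Prop := ∀ (G : Type) [Group G] (S : Set G), Subgroup.closure S = ⊤ →
  PM (wd S) ∧ (∀ g h : G, wd S g h = 0 → g = h) ∧ wl S (1 : G) = 0 ∧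
  (∀ g : G, wl S g⁻¹ = wl S g) ∧ (∀ g h : G, wl S (g * h) ≤ wl S g + wl S h) ∧ (∀ g ∈ S, wl S g ≤ 1) ∧
  (∀ g : G, ∃ p : ℕ → G, p 0 = 1 ∧ p (wl S g) = g ∧
    (∀ i < wl S g, (p i)⁻¹ * p (i + 1) ∈ S ∨ ((p i)⁻¹ * p (i + 1))⁻¹ ∈ S) ∧
    ∀ i j : ℕ, i ≤ j → j ≤ wl S g → wl S ((p i)⁻¹ * p j) = j - i) ∧
  (S.Finite → ∀ r : ℕ, {g | wl S g ≤ r}.Finite)

/-- a discrete path in the Cayley graph (stops are allowed) -/
def DP {G : Type} [Group G] (S : Set G) (L : ℕ) (p : ℕ → G) : Prop :=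
  ∀ i < L, p (i + 1) = p i ∨ (p i)⁻¹ * p (i + 1) ∈ S ∨ ((p i)⁻¹ * p (i + 1))⁻¹ ∈ S

/-- MG-DISC: quasi-geodesics are close to discrete paths -/
def S_DISC : Prop := ∀ (l e : ℝ), 1 ≤ l → 0 ≤ e → ∃ C : ℝ, 1 ≤ C ∧
  ∀ (G : Type) [Group G] (S : Set G), Subgroup.closure S = ⊤ →
  ∀ (a b : ℝ) (η : ℝ → G), a ≤ b → QG (wd S) l e a b η →
    ∃ (L : ℕ) (p : ℕ → G) (f : ℕ → ℝ), p 0 = η a ∧ p L = η b ∧ DP S L p ∧ f 0 = a ∧ f L = b ∧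
      (∀ i j : ℕ, i ≤ j → j ≤ L → f i ≤ f j) ∧
      (∀ i j : ℕ, i ≤ j → j ≤ L → (j - i : ℝ) ≤ C * (f j - f i) + C) ∧
      (∀ i j : ℕ, i ≤ j → j ≤ L → (j - i : ℝ) ≤ C * wd S (p i) (p j) + C) ∧
      (∀ i ≤ L, wd S (p i) (η (f i)) ≤ C) ∧ (∀ t ∈ Icc a b, ∃ i ≤ L, wd S (η t) (p i) ≤ C)

/-- MG-D3: local-to-global in `0`-hyperbolic spaces -/
def S_D3 : Prop := ∀ κ : ℝ, 1 ≤ κ → ∃ L κ' : ℝ, 0 ≤ L ∧ 1 ≤ κ' ∧
  ∀ (X : Type) (d : X → X → ℝ), PM d → Hyp0 d → ∀ (a b : ℝ) (γ : ℝ → X), a ≤ b →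
    (∀ s t : ℝ, a ≤ s → s ≤ t → t ≤ b → t - s ≤ L →
      t - s ≤ κ * d (γ s) (γ t) + κ ∧ d (γ s) (γ t) ≤ κ * (t - s) + κ) →
    ∀ s t : ℝ, a ≤ s → s ≤ t → t ≤ b → t - s ≤ κ' * d (γ s) (γ t) + κ'

section HNN

variable {K₀ : Type} [Group K₀] {A B : Subgroup K₀} (φ : A ≃* B)

/-- the number of letters `t`, `t⁻¹` in a reduced word -/
noncomputable def tl (g : HNNExtension K₀ A B φ) : ℕ :=
  sInf {n | ∃ w : ReducedWord K₀ A B, w.prod φ = g ∧ w.toList.length = n}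

/-- the distance in the Bass-Serre tree -/
noncomputable def dT (g h : HNNExtension K₀ A B φ) : ℝ := tl φ (g⁻¹ * h)

/-- the prefixes of a reduced word -/
noncomputable def pre (w : ReducedWord K₀ A B) (i : ℕ) : HNNExtension K₀ A B φ :=
  of w.head * ((w.toList.take i).map (fun x => t ^ (x.1 : ℤ) * of x.2)).prod

/-- the head of the normal word of `g` -/
noncomputable def hd (g : HNNExtension K₀ A B φ) : K₀ :=
  (NormalWord.equiv φ (Classical.choice (TransversalPair.nonempty K₀ A B)) g).head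

end HNN

/-- MG-TL: the number of letters -/
def S_TL : Prop := ∀ (K₀ : Type) [Group K₀] (A B : Subgroup K₀) (φ : A ≃* B),
  (∀ w : ReducedWord K₀ A B, tl φ (w.prod φ) = w.toList.length) ∧
  (∀ g, ∃ w : ReducedWord K₀ A B, w.prod φ = g) ∧ tl φ 1 = 0 ∧ (∀ g, tl φ g⁻¹ = tl φ g) ∧
  (∀ g h, tl φ (g * h) ≤ tl φ g + tl φ h) ∧ (∀ g k, tl φ (of k * g) = tl φ g) ∧
  (∀ g k, tl φ (g * of k) = tl φ g) ∧ tl φ t = 1 ∧ (∀ g, tl φ g = 0 → ∃ k, g = of k)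

/-- MG-HY: the tree is `0`-hyperbolic -/
def S_HY : Prop := ∀ (K₀ : Type) [Group K₀] (A B : Subgroup K₀) (φ : A ≃* B),
  PM (dT φ) ∧ Hyp0 (dT φ)

/-- MG-CRS: a path crosses all edges of the tree between its ends, in the right order -/
def S_CRS : Prop := ∀ (K₀ : Type) [Group K₀] (A B : Subgroup K₀) (φ : A ≃* B)
  (w : ReducedWord K₀ A B) (L : ℕ) (p : ℕ → HNNExtension K₀ A B φ), p 0 = 1 → p L = w.prod φ →
  (∀ i < L, (∃ k : K₀, p (i + 1) = p i * of k) ∨ ∃ u : ℤˣ, p (i + 1) = p i * t ^ (u : ℤ)) →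
  ∃ τ : ℕ → ℕ, (∀ i < w.toList.length, τ i < L) ∧
    (∀ i j : ℕ, i < j → j < w.toList.length → τ i < τ j) ∧
    ∀ (i : ℕ) (hi : i < w.toList.length), p (τ i + 1) = p (τ i) * t ^ ((w.toList[i].1 : ℤˣ) : ℤ) ∧
      ∃ x ∈ toSubgroup A B (-w.toList[i].1), p (τ i) = pre φ w i * of x

/-! ## Lamps and the width of the cosets of `K` -/

/-- MG-GEN: the generating set -/
def S_GEN : Prop := ∀ P : Par, Subgroup.closure P.S = ⊤ ∧ P.S.Finite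

/-- the lamps of the projection of `g` to `K` -/
noncomputable def lam (P : Par) (g : P.G) (p : D) : LA := (hd P.th g).v p

/-- MG-LAM: the lamps of the projection -/
def S_LAM : Prop := ∀ P : Par, (∀ k : K, ∀ p : D, lam P (of k) p = k.v p) ∧
  (∀ (k : K) (g : P.G) (p : D), lam P (of k * g) p = k.v p * lam P g (k.δ⁻¹ * p)) ∧
  (∀ (g : P.G) (x : D) (p : D), lam P (g * of (iK x)) p = lam P g p) ∧
  (∀ (g : P.G) (p : D), lam P (g * t) p = lam P g p ∧ lam P (g * t⁻¹) p = lam P g p) ∧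
  (∀ (g : P.G) (x : LA), (¬ ∃ k : K, g = of k) → ∀ p : D, lam P (g * of (lamp x)) p = lam P g p)

/-- MG-LIP: the lamps at two positions are Lipschitz -/
def S_LIP : Prop := ∀ (P : Par) (p q : D), p ≠ q → ∀ g h : P.G,
  FreeGroup.norm ((lam P g p)⁻¹ * lam P h p) + FreeGroup.norm ((lam P g q)⁻¹ * lam P h q) ≤
    wl P.S (g⁻¹ * h)

/-- MG-RAY: a geodesic of the tree `LA` which avoids a walk -/
def S_RAY : Prop := ∀ (n : ℕ) (u : ℕ → LA), u 0 = 1 →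
  (∀ c, FreeGroup.norm ((u c)⁻¹ * u (c + 1)) ≤ 1) →
  ∃ ξ : ℕ → LA, ξ 0 = 1 ∧
    (∀ i j : ℕ, i ≤ j → j ≤ n → FreeGroup.norm ((ξ i)⁻¹ * ξ j) = j - i) ∧
    ∀ a ≤ n, ∀ c : ℕ, 4 * a ≤ 4 * FreeGroup.norm ((ξ a)⁻¹ * u c) + c + 16

/-- MG-W: the cosets of `K` are wide -/
def S_W : Prop := ∀ P : Par, ∃ C : ℝ, 1 ≤ C ∧ ∀ k : K, ∃ (L : ℕ) (w : ℕ → P.G), w 0 = 1 ∧
  w L = of k ∧ (∀ i < L, wd P.S (w i) (w (i + 1)) ≤ 1) ∧
  (∀ i j : ℕ, i ≤ j → j ≤ L → (j - i : ℝ) ≤ C * wd P.S (w i) (w j) + C) ∧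
  ∃ i ≤ L, 3 * wl P.S (of k : P.G) ≤ wl P.S (w i)

/-- MG-D1A: a Morse path stays only a bounded time in a coset of `K` -/
def S_D1A : Prop := ∀ (P : Par) (M : ℝ → ℝ → ℝ), Gauge M → ∀ l e : ℝ, 1 ≤ l → 0 ≤ e → ∃ R : ℕ,
  ∀ (a b : ℝ) (γ : ℝ → P.G), a ≤ b → QG (wd P.S) l e a b γ → Mrs (wd P.S) M a b γ →
  ∀ s ∈ Icc a b, ∀ s' ∈ Icc a b, ∀ (n : ℕ) (p : ℕ → P.G), p 0 = γ s → p n = γ s' →
  (∀ i j : ℕ, i ≤ j → j ≤ n → wl P.S ((p i)⁻¹ * p j) = j - i) →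
  ∀ i j : ℕ, i ≤ j → j ≤ n → (∃ k : K, (p i)⁻¹ * p j = of k) → j - i ≤ R

/-- MG-D1: Morse paths progress in the tree -/
def S_D1 : Prop := ∀ (P : Par) (M : ℝ → ℝ → ℝ), Gauge M → ∀ l e : ℝ, 1 ≤ l → 0 ≤ e →
  ∃ κ : ℝ, 1 ≤ κ ∧ ∀ (a b : ℝ) (γ : ℝ → P.G), a ≤ b → QG (wd P.S) l e a b γ →
    Mrs (wd P.S) M a b γ → ∀ s ∈ Icc a b, ∀ s' ∈ Icc a b,
      |s - s'| ≤ κ * dT P.th (γ s) (γ s') + κ

/-! ## The free group `N` -/

/-- the maximum of the absolute values of the letters -/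
def mN (u : N) : ℕ := (u.toWord.map (fun x => x.1.natAbs)).foldr max 0

/-- the same for `D` -/
def mD (x : D) : ℕ := max (mN x.u) x.t.natAbs

/-- the same for `K`, including the positions of the lamps -/
noncomputable def mK (k : K) : ℕ := max (mD k.δ) (k.fin.toFinset.sup mD)

/-- MG-SUB: subadditivity -/
def S_SUB : Prop := (∀ u v : N, mN (u * v) ≤ max (mN u) (mN v)) ∧ (∀ u : N, mN u⁻¹ = mN u) ∧
  (∀ (u : N) (t : ℤ), mN (sh t u) ≤ mN u + t.natAbs) ∧ (∀ x z : D, mD (x * z) ≤ mD x + mD z) ∧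
  (∀ x : D, mD x⁻¹ ≤ 2 * mD x) ∧ (∀ x z : K, mK (x * z) ≤ mK x + mK z) ∧
  (∀ u : N, mK (jN u) = mN u)

/-- the reduced words of the elements of `C` -/
inductive CW (P : Par) : List (ℤ × Bool) → Prop
  | nil : CW P []
  | cons (n i j : ℕ) (L : List (ℤ × Bool)) : i < P.q n → j < P.q n → CW P L →
      CW P ((P.al n i, false) :: (P.al n j, true) :: L)

/-- the expansion of a letter under `Θ` -/
noncomputable def ex (P : Par) (x : ℤ × Bool) : List (ℤ × Bool) :=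
  match P.dec x.1 with
  | none => [x]
  | some z => if z.2 + 1 < P.q z.1 then [(P.al z.1 (z.2 + 1), x.2)] else
      if x.2 then [(P.al z.1 0, true), (P.sg z.1, true)] else [(P.sg z.1, false), (P.al z.1 0, false)]

/-- MG-CW: the words of the elements of `C` and `C'` -/
def S_CW : Prop := ∀ (P : Par) (c : N), c ∈ P.CN →
  CW P c.toWord ∧ (P.Th c).toWord = c.toWord.flatMap (ex P)

/-- MG-TOP: the type of an element of `C` -/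
def S_TOP : Prop := ∀ (P : Par) (c : N), c ∈ P.CN →
  (c ≠ 1 → ∃ n : ℕ, 4 ^ P.a n ≤ mN c ∧ mN c < 4 ^ P.s (n + 1) ∧ 4 ^ P.a n ≤ mN (P.Th c) ∧
    mN (P.Th c) < 4 ^ P.s (n + 1)) ∧
  ∀ n : ℕ, (4 ^ P.a n ≤ mN c ∧ 4 ^ P.a n ≤ mN (P.Th c)) ∨
    (mN c < 4 ^ P.s n ∧ mN (P.Th c) < 4 ^ P.s n)

/-- MG-FLOW: lower bounds for the word length of the elements of `K` -/
def S_FLOW : Prop := ∀ (P : Par) (n : ℕ) (k : K),
  P.F n ≤ wl P.S (of k : P.G) ∨ P.F n * mK k ≤ 4 ^ P.a n * wl P.S (of k : P.G)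

/-- the product of the first letters, up to the first letter of absolute value at least `m` -/
def bpre (m : ℕ) (u : N) : N := FreeGroup.mk (u.toWord.takeWhile (fun x => decide (x.1.natAbs < m)))

/-- the first letter of absolute value at least `m` -/
def bhd (m : ℕ) (u : N) : Option (ℤ × Bool) :=
  (u.toWord.dropWhile (fun x => decide (x.1.natAbs < m))).head?

/-- MG-BIG: products with elements with small letters -/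
def S_BIG : Prop := ∀ (m : ℕ) (u w u' : N), mN u < m → mN u' < m → m ≤ mN w →
  bpre m (u * w * u') = u * bpre m w ∧ bhd m (u * w * u') = bhd m w

/-- `c ∈ C` has the type `n` and the first letter of this type is `(al n i)⁻¹` -/
def Id (P : Par) (n i : ℕ) (c : N) : Prop := c ∈ P.CN ∧ 4 ^ P.a n ≤ mN c ∧ mN c < 4 ^ P.s (n + 1) ∧
  i < P.q n ∧ bhd (4 ^ P.a n) c = some (P.al n i, false)

/-- MG-IDX: the first letter of the maximal type -/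
def S_IDX : Prop := ∀ (P : Par) (n : ℕ) (c : N), c ∈ P.CN → 4 ^ P.a n ≤ mN c →
  mN c < 4 ^ P.s (n + 1) → ∃ i : ℕ, Id P n i c ∧ bpre (4 ^ P.a n) c ∈ P.CN ∧
    mN (bpre (4 ^ P.a n) c) < 4 ^ P.s n ∧
    ((i + 1 < P.q n ∧ bhd (4 ^ P.a n) (P.Th c) = some (P.al n (i + 1), false) ∧
        bpre (4 ^ P.a n) (P.Th c) ∈ P.CN' ∧ mN (bpre (4 ^ P.a n) (P.Th c)) < 4 ^ P.s n) ∨
      (i + 1 = P.q n ∧ bhd (4 ^ P.a n) (P.Th c) = some (P.al n 0, false) ∧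
        ∃ l ∈ P.CN', mN l < 4 ^ P.s n ∧ bpre (4 ^ P.a n) (P.Th c) = l * (y (P.sg n))⁻¹))

/-- MG-KEY: turns -/
def S_KEY : Prop := ∀ (P : Par) (n i : ℕ) (c z u u' : N), Id P n i c → z ∈ P.CN →
  mN u < 4 ^ P.a n → mN u' < 4 ^ P.a n →
  (u * z = c * u' → u ∈ P.CN) ∧ (u * P.Th z = P.Th c * u' → u ∈ P.CN') ∧
  (u * z = P.Th c * u' → (i + 1 < P.q n ∧ Id P n (i + 1) z) ∨ 4 ^ P.s n ≤ mN u) ∧
  (u * P.Th z = c * u' → (∃ i' : ℕ, i = i' + 1 ∧ Id P n i' z) ∨ 4 ^ P.s n ≤ mN u)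

/-- MG-KN: turns with large offsets are in `N` -/
def S_KN : Prop := ∀ (P : Par) (n : ℕ) (x z : N) (a a' : K), (x ∈ P.CN ∨ x ∈ P.CN') →
  (z ∈ P.CN ∨ z ∈ P.CN') → 4 ^ P.a n ≤ mN x → 4 * mK a < 4 ^ P.a n → 4 * mK a' < 4 ^ P.a n →
  a * jN z = jN x * a' → ∃ u u' : N, a = jN u ∧ a' = jN u'

/-! ## Parallel paths -/

/-- the offset after the crossing of an edge -/
noncomputable def cp (P : Par) (ε : ℤˣ) (c : K) : K :=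
  if ε = -1 then jN (P.Th c.δ.u) else jN (P.Th.symm c.δ.u)

/-- two parallel paths with `m` turns: `ε i` the exponents of the crossings, `a i` and `a' i` the turns of
the two paths, `c i` the offsets -/
structure Par2 (P : Par) (m : ℕ) (ε : ℕ → ℤˣ) (a a' c : ℕ → K) : Prop where
  mem : ∀ i ≤ m, c i ∈ toSubgroup P.CK P.CK' (-ε i)
  turn : ∀ i < m, a i * c (i + 1) = cp P (ε i) (c i) * a' i
  red : ∀ i < m, a i ∈ toSubgroup P.CK P.CK' (ε i) → ε i = ε (i + 1)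

/-- MG-CASEA: offsets of large type -/
def S_CASEA : Prop := ∀ (P : Par) (κ : ℕ), ∃ n₀ : ℕ, ∀ n ≥ n₀, ∀ (ε : ℕ → ℤˣ) (a a' c : ℕ → K),
  Par2 P (P.q n + 1) ε a a' c → (∀ i < P.q n + 1, wl P.S (of (a i) : P.G) ≤ κ) →
  4 ^ P.a n ≤ mN (c 0).δ.u → mN (c 0).δ.u < 4 ^ P.s (n + 1) →
  ∃ i < P.q n + 1, P.F n ≤ 8 * wl P.S (of (a' i) : P.G)

/-- MG-MAL: malnormality -/
def S_MAL : Prop := ∀ (P : Par) (h z : N) (a : K), h ≠ 1 → a * jN z = jN h * a →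
  (h ∈ P.CN ∨ h ∈ P.CN') → (z ∈ P.CN ∨ z ∈ P.CN') → ∃ u : N, a = jN u ∧
    (h ∈ P.CN → z ∈ P.CN → u ∈ P.CN) ∧ (h ∈ P.CN' → z ∈ P.CN' → u ∈ P.CN')

/-- MG-SHR: after enough straight turns the stabiliser is trivial -/
def S_SHR : Prop := ∀ (P : Par) (n₀ : ℕ), ∃ W : ℕ, ∀ (h u : ℕ → N), (∀ i ≤ W, h i ∈ P.CN) →
  (∀ i < W, u i * h (i + 1) = P.Th (h i) * u i) →
  ((∃ v : N, mN (v⁻¹ * h 0 * v) < 4 ^ P.s n₀) ∨ (∃ v : N, mN (v⁻¹ * h W * v) < 4 ^ P.s n₀)) →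
  h 0 = 1

/-- MG-STAB: stabilisers of long paths -/
def S_STAB : Prop := ∀ (P : Par) (n₀ : ℕ), ∃ W : ℕ, ∀ (ε : ℕ → ℤˣ) (a c : ℕ → K),
  Par2 P W ε a a c → mN (c 0).δ.u < 4 ^ P.s n₀ → c 0 = 1

/-- MG-CASEB: offsets of small type -/
def S_CASEB : Prop := ∀ (P : Par) (n₀ : ℕ) (κ : ℕ), ∃ W : ℕ, 1 ≤ W ∧ ∀ Bd : ℕ, ∃ R : ℕ,
  ∀ (ε : ℕ → ℤˣ) (a a' c : ℕ → K), Par2 P W ε a a' c →
  (∀ i < W, wl P.S (of (a i) : P.G) ≤ κ) → mN (c 0).δ.u < 4 ^ P.s n₀ →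
  R ≤ wl P.S (of (c 0) : P.G) → ∃ i < W, Bd ≤ wl P.S (of (a' i) : P.G)

/-- MG-CORE: parallel paths far from each other are expensive -/
def S_CORE : Prop := ∀ (P : Par) (κ Λ : ℕ), ∃ R : ℕ, ∀ (m : ℕ) (ε : ℕ → ℤˣ) (a a' c : ℕ → K),
  Par2 P m ε a a' c → (∀ i < m, wl P.S (of (a i) : P.G) ≤ κ) → ∀ i₀ ≤ m,
  R ≤ wl P.S (of (c i₀) : P.G) → ∃ w : ℕ, 1 ≤ w ∧ Λ * w ≤ wl P.S (of (c i₀) : P.G) ∧
    (i₀ + w ≤ m → Λ * w ≤ ∑ i ∈ Finset.Ico i₀ (i₀ + w), wl P.S (of (a' i) : P.G))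

/-- MG-D2B: the discrete form of D2 -/
def S_D2B : Prop := ∀ (P : Par) (κ : ℝ), 1 ≤ κ → ∃ R : ℝ, ∀ (L L' : ℕ) (r p : ℕ → P.G),
  DP P.S L r → DP P.S L' p → p 0 = r 0 → p L' = r L →
  (∀ i j : ℕ, i ≤ j → j ≤ L → (j - i : ℝ) ≤ κ * dT P.th (r i) (r j) + κ) →
  (∀ i j : ℕ, i ≤ j → j ≤ L' → (j - i : ℝ) ≤ κ * wd P.S (p i) (p j) + κ) →
  ∀ i ≤ L', ∃ j ≤ L, wd P.S (p i) (r j) ≤ R

/-- MG-D2: paths which progress in the tree are uniformly Morse -/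
def S_D2 : Prop := ∀ (P : Par) (κ : ℝ), 1 ≤ κ → ∃ M : ℝ → ℝ → ℝ, Gauge M ∧
  ∀ (a b : ℝ) (γ : ℝ → P.G), a ≤ b →
  (∀ s ∈ Icc a b, ∀ s' ∈ Icc a b, |s - s'| ≤ κ * dT P.th (γ s) (γ s') + κ ∧
    wd P.S (γ s) (γ s') ≤ κ * |s - s'| + κ) → Mrs (wd P.S) M a b γ

/-- MG-LG: the Morse local-to-global property -/
def S_LG : Prop := ∀ P : Par, MLTG (wd P.S)

/-! ## Translation lengths -/

/-- MG-MOR: Morse elements -/
def S_MOR : Prop := ∀ (P : Par) (g : P.G), (∀ n : ℕ, n ≤ tl P.th (g ^ n)) → IsMorseEl P.S g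

/-- the letter `g n j` -/
noncomputable def gl (P : Par) (n j : ℕ) : N :=
  if j < P.q n then y (P.al n j) else y (P.al n 0) * y (P.sg n)

/-- the element `p n` -/
noncomputable def pn (P : Par) (n : ℕ) : P.G := of (jN (gl P n 0)) * t⁻¹ * (of (jN (gl P n 1)))⁻¹

/-- MG-PN: the powers of `p n` -/
def S_PN : Prop := ∀ (P : Par) (n : ℕ), (∀ m : ℕ, pn P n ^ (P.q n * m) =
    of (jN (y (P.al n 0))) * (t⁻¹ ^ P.q n * of (jN (y (P.sg n))⁻¹)) ^ m *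
      (of (jN (y (P.al n 0))))⁻¹) ∧ ∀ m : ℕ, tl P.th (pn P n ^ m) = m

/-- MG-UP: upper bound for the translation length -/
def S_UP : Prop := ∀ (P : Par) (n : ℕ), ∃ C : ℕ, ∀ m : ℕ,
  wl P.S (pn P n ^ (P.q n * m)) ≤ (P.q n + (2 * 4 ^ P.s n + 1)) * m + C

/-- MG-LOWC: the combinatorial part of the lower bound -/
def S_LOWC : Prop := ∀ (P : Par) (n : ℕ) (c : N), (∀ i < P.q n, (P.Th^[i]) c ∈ P.CN) →
  y (P.sg n) * (P.Th^[P.q n]) c ∉ P.CN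

/-- MG-LOW: lower bound for the translation length -/
def S_LOW : Prop := ∀ (P : Par) (n : ℕ), ∃ C : ℕ, ∀ m : ℕ,
  (P.q n + 1) * m ≤ wl P.S (pn P n ^ (P.q n * m)) + C

/-- MG-TEND: translation lengths exist -/
def S_TEND : Prop := ∀ (G : Type) [Group G] (S : Set G), Subgroup.closure S = ⊤ → ∀ g : G,
  ∃ τ : ℝ, Tendsto (fun n : ℕ => (wl S (g ^ n) : ℝ) / n) atTop (𝓝 τ)

/-- MG-PAR: parameters -/
def S_PAR : Prop := Nonempty Par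

/-- MG-FIN: the result -/
def S_FIN : Prop := ∃ P : Par, P.S.Finite ∧ Subgroup.closure P.S = ⊤ ∧ MLTG (wd P.S) ∧
  ∃ τ ∈ TS P.S, ∀ δ : ℝ, 0 < δ → ∃ τ' ∈ TS P.S, τ' ≠ τ ∧ |τ' - τ| < δ

end Pool.Agent.NH54.MG
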