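import Pool.Agent.NH54.MG.Stm

/-!
# Project MG (helper54): from the vertices to the Cayley graph
-/

set_option autoImplicit false

open Set Filter Topology HNNExtension HNNExtension.NormalWord

namespace Pool.Agent.NH54.MG

/-- `X` is a model of the Cayley graph of `G`: `G` with the word metric is isometrically embedded, and every
point of `X` has distance at most `1` from a vertex -/
structure Model {G : Type} [Group G] (S : Set G) (X : Type) (d : X → X → ℝ) (ι : G → X) : Prop where
  pm : PM d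
  iso : ∀ g h : G, d (ι g) (ι h) = wd S g h
  dense : ∀ x : X, ∃ g : G, d x (ι g) ≤ 1

/-- MG-TRA: the Morse local-to-global property of the vertex set implies it for the Cayley graph -/
def S_TRA : Prop := ∀ (G : Type) [Group G] (S : Set G), Subgroup.closure S = ⊤ → MLTG (wd S) →
  ∀ (X : Type) (d : X → X → ℝ) (ι : G → X), Model S X d ι → MLTG d

/-- MG-TRM: Morse elements, in the Cayley graph -/
def S_TRM : Prop := ∀ (P : Par) (g : P.G), (∀ n : ℕ, n ≤ tl P.th (g ^ n)) →
  ∀ (X : Type) (d : X → X → ℝ) (ι : P.G → X), Model P.S X d ι →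
  ∃ M : ℝ → ℝ → ℝ, Gauge M ∧ ∀ (i j : ℤ) (n : ℝ) (c : ℝ → X), 0 ≤ n → c 0 = ι (g ^ i) →
    c n = ι (g ^ j) → (∀ s ∈ Icc 0 n, ∀ s' ∈ Icc 0 n, d (c s) (c s') = |s - s'|) → Mrs d M 0 n c

end Pool.Agent.NH54.MG
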