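import Pool.Agent.NH54.MG.Stm2

/-!
# Project MG (helper54): the Cayley graph
-/

set_option autoImplicit false

open Set Filter Topology

namespace Pool.Agent.NH54.MG

/-- MG-CGM: the Cayley graph is a model -/
def S_CGM : Prop := ∀ (G : Type) [Group G] (S : Set G), Subgroup.closure S = ⊤ →
  Model S (CG S) CG.dst CG.vert ∧ ∀ x z : CG S, CG.dst x z = 0 → x = z

/-- MG-CGG: the Cayley graph is geodesic (between vertices) -/
def S_CGG : Prop := ∀ (G : Type) [Group G] (S : Set G), Subgroup.closure S = ⊤ → ∀ g h : G,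
  ∃ c : ℝ → CG S, c 0 = CG.vert g ∧ c (wl S (g⁻¹ * h)) = CG.vert h ∧
    ∀ s ∈ Icc (0 : ℝ) (wl S (g⁻¹ * h)), ∀ t ∈ Icc (0 : ℝ) (wl S (g⁻¹ * h)),
      CG.dst (c s) (c t) = |s - t|

/-- MG-FINC: the result, for the Cayley graph -/
def S_FINC : Prop := ∃ P : Par, P.S.Finite ∧ Subgroup.closure P.S = ⊤ ∧
  MLTG (CG.dst : CG P.S → CG P.S → ℝ) ∧
  (1 : ℝ) ∈ TSC P.S ∧ ∀ δ : ℝ, 0 < δ → ∃ τ ∈ TSC P.S, 1 < τ ∧ τ < 1 + δ

end Pool.Agent.NH54.MG
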