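import Pool.Agent.NH54.MG.Stm

/-!
# MG-W: preparations (a zigzag path; norms in a free group)
-/

set_option autoImplicit false

open Set Filter Topology

namespace Pool.Agent.NH54.MG.W

/-- the position in a copy -/
def ps (M q ρ : ℕ) : ℕ := if q % 2 = 0 then M - ρ else ρ

/-- the zigzag path -/
theorem zigzag {X : Type} (d : X → X → ℝ) (N R : ℕ) (hN : N = 8 * R + 100) (Z : ℕ → ℕ → X)
    (hsymm : ∀ x y, d x y = d y x) (hdnn : ∀ x y, 0 ≤ d x y)
    (hstep : ∀ q ≤ 4, ∀ s < 2 * N + R, d (Z q s) (Z q (s + 1)) ≤ 1)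
    (h01 : d (Z 0 0) (Z 1 0) ≤ 1) (h12 : d (Z 1 (2 * N + R)) (Z 2 (2 * N + R)) ≤ 1)
    (h23 : d (Z 2 0) (Z 3 0) ≤ 1) (h34 : d (Z 3 (2 * N + R)) (Z 4 (2 * N + R)) ≤ 1)
    (h40 : ∀ s, Z 4 s = Z 0 s)
    (hsame : ∀ q ≤ 4, ∀ s s' : ℕ, s ≤ s' → s' ≤ 2 * N + R →
      (s' - s : ℝ) ≤ 16 * d (Z q s) (Z q s') + 80)
    (T T' : ℕ → ℝ) (hT0 : ∀ s ≤ 2 * N + R, 0 ≤ T s) (hT0' : ∀ s ≤ 2 * N + R, 0 ≤ T' s)
    (hT1 : ∀ s : ℕ, s ≤ N → (s : ℝ) ≤ T s)
    (hT2 : ∀ s : ℕ, N ≤ s → s ≤ 2 * N + R → (N : ℝ) / 2 ≤ T s)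
    (hT1' : ∀ s : ℕ, N + R ≤ s → s ≤ 2 * N + R → (2 * N + R - s : ℝ) ≤ T' s)
    (hT2' : ∀ s : ℕ, s ≤ N + R → (N : ℝ) / 2 ≤ T' s)
    (hA : ∀ q q' : ℕ, (q = 0 ∧ q' = 1 ∨ q = 0 ∧ q' = 2 ∨ q = 1 ∧ q' = 3 ∨ q = 1 ∧ q' = 4 ∨
      q = 2 ∧ q' = 3 ∨ q = 2 ∧ q' = 4) → ∀ s ≤ 2 * N + R, ∀ s' ≤ 2 * N + R,
      T s + 1 + T s' ≤ d (Z q s) (Z q' s'))
    (hB : ∀ q q' : ℕ, (q = 0 ∧ q' = 2 ∨ q = 0 ∧ q' = 3 ∨ q = 1 ∧ q' = 2 ∨ q = 1 ∧ q' = 3 ∨
      q = 2 ∧ q' = 4 ∨ q = 3 ∧ q' = 4) → ∀ s ≤ 2 * N + R, ∀ s' ≤ 2 * N + R,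
      T' s + 1 + T' s' ≤ d (Z q s) (Z q' s')) :
    ∃ (L : ℕ) (w : ℕ → X), w 0 = Z 0 N ∧ w L = Z 0 (N + R) ∧
      (∀ i < L, d (w i) (w (i + 1)) ≤ 1) ∧
      (∀ i j : ℕ, i ≤ j → j ≤ L → (j - i : ℝ) ≤ 7000 * d (w i) (w j) + 7000) ∧
      N ≤ L ∧ w N = Z 0 0 := by
  set M : ℕ := 2 * N + R with hM
  set w : ℕ → X := fun i => Z ((i + (N + R)) / (M + 1)) (ps M ((i + (N + R)) / (M + 1))
    ((i + (N + R)) % (M + 1))) with hw
  have key : ∀ i q ρ : ℕ, ρ ≤ M → i + (N + R) = q * (M + 1) + ρ → w i = Z q (ps M q ρ) := by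
    intro i q ρ hρ h
    have h1 : (i + (N + R)) / (M + 1) = q := by
      rw [h, mul_comm, Nat.mul_add_div (by omega), Nat.div_eq_of_lt (by omega), add_zero]
    have h2 : (i + (N + R)) % (M + 1) = ρ := by
      rw [h, mul_comm, Nat.mul_add_mod, Nat.mod_eq_of_lt (by omega)]
    simp only [hw, h1, h2]
  have hdec : ∀ i : ℕ, ∃ q ρ : ℕ, ρ ≤ M ∧ i + (N + R) = q * (M + 1) + ρ := by
    intro i
    refine ⟨(i + (N + R)) / (M + 1), (i + (N + R)) % (M + 1), ?_, ?_⟩
    · have := Nat.mod_lt (i + (N + R)) (show 0 < M + 1 by omega); omega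
    · rw [mul_comm]; exact (Nat.div_add_mod _ _).symm
  refine ⟨4 * (M + 1) - R, w, ?_, ?_, ?_, ?_, by omega, ?_⟩
  · rw [key 0 0 (N + R) (by omega) (by omega)]
    congr 1
    simp only [ps]; simp; omega
  · rw [key (4 * (M + 1) - R) 4 N (by omega) (by omega), h40]
    congr 1
    simp only [ps]; simp; omega
  · intro i hi
    obtain ⟨q, ρ, hρ, h⟩ := hdec i
    have hq4 : q ≤ 4 := by
      by_contra hcon
      have : 5 * (M + 1) ≤ q * (M + 1) := Nat.mul_le_mul_right _ (by omega)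
      omega
    rcases Nat.lt_or_ge ρ M with h1 | h1
    · rw [key i q ρ hρ h, key (i + 1) q (ρ + 1) (by omega) (by omega)]
      simp only [ps]
      split_ifs with h2
      · have h3 := hstep q hq4 (M - (ρ + 1)) (by omega)
        rw [show M - (ρ + 1) + 1 = M - ρ by omega] at h3
        rw [hsymm]; exact h3
      · exact hstep q hq4 ρ h1
    · have hρM : ρ = M := by omega
      rw [key i q ρ hρ h, key (i + 1) (q + 1) 0 (by omega) (by rw [add_mul]; omega), hρM]
      have hq3 : q ≤ 3 := by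
        by_contra hcon
        have : 4 * (M + 1) ≤ q * (M + 1) := Nat.mul_le_mul_right _ (by omega)
        omega
      simp only [ps]
      interval_cases q
      · simpa using h01
      · simpa using h12
      · simpa using h23
      · simpa using h34
  · intro i j hij hj
    obtain ⟨q, ρ, hρ, h⟩ := hdec i
    obtain ⟨q', ρ', hρ', h'⟩ := hdec j
    have hq4 : q' ≤ 4 := by
      by_contra hcon
      have : 5 * (M + 1) ≤ q' * (M + 1) := Nat.mul_le_mul_right _ (by omega)
      omega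
    have hqq : q ≤ q' := by
      by_contra hcon
      have : (q' + 1) * (M + 1) ≤ q * (M + 1) := Nat.mul_le_mul_right _ (by omega)
      rw [add_mul] at this
      omega
    rw [key i q ρ hρ h, key j q' ρ' hρ' h']
    have hNr : (N : ℝ) = 8 * R + 100 := by rw [hN]; push_cast; ring
    have hR0 : (0 : ℝ) ≤ R := Nat.cast_nonneg _
    have hMr : (M : ℝ) = 2 * N + R := by rw [hM]; push_cast; ring
    have hr : (i : ℝ) + (N + R) = q * (M + 1) + ρ := by exact_mod_cast h
    have hr' : (j : ℝ) + (N + R) = q' * (M + 1) + ρ' := by exact_mod_cast h'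
    have hρr : (ρ : ℝ) ≤ M := by exact_mod_cast hρ
    have hρr' : (ρ' : ℝ) ≤ M := by exact_mod_cast hρ'
    have hi0 : (0 : ℝ) ≤ i := Nat.cast_nonneg _
    have hjL : (j : ℝ) ≤ 4 * (M + 1) - R := by
      have : j + R ≤ 4 * (M + 1) := by omega
      have : ((j + R : ℕ) : ℝ) ≤ ((4 * (M + 1) : ℕ) : ℝ) := by exact_mod_cast this
      push_cast at this
      linarith
    have hps : ∀ q ρ : ℕ, ρ ≤ M → ps M q ρ ≤ M := by
      intro q ρ h
      simp only [ps]; split_ifs <;> omega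
    have hs := hps q ρ hρ
    have hs' := hps q' ρ' hρ'
    set δ := d (Z q (ps M q ρ)) (Z q' (ps M q' ρ')) with hδ
    -- far points
    have hfar : (N : ℝ) / 2 ≤ δ → (j - i : ℝ) ≤ 7000 * δ + 7000 := by
      intro h1
      linarith
    -- two sides
    have both : (T (ps M q ρ) + 1 + T (ps M q' ρ') ≤ δ) → (T' (ps M q ρ) + 1 + T' (ps M q' ρ') ≤ δ) →
        (N : ℝ) / 2 ≤ δ := by
      intro h1 h2
      have a1 := hT0 _ hs
      have a2 := hT0 _ hs'
      have a3 := hT0' _ hs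
      have a4 := hT0' _ hs'
      rcases Nat.lt_or_ge (ps M q ρ) N with h3 | h3
      · have := hT2' (ps M q ρ) (by omega)
        linarith
      · have := hT2 (ps M q ρ) h3 hs
        linarith
    have hδ0 : ∀ x : ℝ, (j - i : ℝ) ≤ x → x ≤ δ → (j - i : ℝ) ≤ 7000 * δ + 7000 := by
      intro x h1 h2
      have : (0 : ℝ) ≤ j - i := by
        have : (i : ℝ) ≤ j := by exact_mod_cast hij
        linarith
      linarith
    rcases Nat.lt_or_ge q q' with hlt | hge
    · have hcases : (q = 0 ∧ q' = 1) ∨ (q = 2 ∧ q' = 3) ∨ (q = 1 ∧ q' = 2) ∨ (q = 3 ∧ q' = 4) ∨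
          (q = 0 ∧ q' = 2) ∨ (q = 1 ∧ q' = 3) ∨ (q = 2 ∧ q' = 4) ∨ (q = 0 ∧ q' = 3) ∨
          (q = 1 ∧ q' = 4) ∨ (q = 0 ∧ q' = 4) := by omega
      rcases hcases with ⟨rfl, rfl⟩ | ⟨rfl, rfl⟩ | ⟨rfl, rfl⟩ | ⟨rfl, rfl⟩ | ⟨rfl, rfl⟩ | ⟨rfl, rfl⟩ |
        ⟨rfl, rfl⟩ | ⟨rfl, rfl⟩ | ⟨rfl, rfl⟩ | ⟨rfl, rfl⟩
      · -- 0, 1
        have h1 := hA 0 1 (by omega) _ hs _ hs'
        have a1 := hT0 _ hs
        have a2 := hT0 _ hs'
        rcases Nat.lt_or_ge N (ps M 0 ρ) with h3 | h3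
        · exact hfar (by have := hT2 _ h3.le hs; linarith)
        · rcases Nat.lt_or_ge N (ps M 1 ρ') with h4 | h4
          · exact hfar (by have := hT2 _ h4.le hs'; linarith)
          · have b1 := hT1 _ h3
            have b2 := hT1 _ h4
            have c1 : ((ps M 0 ρ : ℕ) : ℝ) = M - ρ := by
              simp only [ps]; simp [Nat.cast_sub hρ]
            have c2 : ((ps M 1 ρ' : ℕ) : ℝ) = ρ' := by simp [ps]
            rw [c1] at b1
            rw [c2] at b2
            push_cast at hr hr'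
            exact hδ0 (M - ρ + 1 + ρ') (by linarith) (by linarith)
      · -- 2, 3
        have h1 := hA 2 3 (by omega) _ hs _ hs'
        have a1 := hT0 _ hs
        have a2 := hT0 _ hs'
        rcases Nat.lt_or_ge N (ps M 2 ρ) with h3 | h3
        · exact hfar (by have := hT2 _ h3.le hs; linarith)
        · rcases Nat.lt_or_ge N (ps M 3 ρ') with h4 | h4
          · exact hfar (by have := hT2 _ h4.le hs'; linarith)
          · have b1 := hT1 _ h3
            have b2 := hT1 _ h4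
            have c1 : ((ps M 2 ρ : ℕ) : ℝ) = M - ρ := by
              simp only [ps]; simp [Nat.cast_sub hρ]
            have c2 : ((ps M 3 ρ' : ℕ) : ℝ) = ρ' := by simp [ps]
            rw [c1] at b1
            rw [c2] at b2
            push_cast at hr hr'
            exact hδ0 (M - ρ + 1 + ρ') (by linarith) (by linarith)
      · -- 1, 2
        have h1 := hB 1 2 (by omega) _ hs _ hs'
        have a1 := hT0' _ hs
        have a2 := hT0' _ hs'
        rcases Nat.lt_or_ge (ps M 1 ρ) (N + R) with h3 | h3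
        · exact hfar (by have := hT2' _ h3.le; linarith)
        · rcases Nat.lt_or_ge (ps M 2 ρ') (N + R) with h4 | h4
          · exact hfar (by have := hT2' _ h4.le; linarith)
          · have b1 := hT1' _ h3 hs
            have b2 := hT1' _ h4 hs'
            have c1 : ((ps M 1 ρ : ℕ) : ℝ) = ρ := by simp [ps]
            have c2 : ((ps M 2 ρ' : ℕ) : ℝ) = M - ρ' := by
              simp only [ps]; simp [Nat.cast_sub hρ']
            rw [c1] at b1
            rw [c2] at b2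
            push_cast at hr hr'
            exact hδ0 (M - ρ + 1 + ρ') (by linarith) (by linarith)
      · -- 3, 4
        have h1 := hB 3 4 (by omega) _ hs _ hs'
        have a1 := hT0' _ hs
        have a2 := hT0' _ hs'
        rcases Nat.lt_or_ge (ps M 3 ρ) (N + R) with h3 | h3
        · exact hfar (by have := hT2' _ h3.le; linarith)
        · rcases Nat.lt_or_ge (ps M 4 ρ') (N + R) with h4 | h4
          · exact hfar (by have := hT2' _ h4.le; linarith)
          · have b1 := hT1' _ h3 hs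
            have b2 := hT1' _ h4 hs'
            have c1 : ((ps M 3 ρ : ℕ) : ℝ) = ρ := by simp [ps]
            have c2 : ((ps M 4 ρ' : ℕ) : ℝ) = M - ρ' := by
              simp only [ps]; simp [Nat.cast_sub hρ']
            rw [c1] at b1
            rw [c2] at b2
            push_cast at hr hr'
            exact hδ0 (M - ρ + 1 + ρ') (by linarith) (by linarith)
      · exact hfar (both (hA 0 2 (by omega) _ hs _ hs') (hB 0 2 (by omega) _ hs _ hs'))
      · exact hfar (both (hA 1 3 (by omega) _ hs _ hs') (hB 1 3 (by omega) _ hs _ hs'))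
      · exact hfar (both (hA 2 4 (by omega) _ hs _ hs') (hB 2 4 (by omega) _ hs _ hs'))
      · -- 0, 3
        have h1 := hB 0 3 (by omega) _ hs _ hs'
        have a2 := hT0' _ hs'
        have h3 : ps M 0 ρ ≤ N + R := by simp only [ps]; simp; omega
        exact hfar (by have := hT2' _ h3; linarith)
      · -- 1, 4
        have h1 := hA 1 4 (by omega) _ hs _ hs'
        have a1 := hT0 _ hs
        have h3 : N ≤ ps M 4 ρ' := by simp only [ps]; simp; omega
        exact hfar (by have := hT2 _ h3 hs'; linarith)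
      · -- 0, 4
        have h3 : ps M 0 ρ ≤ N := by simp only [ps]; simp; omega
        have h4 : N + R ≤ ps M 4 ρ' := by simp only [ps]; simp; omega
        have h1 := hsame 0 (by omega) (ps M 0 ρ) (ps M 4 ρ') (by omega) hs'
        rw [← h40 (ps M 4 ρ'), ← hδ] at h1
        have h3r : ((ps M 0 ρ : ℕ) : ℝ) ≤ N := by exact_mod_cast h3
        have h4r : (N : ℝ) + R ≤ ((ps M 4 ρ' : ℕ) : ℝ) := by exact_mod_cast h4
        have h5 : 0 ≤ δ := hdnn _ _
        push_cast at hr hr'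
        linarith
    · have hqe : q = q' := by omega
      subst hqe
      have hρρ : ρ ≤ ρ' := by omega
      have hρρr : (ρ : ℝ) ≤ ρ' := by exact_mod_cast hρρ
      by_cases hev : q % 2 = 0
      · have e1 : ps M q ρ = M - ρ := by simp [ps, hev]
        have e2 : ps M q ρ' = M - ρ' := by simp [ps, hev]
        have h1 := hsame q hq4 (M - ρ') (M - ρ) (by omega) (by omega)
        rw [hδ, e1, e2, hsymm]
        rw [Nat.cast_sub hρ, Nat.cast_sub hρ'] at h1
        have hnn := hdnn (Z q (M - ρ')) (Z q (M - ρ))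
        linarith
      · have e1 : ps M q ρ = ρ := by simp [ps, hev]
        have e2 : ps M q ρ' = ρ' := by simp [ps, hev]
        have h1 := hsame q hq4 ρ ρ' hρρ hρ'
        rw [hδ, e1, e2]
        have hnn := hdnn (Z q ρ) (Z q ρ')
        linarith
  · rw [key N 0 M le_rfl (by omega)]
    simp [ps]

/-! ### norms in the free group `LA` -/

open FreeGroup in
/-- letters which do not cancel -/
theorem head_of_lt {ξ p : LA} {e : Bool × Bool} (he : ξ.toWord.getLast? = some e)
    (hp : FreeGroup.norm p < FreeGroup.norm ξ) :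
    ∀ z ∈ (ξ⁻¹ * p).toWord.head?, z = (e.1, !e.2) := by
  intro z hz
  by_contra hne
  have hred : FreeGroup.IsReduced (ξ.toWord ++ (ξ⁻¹ * p).toWord) := by
    unfold FreeGroup.IsReduced
    rw [List.isChain_append]
    refine ⟨FreeGroup.isReduced_toWord, FreeGroup.isReduced_toWord, ?_⟩
    intro x hx y hy
    rw [he] at hx
    rw [Option.mem_def] at hx hy hz
    rw [hz] at hy
    obtain rfl := Option.some.inj hx
    obtain rfl := Option.some.inj hy
    intro h1
    by_contra h2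
    apply hne
    ext
    · exact h1.symm
    · cases h3 : e.2 <;> cases h4 : z.2 <;> simp_all
  have h1 : FreeGroup.norm (ξ * (ξ⁻¹ * p)) = FreeGroup.norm ξ + FreeGroup.norm (ξ⁻¹ * p) := by
    unfold FreeGroup.norm
    rw [FreeGroup.toWord_mul, hred.reduce_eq, List.length_append]
  rw [mul_inv_cancel_left] at h1
  omega

/-- the point `p` does not lie beyond `ξ` -/
def Ok (ξ p : LA) : Prop := p = ξ ∨ FreeGroup.norm p < FreeGroup.norm ξ

theorem norm_three {ξ p q : LA} {e : Bool × Bool} (he : ξ.toWord.getLast? = some e)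
    (hp : Ok ξ p) (hq : Ok ξ q) (s : Bool) :
    FreeGroup.norm (p⁻¹ * (ξ * FreeGroup.mk [(!e.1, s)] * ξ⁻¹ * q)) =
      FreeGroup.norm (ξ⁻¹ * p) + 1 + FreeGroup.norm (ξ⁻¹ * q) := by
  have hh : ∀ p : LA, Ok ξ p → ∀ z ∈ (ξ⁻¹ * p).toWord.head?, z.1 = e.1 := by
    intro p hp z hz
    rcases hp with rfl | hp
    · rw [inv_mul_cancel, FreeGroup.toWord_one] at hz
      simp at hz
    · rw [head_of_lt he hp z hz]
  have hp' := hh p hp
  have hq' := hh q hq
  set A := ξ⁻¹ * p with hA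
  set B := ξ⁻¹ * q with hB
  have e1 : p⁻¹ * (ξ * FreeGroup.mk [(!e.1, s)] * ξ⁻¹ * q) =
      FreeGroup.mk ((A⁻¹).toWord ++ ([(!e.1, s)] ++ B.toWord)) := by
    rw [← FreeGroup.mul_mk, ← FreeGroup.mul_mk, FreeGroup.mk_toWord, FreeGroup.mk_toWord, hA, hB]
    group
  have hred : FreeGroup.IsReduced ((A⁻¹).toWord ++ ([(!e.1, s)] ++ B.toWord)) := by
    unfold FreeGroup.IsReduced
    rw [List.isChain_append]
    refine ⟨FreeGroup.isReduced_toWord, ?_, ?_⟩
    · rw [List.isChain_append]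
      refine ⟨List.isChain_singleton _, FreeGroup.isReduced_toWord, ?_⟩
      intro x hx z hz h1
      simp only [List.getLast?_singleton, Option.mem_def, Option.some.injEq] at hx
      rw [← hx, hq' z hz] at h1
      simp at h1
    · intro x hx z hz h1
      simp only [List.singleton_append, List.head?_cons, Option.mem_def, Option.some.injEq] at hz
      rw [FreeGroup.toWord_inv, FreeGroup.invRev, List.getLast?_reverse, List.head?_map,
        Option.mem_def, Option.map_eq_some_iff] at hx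
      obtain ⟨v, hv, rfl⟩ := hx
      have := hp' v hv
      rw [← hz] at h1
      simp only at h1
      rw [this] at h1
      simp at h1
  rw [e1]
  unfold FreeGroup.norm
  rw [FreeGroup.toWord_mk, hred.reduce_eq, List.length_append, List.length_append]
  have : (A⁻¹).toWord.length = A.toWord.length := by
    rw [FreeGroup.toWord_inv, FreeGroup.invRev_length]
  rw [this, List.length_singleton]
  ring

end Pool.Agent.NH54.MG.W
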