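import Pool.Agent.NH54.MG.Wa

/-!
# MG-W: elements `k` with nontrivial position
-/

set_option autoImplicit false

open Set Filter Topology HNNExtension

namespace Pool.Agent.NH54.MG.W

theorem lamp_v (x : LA) (p : D) [Decidable (p = 1)] : (lamp x).v p = if p = 1 then x else 1 := by
  unfold lamp
  simp only
  congr

theorem lamp_v1 (x : LA) : (lamp x).v 1 = x := by
  classical
  rw [lamp_v]; simp

theorem lamp_vne (x : LA) {p : D} (hp : p ≠ 1) : (lamp x).v p = 1 := by
  classical
  rw [lamp_v, if_neg hp]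

theorem lamp_δ (x : LA) : (lamp x).δ = 1 := rfl

theorem lamp_one : lamp 1 = 1 := by
  classical
  apply K.ext
  · funext p
    rw [lamp_v, K.one_v]; simp
  · rfl

theorem lamp_mul (x z : LA) : lamp (x * z) = lamp x * lamp z := by
  classical
  apply K.ext
  · funext p
    rw [K.mul_v, lamp_v, lamp_v, lamp_v, lamp_δ, inv_one, one_mul]
    by_cases h : p = 1 <;> simp [h]
  · rw [K.mul_δ, lamp_δ, lamp_δ, lamp_δ, one_mul]

theorem lamp_inv (x : LA) : lamp x⁻¹ = (lamp x)⁻¹ := by
  rw [eq_inv_iff_mul_eq_one, ← lamp_mul, inv_mul_cancel, lamp_one]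

theorem wl_lamp_mk (h1 : S_WL) (h2 : S_GEN) (P : Par) (l : List (Bool × Bool)) :
    wl P.S (of (lamp (FreeGroup.mk l)) : P.G) ≤ l.length := by
  obtain ⟨-, -, hone, hinv, hmul, hS, -⟩ := h1 P.G P.S (h2 P).1
  have hlet : ∀ b : Bool, wl P.S (of (lamp (FreeGroup.of b)) : P.G) ≤ 1 := by
    intro b
    apply hS
    unfold Par.S
    cases b <;> simp
  induction l with
  | nil =>
    have : FreeGroup.mk ([] : List (Bool × Bool)) = 1 := rfl
    rw [this, lamp_one, map_one, hone]; simp
  | cons a l ih =>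
    have e : FreeGroup.mk (a :: l) = FreeGroup.mk [a] * FreeGroup.mk l := by
      rw [FreeGroup.mul_mk]; rfl
    rw [e, lamp_mul, map_mul]
    refine (hmul _ _).trans ?_
    have h3 : wl P.S (of (lamp (FreeGroup.mk [a])) : P.G) ≤ 1 := by
      obtain ⟨b, s⟩ := a
      cases s
      · have : FreeGroup.mk [(b, false)] = (FreeGroup.of b)⁻¹ := by
          rw [FreeGroup.of, FreeGroup.inv_mk]; rfl
        rw [this, lamp_inv, map_inv, hinv]
        exact hlet b
      · exact hlet b
    rw [List.length_cons]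
    omega

theorem wl_lamp (h1 : S_WL) (h2 : S_GEN) (P : Par) (z : LA) :
    wl P.S (of (lamp z) : P.G) ≤ FreeGroup.norm z := by
  have h := wl_lamp_mk h1 h2 P z.toWord
  rw [FreeGroup.mk_toWord] at h
  exact h

/-- the case of a nontrivial position -/
theorem main (h1 : S_WL) (h2 : S_GEN) (h3 : S_LAM) (h4 : S_LIP) (h5 : S_RAY) (P : Par) (k : K)
    (hk : k.δ ≠ 1) : ∃ (L : ℕ) (w : ℕ → P.G), w 0 = 1 ∧ w L = of k ∧
    (∀ i < L, wd P.S (w i) (w (i + 1)) ≤ 1) ∧
    (∀ i j : ℕ, i ≤ j → j ≤ L → (j - i : ℝ) ≤ 7000 * wd P.S (w i) (w j) + 7000) ∧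
    ∃ i ≤ L, 3 * (wl P.S (of k : P.G) + 2) ≤ wl P.S (w i) := by
  obtain ⟨hPM, -, hone, hinv, hmul, hS, hgeo, -⟩ := h1 P.G P.S (h2 P).1
  obtain ⟨hl1, hl2, hl3, hl4, hl5⟩ := h3 P
  set R : ℕ := wl P.S (of k : P.G) with hR
  obtain ⟨p, hp0, hpR, -, hpg⟩ := hgeo (of k)
  rw [← hR] at hpR hpg
  set d : D := k.δ with hd
  set N : ℕ := 8 * R + 100 with hN
  have hwl1 : ∀ g : P.G, wl P.S (g⁻¹ * g) = 0 := by intro g; rw [inv_mul_cancel, hone]
  -- Lipschitz
  have lip1 : ∀ g h : P.G, FreeGroup.norm ((lam P g 1)⁻¹ * lam P h 1) ≤ wl P.S (g⁻¹ * h) := by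
    intro g h
    have := h4 P 1 d (Ne.symm hk) g h
    omega
  have lipd : ∀ g h : P.G, FreeGroup.norm ((lam P g d)⁻¹ * lam P h d) ≤ wl P.S (g⁻¹ * h) := by
    intro g h
    have := h4 P 1 d (Ne.symm hk) g h
    omega
  have lam_one : ∀ q : D, lam P (1 : P.G) q = 1 := by
    intro q
    have := hl1 1 q
    rw [map_one] at this
    rw [this, K.one_v]
  -- the geodesic
  set π : ℕ → P.G := fun c => p (min c R) with hπ
  have hπs : ∀ c, wl P.S ((π c)⁻¹ * π (c + 1)) ≤ 1 := by
    intro c
    simp only [hπ]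
    rcases Nat.lt_or_ge c R with h | h
    · rw [min_eq_left h.le, min_eq_left (by omega), hpg c (c + 1) (by omega) (by omega)]; omega
    · rw [min_eq_right h, min_eq_right (by omega), hwl1]; omega
  have hπe : ∀ c ≤ R, π c = p c := by intro c hc; simp only [hπ, min_eq_left hc]
  set u : ℕ → LA := fun c => lam P (π c) 1 with hu
  set u' : ℕ → LA := fun c => lam P (π c) d with hu'
  have hu0 : u 0 = 1 := by simp only [hu]; rw [hπe 0 (by omega), hp0, lam_one]
  have hu'0 : u' 0 = 1 := by simp only [hu']; rw [hπe 0 (by omega), hp0, lam_one]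
  obtain ⟨ξ, hξ0, hξg, hξr⟩ := h5 N u hu0 (fun c => (lip1 _ _).trans (hπs c))
  obtain ⟨η, hη0, hηg, hηr⟩ := h5 N (fun c => (u' R)⁻¹ * u' (R - c)) (by simp) (by
    intro c
    have e : ((u' R)⁻¹ * u' (R - c))⁻¹ * ((u' R)⁻¹ * u' (R - (c + 1))) =
        (u' (R - c))⁻¹ * u' (R - (c + 1)) := by group
    rw [e]
    rcases Nat.lt_or_ge c R with h | h
    · have h6 : R - c = R - (c + 1) + 1 := by omega
      rw [h6, ← FreeGroup.norm_inv_eq, mul_inv_rev, inv_inv]
      exact (lipd _ _).trans (hπs _)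
    · rw [show R - c = 0 by omega, show R - (c + 1) = 0 by omega, inv_mul_cancel,
        FreeGroup.norm_one]
      omega)
  have hu'R : u' R = k.v d := by
    simp only [hu']; rw [hπe R le_rfl, hpR, hl1]
  have huR : u R = k.v 1 := by
    simp only [hu]; rw [hπe R le_rfl, hpR, hl1]
  -- norms of the rays
  have nξ : ∀ a ≤ N, FreeGroup.norm (ξ a) = a := by
    intro a ha
    have := hξg 0 a (by omega) ha
    rwa [hξ0, inv_one, one_mul, Nat.sub_zero] at this
  have nη : ∀ a ≤ N, FreeGroup.norm (η a) = a := by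
    intro a ha
    have := hηg 0 a (by omega) ha
    rwa [hη0, inv_one, one_mul, Nat.sub_zero] at this
  have hlast : ∀ z : LA, FreeGroup.norm z = N → ∃ e, z.toWord.getLast? = some e := by
    intro z hz
    rcases h : z.toWord.getLast? with _ | e
    · rw [List.getLast?_eq_none_iff] at h
      unfold FreeGroup.norm at hz
      rw [h] at hz
      simp at hz
    · exact ⟨e, rfl⟩
  obtain ⟨e, he⟩ := hlast (ξ N) (nξ N le_rfl)
  obtain ⟨e', he'⟩ := hlast (η N) (nη N le_rfl)
  set x : LA := FreeGroup.mk [(!e.1, true)] with hx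
  set x' : LA := FreeGroup.mk [(!e'.1, true)] with hx'
  have nx : FreeGroup.norm x ≤ 1 := FreeGroup.norm_mk_le
  have nx' : FreeGroup.norm x' ≤ 1 := FreeGroup.norm_mk_le
  set rA : LA := ξ N * x * (ξ N)⁻¹ with hrA
  set rB : LA := η N * x' * (η N)⁻¹ with hrB
  obtain ⟨H, hH⟩ : ∃ H : K, H = k * lamp rB * k⁻¹ := ⟨_, rfl⟩
  have hHδ : H.δ = 1 := by
    rw [hH, K.mul_δ, K.mul_δ, K.inv_δ, lamp_δ, mul_one, mul_inv_cancel]
  have hHv : ∀ q : D, H.v q = k.v q * (lamp rB).v (d⁻¹ * q) * (k.v q)⁻¹ := by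
    intro q
    rw [hH, K.mul_v, K.mul_v, K.inv_v, K.mul_δ, lamp_δ, mul_one, mul_inv_cancel_left]
  have hd1 : d⁻¹ * 1 ≠ 1 := by
    rw [mul_one]; exact inv_ne_one.2 hk
  have hHv1 : H.v 1 = 1 := by
    rw [hHv, lamp_vne _ hd1, mul_one, mul_inv_cancel]
  have hHvd : H.v d = k.v d * rB * (k.v d)⁻¹ := by
    rw [hHv, inv_mul_cancel, lamp_v1]
  have hcomm : H * lamp rA = lamp rA * H := by
    classical
    apply K.ext
    · funext q
      rw [K.mul_v, K.mul_v, hHδ, lamp_δ, inv_one, one_mul]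
      by_cases hq : q = 1
      · rw [hq, hHv1, one_mul, mul_one]
      · rw [lamp_vne _ hq, one_mul, mul_one]
    · rw [K.mul_δ, K.mul_δ, hHδ, lamp_δ]
  -- the copies
  set β : ℕ → K := fun q => if q = 1 then lamp rA else if q = 2 then H * lamp rA else
    if q = 3 then H else 1 with hβ
  have β0 : β 0 = 1 := by simp [hβ]
  have β1 : β 1 = lamp rA := by simp [hβ]
  have β2 : β 2 = H * lamp rA := by simp [hβ]
  have β3 : β 3 = H := by simp [hβ]
  have β4 : β 4 = 1 := by simp [hβ]
  have hβδ : ∀ q, (β q).δ = 1 := by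
    intro q
    simp only [hβ]
    split_ifs
    · exact lamp_δ _
    · rw [K.mul_δ, hHδ, lamp_δ, mul_one]
    · exact hHδ
    · rfl
  set Y : ℕ → P.G := fun s => if s ≤ N then of (lamp (ξ (N - s))) else
    if s ≤ N + R then p (s - N) else of (k * lamp (η (s - N - R))) with hY
  have Ylo : ∀ s ≤ N, Y s = of (lamp (ξ (N - s))) := by
    intro s hs; simp only [hY, if_pos hs]
  have Ymid : ∀ s, N ≤ s → s ≤ N + R → Y s = p (s - N) := by
    intro s hs hs'
    rcases eq_or_lt_of_le hs with h | h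
    · rw [← h, Ylo N le_rfl, Nat.sub_self, hξ0, lamp_one, map_one, hp0]
    · simp only [hY, if_neg (show ¬ s ≤ N by omega), if_pos hs']
  have Yhi : ∀ s, N + R ≤ s → Y s = of (k * lamp (η (s - N - R))) := by
    intro s hs
    rcases eq_or_lt_of_le hs with h | h
    · rw [← h, Ymid (N + R) (by omega) le_rfl, show N + R - N = R by omega,
        show R - R = 0 by omega, hη0, lamp_one, mul_one, hpR]
    · simp only [hY, if_neg (show ¬ s ≤ N by omega), if_neg (show ¬ s ≤ N + R by omega)]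
  -- lamps of the points of `Y`
  have c1lo : ∀ s ≤ N, lam P (Y s) 1 = ξ (N - s) := by
    intro s hs; rw [Ylo s hs, hl1, lamp_v1]
  have c1mid : ∀ s, N ≤ s → s ≤ N + R → lam P (Y s) 1 = u (s - N) := by
    intro s hs hs'
    rw [Ymid s hs hs']; simp only [hu]; rw [hπe _ (by omega)]
  have c1hi : ∀ s, N + R ≤ s → lam P (Y s) 1 = u R := by
    intro s hs
    rw [Yhi s hs, hl1, K.mul_v, lamp_vne _ hd1, mul_one, huR]
  have c2lo : ∀ s ≤ N + R, lam P (Y s) d = u' (s - N) := by
    intro s hs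
    rcases Nat.lt_or_ge s N with h | h
    · rw [Ylo s h.le, hl1, lamp_vne _ hk, show s - N = 0 by omega, hu'0]
    · rw [Ymid s h hs]; simp only [hu']; rw [hπe _ (by omega)]
  have c2hi : ∀ s, N + R ≤ s → lam P (Y s) d = u' R * η (s - N - R) := by
    intro s hs
    rw [Yhi s hs, hl1, K.mul_v, ← hd, inv_mul_cancel, lamp_v1, hu'R]
  -- the points
  set Z : ℕ → ℕ → P.G := fun q s => of (β q) * Y s with hZ
  have lamZ : ∀ q s (z : D), lam P (Z q s) z = (β q).v z * lam P (Y s) z := by
    intro q s z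
    simp only [hZ]
    rw [hl2, hβδ, inv_one, one_mul]
  have hZZ : ∀ q s s', (Z q s)⁻¹ * Z q s' = (Y s)⁻¹ * Y s' := by
    intro q s s'
    simp only [hZ]; group
  have hwdY : ∀ q s s', wd P.S (Z q s) (Z q s') = wl P.S ((Y s)⁻¹ * Y s') := by
    intro q s s'
    unfold wd; rw [hZZ]
  have lampdiff : ∀ a b : LA, (of (lamp a) : P.G)⁻¹ * of (lamp b) = of (lamp (a⁻¹ * b)) := by
    intro a b
    rw [lamp_mul, lamp_inv, map_mul, map_inv]
  have lampdiffk : ∀ a b : LA, (of (k * lamp a) : P.G)⁻¹ * of (k * lamp b) =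
      of (lamp (a⁻¹ * b)) := by
    intro a b
    rw [← lampdiff, map_mul, map_mul]; group
  have hwlY : ∀ s ≤ N, wl P.S (Y s) ≤ N - s := by
    intro s hs
    rw [Ylo s hs]
    have := wl_lamp h1 h2 P (ξ (N - s))
    rw [nξ (N - s) (by omega)] at this
    exact this
  have hwlp : ∀ c ≤ R, wl P.S (p c) = c := by
    intro c hc
    have := hpg 0 c (by omega) hc
    rwa [hp0, inv_one, one_mul, Nat.sub_zero] at this
  have hwlη : ∀ b ≤ N, wl P.S ((of k : P.G)⁻¹ * of (k * lamp (η b))) ≤ b := by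
    intro b hb
    have e : (of k : P.G)⁻¹ * of (k * lamp (η b)) = of (lamp (η b)) := by
      rw [map_mul]; group
    rw [e]
    have := wl_lamp h1 h2 P (η b)
    rw [nη b hb] at this
    exact this
  -- the functions `T`
  set T : ℕ → ℝ := fun s => (FreeGroup.norm ((ξ N)⁻¹ * lam P (Y s) 1) : ℝ) with hT
  set T' : ℕ → ℝ := fun s => (FreeGroup.norm ((η N)⁻¹ * ((u' R)⁻¹ * lam P (Y s) d)) : ℝ) with hT'
  have Ok1 : ∀ s ≤ 2 * N + R, Ok (ξ N) (lam P (Y s) 1) := by
    intro s hs
    have hu1 : ∀ c ≤ R, FreeGroup.norm (u c) < FreeGroup.norm (ξ N) := by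
      intro c hc
      have h6 := lip1 1 (p c)
      rw [lam_one, inv_one, one_mul, inv_one, one_mul, hwlp c hc] at h6
      rw [nξ N le_rfl]
      simp only [hu]
      rw [hπe c hc]
      omega
    rcases Nat.lt_or_ge s N with h | h
    · rw [c1lo s h.le]
      rcases Nat.eq_zero_or_pos s with h0 | h0
      · left; rw [h0, Nat.sub_zero]
      · right; rw [nξ _ (by omega), nξ _ le_rfl]; omega
    · rcases Nat.lt_or_ge s (N + R) with h' | h'
      · rw [c1mid s h h'.le]; right; exact hu1 _ (by omega)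
      · rw [c1hi s h']; right; exact hu1 _ le_rfl
  have Ok2 : ∀ s ≤ 2 * N + R, Ok (η N) ((u' R)⁻¹ * lam P (Y s) d) := by
    intro s hs
    rcases Nat.lt_or_ge s (N + R) with h | h
    · rw [c2lo s h.le]
      right
      have h6 := lipd (p R) (p (s - N))
      rw [← hπe R le_rfl, ← hπe (s - N) (by omega)] at h6
      have h7 : wl P.S ((π R)⁻¹ * π (s - N)) ≤ R := by
        rw [← hinv, mul_inv_rev, inv_inv, hπe R le_rfl, hπe (s - N) (by omega),
          hpg (s - N) R (by omega) le_rfl]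
        omega
      rw [nη N le_rfl]
      simp only [hu']
      omega
    · rw [c2hi s h, inv_mul_cancel_left]
      rcases eq_or_lt_of_le (show s - N - R ≤ N by omega) with h' | h'
      · left; rw [h']
      · right; rw [nη _ h'.le, nη _ le_rfl]; exact h'
  -- lamps of the copies
  have v0 : ∀ z, (β 0).v z = 1 := by intro z; rw [β0, K.one_v]
  have v4 : ∀ z, (β 4).v z = 1 := by intro z; rw [β4, K.one_v]
  have v11 : (β 1).v 1 = rA := by rw [β1, lamp_v1]
  have v1d : (β 1).v d = 1 := by rw [β1, lamp_vne _ hk]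
  have v21 : (β 2).v 1 = rA := by
    rw [β2, K.mul_v, hHδ, hHv1, inv_one, one_mul, one_mul, lamp_v1]
  have v2d : (β 2).v d = u' R * rB * (u' R)⁻¹ := by
    rw [β2, K.mul_v, hHδ, hHvd, inv_one, one_mul, lamp_vne _ hk, mul_one, hu'R]
  have v31 : (β 3).v 1 = 1 := by rw [β3, hHv1]
  have v3d : (β 3).v d = u' R * rB * (u' R)⁻¹ := by rw [β3, hHvd, hu'R]
  have sepA : ∀ q q' s s' : ℕ, s ≤ 2 * N + R → s' ≤ 2 * N + R →
      ((β q).v 1 = 1 ∧ (β q').v 1 = rA ∨ (β q).v 1 = rA ∧ (β q').v 1 = 1) →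
      T s + 1 + T s' ≤ wd P.S (Z q s) (Z q' s') := by
    intro q q' s s' hs hs' h
    have h6 := lip1 (Z q s) (Z q' s')
    rw [lamZ, lamZ] at h6
    have h7 := norm_three he (Ok1 s hs) (Ok1 s' hs') true
    have h8 := norm_three he (Ok1 s' hs') (Ok1 s hs) true
    rw [← hx, ← hrA] at h7 h8
    simp only [hT]
    unfold wd
    have h9 : FreeGroup.norm ((ξ N)⁻¹ * lam P (Y s) 1) + 1 +
        FreeGroup.norm ((ξ N)⁻¹ * lam P (Y s') 1) ≤ wl P.S ((Z q s)⁻¹ * Z q' s') := by
      rcases h with ⟨ha, hb⟩ | ⟨ha, hb⟩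
      · rw [ha, hb, one_mul] at h6
        omega
      · rw [ha, hb, one_mul] at h6
        rw [← FreeGroup.norm_inv_eq, mul_inv_rev, inv_inv] at h6
        omega
    exact_mod_cast h9
  have sepB : ∀ q q' s s' : ℕ, s ≤ 2 * N + R → s' ≤ 2 * N + R →
      ((β q).v d = 1 ∧ (β q').v d = u' R * rB * (u' R)⁻¹ ∨
        (β q).v d = u' R * rB * (u' R)⁻¹ ∧ (β q').v d = 1) →
      T' s + 1 + T' s' ≤ wd P.S (Z q s) (Z q' s') := by
    intro q q' s s' hs hs' h
    have h6 := lipd (Z q s) (Z q' s')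
    rw [lamZ, lamZ] at h6
    have h7 := norm_three he' (Ok2 s hs) (Ok2 s' hs') true
    have h8 := norm_three he' (Ok2 s' hs') (Ok2 s hs) true
    rw [← hx', ← hrB] at h7 h8
    simp only [hT']
    unfold wd
    have h9 : FreeGroup.norm ((η N)⁻¹ * ((u' R)⁻¹ * lam P (Y s) d)) + 1 +
        FreeGroup.norm ((η N)⁻¹ * ((u' R)⁻¹ * lam P (Y s') d)) ≤ wl P.S ((Z q s)⁻¹ * Z q' s') := by
      rcases h with ⟨ha, hb⟩ | ⟨ha, hb⟩
      · rw [ha, hb, one_mul] at h6
        have e9 : ((u' R)⁻¹ * lam P (Y s) d)⁻¹ * (rB * ((u' R)⁻¹ * lam P (Y s') d)) =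
            (lam P (Y s) d)⁻¹ * (u' R * rB * (u' R)⁻¹ * lam P (Y s') d) := by group
        rw [e9] at h7
        omega
      · rw [ha, hb, one_mul] at h6
        rw [← FreeGroup.norm_inv_eq, mul_inv_rev, inv_inv] at h6
        have e9 : ((u' R)⁻¹ * lam P (Y s') d)⁻¹ * (rB * ((u' R)⁻¹ * lam P (Y s) d)) =
            (lam P (Y s') d)⁻¹ * (u' R * rB * (u' R)⁻¹ * lam P (Y s) d) := by group
        rw [e9] at h8
        omega
    exact_mod_cast h9
  obtain ⟨L, w, hw0, hwL, hw1, hw2, hNL, hwN⟩ := zigzag (wd P.S) N R hN Z hPM.symm hPM.nn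
    (by
      -- steps
      intro q _ s hs
      rw [hwdY]
      have : wl P.S ((Y s)⁻¹ * Y (s + 1)) ≤ 1 := by
        rcases Nat.lt_or_ge s N with h | h
        · rw [Ylo s h.le, Ylo (s + 1) (by omega), lampdiff]
          refine (wl_lamp h1 h2 P _).trans ?_
          rw [← FreeGroup.norm_inv_eq, mul_inv_rev, inv_inv,
            hξg (N - (s + 1)) (N - s) (by omega) (by omega)]
          omega
        · rcases Nat.lt_or_ge s (N + R) with h' | h'
          · rw [Ymid s h h'.le, Ymid (s + 1) (by omega) (by omega),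
              hpg (s - N) (s + 1 - N) (by omega) (by omega)]
            omega
          · rw [Yhi s h', Yhi (s + 1) (by omega), lampdiffk]
            refine (wl_lamp h1 h2 P _).trans ?_
            rw [hηg (s - N - R) (s + 1 - N - R) (by omega) (by omega)]
            omega
      exact_mod_cast this)
    (by
      -- 0 1
      have e1 : (Z 0 0)⁻¹ * Z 1 0 = of (lamp x) := by
        simp only [hZ]
        rw [β0, β1, map_one, one_mul, Ylo 0 (by omega), Nat.sub_zero, ← map_mul, ← lamp_mul,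
          lampdiff, hrA]
        congr 2
        group
      unfold wd
      rw [e1]
      exact_mod_cast (wl_lamp h1 h2 P x).trans nx)
    (by
      -- 1 2
      have e1 : (Z 1 (2 * N + R))⁻¹ * Z 2 (2 * N + R) = of (lamp x') := by
        simp only [hZ]
        rw [β1, β2, Yhi (2 * N + R) (by omega), show 2 * N + R - N - R = N by omega, hcomm,
          ← map_mul, ← map_mul, ← map_inv, ← map_mul]
        have e2 : lamp x' = (lamp (η N))⁻¹ * lamp rB * lamp (η N) := by
          rw [← lamp_inv, ← lamp_mul, ← lamp_mul, hrB]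
          congr 1
          group
        rw [e2, hH]
        congr 1
        group
      unfold wd
      rw [e1]
      exact_mod_cast (wl_lamp h1 h2 P x').trans nx')
    (by
      -- 2 3
      have e1 : (Z 2 0)⁻¹ * Z 3 0 = of (lamp x⁻¹) := by
        simp only [hZ]
        rw [β2, β3, Ylo 0 (by omega), Nat.sub_zero, ← map_mul, ← map_mul, ← map_inv, ← map_mul]
        have e2 : lamp x⁻¹ = (lamp (ξ N))⁻¹ * (lamp rA)⁻¹ * lamp (ξ N) := by
          rw [← lamp_inv, ← lamp_inv, ← lamp_mul, ← lamp_mul, hrA]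
          congr 1
          group
        rw [e2]
        congr 1
        group
      unfold wd
      rw [e1]
      exact_mod_cast (wl_lamp h1 h2 P x⁻¹).trans (by rw [FreeGroup.norm_inv_eq]; exact nx))
    (by
      -- 3 4
      have e1 : (Z 3 (2 * N + R))⁻¹ * Z 4 (2 * N + R) = of (lamp x'⁻¹) := by
        simp only [hZ]
        rw [β3, β4, Yhi (2 * N + R) (by omega), show 2 * N + R - N - R = N by omega,
          ← map_mul, ← map_mul, ← map_inv, ← map_mul]
        have e2 : lamp x'⁻¹ = (lamp (η N))⁻¹ * (lamp rB)⁻¹ * lamp (η N) := by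
          rw [← lamp_inv, ← lamp_inv, ← lamp_mul, ← lamp_mul, hrB]
          congr 1
          group
        rw [e2, hH]
        congr 1
        group
      unfold wd
      rw [e1]
      exact_mod_cast (wl_lamp h1 h2 P x'⁻¹).trans (by rw [FreeGroup.norm_inv_eq]; exact nx'))
    (by intro s; simp only [hZ]; rw [β0, β4])
    (by
      -- same copy
      intro q _ s s' hss hs'
      rw [hwdY]
      set Δ : ℕ := wl P.S ((Y s)⁻¹ * Y s') with hΔ
      have hnat : s' ≤ s + 16 * Δ + 80 := by
        have l1 := lip1 (Y s) (Y s')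
        have l2 := lipd (Y s) (Y s')
        rw [← hΔ] at l1 l2
        have htri : wl P.S (Y s') ≤ wl P.S (Y s) + Δ := by
          have := hmul (Y s) ((Y s)⁻¹ * Y s')
          rwa [mul_inv_cancel_left] at this
        rcases Nat.lt_or_ge s N with h | h
        · rw [c1lo s h.le] at l1
          have hYs := hwlY s h.le
          rcases Nat.lt_or_ge s' N with h' | h'
          · rw [c1lo s' h'.le, ← FreeGroup.norm_inv_eq, mul_inv_rev, inv_inv,
              hξg (N - s') (N - s) (by omega) (by omega)] at l1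
            omega
          · rcases Nat.lt_or_ge s' (N + R) with h'' | h''
            · rw [c1mid s' h' h''.le] at l1
              have h6 := hξr (N - s) (by omega) (s' - N)
              rw [Ymid s' h' h''.le, hwlp _ (by omega)] at htri
              omega
            · rw [c1hi s' h''] at l1
              have h6 := hξr (N - s) (by omega) R
              rw [c2lo s (by omega), show s - N = 0 by omega, hu'0, c2hi s' h'', inv_one,
                one_mul] at l2
              have h7 := hηr (s' - N - R) (by omega) R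
              rw [Nat.sub_self, hu'0, mul_one, ← FreeGroup.norm_inv_eq, mul_inv_rev, inv_inv,
                inv_inv] at h7
              have h8 : R ≤ wl P.S (Y s') + (s' - N - R) := by
                have h9 := hmul (Y s') ((Y s')⁻¹ * of k)
                rw [mul_inv_cancel_left] at h9
                have h10 : wl P.S ((Y s')⁻¹ * of k) ≤ s' - N - R := by
                  rw [← hinv, mul_inv_rev, inv_inv, Yhi s' h'']
                  exact hwlη _ (by omega)
                omega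
              omega
        · rcases Nat.lt_or_ge s' (N + R) with h' | h'
          · have h6 : Δ = s' - s := by
              rw [hΔ, Ymid s h (by omega), Ymid s' (by omega) h'.le,
                hpg (s - N) (s' - N) (by omega) (by omega)]
              omega
            omega
          · rcases Nat.lt_or_ge s (N + R) with h'' | h''
            · rw [c2lo s h''.le, c2hi s' h'] at l2
              have h7 := hηr (s' - N - R) (by omega) (R - (s - N))
              rw [show R - (R - (s - N)) = s - N by omega] at h7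
              have e7 : (η (s' - N - R))⁻¹ * ((u' R)⁻¹ * u' (s - N)) =
                  ((u' (s - N))⁻¹ * (u' R * η (s' - N - R)))⁻¹ := by group
              rw [e7, FreeGroup.norm_inv_eq] at h7
              have h8 : R - (s - N) ≤ Δ + (s' - N - R) := by
                have h9 := hmul ((Y s)⁻¹ * Y s') ((Y s')⁻¹ * of k)
                rw [show (Y s)⁻¹ * Y s' * ((Y s')⁻¹ * of k) = (Y s)⁻¹ * of k by group] at h9
                have h10 : wl P.S ((Y s')⁻¹ * of k) ≤ s' - N - R := by
                  rw [← hinv, mul_inv_rev, inv_inv, Yhi s' h']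
                  exact hwlη _ (by omega)
                have h11 : wl P.S ((Y s)⁻¹ * of k) = R - (s - N) := by
                  rw [Ymid s h h''.le, ← hpR, hpg (s - N) R (by omega) le_rfl]
                omega
              omega
            · rw [c2hi s h'', c2hi s' h', show (u' R * η (s - N - R))⁻¹ * (u' R * η (s' - N - R)) =
                (η (s - N - R))⁻¹ * η (s' - N - R) by group,
                hηg (s - N - R) (s' - N - R) (by omega) (by omega)] at l2
              omega
      have : ((s' : ℕ) : ℝ) ≤ ((s + 16 * Δ + 80 : ℕ) : ℝ) := by exact_mod_cast hnat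
      push_cast at this
      linarith)
    T T' (fun s _ => Nat.cast_nonneg _) (fun s _ => Nat.cast_nonneg _)
    (by
      intro s hs
      simp only [hT]
      rw [c1lo s hs, ← FreeGroup.norm_inv_eq, mul_inv_rev, inv_inv,
        hξg (N - s) N (by omega) le_rfl]
      exact_mod_cast (by omega : s ≤ N - (N - s)))
    (by
      intro s hs hs'
      simp only [hT]
      have h6 : ∃ c ≤ R, lam P (Y s) 1 = u c := by
        rcases Nat.lt_or_ge s (N + R) with h | h
        · exact ⟨s - N, by omega, c1mid s hs h.le⟩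
        · exact ⟨R, le_rfl, c1hi s h⟩
      obtain ⟨c, hc, h6⟩ := h6
      rw [h6]
      have h7 := hξr N le_rfl c
      have h8 : N ≤ 2 * FreeGroup.norm ((ξ N)⁻¹ * u c) := by omega
      have h9 : (N : ℝ) ≤ 2 * (FreeGroup.norm ((ξ N)⁻¹ * u c) : ℝ) := by exact_mod_cast h8
      linarith)
    (by
      intro s hs hs'
      simp only [hT']
      rw [c2hi s hs, inv_mul_cancel_left, ← FreeGroup.norm_inv_eq, mul_inv_rev, inv_inv,
        hηg (s - N - R) N (by omega) le_rfl]
      have : 2 * N + R ≤ (N - (s - N - R)) + s := by omega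
      have : ((2 * N + R : ℕ) : ℝ) ≤ (((N - (s - N - R)) + s : ℕ) : ℝ) := by exact_mod_cast this
      push_cast at this
      push_cast
      linarith)
    (by
      intro s hs
      simp only [hT']
      rw [c2lo s hs]
      have h7 := hηr N le_rfl (R - (s - N))
      rw [show R - (R - (s - N)) = s - N by omega] at h7
      have h8 : N ≤ 2 * FreeGroup.norm ((η N)⁻¹ * ((u' R)⁻¹ * u' (s - N))) := by omega
      have h9 : (N : ℝ) ≤ 2 * (FreeGroup.norm ((η N)⁻¹ * ((u' R)⁻¹ * u' (s - N))) : ℝ) := by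
        exact_mod_cast h8
      linarith)
    (by
      intro q q' h s hs s' hs'
      apply sepA q q' s s' hs hs'
      rcases h with ⟨rfl, rfl⟩ | ⟨rfl, rfl⟩ | ⟨rfl, rfl⟩ | ⟨rfl, rfl⟩ | ⟨rfl, rfl⟩ | ⟨rfl, rfl⟩
      · exact Or.inl ⟨v0 1, v11⟩
      · exact Or.inl ⟨v0 1, v21⟩
      · exact Or.inr ⟨v11, v31⟩
      · exact Or.inr ⟨v11, v4 1⟩
      · exact Or.inr ⟨v21, v31⟩
      · exact Or.inr ⟨v21, v4 1⟩)
    (by
      intro q q' h s hs s' hs'
      apply sepB q q' s s' hs hs'
      rcases h with ⟨rfl, rfl⟩ | ⟨rfl, rfl⟩ | ⟨rfl, rfl⟩ | ⟨rfl, rfl⟩ | ⟨rfl, rfl⟩ | ⟨rfl, rfl⟩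
      · exact Or.inl ⟨v0 d, v2d⟩
      · exact Or.inl ⟨v0 d, v3d⟩
      · exact Or.inl ⟨v1d, v2d⟩
      · exact Or.inl ⟨v1d, v3d⟩
      · exact Or.inr ⟨v2d, v4 d⟩
      · exact Or.inr ⟨v3d, v4 d⟩)
  refine ⟨L, w, ?_, ?_, hw1, hw2, N, hNL, ?_⟩
  · rw [hw0]
    simp only [hZ]
    rw [β0, map_one, one_mul, Ymid N le_rfl (by omega), Nat.sub_self, hp0]
  · rw [hwL]
    simp only [hZ]
    rw [β0, map_one, one_mul, Ymid (N + R) (by omega) le_rfl, show N + R - N = R by omega, hpR]
  · rw [hwN]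
    simp only [hZ]
    rw [β0, map_one, one_mul]
    have h6 := lip1 1 (Y 0)
    rw [lam_one, inv_one, one_mul, inv_one, one_mul, c1lo 0 (by omega), Nat.sub_zero,
      nξ N le_rfl] at h6
    omega

end Pool.Agent.NH54.MG.W
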